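import Pool.Agent.H.MP_1611f1_gt.PA.Tube
import Pool.Agent.H.MP_1611f1_gt.TW.CU

/-!
The families, and the comparison of functions on the coverings (compare TW/CU.lean).
-/

namespace Pool.Agent.H.MP_1611f1_gt.PA

open Topology Set Filter
open Pool.Agent.H.MP_1611f1_gt.BR.U (Ci)
open Pool.Agent.H.MP_1611f1_gt.TW (cov tr plr rt Fam Cmp HasChart cov_loc cov_tr exists_tr plr_eq plr_add)

variable {M : Type} [TopologicalSpace M]

section

variable {N : Ci × Ci × Ci → M} (hN : IsOpenEmbedding (VX.domRestrict N))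

/-- the family of a function on the universal cover -/
noncomputable def famU (X : Set (ℝ × ℝ × ℝ)) (hX : IsOpen X) (D : ℝ × ℝ × ℝ → ℝ) : Fam M where
  Z := UX
  top := inferInstance
  R := fun z => N (cov z.1)
  loc := RU_loc hN
  X := {z | z.1 ∈ X}
  opn := hX.preimage continuous_subtype_val
  D := fun z => D z.1

/-- the family near the tube -/
noncomputable def famT (P : PPar) : Fam M where
  Z := ℝ × Ioo (1 : ℝ) 2 × ℝ
  top := inferInstance
  R := fun z => N (cov (plr z))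
  loc := RT_loc hN
  X := XT
  opn := XT_open
  D := P.TT

private theorem CUa_mapU {X X' : Set (ℝ × ℝ × ℝ)} {hX : IsOpen X} {hX' : IsOpen X'} {D D' : ℝ × ℝ × ℝ → ℝ}
    (h : ∀ z ∈ X, cov z ∈ VX → ∀ m n k : ℤ, tr m n k z ∈ X' →
      OrdEq z (fun w => D' (tr m n k w)) D) :
    ∀ z ∈ (famU hN X' hX' D').X, ∀ z' ∈ (famU hN X hX D).X, (famU hN X' hX' D').R z = (famU hN X hX D).R z' →
      ∃ σ : (famU hN X hX D).Z → (famU hN X' hX' D').Z, ContinuousAt σ z' ∧ σ z' = z ∧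
      (∀ᶠ w in 𝓝 z', (famU hN X' hX' D').R (σ w) = (famU hN X hX D).R w) ∧
      OrdEq z' (fun w => (famU hN X' hX' D').D (σ w)) (famU hN X hX D).D := by
  rintro ⟨z, hzV⟩ hz ⟨z', hzV'⟩ hz' hzz
  have h1 : cov z = cov z' := N_inj hN hzV hzV' hzz
  obtain ⟨m, n, k, hmnk⟩ := exists_tr h1
  have hσ : ∀ w : UX, cov (tr m n k w.1) ∈ VX := fun w => by
    rw [cov_tr]
    exact w.2
  have hc : Continuous fun w : UX => (⟨tr m n k w.1, hσ w⟩ : UX) :=
    ((TW.tr_cont m n k).comp continuous_subtype_val).subtype_mk _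
  refine ⟨fun w : UX => (⟨tr m n k w.1, hσ w⟩ : UX), hc.continuousAt, Subtype.ext hmnk.symm,
    Eventually.of_forall fun w => ?_, ?_⟩
  · show N (cov (tr m n k w.1)) = N (cov w.1)
    rw [cov_tr]
  · have hzX : z' ∈ X := hz'
    have hzX' : tr m n k z' ∈ X' := by
      rw [← hmnk]
      exact hz
    exact OrdEq.comp_cont (R := (Subtype.val : UX → ℝ × ℝ × ℝ)) (z₀ := (⟨z', hzV'⟩ : UX))
      continuous_subtype_val.continuousAt (h z' hzX hzV' m n k hzX')

private theorem CUa_mapT (P : PPar) {X : Set (ℝ × ℝ × ℝ)} {hX : IsOpen X} {D : ℝ × ℝ × ℝ → ℝ}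
    (h : ∀ z ∈ XT, ∀ m n k : ℤ, tr m n k (plr z) ∈ X →
      OrdEq z (fun w => D (tr m n k (plr w))) P.TT) :
    ∀ z ∈ (famU hN X hX D).X, ∀ z' ∈ (famT hN P).X, (famU hN X hX D).R z = (famT hN P).R z' →
      ∃ σ : (famT hN P).Z → (famU hN X hX D).Z, ContinuousAt σ z' ∧ σ z' = z ∧
      (∀ᶠ w in 𝓝 z', (famU hN X hX D).R (σ w) = (famT hN P).R w) ∧
      OrdEq z' (fun w => (famU hN X hX D).D (σ w)) (famT hN P).D := by
  rintro ⟨z, hzV⟩ hz z' hz' hzz
  have h1 : cov z = cov (plr z') := N_inj hN hzV (plr_VX z') hzz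
  obtain ⟨m, n, k, hmnk⟩ := exists_tr h1
  have hσ : ∀ w : ℝ × Ioo (1 : ℝ) 2 × ℝ, cov (tr m n k (plr w)) ∈ VX := fun w => by
    rw [cov_tr]
    exact plr_VX w
  have hc : Continuous fun w : ℝ × Ioo (1 : ℝ) 2 × ℝ => (⟨tr m n k (plr w), hσ w⟩ : UX) :=
    ((TW.tr_cont m n k).comp TW.plr_cont).subtype_mk _
  refine ⟨fun w => (⟨tr m n k (plr w), hσ w⟩ : UX), hc.continuousAt, Subtype.ext hmnk.symm,
    Eventually.of_forall fun w => ?_, ?_⟩
  · show N (cov (tr m n k (plr w))) = N (cov (plr w))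
    rw [cov_tr]
  · have hzX : tr m n k (plr z') ∈ X := by
      rw [← hmnk]
      exact hz
    exact h z' hz' m n k hzX

/-- PROOF: copy `TW.cmp_U`. -/
theorem cmp_U {X X' : Set (ℝ × ℝ × ℝ)} {hX : IsOpen X} {hX' : IsOpen X'} {D D' : ℝ × ℝ × ℝ → ℝ}
    (h : ∀ z ∈ X, cov z ∈ VX → ∀ m n k : ℤ, tr m n k z ∈ X' →
      OrdEq z (fun w => D' (tr m n k w)) D) :
    Cmp (famU hN X' hX' D') (famU hN X hX D) ∧ Cmp (famU hN X hX D) (famU hN X' hX' D') :=
  ⟨TW.cmp_of_map (CUa_mapU hN h), TW.cmp_of_map' (CUa_mapU hN h)⟩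

/-- PROOF: copy `TW.cmp_TU`. -/
theorem cmp_TU (P : PPar) {X : Set (ℝ × ℝ × ℝ)} {hX : IsOpen X} {D : ℝ × ℝ × ℝ → ℝ}
    (h : ∀ z ∈ XT, ∀ m n k : ℤ, tr m n k (plr z) ∈ X →
      OrdEq z (fun w => D (tr m n k (plr w))) P.TT) :
    Cmp (famU hN X hX D) (famT hN P) ∧ Cmp (famT hN P) (famU hN X hX D) :=
  ⟨TW.cmp_of_map (CUa_mapT hN P h), TW.cmp_of_map' (CUa_mapT hN P h)⟩

/-- PROOF: copy `TW.cmp_TT`. -/
theorem cmp_TT (P : PPar) : Cmp (famT hN P) (famT hN P) := by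
  refine TW.cmp_of_map ?_
  intro z hz z' hz' hzz
  have h1 : cov (plr z) = cov (plr z') := N_inj hN (plr_VX z) (plr_VX z') hzz
  obtain ⟨m, n, hmn⟩ := plr_eq h1
  have hc : Continuous fun w : ℝ × Ioo (1 : ℝ) 2 × ℝ => (w.1 + (m : ℝ), w.2.1, w.2.2 + (n : ℝ)) := by
    fun_prop
  refine ⟨fun w => (w.1 + (m : ℝ), w.2.1, w.2.2 + (n : ℝ)), hc.continuousAt, hmn.symm,
    Eventually.of_forall fun w => ?_, ?_⟩
  · show N (cov (plr (w.1 + (m : ℝ), w.2.1, w.2.2 + (n : ℝ)))) = N (cov (plr w))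
    have e : cov (plr (w.1 + (m : ℝ), w.2.1, w.2.2 + (n : ℝ))) = cov (plr w) := by
      rw [plr_add, cov_tr]
      rfl
    rw [e]
  · refine OrdEq.symm (OrdEq.of_comp (fun s => s + (m - P.μ * n)) (fun a b hab => by
      show a + _ < b + _
      linarith) (Eventually.of_forall fun w => ?_))
    exact P.TT_add w.1 w.2.2 w.2.1 m n

end

variable {A : Type} {B : Boxes M A} {P : A → PPar} {S : A → Str} {F₀ : LS.PreFol M}

/-- a chart of the old foliation, outside of the closed set `C` -/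
def famF (c : OpenPartialHomeomorph M ((ℝ × ℝ) × ℝ)) {C : Set M} (hC : IsClosed C) : Fam M where
  Z := M
  top := inferInstance
  R := fun y => y
  loc := (Homeomorph.refl M).isLocalHomeomorph
  X := c.source \ C
  opn := c.open_source.sdiff hC
  D := fun y => (c y).2

theorem cmp_FF (F₀ : LS.PreFol M) {C : Set M} (hC : IsClosed C)
    {c c' : OpenPartialHomeomorph M ((ℝ × ℝ) × ℝ)} (hc : c ∈ F₀.charts) (hc' : c' ∈ F₀.charts) :
    Cmp (famF c hC) (famF c' hC) := by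
  intro z hz z' hz' hzz f hf
  have hzz' : z = z' := hzz
  subst hzz'
  have h1 : OrdEq z (fun y => (c y).2) (fun y => (c' y).2) := F₀.compat c hc c' hc' z hz.1 hz'.1
  exact OrdEq.trans hf h1

/-- PROOF: as `TW.cmp_FU`: a point of `famF` over `N i (cov z)`; hypothesis `h`: near the points of `X` which are off all cores the old
foliation has the order of `D` -/
theorem cmp_FU {i : A} {c : OpenPartialHomeomorph M ((ℝ × ℝ) × ℝ)} {C : Set M} (hC : IsClosed C)
    {X : Set (ℝ × ℝ × ℝ)} {hX : IsOpen X} {D : ℝ × ℝ × ℝ → ℝ}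
    (h : ∀ z ∈ X, cov z ∈ VX → B.N i (cov z) ∉ C → B.N i (cov z) ∈ c.source →
      OrdEq z (fun w => (c (B.N i (cov w))).2) D) :
    Cmp (famF c hC) (famU (B.emb i) X hX D) ∧ Cmp (famU (B.emb i) X hX D) (famF c hC) := by
  have key : ∀ z : UX, z.1 ∈ X → B.N i (cov z.1) ∈ c.source \ C →
      OrdEq z (fun w : UX => (c (B.N i (cov w.1))).2) (fun w : UX => D w.1) := by
    intro z hz hc'
    exact OrdEq.comp_cont (R := (Subtype.val : UX → ℝ × ℝ × ℝ)) (z₀ := z)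
      continuous_subtype_val.continuousAt (h z.1 hz z.2 hc'.2 hc'.1)
  constructor
  · intro z hz z' hz' hzz f hf
    have hzz' : z = B.N i (cov z'.1) := hzz
    subst hzz'
    have h1 : OrdEq z' (fun w : UX => f (B.N i (cov w.1))) (fun w : UX => (c (B.N i (cov w.1))).2) :=
      OrdEq.comp_cont (R := fun w : UX => B.N i (cov w.1)) (z₀ := z')
        (RU_loc (B.emb i)).continuous.continuousAt hf
    exact h1.trans (key z' hz' hz)
  · intro z' hz' z hz hzz f hf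
    have hzz' : B.N i (cov z'.1) = z := hzz
    subst hzz'
    have h1 : OrdEq z' (fun w : UX => f (B.N i (cov w.1))) (fun w : UX => (c (B.N i (cov w.1))).2) :=
      OrdEq.trans hf (key z' hz' hz).symm
    exact OrdEq.of_openMap (R := fun w : UX => B.N i (cov w.1)) (RU_loc (B.emb i)).isOpenMap
      (z₀ := z') (f := f) (g := fun y => (c y).2) h1

/-- (there are no such points, `plr_CX`) -/
theorem cmp_FT {i : A} (Q : PPar) {C : Set M} (hC : IsClosed C) (hCi : B.N i '' CX ⊆ C)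
    (c : OpenPartialHomeomorph M ((ℝ × ℝ) × ℝ)) :
    Cmp (famF c hC) (famT (B.emb i) Q) ∧ Cmp (famT (B.emb i) Q) (famF c hC) := by
  constructor
  · intro z hz z' _ hzz
    have hzz' : z = B.N i (cov (plr z')) := hzz
    exact absurd (hCi ⟨_, plr_CX z', hzz'.symm⟩) hz.2
  · intro z' _ z hz hzz
    have hzz' : B.N i (cov (plr z')) = z := hzz
    exact absurd (hCi ⟨_, plr_CX z', hzz'⟩) hz.2

end Pool.Agent.H.MP_1611f1_gt.PA
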