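import Pool.Agent.H.MP_1611f1_gt.PA.CUa

/-!
The comparison of the families of different boxes.
-/

namespace Pool.Agent.H.MP_1611f1_gt.PA

open Topology Set Filter
open Pool.Agent.H.MP_1611f1_gt.BR.U (Ci)
open Pool.Agent.H.MP_1611f1_gt.TW (cov tr plr rt Fam Cmp HasChart cov_loc cov_tr exists_tr plr_eq plr_add)

variable {M : Type} [TopologicalSpace M] {A : Type} {B : Boxes M A} {P : A → PPar}
  {S : A → Str} {F₀ : LS.PreFol M}

/-- the comparison at one pair of points -/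
private def CUb_at (F G : Fam M) (z : F.Z) (z' : G.Z) : Prop :=
  ∃ σ : G.Z → F.Z, ContinuousAt σ z' ∧ σ z' = z ∧
    (∀ᶠ w in 𝓝 z', F.R (σ w) = G.R w) ∧ OrdEq z' (fun w => F.D (σ w)) G.D

private theorem CUb_fwd {F G : Fam M} {z : F.Z} {z' : G.Z} (h : CUb_at F G z z') (f : M → ℝ)
    (hf : OrdEq z (fun w => f (F.R w)) F.D) : OrdEq z' (fun w => f (G.R w)) G.D := by
  obtain ⟨σ, hσ, hσz, hσR, hD⟩ := h
  rw [← hσz] at hf
  have h1 := OrdEq.comp_cont hσ hf
  refine OrdEq.trans ?_ (OrdEq.trans h1 hD)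
  refine (OrdEq.refl z' _).congr ?_ (Eventually.of_forall fun _ => rfl)
  filter_upwards [hσR] with w hw
  show f (G.R w) = f (F.R (σ w))
  rw [hw]

private theorem CUb_bwd {F G : Fam M} {z : F.Z} {z' : G.Z} (h : CUb_at F G z z')
    (hzz : G.R z' = F.R z) (f : M → ℝ) (hf : OrdEq z' (fun w => f (G.R w)) G.D) :
    OrdEq z (fun w => f (F.R w)) F.D := by
  obtain ⟨σ, hσ, hσz, hσR, hD⟩ := h
  obtain ⟨e, he, heR⟩ := G.loc z'
  obtain ⟨e', he', heR'⟩ := F.loc z
  have hρ : ContinuousAt (fun w => e.symm (F.R w)) z := by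
    have h1 : F.R z ∈ e.target := by
      rw [← hzz, heR]
      exact e.map_source he
    exact (e.continuousAt_symm h1).comp F.loc.continuous.continuousAt
  have hρz : e.symm (F.R z) = z' := by
    rw [← hzz, heR]
    exact e.left_inv he
  have hmem : ∀ᶠ w in 𝓝 z, F.R w ∈ e.target := by
    refine F.loc.continuous.continuousAt.eventually_mem (e.open_target.mem_nhds ?_)
    rw [← hzz, heR]
    exact e.map_source he
  have h3 : Tendsto (fun w => e.symm (F.R w)) (𝓝 z) (𝓝 z') := by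
    have := hρ.tendsto
    rwa [hρz] at this
  have h2 : ∀ᶠ w in 𝓝 z, F.R (σ (e.symm (F.R w))) = G.R (e.symm (F.R w)) := h3.eventually hσR
  have h4 : Tendsto (fun w => σ (e.symm (F.R w))) (𝓝 z) (𝓝 z) := by
    have h5 := hσ.tendsto
    rw [hσz] at h5
    exact h5.comp h3
  have h6 : ∀ᶠ w in 𝓝 z, σ (e.symm (F.R w)) = w := by
    filter_upwards [h2, hmem, h4.eventually (e'.open_source.mem_nhds he'),
      e'.open_source.mem_nhds he'] with w hw1 hw2 hw3 hw4
    have h7 : G.R (e.symm (F.R w)) = F.R w := by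
      rw [heR]
      exact e.right_inv hw2
    have h8 : e' (σ (e.symm (F.R w))) = e' w := by
      rw [← heR', hw1, h7]
    exact e'.injOn hw3 hw4 h8
  have h9 : OrdEq z' (fun w => f (G.R w)) (fun w => F.D (σ w)) := hf.trans hD.symm
  rw [← hρz] at h9
  have h10 := OrdEq.comp_cont hρ h9
  refine h10.congr ?_ ?_
  · filter_upwards [hmem] with w hw
    show f (F.R w) = f (G.R (e.symm (F.R w)))
    rw [heR, e.right_inv hw]
  · filter_upwards [h6] with w hw
    show F.D w = F.D (σ (e.symm (F.R w)))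
    rw [hw]

/-- the point of a map of the coordinates -/
private theorem CUb_map {i j : A} {X X' : Set (ℝ × ℝ × ℝ)} {hX : IsOpen X} {hX' : IsOpen X'}
    {D D' : ℝ × ℝ × ℝ → ℝ} (g : ℝ × ℝ × ℝ → ℝ × ℝ × ℝ) (hg : Continuous g) {z z' : UX}
    (hz : g z.1 = z'.1) (hR : ∀ᶠ w in 𝓝 z.1, B.N j (cov (g w)) = B.N i (cov w))
    (hD : OrdEq z.1 (fun w => D' (g w)) D) :
    CUb_at (famU (B.emb j) X' hX' D') (famU (B.emb i) X hX D) z' z := by
  have hgz : cov (g z.1) ∈ VX := by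
    rw [hz]
    exact z'.2
  obtain ⟨σ, hσ⟩ : ∃ σ : UX → UX, ∀ w : UX, cov (g w.1) ∈ VX → (σ w).1 = g w.1 := by
    classical
    refine ⟨fun w => if h : cov (g w.1) ∈ VX then ⟨g w.1, h⟩ else z', fun w hw => ?_⟩
    simp only [dif_pos hw]
  have hev : ∀ᶠ w : UX in 𝓝 z, (σ w).1 = g w.1 := by
    have hc : Continuous fun w : UX => cov (g w.1) :=
      cov_loc.continuous.comp (hg.comp continuous_subtype_val)
    exact (hc.continuousAt.eventually_mem (VX_open.mem_nhds hgz)).mono fun w hw => hσ w hw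
  have hc : ContinuousAt σ z := by
    have h1 : ContinuousAt (fun w : UX => g w.1) z :=
      (hg.comp continuous_subtype_val).continuousAt
    have h2 : ContinuousAt (fun w : UX => (σ w).1) z := h1.congr (hev.mono fun w hw => hw.symm)
    exact Topology.IsInducing.subtypeVal.continuousAt_iff.2 h2
  have hR' : ∀ᶠ w : UX in 𝓝 z, B.N j (cov (σ w).1) = B.N i (cov w.1) := by
    have h1 : ∀ᶠ w : UX in 𝓝 z, B.N j (cov (g w.1)) = B.N i (cov w.1) :=
      continuous_subtype_val.continuousAt.eventually hR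
    filter_upwards [h1, hev] with w hw hw2
    rw [hw2]
    exact hw
  have hD' : OrdEq z (fun w : UX => D' (σ w).1) (fun w : UX => D w.1) := by
    have h1 : OrdEq z (fun w : UX => D' (g w.1)) (fun w : UX => D w.1) :=
      OrdEq.comp_cont (R := (Subtype.val : UX → ℝ × ℝ × ℝ)) (z₀ := z)
        continuous_subtype_val.continuousAt hD
    refine h1.congr ?_ (Eventually.of_forall fun _ => rfl)
    filter_upwards [hev] with w hw
    rw [hw]
  exact ⟨σ, hc, Subtype.ext ((hσ z hgz).trans hz), hR', hD'⟩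

/-- the glued half walls -/
private theorem CUb_glue (i : A) {z z' : UX} (hz : z.1 ∈ XN) (hz' : z'.1 ∈ XN) {a b t : ℝ}
    (ha : |a - 1 / 4| < 1 / 8) (hb : 3 / 8 < b) (hb' : b < 5 / 8) (h : cov z.1 = cov (a, b, t))
    (h' : cov z'.1 = cov (a + 1 / 2, 1 - b, B.c i - t)) :
    CUb_at (famU (B.emb (B.τ i)) XN XN_open ((P (B.τ i)).yn (S (B.τ i))))
      (famU (B.emb i) XN XN_open ((P i).yn (S i))) z' z := by
  obtain ⟨m, n, k, hm⟩ := exists_tr h
  obtain ⟨m', n', k', hm'⟩ := exists_tr h'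
  have hz1 : z.1 = (a + m, b + n, t + k) := hm
  have hz1' : z'.1 = (a + 1 / 2 + m', 1 - b + n', B.c i - t + k') := hm'
  have hn : n = 0 := by
    obtain ⟨-, g1, g2, -⟩ := hz
    rw [hz1] at g1 g2
    simp only at g1 g2
    have e1 : (-1 : ℝ) < n := by linarith
    have e2 : (n : ℝ) < 1 := by linarith
    have e1' : -1 < n := by exact_mod_cast e1
    have e2' : n < 1 := by exact_mod_cast e2
    omega
  have hn' : n' = 0 := by
    obtain ⟨-, g1, g2, -⟩ := hz'
    rw [hz1'] at g1 g2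
    simp only at g1 g2
    have e1 : (-1 : ℝ) < n' := by linarith
    have e2 : (n' : ℝ) < 1 := by linarith
    have e1' : -1 < n' := by exact_mod_cast e1
    have e2' : n' < 1 := by exact_mod_cast e2
    omega
  rw [hn, Int.cast_zero, add_zero] at hz1
  rw [hn', Int.cast_zero, add_zero] at hz1'
  obtain ⟨g, hg⟩ : ∃ g : ℝ × ℝ × ℝ → ℝ × ℝ × ℝ, g = fun w =>
      (w.1 + ((-m : ℤ) : ℝ) + 1 / 2 + m', 1 - w.2.1, B.c i - (w.2.2 + ((-k : ℤ) : ℝ)) + k') :=
    ⟨_, rfl⟩
  have hgc : Continuous g := by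
    rw [hg]
    fun_prop
  refine CUb_map (i := i) (j := B.τ i) g hgc ?_ ?_ ?_
  · rw [hg, hz1, hz1']
    simp only [Prod.mk.injEq]
    push_cast
    refine ⟨by ring, trivial, by ring⟩
  · have e1 : ∀ᶠ w : ℝ × ℝ × ℝ in 𝓝 z.1, |w.1 - m - 1 / 4| < 1 / 8 := by
      have hc : Continuous fun w : ℝ × ℝ × ℝ => |w.1 - m - 1 / 4| := by fun_prop
      refine hc.continuousAt.eventually_lt continuousAt_const ?_
      rw [hz1]
      show |a + m - m - 1 / 4| < 1 / 8
      rw [add_sub_cancel_right]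
      exact ha
    have e2 : ∀ᶠ w : ℝ × ℝ × ℝ in 𝓝 z.1, 3 / 8 < w.2.1 := by
      have hc : Continuous fun w : ℝ × ℝ × ℝ => w.2.1 := by fun_prop
      refine continuousAt_const.eventually_lt hc.continuousAt ?_
      rw [hz1]
      exact hb
    have e3 : ∀ᶠ w : ℝ × ℝ × ℝ in 𝓝 z.1, w.2.1 < 5 / 8 := by
      have hc : Continuous fun w : ℝ × ℝ × ℝ => w.2.1 := by fun_prop
      refine hc.continuousAt.eventually_lt continuousAt_const ?_
      rw [hz1]
      exact hb'
    filter_upwards [e1, e2, e3] with w h1 h2 h3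
    have h4 := B.glue i (w.1 - m) w.2.1 (w.2.2 - k) h1 h2 h3
    have h5 : cov w = cov (w.1 - m, w.2.1, w.2.2 - k) := by
      rw [← cov_tr m 0 k (w.1 - m, w.2.1, w.2.2 - k)]
      congr 1
      obtain ⟨w1, w2, w3⟩ := w
      simp [tr]
    have h6 : cov (g w) = cov (w.1 - m + 1 / 2, 1 - w.2.1, B.c i - (w.2.2 - k)) := by
      rw [← cov_tr m' 0 k' (w.1 - m + 1 / 2, 1 - w.2.1, B.c i - (w.2.2 - k)), hg]
      congr 1
      simp only [tr, Prod.mk.injEq]
      push_cast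
      refine ⟨by ring, by ring, by ring⟩
    rw [h5, h6]
    exact h4.symm
  · have h1 := yn_glue (P i) (P (B.τ i)) (S i) (S (B.τ i)) (z := (a, b, t)) ha hb hb' (B.c i) m' k'
    have h2 : ContinuousAt (tr (-m) 0 (-k)) z.1 := (TW.tr_cont _ _ _).continuousAt
    have h3 : tr (-m) 0 (-k) z.1 = (a, b, t) := by
      rw [hz1]
      simp [tr]
    rw [← h3] at h1
    have h4 := OrdEq.comp_cont h2 h1
    have h5 : OrdEq z.1 (fun w => (P i).yn (S i) (tr (-m) 0 (-k) w)) ((P i).yn (S i)) :=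
      (P i).yn_tr_ord (S i) (-m) (-k)
    refine OrdEq.trans (h4.congr (Eventually.of_forall fun w => ?_)
      (Eventually.of_forall fun _ => rfl)) h5
    show (P (B.τ i)).yn (S (B.τ i)) (g w) = (P (B.τ i)).yn (S (B.τ i))
      ((tr (-m) 0 (-k) w).1 + 1 / 2 + m', 1 - (tr (-m) 0 (-k) w).2.1,
        B.c i - (tr (-m) 0 (-k) w).2.2 + k')
    rw [hg]
    simp [tr]

private theorem CUb_pair {i j : A} {z z' : UX} (hz : z.1 ∈ XN) (hz' : z'.1 ∈ XN)
    (h : B.N i (cov z.1) = B.N j (cov z'.1)) :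
    CUb_at (famU (B.emb i) XN XN_open ((P i).yn (S i)))
        (famU (B.emb j) XN XN_open ((P j).yn (S j))) z z' ∨
      CUb_at (famU (B.emb j) XN XN_open ((P j).yn (S j)))
        (famU (B.emb i) XN XN_open ((P i).yn (S i))) z' z := by
  rcases B.sep i j _ _ z.2 z'.2 h with ⟨hij, h1⟩ | ⟨hij, a, b, t, ha, hb, hb', h1, h2⟩ |
    ⟨hij, a, b, t, ha, hb, hb', h1, h2⟩
  · subst hij
    left
    obtain ⟨m, n, k, hm⟩ := exists_tr h1
    have hn : n = 0 := by
      have g1 := hz.2.1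
      have g2 := hz.2.2.1
      have g3 := hz'.2.1
      have g4 := hz'.2.2.1
      rw [hm] at g1 g2
      simp only [tr] at g1 g2
      have e1 : (-1 : ℝ) < n := by linarith
      have e2 : (n : ℝ) < 1 := by linarith
      have e1' : -1 < n := by exact_mod_cast e1
      have e2' : n < 1 := by exact_mod_cast e2
      omega
    rw [hn] at hm
    refine CUb_map (i := i) (j := i) (tr m 0 k) (TW.tr_cont _ _ _) hm.symm
      (Eventually.of_forall fun w => by rw [cov_tr]) ((P i).yn_tr_ord (S i) m k)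
  · subst hij
    right
    exact CUb_glue i hz hz' ha hb hb' h1 h2
  · subst hij
    left
    exact CUb_glue j hz' hz ha hb hb' h1 h2

private theorem CUb_NN (i j : A) :
    Cmp (famU (B.emb i) XN XN_open ((P i).yn (S i)))
      (famU (B.emb j) XN XN_open ((P j).yn (S j))) := by
  intro z hz z' hz' hzz f hf
  rcases CUb_pair (P := P) (S := S) hz hz' hzz with h | h
  · exact CUb_fwd h f hf
  · exact CUb_bwd h hzz f hf

private theorem CUb_no {w v : ℝ × ℝ × ℝ} (h1 : -1 / 4 < w.2.1) (h2 : w.2.1 < 3 / 16)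
    (h3 : 3 / 8 < v.2.1) (h4 : v.2.1 < 5 / 8) : cov w ≠ cov v := by
  intro h
  obtain ⟨m, n, k, hm⟩ := exists_tr h
  rw [hm] at h1 h2
  simp only [tr] at h1 h2
  have e1 : (-1 : ℝ) < n := by linarith
  have e2 : (n : ℝ) < 0 := by linarith
  have e1' : -1 < n := by exact_mod_cast e1
  have e2' : n < 0 := by exact_mod_cast e2
  omega

private theorem CUb_sep {i j : A} (hij : i ≠ j) {z : Ci × Ci × Ci} {w : ℝ × ℝ × ℝ} (hz : z ∈ VX)
    (hw : cov w ∈ VX) (h1 : -1 / 4 < w.2.1) (h2 : w.2.1 < 3 / 16) :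
    B.N i z ≠ B.N j (cov w) := by
  intro h
  rcases B.sep i j _ _ hz hw h with ⟨h3, -⟩ | ⟨-, a, b, t, -, hb, hb', -, h4⟩ |
    ⟨-, a, b, t, -, hb, hb', h4, -⟩
  · exact hij h3
  · refine CUb_no (v := (a + 1 / 2, 1 - b, B.c i - t)) h1 h2 ?_ ?_ h4
    · show 3 / 8 < 1 - b
      linarith
    · show 1 - b < 5 / 8
      linarith
  · exact CUb_no (v := (a, b, t)) h1 h2 hb hb' h4

private theorem CUb_plr (z : ℝ × Ioo (1 : ℝ) 2 × ℝ) :
    -1 / 4 < (plr z).2.1 ∧ (plr z).2.1 < 3 / 16 := by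
  have h1 : (1 : ℝ) < z.2.1 := z.2.1.2.1
  have h2 : (z.2.1 : ℝ) < 2 := z.2.1.2.2
  have h3 : |(z.2.1 : ℝ) * Real.cos (2 * Real.pi * z.2.2)| ≤ 2 * 1 := by
    rw [abs_mul]
    refine mul_le_mul ?_ (Real.abs_cos_le_one _) (abs_nonneg _) (by norm_num)
    rw [abs_of_pos (by linarith)]
    exact h2.le
  rw [abs_le] at h3
  have h4 : (plr z).2.1 = (z.2.1 : ℝ) * Real.cos (2 * Real.pi * z.2.2) / 16 := rfl
  rw [h4]
  constructor <;> linarith [h3.1, h3.2]

/-- DIFFERENT BOXES. All common points of the images of the domains `X` of the box `i` and `X'` of the box `j` are in the glued half walls: then only `XN` is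
concerned. PROOF for `XN`, `XN`: `B.sep`, and in the two glued cases `cmp_of_map` with `σ (a, b, t) = (a + 1/2 + m, 1 - b, c - t + n)`, `yn_glue`, resp. `cmp_of_map'`. -/
theorem cmp_NN {i j : A} (hij : i ≠ j) :
    Cmp (famU (B.emb i) XN XN_open ((P i).yn (S i))) (famU (B.emb j) XN XN_open ((P j).yn (S j))) := by
  exact CUb_NN i j

/-- the same for `i = j` (translations; and the half walls of one box may be glued to each other) -/
theorem cmp_NN_self (i : A) :
    Cmp (famU (B.emb i) XN XN_open ((P i).yn (S i))) (famU (B.emb i) XN XN_open ((P i).yn (S i))) := by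
  exact CUb_NN i i

/-- no common points. PROOF: `B.sep`; the glued zones have `3/8 < b < 5/8` (mod `1`), and `X'` is in `-1/4 < b < 3/16`. -/
theorem cmp_disj {i j : A} (hij : i ≠ j) {X X' : Set (ℝ × ℝ × ℝ)} {hX : IsOpen X} {hX' : IsOpen X'}
    {D D' : ℝ × ℝ × ℝ → ℝ} (h : ∀ z ∈ X', -1 / 4 < z.2.1 ∧ z.2.1 < 3 / 16) :
    Cmp (famU (B.emb i) X hX D) (famU (B.emb j) X' hX' D') ∧
      Cmp (famU (B.emb j) X' hX' D') (famU (B.emb i) X hX D) := by
  refine ⟨fun z hz z' hz' hzz => ?_, fun z hz z' hz' hzz => ?_⟩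
  · exact absurd hzz (CUb_sep hij z.2 z'.2 (h _ hz').1 (h _ hz').2)
  · exact absurd hzz.symm (CUb_sep hij z'.2 z.2 (h _ hz).1 (h _ hz).2)

theorem cmp_disjT {i j : A} (hij : i ≠ j) (Q : PPar) {X : Set (ℝ × ℝ × ℝ)} {hX : IsOpen X}
    {D : ℝ × ℝ × ℝ → ℝ} :
    Cmp (famU (B.emb i) X hX D) (famT (B.emb j) Q) ∧
      Cmp (famT (B.emb j) Q) (famU (B.emb i) X hX D) := by
  refine ⟨fun z hz z' hz' hzz => ?_, fun z hz z' hz' hzz => ?_⟩
  · exact absurd hzz (CUb_sep hij z.2 (plr_VX z') (CUb_plr z').1 (CUb_plr z').2)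
  · exact absurd hzz.symm (CUb_sep hij z'.2 (plr_VX z) (CUb_plr z).1 (CUb_plr z).2)

theorem cmp_disjTT {i j : A} (hij : i ≠ j) (Q Q' : PPar) :
    Cmp (famT (B.emb i) Q) (famT (B.emb j) Q') := by
  intro z hz z' hz' hzz
  exact absurd hzz (CUb_sep hij (plr_VX z) (plr_VX z') (CUb_plr z').1 (CUb_plr z').2)

end Pool.Agent.H.MP_1611f1_gt.PA
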