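import Pool.Agent.H.MP_1611f1_gt.PA.CU
import Pool.Agent.H.MP_1611f1_gt.TW.Cha

/-!
Charts for the families (compare TW/Cha.lean).
-/

namespace Pool.Agent.H.MP_1611f1_gt.PA

open Topology Set Filter
open Pool.Agent.H.MP_1611f1_gt.BR.U (Ci)
open Pool.Agent.H.MP_1611f1_gt.TW (cov tr plr rt Fam Cmp HasChart cov_loc cov_tr exists_tr)

variable {M : Type} [TopologicalSpace M] {N : Ci × Ci × Ci → M}
  (hN : IsOpenEmbedding (VX.domRestrict N))

/-- PROOF: as `TW.exists_zeta_U`; the third one has the last coordinate `-t`. -/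
theorem exists_zeta_U : ∃ ζ ζ' ζ'' : OpenPartialHomeomorph UX ((ℝ × ℝ) × ℝ),
    ζ.source = univ ∧ (∀ z, ζ z = ((z.1.2.1, z.1.2.2), z.1.1)) ∧
    ζ'.source = univ ∧ (∀ z, ζ' z = ((z.1.1, z.1.2.1), z.1.2.2)) ∧
    ζ''.source = univ ∧ ∀ z, ζ'' z = ((z.1.1, z.1.2.1), -z.1.2.2) := by
  obtain ⟨ζ, ζ', h1, h2, h3, h4⟩ := TW.exists_zeta_3
  let H : ℝ × ℝ × ℝ ≃ₜ (ℝ × ℝ) × ℝ :=
    { toFun := fun q => ((q.1, q.2.1), -q.2.2)
      invFun := fun q => (q.1.1, (q.1.2, -q.2))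
      left_inv := fun q => by
        show (q.1, (q.2.1, - -q.2.2)) = q
        rw [neg_neg]
      right_inv := fun q => by
        show ((q.1.1, q.1.2), - -q.2) = q
        rw [neg_neg]
      continuous_toFun := by fun_prop
      continuous_invFun := by fun_prop }
  have ho : IsOpen {z : ℝ × ℝ × ℝ | cov z ∈ VX} := VX_open.preimage cov_loc.continuous
  have hemb : IsOpenEmbedding (Subtype.val : UX → ℝ × ℝ × ℝ) := ho.isOpenEmbedding_subtypeVal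
  have hmem : cov ((0 : ℝ), (0 : ℝ), (0 : ℝ)) ∈ VX := by
    refine Or.inl ?_
    show ‖((0 : ℝ) : Ci)‖ < 1 / 4
    have h0 : ((0 : ℝ) : Ci) = 0 := rfl
    rw [h0, norm_zero]
    norm_num
  have hne : Nonempty UX := ⟨⟨_, hmem⟩⟩
  refine ⟨(hemb.toOpenPartialHomeomorph _).trans ζ, (hemb.toOpenPartialHomeomorph _).trans ζ',
    (hemb.toOpenPartialHomeomorph _).trans H.toOpenPartialHomeomorph,
    ?_, fun z => ?_, ?_, fun z => ?_, ?_, fun z => ?_⟩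
  · rw [OpenPartialHomeomorph.trans_source, h1]
    simp
  · exact h2 z.1
  · rw [OpenPartialHomeomorph.trans_source, h3]
    simp
  · exact h4 z.1
  · rw [OpenPartialHomeomorph.trans_source]
    simp
  · rfl

/-- strictly increasing in `a`. PROOF: `TW.hasChart_of_mono` with the set `{w : UX | w.1 ∈ V}`. -/
theorem hasChart_a {X V : Set (ℝ × ℝ × ℝ)} {hX : IsOpen X} {D : ℝ × ℝ × ℝ → ℝ} {z : UX}
    (hz : z.1 ∈ X) (hV : IsOpen V) (hzV : z.1 ∈ V) (hD : ContinuousOn D V)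
    (hm : ∀ a a' b t : ℝ, (a, b, t) ∈ V → (a', b, t) ∈ V → a < a' → D (a, b, t) < D (a', b, t)) :
    HasChart (famU hN X hX D) z := by
  obtain ⟨ζ, ζ', ζ'', h1, h2, h3, h4, h5, h6⟩ := exists_zeta_U
  have key : ∀ w w' : UX, w.1 ∈ V → w'.1 ∈ V → (ζ w).1 = (ζ w').1 → (ζ w).2 < (ζ w').2 →
      D w.1 < D w'.1 := by
    intro w w' hw hw' he hlt
    rw [h2, h2] at he hlt
    obtain ⟨⟨a, b, t⟩, hwV⟩ := w
    obtain ⟨⟨a', b', t'⟩, hwV'⟩ := w'
    simp only [Prod.mk.injEq] at he hlt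
    obtain ⟨rfl, rfl⟩ := he
    exact hm _ _ _ _ hw hw' hlt
  refine TW.hasChart_of_mono (famU hN X hX D) hz ζ (by rw [h1]; exact mem_univ _)
    (N := {w : UX | w.1 ∈ V}) (hV.preimage continuous_subtype_val) hzV
    (hD.comp continuous_subtype_val.continuousOn fun w hw => hw) ?_
  intro w hw w' hw' _ _ he hlt
  exact key w w' hw hw' he hlt

/-- strictly increasing in `t` -/
theorem hasChart_t {X V : Set (ℝ × ℝ × ℝ)} {hX : IsOpen X} {D : ℝ × ℝ × ℝ → ℝ} {z : UX}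
    (hz : z.1 ∈ X) (hV : IsOpen V) (hzV : z.1 ∈ V) (hD : ContinuousOn D V)
    (hm : ∀ a b t t' : ℝ, (a, b, t) ∈ V → (a, b, t') ∈ V → t < t' → D (a, b, t) < D (a, b, t')) :
    HasChart (famU hN X hX D) z := by
  obtain ⟨ζ, ζ', ζ'', h1, h2, h3, h4, h5, h6⟩ := exists_zeta_U
  have key : ∀ w w' : UX, w.1 ∈ V → w'.1 ∈ V → (ζ' w).1 = (ζ' w').1 → (ζ' w).2 < (ζ' w').2 →
      D w.1 < D w'.1 := by
    intro w w' hw hw' he hlt
    rw [h4, h4] at he hlt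
    obtain ⟨⟨a, b, t⟩, hwV⟩ := w
    obtain ⟨⟨a', b', t'⟩, hwV'⟩ := w'
    simp only [Prod.mk.injEq] at he hlt
    obtain ⟨rfl, rfl⟩ := he
    exact hm _ _ _ _ hw hw' hlt
  refine TW.hasChart_of_mono (famU hN X hX D) hz ζ' (by rw [h3]; exact mem_univ _)
    (N := {w : UX | w.1 ∈ V}) (hV.preimage continuous_subtype_val) hzV
    (hD.comp continuous_subtype_val.continuousOn fun w hw => hw) ?_
  intro w hw w' hw' _ _ he hlt
  exact key w w' hw hw' he hlt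

/-- strictly decreasing in `t` -/
theorem hasChart_t' {X V : Set (ℝ × ℝ × ℝ)} {hX : IsOpen X} {D : ℝ × ℝ × ℝ → ℝ} {z : UX}
    (hz : z.1 ∈ X) (hV : IsOpen V) (hzV : z.1 ∈ V) (hD : ContinuousOn D V)
    (hm : ∀ a b t t' : ℝ, (a, b, t) ∈ V → (a, b, t') ∈ V → t < t' → D (a, b, t') < D (a, b, t)) :
    HasChart (famU hN X hX D) z := by
  obtain ⟨ζ, ζ', ζ'', h1, h2, h3, h4, h5, h6⟩ := exists_zeta_U
  have key : ∀ w w' : UX, w.1 ∈ V → w'.1 ∈ V → (ζ'' w).1 = (ζ'' w').1 →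
      (ζ'' w).2 < (ζ'' w').2 → D w.1 < D w'.1 := by
    intro w w' hw hw' he hlt
    rw [h6, h6] at he hlt
    obtain ⟨⟨a, b, t⟩, hwV⟩ := w
    obtain ⟨⟨a', b', t'⟩, hwV'⟩ := w'
    simp only [Prod.mk.injEq] at he hlt
    obtain ⟨rfl, rfl⟩ := he
    exact hm _ _ _ _ hw' hw (neg_lt_neg_iff.1 hlt)
  refine TW.hasChart_of_mono (famU hN X hX D) hz ζ'' (by rw [h5]; exact mem_univ _)
    (N := {w : UX | w.1 ∈ V}) (hV.preimage continuous_subtype_val) hzV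
    (hD.comp continuous_subtype_val.continuousOn fun w hw => hw) ?_
  intro w hw w' hw' _ _ he hlt
  exact key w w' hw hw' he hlt

private theorem Ch_not_P {a : ℝ} {n : ℤ} (h : |a - (n / 2 + 1 / 4)| < 1 / 16) (m : ℤ) :
    ¬ |a - m| ≤ 3 / 16 := by
  intro h2
  rw [abs_lt] at h
  rw [abs_le] at h2
  have h3 : (4 * m - 2 * n - 1 : ℝ) < 1 := by linarith [h.1, h.2, h2.1, h2.2]
  have h4 : (-1 : ℝ) < 4 * m - 2 * n - 1 := by linarith [h.1, h.2, h2.1, h2.2]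
  have h5 : 4 * m - 2 * n - 1 < 1 := by exact_mod_cast h3
  have h6 : -1 < 4 * m - 2 * n - 1 := by exact_mod_cast h4
  omega

private theorem Ch_not_Q {a : ℝ} {n : ℤ} (h : |a - (n / 2 + 1 / 4)| < 1 / 16) (m : ℤ) :
    ¬ |a - (m + 1 / 2)| ≤ 3 / 16 := by
  intro h2
  rw [abs_lt] at h
  rw [abs_le] at h2
  have h3 : (4 * m - 2 * n + 1 : ℝ) < 1 := by linarith [h.1, h.2, h2.1, h2.2]
  have h4 : (-1 : ℝ) < 4 * m - 2 * n + 1 := by linarith [h.1, h.2, h2.1, h2.2]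
  have h5 : 4 * m - 2 * n + 1 < 1 := by exact_mod_cast h3
  have h6 : -1 < 4 * m - 2 * n + 1 := by exact_mod_cast h4
  omega

private theorem Ch_strict {a : ℝ} {n : ℤ} (h1 : ¬ ∃ n : ℤ, |a - n| ≤ 3 / 16)
    (h2 : ¬ ∃ n : ℤ, |a - (n + 1 / 2)| ≤ 3 / 16) (h : |a - (n / 2 + 1 / 4)| ≤ 1 / 16) :
    |a - (n / 2 + 1 / 4)| < 1 / 16 := by
  refine lt_of_le_of_ne h fun he => ?_
  rcases Int.even_or_odd' n with ⟨k, hk | hk⟩
  · have hk' : (n : ℝ) = 2 * k := by exact_mod_cast hk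
    rcases (abs_eq (by norm_num : (0 : ℝ) ≤ 1 / 16)).1 he with e | e
    · refine h2 ⟨k, ?_⟩
      rw [abs_le]
      constructor <;> linarith
    · refine h1 ⟨k, ?_⟩
      rw [abs_le]
      constructor <;> linarith
  · have hk' : (n : ℝ) = 2 * k + 1 := by exact_mod_cast hk
    rcases (abs_eq (by norm_num : (0 : ℝ) ≤ 1 / 16)).1 he with e | e
    · refine h1 ⟨k + 1, ?_⟩
      push_cast
      rw [abs_le]
      constructor <;> linarith
    · refine h2 ⟨k, ?_⟩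
      rw [abs_le]
      constructor <;> linarith

private theorem Ch_wl {a : ℝ} {n : ℤ} (h : |a - (n / 2 + 1 / 4)| < 1 / 16) :
    wl a = decide (n % 2 = 1) := by
  rw [abs_lt] at h
  unfold wl
  rcases Int.even_or_odd' n with ⟨k, hk | hk⟩
  · have hk' : (n : ℝ) = 2 * k := by exact_mod_cast hk
    have hf : Int.fract a = a - k := by
      rw [Int.fract_eq_iff]
      refine ⟨by linarith [h.1], by linarith [h.2], k, by ring⟩
    have e1 : ¬ (1 / 2 ≤ Int.fract a) := by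
      rw [hf]
      linarith [h.2]
    have e2 : ¬ (n % 2 = 1) := by omega
    rw [decide_eq_false e1, decide_eq_false e2]
  · have hk' : (n : ℝ) = 2 * k + 1 := by exact_mod_cast hk
    have hf : Int.fract a = a - k := by
      rw [Int.fract_eq_iff]
      refine ⟨by linarith [h.1], by linarith [h.2], k, by ring⟩
    have e1 : 1 / 2 ≤ Int.fract a := by
      rw [hf]
      linarith [h.1]
    have e2 : n % 2 = 1 := by omega
    rw [decide_eq_true e1, decide_eq_true e2]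

private theorem Ch_open_a (c r : ℝ) : IsOpen {w : ℝ × ℝ × ℝ | |w.1 - c| < r} :=
  isOpen_lt (by fun_prop) continuous_const

private theorem Ch_open_b (r r' : ℝ) : IsOpen {w : ℝ × ℝ × ℝ | r < w.2.1 ∧ w.2.1 < r'} :=
  (isOpen_lt (f := fun _ : ℝ × ℝ × ℝ => r) (g := fun w => w.2.1) continuous_const
    (by fun_prop)).inter
    (isOpen_lt (f := fun w : ℝ × ℝ × ℝ => w.2.1) (g := fun _ => r') (by fun_prop)
      continuous_const)

private theorem Ch_open_t (r r' : ℝ) : IsOpen {w : ℝ × ℝ × ℝ | r < w.2.2 ∧ w.2.2 < r'} :=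
  (isOpen_lt (f := fun _ : ℝ × ℝ × ℝ => r) (g := fun w => w.2.2) continuous_const
    (by fun_prop)).inter
    (isOpen_lt (f := fun w : ℝ × ℝ × ℝ => w.2.2) (g := fun _ => r') (by fun_prop)
      continuous_const)

private theorem Ch_open_bb (r : ℝ) : IsOpen {w : ℝ × ℝ × ℝ | |w.2.1| < r} :=
  isOpen_lt (f := fun w : ℝ × ℝ × ℝ => |w.2.1|) (g := fun _ => r) (by fun_prop) continuous_const

private theorem Ch_open_b' (r : ℝ) : IsOpen {w : ℝ × ℝ × ℝ | r < w.2.1} :=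
  isOpen_lt (f := fun _ : ℝ × ℝ × ℝ => r) (g := fun w => w.2.1) continuous_const (by fun_prop)

private theorem Ch_open_n (r : ℝ) : IsOpen {w : ℝ × ℝ × ℝ | r < ‖((w.1 : ℝ) : Ci)‖} :=
  isOpen_lt (f := fun _ : ℝ × ℝ × ℝ => r) (g := fun w => ‖((w.1 : ℝ) : Ci)‖) continuous_const
    ((AddCircle.continuous_mk' 1).comp continuous_fst).norm

/-- PROOF: `V = CN ∩ ..`; `a_cases`. (1) `|a - n| ≤ 3/16`: `hasChart_t`, `|w.1 - n| < 13/64`, `yv_lt_t`, `act_mono`. (2) `|a - (n + 1/2)| ≤ 3/16`: `hasChart_t'`, `yv_gt_t`.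
(3) otherwise `|a - (n/2 + 1/4)| < 1/16`: `hasChart_a` with this open set, where `wl` is constant (so `S.act a b` does not depend on `a`), `vn_lt`, `yv_lt`. -/
theorem chart_N (P : PPar) (S : Str) (z : UX) (hz : z.1 ∈ XN) :
    HasChart (famU hN XN XN_open (P.yn S)) z := by
  have hzC : z.1 ∈ CN := XN_CN hz
  by_cases h1 : ∃ n : ℤ, |z.1.1 - n| ≤ 3 / 16
  · obtain ⟨n, hn⟩ := h1
    refine hasChart_t hN hz (V := CN ∩ {w | |w.1 - n| < 13 / 64}) (CN_open.inter (Ch_open_a _ _))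
      ⟨hzC, lt_of_le_of_lt hn (by norm_num)⟩ ((P.yn_contOn S).mono inter_subset_left) ?_
    intro a b t t' hw _ hlt
    exact S.act_mono a b (P.yv_lt_t (n := n) hw.2 hlt)
  by_cases h2 : ∃ n : ℤ, |z.1.1 - (n + 1 / 2)| ≤ 3 / 16
  · obtain ⟨n, hn⟩ := h2
    refine hasChart_t' hN hz (V := CN ∩ {w | |w.1 - (n + 1 / 2)| < 13 / 64})
      (CN_open.inter (Ch_open_a _ _))
      ⟨hzC, lt_of_le_of_lt hn (by norm_num)⟩ ((P.yn_contOn S).mono inter_subset_left) ?_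
    intro a b t t' hw _ hlt
    exact S.act_mono a b (P.yv_gt_t (n := n) hw.2 hlt)
  obtain ⟨n, hn⟩ : ∃ n : ℤ, |z.1.1 - (n / 2 + 1 / 4)| ≤ 1 / 16 := by
    rcases a_cases z.1.1 with h | h | h
    · exact absurd h h1
    · exact absurd h h2
    · exact h
  refine hasChart_a hN hz (V := CN ∩ {w | |w.1 - (n / 2 + 1 / 4)| < 1 / 16})
    (CN_open.inter (Ch_open_a _ _))
    ⟨hzC, Ch_strict h1 h2 hn⟩ ((P.yn_contOn S).mono inter_subset_left) ?_
  intro a a' b t hw hw' hlt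
  have e1 : ∀ v, S.act a b v = S.act a' b v := by
    intro v
    unfold Str.act
    rw [Ch_wl hw.2, Ch_wl hw'.2]
  show S.act a b (P.yv (a, b, t)) < S.act a' b (P.yv (a', b, t))
  rw [e1]
  refine S.act_mono a' b (P.yv_lt (P.vn_lt hlt (Or.inr ⟨fun m hm => Ch_not_P hw.2 m hm.1,
    Or.inr fun m hm => Ch_not_Q hw.2 m hm.1⟩)))

/-- (`yf_lt_t`) -/
theorem chart_F (P : PPar) (z : UX) (hz : z.1 ∈ XF) : HasChart (famU hN XF XF_open P.yf) z := by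
  refine hasChart_t hN hz (V := univ) isOpen_univ (mem_univ _) P.yf_cont.continuousOn ?_
  intro a b t t' _ _ hlt
  exact P.yf_lt_t hlt

/-- PROOF. (1) `|a - n| ≤ 3/16`: `hasChart_t`, `E0_lt_t`. (2) `b ≤ -1/16`: `hasChart_t`, `E0_lt_left` (`V = {b < β, -1 < b, 0 < t < 1}`).
(3) off the closed P-intervals, `|b| < 1/16`: `hasChart_a`, `E0_lt'`. (4) `1/16 ≤ b`, `|a - (n + 1/2)| ≤ 3/16`: `hasChart_t'`, `E0_gt_t`. (5) `1/16 ≤ b`,
in the open wall strip: `hasChart_a`, `E0_lt_wall`. -/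
theorem chart_W (P : PPar) (z : UX) (hz : z.1 ∈ XW) : HasChart (famU hN XW XW_open P.E0) z := by
  obtain ⟨hz1, hz2, hz3, hz4⟩ := hz
  have hz : z.1 ∈ XW := ⟨hz1, hz2, hz3, hz4⟩
  by_cases h1 : ∃ n : ℤ, |z.1.1 - n| ≤ 3 / 16
  · obtain ⟨n, hn⟩ := h1
    refine hasChart_t hN hz (V := {w | |w.1 - n| < 13 / 64}) (Ch_open_a _ _)
      (lt_of_le_of_lt hn (by norm_num)) P.E0_cont.continuousOn ?_
    intro a b t t' hw _ hlt
    exact P.E0_lt_t (n := n) hw hlt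
  by_cases h2 : z.1.2.1 ≤ -1 / 16
  · obtain ⟨β, hβ, hE⟩ := P.E0_lt_left
    have hb := (abs_lt.1 hz1).1
    refine hasChart_t hN hz (V := {w | (-1 < w.2.1 ∧ w.2.1 < β) ∧ 0 < w.2.2 ∧ w.2.2 < 1}) ?_
      ⟨⟨by linarith, by linarith⟩, hz2, hz3⟩ P.E0_cont.continuousOn ?_
    · exact (Ch_open_b _ _).inter (Ch_open_t _ _)
    · intro a b t t' hw hw' hlt
      exact hE a b t t' hw.1.1.le hw.1.2 hw.2.1.le hlt hw'.2.2.le
  by_cases h3 : z.1.2.1 < 1 / 16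
  · have hb : |z.1.2.1| < 1 / 16 := abs_lt.2 ⟨by linarith, h3⟩
    refine hasChart_a hN hz (V := {w | |w.2.1| < 1 / 16 ∧ 3 / 16 < ‖((w.1 : ℝ) : Ci)‖}) ?_
      ⟨hb, ?_⟩ P.E0_cont.continuousOn ?_
    · exact (Ch_open_bb _).inter (Ch_open_n _)
    · show 3 / 16 < ‖((z.1.1 : ℝ) : Ci)‖
      rw [UnitAddCircle.norm_eq]
      by_contra hc
      exact h1 ⟨round z.1.1, not_lt.1 hc⟩
    · intro a a' b t hw _ hlt
      refine P.E0_lt' hlt hw.1 fun n hn => ?_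
      have e1 : ‖((a : ℝ) : Ci)‖ ≤ |a - n| := by
        rw [UnitAddCircle.norm_eq]
        exact round_le a n
      have e2 : 3 / 16 < ‖((a : ℝ) : Ci)‖ := hw.2
      linarith [hn.1]
  by_cases h4 : ∃ n : ℤ, |z.1.1 - (n + 1 / 2)| ≤ 3 / 16
  · obtain ⟨n, hn⟩ := h4
    obtain ⟨β, hβ, hE⟩ := P.E0_gt_t
    have hb := (abs_lt.1 hz1).2
    refine hasChart_t' hN hz (V := {w | |w.1 - (n + 1 / 2)| < 13 / 64 ∧
      (β < w.2.1 ∧ w.2.1 < 1) ∧ 0 < w.2.2 ∧ w.2.2 < 1}) ?_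
      ⟨lt_of_le_of_lt hn (by norm_num), ⟨by linarith, by linarith⟩, hz2, hz3⟩
      P.E0_cont.continuousOn ?_
    · exact (Ch_open_a _ _).inter ((Ch_open_b _ _).inter (Ch_open_t _ _))
    · intro a b t t' hw hw' hlt
      exact hE a b t t' n hw.1 hw.2.1.1 hw.2.1.2.le hw.2.2.1.le hlt hw'.2.2.2.le
  obtain ⟨n, hn⟩ : ∃ n : ℤ, |z.1.1 - (n / 2 + 1 / 4)| ≤ 1 / 16 := by
    rcases a_cases z.1.1 with h | h | h
    · exact absurd h h1
    · exact absurd h h4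
    · exact h
  refine hasChart_a hN hz (V := {w | |w.1 - (n / 2 + 1 / 4)| < 1 / 16 ∧ -1 / 16 < w.2.1})
    ((Ch_open_a _ _).inter (Ch_open_b' _))
    ⟨Ch_strict h1 h4 hn, by linarith⟩ P.E0_cont.continuousOn ?_
  intro a a' b t hw _ hlt
  exact P.E0_lt_wall hlt hw.2 (fun m hm => Ch_not_P hw.1 m hm.1)
    fun m hm => Ch_not_Q hw.1 m hm.1

/-- (as `TW.chart_T`) -/
theorem chart_T (P : PPar) (z : ℝ × Ioo (1 : ℝ) 2 × ℝ) (hz : z ∈ XT) :
    HasChart (famT hN P) z := by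
  obtain ⟨ζ, h1, h2⟩ := TW.exists_zeta_th
  have key : ∀ w w' : ℝ × Ioo (1 : ℝ) 2 × ℝ, (w.2.1 : ℝ) < 11 / 6 → (ζ w).1 = (ζ w').1 →
      (ζ w).2 < (ζ w').2 → P.TT w < P.TT w' := by
    intro w w' hw he hlt
    rw [h2, h2] at he hlt
    obtain ⟨θ, r, ψ⟩ := w
    obtain ⟨θ', r', ψ'⟩ := w'
    simp only [Prod.mk.injEq] at he hlt
    obtain ⟨e1, rfl⟩ := he
    have e2 : r = r' := Subtype.ext e1
    subst e2
    exact P.TT_lt hlt hw
  refine TW.hasChart_of_mono (famT hN P) hz ζ (by rw [h1]; exact mem_univ _) (N := XT) XT_open hz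
    P.TT_cont.continuousOn ?_
  intro w hw w' _ _ _ he hlt
  exact key w w' hw he hlt

/-- (as `TW.chart_F`) -/
theorem chart_O (c : OpenPartialHomeomorph M ((ℝ × ℝ) × ℝ)) {C : Set M} (hC : IsClosed C) (y : M)
    (hy : y ∈ c.source \ C) : HasChart (famF c hC) y := by
  refine ⟨c.restrOpen Cᶜ hC.isOpen_compl, c.source \ C, c.open_source.sdiff hC, hy, fun w hw => hw,
    ?_, fun w _ => rfl⟩
  show c.source ∩ Cᶜ = (fun y => y) '' (c.source \ C)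
  rw [image_id']
  rfl

end Pool.Agent.H.MP_1611f1_gt.PA
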