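import Pool.Agent.H.MP_1611f1_gt.TW.FF
import Pool.Agent.H.MP_1611f1_gt.TW.Fam
import Pool.Agent.H.MP_1611f1_gt.TW.LoB

/-!
Part A of the theorem on plumbed annuli of one sign: definitions. In a `3`-manifold there are boxes with coordinates
`(a, b, t)`; a foliation `F₀` is given outside of compact cores. On the near side `b > 0` it is `{t = const}`,
cooriented by `t` on the P-part (around `a = 0`), by `-t` on the Q-part (around `a = 1/2`), with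
walls `a = 1/4`, `a = 3/4` between them; on the far side `b < 0` it is cooriented by `t`. The walls of the
boxes are glued to each other.
-/

namespace Pool.Agent.H.MP_1611f1_gt.PA

open Topology Set Filter
open Pool.Agent.H.MP_1611f1_gt.BR.U (Ci)
open Pool.Agent.H.MP_1611f1_gt.TW (cov tr plr rt KK phi T0 LL Lm celf ff lam chi)

/-- the domain of the coordinates: the annulus `‖b‖ < 1/4`, and two half walls
`a ~ 1/4`, `a ~ 3/4`, `0 < b < 5/8` -/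
def VX : Set (Ci × Ci × Ci) :=
  {z | ‖z.2.1‖ < 1 / 4 ∨ ((‖z.1 - ((1 / 4 : ℝ) : Ci)‖ < 1 / 8 ∨ ‖z.1 - ((3 / 4 : ℝ) : Ci)‖ < 1 / 8) ∧
    ∃ b : ℝ, 0 < b ∧ b < 5 / 8 ∧ z.2.1 = (b : Ci))}

/-- the compact core, where the foliation is constructed -/
def CX : Set (Ci × Ci × Ci) :=
  {z | (‖z.2.1‖ ≤ 1 / 8 ∧ ‖z.2.2‖ ≤ 1 / 8) ∨
    (‖z.2.1‖ ≤ 1 / 16 ∧ ¬ (‖z.1‖ < 3 / 16 ∧ ∃ t : ℝ, 1 / 8 < t ∧ t < 3 / 8 ∧ z.2.2 = (t : Ci))) ∨
    ((‖z.1 - ((1 / 4 : ℝ) : Ci)‖ ≤ 1 / 16 ∨ ‖z.1 - ((3 / 4 : ℝ) : Ci)‖ ≤ 1 / 16) ∧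
      ∃ b : ℝ, 0 ≤ b ∧ b ≤ 1 / 2 ∧ z.2.1 = (b : Ci))}

/-- the collapse: `n` on `[n - 3/16, n + 3/16]`, `n + 1/2` on `[n + 5/16, n + 11/16]` -/
noncomputable def fX (a : ℝ) : ℝ := ff (2 * a - 1 / 2) / 2

/-- on `[-1/2, 1/2]`: `v` for `|v| ≤ 3/16`, falling to `0` at `|v| = 1/4`, and `0` for `1/4 ≤ |v|` -/
noncomputable def zt (v : ℝ) : ℝ :=
  if 0 ≤ v then min v (max 0 (3 / 4 - 3 * v)) else -min (-v) (max 0 (3 / 4 + 3 * v))

/-- the function `zt` around `a = 1/2`, periodic -/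
noncomputable def zQ (a : ℝ) : ℝ := zt (Int.fract a - 1 / 2)

/-- the angle: `0` for `b ≤ -1/16`, `π` for `1/16 ≤ b` -/
noncomputable def al (b : ℝ) : ℝ := Real.pi * chi (16 * b)

/-- `0` for `b ≤ -1/16`, `1` for `1/16 ≤ b` -/
noncomputable def ch (b : ℝ) : ℝ := (1 - Real.cos (al b)) / 2

/-- `0` for `1/16 ≤ |b|`, positive for `|b| < 1/16` -/
noncomputable def rh (b : ℝ) : ℝ := Real.sin (al b)

/-- `1` near `t = 5/8`, `0` for `1/8 ≤ ‖t - 5/8‖` -/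
noncomputable def om (t : ℝ) : ℝ := max 0 (min 1 (2 - 16 * ‖((t - 5 / 8 : ℝ) : Ci)‖))

/-- the collapse of the strip `κ` (which is `[11/16, 13/16]`) on the far side -/
noncomputable def g0 (a : ℝ) : ℝ := max 0 (min 1 (8 * (a - 11 / 16)))

/-- `a - 1/2`, cut off at `± 1/32` -/
noncomputable def z2 (a : ℝ) : ℝ := max (-1 / 32) (min (1 / 32) (a - 1 / 2))

/-- the holonomy of the strip `κ` for the function `Φ` of the far side -/
noncomputable def fkk (Φ : ℝ ≃o ℝ) (s : ℝ) : ℝ := Φ.symm (Φ s + 1)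

/-- the collapse of the strip `κ`, made strictly increasing near the tube -/
noncomputable def gg (ε a b t : ℝ) : ℝ :=
  (1 - ε * lam b t) * g0 a + ε * lam b t * (a + 3 / 16)

/-- the time of the leaf on the far side, for `a ∈ [-3/16, 13/16]` -/
noncomputable def sgg (Φ : ℝ ≃o ℝ) (ε a b t : ℝ) : ℝ :=
  (1 - gg ε a b t) * (t + rh b * om t * z2 a) + gg ε a b t * fkk Φ (t - rh b * om t / 32)

/-- The numerical data of a box: the slope `μ` at the tube, the homeomorphism `em` of the near side,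
the function `Φ` of the far side, the value `cz` and the slope `κz` at the special crossing, the size `ε` of the
perturbation near the tube. -/
structure PPar where
  μ : ℝ
  em : ℝ ≃o ℝ
  em_per : ∀ x, em (x + 1) = em x + 1
  Φ : ℝ ≃o ℝ
  rel : ∀ s, Φ (s + 1) = em (T0.symm (em.symm (Φ s))) + μ
  agree : ∀ s ∈ Icc (1 / 8 : ℝ) (3 / 8), em (LL s) = Φ s
  cz : ℝ
  κz : ℝ
  κz_pos : 0 < κz
  em_z : ∀ r, |r| ≤ 1 / 8 → em (1 / 2 + LL (-5 / 8 + r)) = cz + κz * r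
  Φ_z : ∀ r, |r| ≤ 1 / 8 → Φ (5 / 8 + r) = cz + κz * r
  /-- `κ` moves up by at least `1/8` at the times near `5/8` -/
  gap : ∀ s ∈ Icc (3 / 8 : ℝ) (7 / 8), Φ (s + 1 / 8) ≤ Φ s + 1
  ε : ℝ
  ε_pos : 0 < ε
  ε_le : ε ≤ 1
  Φ_low : ∀ R : ℝ, ∃ δ > 0, ∀ s s', |s| ≤ R → |s'| ≤ R → s ≤ s' → δ * (s' - s) ≤ Φ s' - Φ s
  Φ_upp : ∀ R : ℝ, ∃ L > 0, ∀ s s', |s| ≤ R → |s'| ≤ R → s ≤ s' → Φ s' - Φ s ≤ L * (s' - s)
  em_low : ∃ δ > 0, ∀ v v', v ≤ v' → δ * (v' - v) ≤ em v' - em v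
  em_upp : ∃ L > 0, ∀ v v', v ≤ v' → em v' - em v ≤ L * (v' - v)
  sg_low : ∃ δ > 0, ∀ a ∈ Icc (-3 / 16 : ℝ) (13 / 16), ∀ b t t', t ≤ t' →
    δ * (t' - t) ≤ sgg Φ ε a b t' - sgg Φ ε a b t
  sg_upp : ∃ L > 0, ∀ a ∈ Icc (-3 / 16 : ℝ) (13 / 16), ∀ b t t', t ≤ t' →
    sgg Φ ε a b t' - sgg Φ ε a b t ≤ L * (t' - t)

/-- The strips which end on the half walls of a box: `s w σ b` is the transport function at the place `b`, on the half wall `w`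
(`false`: `a = 1/4`, `true`: `a = 3/4`), on the side `σ` (`false`: P, `true`: Q); strips are at
`1/4 < b < 3/8`. -/
structure Str where
  s : Bool → Bool → ℝ → ℝ → ℝ
  cont : ∀ w σ, Continuous fun q : ℝ × ℝ => s w σ q.1 q.2
  mono : ∀ w σ b, StrictMono (s w σ b)
  per : ∀ w σ b r, s w σ b (r + 1) = s w σ b r + 1
  left : ∀ w σ b r, b ≤ 1 / 4 → s w σ b r = r
  right : ∀ w σ b r, 3 / 8 ≤ b → s w σ b r = s w σ (3 / 8) r
  bdd : ∃ C, ∀ w σ b r, |s w σ b r - r| ≤ C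

/-- the half wall to which `a` belongs -/
noncomputable def wl (a : ℝ) : Bool := decide (1 / 2 ≤ Int.fract a)

/-- the index of the period on the far side: `a ∈ [n - 3/16, n + 13/16)` -/
noncomputable def nf (a : ℝ) : ℤ := ⌊a + 3 / 16⌋

/-- the strips of the half walls, acting on the leaves -/
noncomputable def Str.act (S : Str) (a b v : ℝ) : ℝ :=
  celf (S.s (wl a) false b) (fun r => -S.s (wl a) true b (-r)) v

namespace PPar

variable (P : PPar)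

/-- the value `v` whose flow line is followed on the near side -/
noncomputable def vn (z : ℝ × ℝ × ℝ) : ℝ :=
  (1 - P.ε * lam z.2.1 z.2.2) * (fX z.1 + LL (rh z.2.1 * zQ z.1)) +
    P.ε * lam z.2.1 z.2.2 * z.1

/-- the transverse function on the near side, without strips -/
noncomputable def yv (z : ℝ × ℝ × ℝ) : ℝ := phi (-z.2.2) (P.vn z)

/-- the transverse function on the near side -/
noncomputable def yn (S : Str) (z : ℝ × ℝ × ℝ) : ℝ := S.act z.1 z.2.1 (P.yv z)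

/-- the transverse function on the far side -/
noncomputable def yf (z : ℝ × ℝ × ℝ) : ℝ :=
  P.Φ (sgg P.Φ P.ε (z.1 - nf z.1) z.2.1 z.2.2) + nf z.1

/-- the transverse function for `0 < t < 1`, near `b = 0` -/
noncomputable def E0 (z : ℝ × ℝ × ℝ) : ℝ :=
  (1 - ch z.2.1) * P.yf z + ch z.2.1 * P.em (P.yv z)

/-- the holonomy of the far side -/
noncomputable def tf (y : ℝ) : ℝ := P.em (T0.symm (P.em.symm y)) + P.μ

/-- the function `E0` continued around the tube: above the tube `tf (E0)`, below the tube `E0` at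
the time `t + 1`, and minus `μ` for every turn -/
noncomputable def XX (z : ℝ × Ioo (1 : ℝ) 2 × ℝ) : ℝ :=
  (if Int.fract z.2.2 ≤ 1 / 2 then P.tf (P.E0 (plr z)) else P.E0 (tr 0 0 1 (plr z))) -
    P.μ * ⌊z.2.2⌋

/-- the transverse function near the tube, in polar coordinates -/
noncomputable def TT (z : ℝ × Ioo (1 : ℝ) 2 × ℝ) : ℝ :=
  LS.cut z.2.1 * P.XX z + (1 - LS.cut z.2.1) * (z.1 - P.μ * z.2.2)

/-- the old foliation on the far side -/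
noncomputable def yf0 (z : ℝ × ℝ × ℝ) : ℝ :=
  P.Φ ((1 - g0 (z.1 - nf z.1)) * z.2.2 + g0 (z.1 - nf z.1) * fkk P.Φ z.2.2) + nf z.1

end PPar

/-- the old foliation on the near side -/
noncomputable def yn0 (S : Str) (z : ℝ × ℝ × ℝ) : ℝ :=
  S.act z.1 z.2.1 (phi (-z.2.2) (fX z.1))

/-- the domain of `yn` -/
def XN : Set (ℝ × ℝ × ℝ) := {z | cov z ∈ VX ∧ 1 / 16 < z.2.1 ∧ z.2.1 < 5 / 8 ∧ 25 / 9 < rt z}

/-- the domain of `yf` -/
def XF : Set (ℝ × ℝ × ℝ) := {z | -1 / 4 < z.2.1 ∧ z.2.1 < -1 / 16 ∧ 25 / 9 < rt z}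

/-- the domain of `E0` -/
def XW : Set (ℝ × ℝ × ℝ) := {z | |z.2.1| < 3 / 16 ∧ 0 < z.2.2 ∧ z.2.2 < 1 ∧ 25 / 9 < rt z}

/-- the domain of `TT` -/
def XT : Set (ℝ × Ioo (1 : ℝ) 2 × ℝ) := {z | (z.2.1 : ℝ) < 11 / 6}

/-- the universal cover of the domain of the coordinates -/
abbrev UX := {z : ℝ × ℝ × ℝ // cov z ∈ VX}

/-- The boxes. The half wall `a = 1/4` of the box `i` is glued to the half wall `a = 3/4` of the box
`τ i`; otherwise the boxes are disjoint. -/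
structure Boxes (M : Type) [TopologicalSpace M] (A : Type) where
  N : A → Ci × Ci × Ci → M
  emb : ∀ i, IsOpenEmbedding (VX.domRestrict (N i))
  τ : A ≃ A
  c : A → ℝ
  glue : ∀ i (a b t : ℝ), |a - 1 / 4| < 1 / 8 → 3 / 8 < b → b < 5 / 8 →
    N i (cov (a, b, t)) = N (τ i) (cov (a + 1 / 2, 1 - b, c i - t))
  sep : ∀ i j (z z' : Ci × Ci × Ci), z ∈ VX → z' ∈ VX → N i z = N j z' → (i = j ∧ z = z') ∨
    (j = τ i ∧ ∃ a b t : ℝ, |a - 1 / 4| < 1 / 8 ∧ 3 / 8 < b ∧ b < 5 / 8 ∧ z = cov (a, b, t) ∧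
      z' = cov (a + 1 / 2, 1 - b, c i - t)) ∨
    (i = τ j ∧ ∃ a b t : ℝ, |a - 1 / 4| < 1 / 8 ∧ 3 / 8 < b ∧ b < 5 / 8 ∧ z' = cov (a, b, t) ∧
      z = cov (a + 1 / 2, 1 - b, c j - t))

/-- The old foliation `F₀`, outside of the cores. -/
structure Old {M : Type} [TopologicalSpace M] {A : Type} (B : Boxes M A) (P : A → PPar)
    (S : A → Str) (F₀ : LS.PreFol M) : Prop where
  dom : ∀ y, (∀ i, y ∉ B.N i '' CX) → y ∈ F₀.dom
  near : ∀ i (z : ℝ × ℝ × ℝ), cov z ∈ VX → 0 < z.2.1 → z.2.1 < 5 / 8 →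
    (∀ j, B.N i (cov z) ∉ B.N j '' CX) → ∀ c ∈ F₀.charts, B.N i (cov z) ∈ c.source →
      OrdEq z (fun w => (c (B.N i (cov w))).2) (yn0 (S i))
  far : ∀ i (z : ℝ × ℝ × ℝ), -1 / 4 < z.2.1 → z.2.1 < 0 → cov z ∉ CX →
    ∀ c ∈ F₀.charts, B.N i (cov z) ∈ c.source →
      OrdEq z (fun w => (c (B.N i (cov w))).2) (P i).yf0
  mid : ∀ i (z : ℝ × ℝ × ℝ), z.2.1 = 0 → cov z ∉ CX →
    ∀ c ∈ F₀.charts, B.N i (cov z) ∈ c.source →
      OrdEq z (fun w => (c (B.N i (cov w))).2) (fun w => w.2.2)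
  /-- transverse closed curves through the points outside of the boxes -/
  up : ∀ y, (∀ i, y ∉ B.N i '' VX) → ∃ γ : ℝ → M, F₀.Pos γ 0 1 ∧ γ 0 = y ∧ γ 1 = y ∧
    ∀ s ∈ Icc (0 : ℝ) 1, ∀ i, γ s ∉ B.N i '' CX

/-- the properties of the new foliation `G` -/
structure New {M : Type} [TopologicalSpace M] {A : Type} (B : Boxes M A) (P : A → PPar)
    (S : A → Str) (F₀ G : LS.PreFol M) : Prop where
  dom : G.dom = {y | ∀ i, y ∉ B.N i '' KK}
  n : ∀ i, ∀ z ∈ XN, ∀ c ∈ G.charts, B.N i (cov z) ∈ c.source →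
    OrdEq z (fun w => (c (B.N i (cov w))).2) ((P i).yn (S i))
  f : ∀ i, ∀ z ∈ XF, ∀ c ∈ G.charts, B.N i (cov z) ∈ c.source →
    OrdEq z (fun w => (c (B.N i (cov w))).2) (P i).yf
  w : ∀ i, ∀ z ∈ XW, ∀ c ∈ G.charts, B.N i (cov z) ∈ c.source →
    OrdEq z (fun w => (c (B.N i (cov w))).2) (P i).E0
  t : ∀ i, ∀ z ∈ XT, ∀ c ∈ G.charts, B.N i (cov (plr z)) ∈ c.source →
    OrdEq z (fun w => (c (B.N i (cov (plr w)))).2) (P i).TT
  out : ∀ y, (∀ i, y ∉ B.N i '' CX) → ∀ c ∈ G.charts, ∀ c' ∈ F₀.charts, y ∈ c.source →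
    y ∈ c'.source → OrdEq y (fun w => (c w).2) (fun w => (c' w).2)

end Pool.Agent.H.MP_1611f1_gt.PA
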