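import Pool.Agent.H.MP_1611f1_gt.PA.Yfa

/-!
The functions of the far side: `yf`.
-/

namespace Pool.Agent.H.MP_1611f1_gt.PA

open Topology Set Filter
open Pool.Agent.H.MP_1611f1_gt.BR.U (Ci)
open Pool.Agent.H.MP_1611f1_gt.TW

namespace PPar

variable (P : PPar)

private theorem Yfb_sg_cont : Continuous fun z : ℝ × ℝ × ℝ => sgg P.Φ P.ε z.1 z.2.1 z.2.2 := by
  unfold sgg
  have h1 := gg_cont P.ε
  have h2 : Continuous fun z : ℝ × ℝ × ℝ => rh z.2.1 := rh_cont.comp (by fun_prop)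
  have h3 : Continuous fun z : ℝ × ℝ × ℝ => om z.2.2 := om_cont.comp (by fun_prop)
  have h4 : Continuous fun z : ℝ × ℝ × ℝ => z2 z.1 := z2_cont.comp (by fun_prop)
  have h5 : Continuous fun z : ℝ × ℝ × ℝ => fkk P.Φ (z.2.2 - rh z.2.1 * om z.2.2 / 32) :=
    P.fk_cont.comp (by fun_prop)
  have h6 : Continuous fun z : ℝ × ℝ × ℝ => z.2.2 := by fun_prop
  exact ((continuous_const.sub h1).mul (h6.add ((h2.mul h3).mul h4))).add (h1.mul h5)

private theorem Yfb_left (b t : ℝ) :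
    sgg P.Φ P.ε (-3 / 16) b t = t - rh b * om t / 32 := by
  unfold sgg
  rw [gg_left, z2_lo (by norm_num)]
  ring

private theorem Yfb_right (b t : ℝ) :
    sgg P.Φ P.ε (13 / 16) b t = fkk P.Φ (sgg P.Φ P.ε (-3 / 16) b t) := by
  rw [Yfb_left]
  unfold sgg
  rw [gg_right]
  ring

private theorem Yfb_fk (s : ℝ) : P.Φ (fkk P.Φ s) = P.Φ s + 1 := by
  unfold fkk
  exact P.Φ.apply_symm_apply _

/-- the two ends of a period -/
private theorem Yfb_ends (b t : ℝ) :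
    P.Φ (sgg P.Φ P.ε (13 / 16) b t) = P.Φ (sgg P.Φ P.ε (-3 / 16) b t) + 1 := by
  rw [Yfb_right, Yfb_fk]

private theorem Yfb_eq {z : ℝ × ℝ × ℝ} {n : ℤ} (h : z.1 - n ∈ Icc (-3 / 16 : ℝ) (13 / 16)) :
    P.yf z = P.Φ (sgg P.Φ P.ε (z.1 - n) z.2.1 z.2.2) + n := by
  unfold yf
  rcases h.2.lt_or_eq with h2 | h2
  · rw [nf_eq ⟨h.1, h2⟩]
  · have h3 : z.1 - ((n + 1 : ℤ) : ℝ) = -3 / 16 := by
      push_cast
      linarith
    have h4 : nf z.1 = n + 1 := nf_eq (by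
      rw [h3]
      constructor <;> norm_num)
    rw [h4, h3, h2, Yfb_ends]
    push_cast
    ring

/-- PROOF: at the ends of the periods (`a + 3/16` an integer) both formulas agree: `Φ (fkk s) = Φ s + 1`. Write `yf` near such a point by the two formulas
on closed sets, or as a locally finite union of closed sets `{a | a ∈ [n - 3/16, n + 13/16]}`. -/
theorem yf_cont : Continuous P.yf := by
  have hf : ∀ n : ℤ, Continuous fun z : ℝ × ℝ × ℝ =>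
      P.Φ (sgg P.Φ P.ε (z.1 - n) z.2.1 z.2.2) + (n : ℝ) := by
    intro n
    have h1 : Continuous fun z : ℝ × ℝ × ℝ => sgg P.Φ P.ε (z.1 - n) z.2.1 z.2.2 :=
      P.Yfb_sg_cont.comp (f := fun z : ℝ × ℝ × ℝ => (z.1 - n, z.2.1, z.2.2)) (by fun_prop)
    exact (P.Φ.continuous.comp h1).add continuous_const
  have hw : ∀ (n : ℤ) (z : ℝ × ℝ × ℝ), z.1 - n ∈ Icc (-3 / 16 : ℝ) (13 / 16) →
      ContinuousWithinAt P.yf {w | w.1 - (n : ℝ) ∈ Icc (-3 / 16 : ℝ) (13 / 16)} z := by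
    intro n z hz
    exact ((hf n).continuousAt.continuousWithinAt (s := {w : ℝ × ℝ × ℝ | w.1 - (n : ℝ) ∈
      Icc (-3 / 16 : ℝ) (13 / 16)})).congr (fun w hw => P.Yfb_eq hw) (P.Yfb_eq hz)
  rw [continuous_iff_continuousAt]
  intro z
  have hz := nf_mem z.1
  set n := nf z.1 with hn
  have hc : Continuous fun w : ℝ × ℝ × ℝ => w.1 - (n : ℝ) := by fun_prop
  rcases hz.1.lt_or_eq with h1 | h1
  · have h2 := hw n z ⟨hz.1, hz.2.le⟩
    refine h2.continuousAt ?_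
    have h3 : ∀ᶠ w in 𝓝 z, w.1 - (n : ℝ) ∈ Ioo (-3 / 16 : ℝ) (13 / 16) :=
      hc.continuousAt.eventually (Ioo_mem_nhds h1 hz.2)
    exact h3.mono fun w hw => ⟨hw.1.le, hw.2.le⟩
  · have h2 := hw n z ⟨hz.1, hz.2.le⟩
    have h4 : z.1 - ((n - 1 : ℤ) : ℝ) = 13 / 16 := by
      push_cast
      linarith
    have h5 := hw (n - 1) z (by
      rw [h4]
      constructor <;> norm_num)
    refine (h2.union h5).continuousAt ?_
    have h3 : ∀ᶠ w in 𝓝 z, w.1 - (n : ℝ) ∈ Ioo (-1 : ℝ) (13 / 16) :=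
      hc.continuousAt.eventually (Ioo_mem_nhds (by linarith) hz.2)
    refine h3.mono fun w hw => ?_
    rcases le_total (-3 / 16 : ℝ) (w.1 - n) with h6 | h6
    · exact Or.inl ⟨h6, hw.2.le⟩
    · right
      show w.1 - ((n - 1 : ℤ) : ℝ) ∈ Icc (-3 / 16 : ℝ) (13 / 16)
      push_cast
      constructor <;> linarith [hw.1]

/-- the formula on the closed period -/
theorem yf_eq {z : ℝ × ℝ × ℝ} {n : ℤ} (h : z.1 - n ∈ Icc (-3 / 16 : ℝ) (13 / 16)) :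
    P.yf z = P.Φ (sgg P.Φ P.ε (z.1 - n) z.2.1 z.2.2) + n :=
  P.Yfb_eq h

theorem yf_add (m : ℤ) (z : ℝ × ℝ × ℝ) : P.yf (tr m 0 0 z) = P.yf z + m := by
  unfold yf tr
  simp only [Int.cast_zero, add_zero]
  have h1 : z.1 + (m : ℝ) - ((nf z.1 + m : ℤ) : ℝ) = z.1 - nf z.1 := by
    push_cast
    ring
  rw [nf_add, h1]
  push_cast
  ring

theorem yf_one (z : ℝ × ℝ × ℝ) : P.yf (tr 0 0 1 z) = P.tf (P.yf z) := by
  unfold yf tr
  simp only [Int.cast_zero, add_zero]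
  rw [sg_add, Int.cast_one, Φ_one, tf_add]

/-- the values at the ends of the period of `a` -/
private theorem Yfb_le (a b t : ℝ) :
    P.yf (a, b, t) ≤ P.Φ (sgg P.Φ P.ε (-3 / 16) b t) + nf a + 1 := by
  have h := nf_mem a
  have h1 := P.Φ.monotone (P.sg_mono (b := b) (t := t) h.1 h.2.le le_rfl)
  rw [Yfb_ends] at h1
  unfold yf
  simp only
  linarith

private theorem Yfb_ge (a b t : ℝ) :
    P.Φ (sgg P.Φ P.ε (-3 / 16) b t) + nf a ≤ P.yf (a, b, t) := by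
  have h := nf_mem a
  have h1 := P.Φ.monotone (P.sg_mono (b := b) (t := t) le_rfl h.1 h.2.le)
  unfold yf
  simp only
  linarith

private theorem Yfb_nf {a a' : ℝ} (h : a ≤ a') : nf a = nf a' ∨ nf a + 1 ≤ nf a' := by
  have h1 : nf a ≤ nf a' := by
    unfold nf
    exact Int.floor_mono (by linarith)
  omega

theorem yf_mono {a a' b t : ℝ} (h : a ≤ a') : P.yf (a, b, t) ≤ P.yf (a', b, t) := by
  rcases Yfb_nf h with h1 | h1
  · have h2 := nf_mem a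
    have h3 := nf_mem a'
    unfold yf
    simp only
    rw [h1] at h2 ⊢
    have h4 := P.Φ.monotone (P.sg_mono (b := b) (t := t) h2.1
      (sub_le_sub_right h (nf a' : ℝ)) h3.2.le)
    linarith
  · have h2 := P.Yfb_le a b t
    have h3 := P.Yfb_ge a' b t
    have h4 : (nf a : ℝ) + 1 ≤ nf a' := by exact_mod_cast h1
    linarith

theorem yf_lt {a a' b t : ℝ} (h : a < a') (hl : 0 < lam b t) :
    P.yf (a, b, t) < P.yf (a', b, t) := by
  rcases Yfb_nf h.le with h1 | h1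
  · have h2 := nf_mem a
    have h3 := nf_mem a'
    unfold yf
    simp only
    rw [h1] at h2 ⊢
    have h4 := P.Φ.strictMono (P.sg_lt (b := b) (t := t) h2.1
      (sub_lt_sub_right h (nf a' : ℝ)) h3.2.le hl)
    linarith
  · have h3 := P.Yfb_ge a' b t
    have h4 : (nf a : ℝ) + 1 ≤ nf a' := by exact_mod_cast h1
    have h5 := nf_mem a
    have h6 := P.Φ.strictMono (P.sg_lt (b := b) (t := t) h5.1 h5.2 le_rfl hl)
    rw [Yfb_ends] at h6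
    have h7 : P.yf (a, b, t) = P.Φ (sgg P.Φ P.ε (a - nf a) b t) + nf a := rfl
    linarith

/-- (`sg_low`) -/
theorem yf_lt_t {a b t t' : ℝ} (h : t < t') : P.yf (a, b, t) < P.yf (a, b, t') := by
  obtain ⟨δ, hδ, h1⟩ := P.sg_low
  have h2 := nf_mem a
  have h3 := h1 (a - nf a) ⟨h2.1, h2.2.le⟩ b t t' h.le
  have h4 : 0 < δ * (t' - t) := mul_pos hδ (sub_pos.2 h)
  have h5 := P.Φ.strictMono (show sgg P.Φ P.ε (a - nf a) b t < sgg P.Φ P.ε (a - nf a) b t' by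
    linarith)
  unfold yf
  simp only
  linarith

/-- a bound for `sgg` -/
private theorem Yfb_bdd : ∃ R : ℝ, ∀ a b t : ℝ, a ∈ Icc (-3 / 16 : ℝ) (13 / 16) → |b| ≤ 1 →
    -1 ≤ t → t ≤ 2 → |sgg P.Φ P.ε a b t| ≤ R := by
  have hK : IsCompact (Icc (-3 / 16 : ℝ) (13 / 16) ×ˢ (Icc (-1 : ℝ) 1 ×ˢ Icc (-1 : ℝ) 2)) :=
    isCompact_Icc.prod (isCompact_Icc.prod isCompact_Icc)
  obtain ⟨R, hR⟩ := hK.exists_bound_of_continuousOn P.Yfb_sg_cont.continuousOn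
  refine ⟨R, fun a b t ha hb h1 h2 => ?_⟩
  have h3 := hR (a, b, t) ⟨ha, abs_le.1 hb, h1, h2⟩
  rwa [Real.norm_eq_abs] at h3

/-- PROOF: `sg_low` and `Φ_low` with a bound `R` for `sgg` on the compact set `a ∈ [-3/16, 13/16]`, `b ∈ [-1, 1]`, `t ∈ [-1, 2]`
(`sgg` is continuous). -/
theorem yf_low : ∃ δ > 0, ∀ a b t t', |b| ≤ 1 → -1 ≤ t → t ≤ t' → t' ≤ 2 →
    δ * (t' - t) ≤ P.yf (a, b, t') - P.yf (a, b, t) := by
  obtain ⟨R, hR⟩ := P.Yfb_bdd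
  obtain ⟨δ₁, hδ₁, h1⟩ := P.Φ_low R
  obtain ⟨δ₂, hδ₂, h2⟩ := P.sg_low
  refine ⟨δ₁ * δ₂, mul_pos hδ₁ hδ₂, fun a b t t' hb ht htt ht' => ?_⟩
  have h3 := nf_mem a
  have h4 : a - nf a ∈ Icc (-3 / 16 : ℝ) (13 / 16) := ⟨h3.1, h3.2.le⟩
  have h5 := h2 (a - nf a) h4 b t t' htt
  have h6 : 0 ≤ δ₂ * (t' - t) := mul_nonneg hδ₂.le (sub_nonneg.2 htt)
  have h7 := h1 _ _ (hR (a - nf a) b t h4 hb ht (htt.trans ht'))
    (hR (a - nf a) b t' h4 hb (ht.trans htt) ht') (by linarith)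
  have h8 := mul_le_mul_of_nonneg_left h5 hδ₁.le
  unfold yf
  simp only
  linarith

/-- PROOF: the same with `sg_upp` and `Φ_upp`. -/
theorem yf_upp : ∃ L > 0, ∀ a b t t', |b| ≤ 1 → -1 ≤ t → t ≤ t' → t' ≤ 2 →
    P.yf (a, b, t') - P.yf (a, b, t) ≤ L * (t' - t) := by
  obtain ⟨R, hR⟩ := P.Yfb_bdd
  obtain ⟨L₁, hL₁, h1⟩ := P.Φ_upp R
  obtain ⟨L₂, hL₂, h2⟩ := P.sg_upp
  obtain ⟨δ₂, hδ₂, h2'⟩ := P.sg_low
  refine ⟨L₁ * L₂, mul_pos hL₁ hL₂, fun a b t t' hb ht htt ht' => ?_⟩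
  have h3 := nf_mem a
  have h4 : a - nf a ∈ Icc (-3 / 16 : ℝ) (13 / 16) := ⟨h3.1, h3.2.le⟩
  have h5 := h2 (a - nf a) h4 b t t' htt
  have h5' := h2' (a - nf a) h4 b t t' htt
  have h6 : 0 ≤ δ₂ * (t' - t) := mul_nonneg hδ₂.le (sub_nonneg.2 htt)
  have h7 := h1 _ _ (hR (a - nf a) b t h4 hb ht (htt.trans ht'))
    (hR (a - nf a) b t' h4 hb (ht.trans htt) ht') (by linarith)
  have h8 := mul_le_mul_of_nonneg_left h5 hL₁.le
  unfold yf
  simp only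
  linarith

/-- where `lam = 0` and `rh * om = 0`, in a P-interval -/
theorem yf_P {z : ℝ × ℝ × ℝ} {n : ℤ} (h : |z.1 - n| ≤ 3 / 16) (hl : lam z.2.1 z.2.2 = 0)
    (ho : rh z.2.1 * om z.2.2 = 0) : P.yf z = P.Φ z.2.2 + n := by
  have h1 := abs_le.1 h
  rw [P.Yfb_eq (n := n) ⟨by linarith [h1.1], by linarith [h1.2]⟩]
  have h2 : sgg P.Φ P.ε (z.1 - n) z.2.1 z.2.2 = z.2.2 := by
    unfold sgg gg
    rw [hl, ho, g0_zero (by linarith [h1.2])]
    ring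
  rw [h2]

/-- where `lam = 0` and `rh = 0` -/
theorem yf_yf0 {z : ℝ × ℝ × ℝ} (hl : lam z.2.1 z.2.2 = 0) (hb : 1 / 16 ≤ |z.2.1|) :
    P.yf z = P.yf0 z := by
  unfold yf yf0 sgg gg
  rw [hl, rh_zero hb]
  simp only [zero_mul, mul_zero, sub_zero, add_zero, one_mul, zero_div]

/-- near the special crossing. PROOF: `nf = 0`, `g0 = 0`, `lam = 0` (`lam_zero`: `‖t‖ ≥ 1/8`), `om = 1`, `z2 = a - 1/2`; `Φ_z` -/
theorem yf_z {ξ b τ : ℝ} (hξ : |ξ| ≤ 1 / 32) (hτ : |τ| ≤ 1 / 16) :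
    P.yf (1 / 2 + ξ, b, 5 / 8 + τ) = P.cz + P.κz * (τ + rh b * ξ) := by
  have h1 := abs_le.1 hξ
  have h2 := abs_le.1 hτ
  have h3 := rh_mem b
  have e0 : (1 / 2 + ξ : ℝ) - ((0 : ℤ) : ℝ) = 1 / 2 + ξ := by
    rw [Int.cast_zero, sub_zero]
  rw [P.Yfb_eq (z := (1 / 2 + ξ, b, 5 / 8 + τ)) (n := 0) (by
    show (1 / 2 + ξ : ℝ) - ((0 : ℤ) : ℝ) ∈ Icc (-3 / 16 : ℝ) (13 / 16)
    rw [e0]
    constructor <;> linarith)]
  show P.Φ (sgg P.Φ P.ε (1 / 2 + ξ - ((0 : ℤ) : ℝ)) b (5 / 8 + τ)) + ((0 : ℤ) : ℝ) = _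
  rw [e0, Int.cast_zero, add_zero]
  have hl : lam b (5 / 8 + τ) = 0 := by
    refine lam_zero (le_max_of_le_right ?_)
    rw [UnitAddCircle.norm_eq]
    have h4 : round (5 / 8 + τ) = 1 := by
      rw [round_eq, Int.floor_eq_iff]
      push_cast
      constructor <;> linarith
    rw [h4, Int.cast_one, abs_of_nonpos (by linarith)]
    linarith
  have ho : om (5 / 8 + τ) = 1 := om_one (by rw [add_sub_cancel_left]; exact hτ)
  have hz : z2 (1 / 2 + ξ) = ξ := by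
    rw [z2_id (by rw [add_sub_cancel_left]; exact hξ), add_sub_cancel_left]
  have hs : sgg P.Φ P.ε (1 / 2 + ξ) b (5 / 8 + τ) = 5 / 8 + (τ + rh b * ξ) := by
    unfold sgg gg
    rw [hl, ho, hz, g0_zero (by linarith)]
    ring
  rw [hs]
  refine P.Φ_z _ ?_
  have h5 : |rh b * ξ| ≤ 1 / 32 := by
    rw [abs_mul, abs_of_nonneg h3.1]
    exact (mul_le_mul h3.2 hξ (abs_nonneg _) zero_le_one).trans (by norm_num)
  refine (abs_add_le _ _).trans ?_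
  linarith

end PPar

end Pool.Agent.H.MP_1611f1_gt.PA
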