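import Pool.Agent.H.MP_1611f1_gt.PA.Vn
import Pool.Agent.H.MP_1611f1_gt.PA.Yf

/-!
The function of the slab.
-/

namespace Pool.Agent.H.MP_1611f1_gt.PA

open Topology Set Filter
open Pool.Agent.H.MP_1611f1_gt.BR.U (Ci)
open Pool.Agent.H.MP_1611f1_gt.TW

private theorem E0a_per {f : ℝ ≃o ℝ} (h : ∀ x, f (x + 1) = f x + 1) (n : ℤ) (x : ℝ) :
    f (x + n) = f x + n := by
  induction n using Int.induction_on with
  | zero => simp
  | succ k ih =>
    push_cast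
    push_cast at ih
    rw [← add_assoc, h, ih, add_assoc]
  | pred k ih =>
    push_cast
    push_cast at ih
    have h1 := h (x + (-(k : ℝ) - 1))
    rw [show x + (-(k : ℝ) - 1) + 1 = x + -(k : ℝ) by ring, ih] at h1
    linarith

/-- the norm of a point of `[1/8, 7/8]` on the circle -/
private theorem E0a_norm {t : ℝ} (h : t ∈ Icc (1 / 8 : ℝ) (7 / 8)) : 1 / 8 ≤ ‖(t : Ci)‖ := by
  have h1 : ‖(t : Ci)‖ = |t - round t| := UnitAddCircle.norm_eq
  rw [h1]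
  rcases le_or_gt (1 / 2 : ℝ) t with h2 | h2
  · have hr : round t = 1 := by
      rw [round_eq, Int.floor_eq_iff]
      push_cast
      constructor <;> linarith [h.2]
    rw [hr, Int.cast_one, abs_sub_comm]
    exact (show (1 / 8 : ℝ) ≤ 1 - t by linarith [h.2]).trans (le_abs_self _)
  · have hr : round t = 0 := by
      rw [round_eq, Int.floor_eq_iff]
      push_cast
      constructor <;> linarith [h.1]
    rw [hr, Int.cast_zero, sub_zero]
    exact h.1.trans (le_abs_self _)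

private theorem E0a_lam {b t : ℝ} (h : t ∈ Icc (1 / 8 : ℝ) (7 / 8)) : lam b t = 0 :=
  lam_zero ((E0a_norm h).trans (le_max_right _ _))

/-- a convex combination, strict in one of the two -/
private theorem E0a_cmb {c x x' y y' : ℝ} (hc : c ∈ Icc (0 : ℝ) 1) (hx : x ≤ x') (hy : y ≤ y')
    (h : c < 1 ∧ x < x' ∨ 0 < c ∧ y < y') : (1 - c) * x + c * y < (1 - c) * x' + c * y' := by
  have h1 : (1 - c) * x ≤ (1 - c) * x' := mul_le_mul_of_nonneg_left hx (by linarith [hc.2])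
  have h2 : c * y ≤ c * y' := mul_le_mul_of_nonneg_left hy hc.1
  rcases h with ⟨h3, h4⟩ | ⟨h3, h4⟩
  · have h5 : (1 - c) * x < (1 - c) * x' := mul_lt_mul_of_pos_left h4 (by linarith)
    linarith
  · have h5 : c * y < c * y' := mul_lt_mul_of_pos_left h4 h3
    linarith

namespace PPar

variable (P : PPar)

theorem E0_cont : Continuous P.E0 := by
  have h1 : Continuous fun z : ℝ × ℝ × ℝ => ch z.2.1 := ch_cont.comp continuous_snd.fst
  have h2 : Continuous fun z : ℝ × ℝ × ℝ => P.em (P.yv z) := P.em.continuous.comp P.yv_cont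
  exact ((continuous_const.sub h1).mul P.yf_cont).add (h1.mul h2)

theorem E0_left {z : ℝ × ℝ × ℝ} (h : z.2.1 ≤ -1 / 16) : P.E0 z = P.yf z := by
  unfold E0
  rw [ch_zero h]
  ring

theorem E0_right {z : ℝ × ℝ × ℝ} (h : 1 / 16 ≤ z.2.1) : P.E0 z = P.em (P.yv z) := by
  unfold E0
  rw [ch_one h]
  ring

/-- (`yf_add`, `yv_tr`, `em_per`) -/
theorem E0_add (m : ℤ) (z : ℝ × ℝ × ℝ) : P.E0 (tr m 0 0 z) = P.E0 z + m := by
  have h1 : (tr m 0 0 z).2.1 = z.2.1 := by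
    show z.2.1 + ((0 : ℤ) : ℝ) = z.2.1
    rw [Int.cast_zero, add_zero]
  have h2 : P.yv (tr m 0 0 z) = P.yv z + m := by
    rw [P.yv_tr m 0 z, Int.cast_zero, neg_zero, phi_zero]
  unfold E0
  rw [h1, h2, P.yf_add, E0a_per P.em_per]
  ring

theorem E0_mono {a a' b t : ℝ} (h : a ≤ a') : P.E0 (a, b, t) ≤ P.E0 (a', b, t) := by
  have hc := ch_mem b
  have h1 : (1 - ch b) * P.yf (a, b, t) ≤ (1 - ch b) * P.yf (a', b, t) :=
    mul_le_mul_of_nonneg_left (P.yf_mono h) (by linarith [hc.2])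
  have h2 : ch b * P.em (P.yv (a, b, t)) ≤ ch b * P.em (P.yv (a', b, t)) :=
    mul_le_mul_of_nonneg_left (P.em.monotone (P.yv_mono h)) hc.1
  exact add_le_add h1 h2

/-- (`yf_lt`, `vn_lt`) -/
theorem E0_lt {a a' b t : ℝ} (h : a < a') (hl : 0 < lam b t) :
    P.E0 (a, b, t) < P.E0 (a', b, t) := by
  have hc := ch_mem b
  have h1 := P.yf_lt h hl
  have h2 : P.em (P.yv (a, b, t)) < P.em (P.yv (a', b, t)) :=
    P.em.strictMono (P.yv_lt (P.vn_lt h (Or.inl hl)))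
  refine E0a_cmb hc h1.le h2.le ?_
  rcases lt_or_ge (ch b) 1 with h3 | h3
  · exact Or.inl ⟨h3, h1⟩
  · exact Or.inr ⟨lt_of_lt_of_le one_pos h3, h2⟩

/-- strictly increasing in `a` off the P-intervals, for `|b| < 1/16` (`ch_pos`, `rh_pos`, `vn_lt`, `yf_mono`) -/
theorem E0_lt' {a a' b t : ℝ} (h : a < a') (hb : |b| < 1 / 16)
    (hP : ∀ n : ℤ, ¬ (|a - n| ≤ 3 / 16 ∧ |a' - n| ≤ 3 / 16)) :
    P.E0 (a, b, t) < P.E0 (a', b, t) := by
  have h2 : P.em (P.yv (a, b, t)) < P.em (P.yv (a', b, t)) :=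
    P.em.strictMono (P.yv_lt (P.vn_lt h (Or.inr ⟨hP, Or.inl (rh_pos hb)⟩)))
  have hb' : -1 / 16 < b := by linarith [(abs_lt.1 hb).1]
  exact E0a_cmb (ch_mem b) (P.yf_mono h.le) h2.le (Or.inr ⟨ch_pos hb', h2⟩)

/-- strictly increasing in `a` on the wall strips, for `-1/16 < b` -/
theorem E0_lt_wall {a a' b t : ℝ} (h : a < a') (hb : -1 / 16 < b)
    (hP : ∀ n : ℤ, ¬ (|a - n| ≤ 3 / 16 ∧ |a' - n| ≤ 3 / 16))
    (hQ : ∀ n : ℤ, ¬ (|a - (n + 1 / 2)| ≤ 3 / 16 ∧ |a' - (n + 1 / 2)| ≤ 3 / 16)) :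
    P.E0 (a, b, t) < P.E0 (a', b, t) := by
  have h2 : P.em (P.yv (a, b, t)) < P.em (P.yv (a', b, t)) :=
    P.em.strictMono (P.yv_lt (P.vn_lt h (Or.inr ⟨hP, Or.inr hQ⟩)))
  exact E0a_cmb (ch_mem b) (P.yf_mono h.le) h2.le (Or.inr ⟨ch_pos hb, h2⟩)

/-- strictly increasing in `t` near the P-intervals (`yf_lt_t`, `yv_lt_t`) -/
theorem E0_lt_t {a b t t' : ℝ} {n : ℤ} (hn : |a - n| < 13 / 64) (h : t < t') :
    P.E0 (a, b, t) < P.E0 (a, b, t') := by
  have h1 : P.yf (a, b, t) < P.yf (a, b, t') := P.yf_lt_t h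
  have h2 : P.em (P.yv (a, b, t)) < P.em (P.yv (a, b, t')) :=
    P.em.strictMono (P.yv_lt_t hn h)
  refine E0a_cmb (ch_mem b) h1.le h2.le ?_
  rcases lt_or_ge (ch b) 1 with h3 | h3
  · exact Or.inl ⟨h3, h1⟩
  · exact Or.inr ⟨lt_of_lt_of_le one_pos h3, h2⟩

/-- Strictly increasing in `t` for `b` up to a little more than `-1/16`. PROOF: `yf_low` gives `δ`, `em_upp` gives `L`; `em yv' - em yv ≥ -3 L (t' - t)` (`yv_lip`); choose `β` by the
continuity of `ch` at `-1/16` (`ch_zero`) such that `3 L ch b < δ (1 - ch b)` for `-1/16 ≤ b < β`. -/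
theorem E0_lt_left : ∃ β > (-1 / 16 : ℝ), ∀ a b t t', -1 ≤ b → b < β → 0 ≤ t → t < t' → t' ≤ 1 →
    P.E0 (a, b, t) < P.E0 (a, b, t') := by
  obtain ⟨δ, hδ, hlow⟩ := P.yf_low
  obtain ⟨L, hL, hupp⟩ := P.em_upp
  have hcont : Continuous fun b : ℝ => 3 * L * ch b - δ * (1 - ch b) :=
    (continuous_const.mul ch_cont).sub (continuous_const.mul (continuous_const.sub ch_cont))
  have h0 : (fun b : ℝ => 3 * L * ch b - δ * (1 - ch b)) (-1 / 16) < 0 := by
    show 3 * L * ch (-1 / 16) - δ * (1 - ch (-1 / 16)) < 0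
    rw [ch_zero le_rfl]
    linarith
  obtain ⟨r, hr, hball⟩ := Metric.eventually_nhds_iff.1
    (hcont.continuousAt.eventually (gt_mem_nhds h0))
  refine ⟨min 1 (-1 / 16 + r), lt_min (by norm_num) (by linarith), ?_⟩
  intro a b t t' hb1 hb2 ht htt' ht'
  have hb3 : b < 1 := lt_of_lt_of_le hb2 (min_le_left _ _)
  have hb4 : b < -1 / 16 + r := lt_of_lt_of_le hb2 (min_le_right _ _)
  have hc := ch_mem b
  have key : 3 * L * ch b < δ * (1 - ch b) := by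
    rcases le_or_gt b (-1 / 16) with h1 | h1
    · rw [ch_zero h1]
      linarith
    · have h2 : dist b (-1 / 16) < r := by
        rw [Real.dist_eq, abs_of_pos (by linarith)]
        linarith
      have h3 : 3 * L * ch b - δ * (1 - ch b) < 0 := hball h2
      linarith
  have h1 : δ * (t' - t) ≤ P.yf (a, b, t') - P.yf (a, b, t) :=
    hlow a b t t' (abs_le.2 ⟨hb1, hb3.le⟩) (by linarith) htt'.le (by linarith)
  have h2 : -(3 * L * (t' - t)) ≤ P.em (P.yv (a, b, t')) - P.em (P.yv (a, b, t)) := by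
    have hp : 0 ≤ 3 * L * (t' - t) := mul_nonneg (by positivity) (by linarith)
    rcases le_total (P.yv (a, b, t)) (P.yv (a, b, t')) with h3 | h3
    · have h4 := P.em.monotone h3
      linarith
    · have h4 := hupp _ _ h3
      have h5 : |P.yv (a, b, t) - P.yv (a, b, t')| ≤ 3 * |t - t'| :=
        P.yv_lip (abs_le.2 ⟨by linarith, by linarith⟩) (abs_le.2 ⟨by linarith, ht'⟩)
      have h6 : P.yv (a, b, t) - P.yv (a, b, t') ≤ 3 * (t' - t) := by
        rw [abs_sub_comm t t', abs_of_pos (show 0 < t' - t by linarith)] at h5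
        exact (le_abs_self _).trans h5
      have h7 : L * (P.yv (a, b, t) - P.yv (a, b, t')) ≤ L * (3 * (t' - t)) :=
        mul_le_mul_of_nonneg_left h6 hL.le
      linarith
  have h3 : (1 - ch b) * (δ * (t' - t)) ≤ (1 - ch b) * (P.yf (a, b, t') - P.yf (a, b, t)) :=
    mul_le_mul_of_nonneg_left h1 (by linarith [hc.2])
  have h4 : ch b * -(3 * L * (t' - t)) ≤
      ch b * (P.em (P.yv (a, b, t')) - P.em (P.yv (a, b, t))) :=
    mul_le_mul_of_nonneg_left h2 hc.1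
  have h5 : 0 < (δ * (1 - ch b) - 3 * L * ch b) * (t' - t) :=
    mul_pos (by linarith) (by linarith)
  show (1 - ch b) * P.yf (a, b, t) + ch b * P.em (P.yv (a, b, t)) <
    (1 - ch b) * P.yf (a, b, t') + ch b * P.em (P.yv (a, b, t'))
  nlinarith [h3, h4, h5]

/-- Strictly decreasing in `t` near the Q-intervals for `b` down to a little less than `1/16`. PROOF: `yv_gt_low` and `em_low` give `δ` with `em yv - em yv' ≥ δ (t' - t)`; `yf_upp` gives `L`;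
choose `β` such that `L (1 - ch b) < δ ch b` for `β < b` (`ch_one`, continuity at `1/16`). -/
theorem E0_gt_t : ∃ β < (1 / 16 : ℝ), ∀ (a b t t' : ℝ) (n : ℤ), |a - (n + 1 / 2)| < 13 / 64 →
    β < b → b ≤ 1 → 0 ≤ t → t < t' → t' ≤ 1 → P.E0 (a, b, t') < P.E0 (a, b, t) := by
  obtain ⟨δ₁, hδ₁, hlow⟩ := P.yv_gt_low
  obtain ⟨δ₂, hδ₂, hem⟩ := P.em_low
  obtain ⟨L, hL, hupp⟩ := P.yf_upp
  have hcont : Continuous fun b : ℝ => L * (1 - ch b) - δ₂ * δ₁ * ch b :=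
    (continuous_const.mul (continuous_const.sub ch_cont)).sub (continuous_const.mul ch_cont)
  have hδ : 0 < δ₂ * δ₁ := mul_pos hδ₂ hδ₁
  have h0 : (fun b : ℝ => L * (1 - ch b) - δ₂ * δ₁ * ch b) (1 / 16) < 0 := by
    show L * (1 - ch (1 / 16)) - δ₂ * δ₁ * ch (1 / 16) < 0
    rw [ch_one le_rfl]
    linarith
  obtain ⟨r, hr, hball⟩ := Metric.eventually_nhds_iff.1
    (hcont.continuousAt.eventually (gt_mem_nhds h0))
  refine ⟨max 0 (1 / 16 - r), max_lt (by norm_num) (by linarith), ?_⟩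
  intro a b t t' n hn hb1 hb2 ht htt' ht'
  have hb3 : 0 < b := lt_of_le_of_lt (le_max_left _ _) hb1
  have hb4 : 1 / 16 - r < b := lt_of_le_of_lt (le_max_right _ _) hb1
  have hc := ch_mem b
  have key : L * (1 - ch b) < δ₂ * δ₁ * ch b := by
    rcases le_or_gt (1 / 16) b with h1 | h1
    · rw [ch_one h1]
      linarith
    · have h2 : dist b (1 / 16) < r := by
        rw [Real.dist_eq, abs_sub_comm, abs_of_pos (by linarith)]
        linarith
      have h3 : L * (1 - ch b) - δ₂ * δ₁ * ch b < 0 := hball h2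
      linarith
  have h1 : P.yf (a, b, t') - P.yf (a, b, t) ≤ L * (t' - t) :=
    hupp a b t t' (abs_le.2 ⟨by linarith, hb2⟩) (by linarith) htt'.le (by linarith)
  have h2 : δ₂ * δ₁ * (t' - t) ≤ P.em (P.yv (a, b, t)) - P.em (P.yv (a, b, t')) := by
    have h3 := hlow a b t t' n hn (by linarith) htt'.le ht'
    have h4 : 0 ≤ δ₁ * (t' - t) := mul_nonneg hδ₁.le (by linarith)
    have h5 := hem (P.yv (a, b, t')) (P.yv (a, b, t)) (by linarith)
    have h6 : δ₂ * (δ₁ * (t' - t)) ≤ δ₂ * (P.yv (a, b, t) - P.yv (a, b, t')) :=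
      mul_le_mul_of_nonneg_left h3 hδ₂.le
    linarith
  have h3 : (1 - ch b) * (P.yf (a, b, t') - P.yf (a, b, t)) ≤ (1 - ch b) * (L * (t' - t)) :=
    mul_le_mul_of_nonneg_left h1 (by linarith [hc.2])
  have h4 : ch b * (δ₂ * δ₁ * (t' - t)) ≤
      ch b * (P.em (P.yv (a, b, t)) - P.em (P.yv (a, b, t'))) :=
    mul_le_mul_of_nonneg_left h2 hc.1
  have h5 : 0 < (δ₂ * δ₁ * ch b - L * (1 - ch b)) * (t' - t) :=
    mul_pos (by linarith) (by linarith)
  show (1 - ch b) * P.yf (a, b, t') + ch b * P.em (P.yv (a, b, t')) <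
    (1 - ch b) * P.yf (a, b, t) + ch b * P.em (P.yv (a, b, t))
  nlinarith [h3, h4, h5]

/-- on the P-intervals, at the times `[1/8, 3/8]`. PROOF: `lam = 0` (`lam_zero`, `‖t‖ ≥ 1/8`), `om = 0`; `yf_P`, `yv_P`, `agree`, `em_per` for integers. -/
theorem E0_flat {z : ℝ × ℝ × ℝ} {n : ℤ} (h : |z.1 - n| ≤ 3 / 16)
    (ht : z.2.2 ∈ Icc (1 / 8 : ℝ) (3 / 8)) : P.E0 z = n + P.em (LL z.2.2) := by
  have hl : lam z.2.1 z.2.2 = 0 := E0a_lam ⟨ht.1, by linarith [ht.2]⟩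
  have ho : om z.2.2 = 0 := by
    refine om_zero (k := 0) ?_
    rw [Int.cast_zero, sub_zero]
    exact ⟨by linarith [ht.1], by linarith [ht.2]⟩
  have h1 : P.yf z = P.Φ z.2.2 + n := P.yf_P h hl (by rw [ho, mul_zero])
  have h2 : P.yv z = n + LL z.2.2 := P.yv_P h hl
  have h3 : P.em (P.yv z) = P.em (LL z.2.2) + n := by
    rw [h2, add_comm, E0a_per P.em_per]
  unfold E0
  rw [h1, h3, P.agree _ ht]
  ring

/-- THE SPECIAL CROSSING: an exact rotation. PROOF: `yf_z`; `yv_Q` with `n = 0` and `em_z` (`r = -τ + rh b ξ`, `|r| ≤ 1/8`);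
`1 - 2 ch b = cos (al b)`, `rh b = sin (al b)`. -/
theorem E0_z {ξ b τ : ℝ} (hξ : |ξ| ≤ 1 / 32) (hτ : |τ| ≤ 1 / 16) :
    P.E0 (1 / 2 + ξ, b, 5 / 8 + τ) =
      P.cz + P.κz * (Real.cos (al b) * τ + Real.sin (al b) * ξ) := by
  have h1 := P.yf_z (b := b) hξ hτ
  obtain ⟨hξ1, hξ2⟩ := abs_le.1 hξ
  obtain ⟨hτ1, hτ2⟩ := abs_le.1 hτ
  have hr := rh_mem b
  have h2 : P.yv (1 / 2 + ξ, b, 5 / 8 + τ) = 1 / 2 + LL (-5 / 8 + (-τ + rh b * ξ)) := by
    have h3 := P.yv_Q (z := (1 / 2 + ξ, b, 5 / 8 + τ)) (n := 0) (by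
      show |1 / 2 + ξ - (((0 : ℤ) : ℝ) + 1 / 2)| ≤ 3 / 16
      rw [Int.cast_zero, show 1 / 2 + ξ - ((0 : ℝ) + 1 / 2) = ξ by ring]
      exact hξ.trans (by norm_num)) (by
      show lam b (5 / 8 + τ) = 0
      exact E0a_lam ⟨by linarith, by linarith⟩)
    have h4 : P.yv (1 / 2 + ξ, b, 5 / 8 + τ) = ((0 : ℤ) : ℝ) + 1 / 2 +
      LL (-(5 / 8 + τ) + rh b * (1 / 2 + ξ - (((0 : ℤ) : ℝ) + 1 / 2))) := h3
    rw [h4, Int.cast_zero, show -(5 / 8 + τ) + rh b * (1 / 2 + ξ - ((0 : ℝ) + 1 / 2)) =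
      -5 / 8 + (-τ + rh b * ξ) by ring]
    ring
  have h3 : |(-τ + rh b * ξ)| ≤ 1 / 8 := by
    have h4 : |rh b * ξ| ≤ 1 / 32 := by
      rw [abs_mul, abs_of_nonneg hr.1]
      have h5 : rh b * |ξ| ≤ 1 * |ξ| := mul_le_mul_of_nonneg_right hr.2 (abs_nonneg _)
      linarith
    obtain ⟨h5, h6⟩ := abs_le.1 h4
    exact abs_le.2 ⟨by linarith, by linarith⟩
  have h4 := P.em_z _ h3
  show (1 - ch b) * P.yf (1 / 2 + ξ, b, 5 / 8 + τ) + ch b * P.em (P.yv (1 / 2 + ξ, b, 5 / 8 + τ)) = _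
  rw [h1, h2, h4]
  have h5 : ch b = (1 - Real.cos (al b)) / 2 := rfl
  have h6 : rh b = Real.sin (al b) := rfl
  rw [h5, h6]
  ring

end PPar

end Pool.Agent.H.MP_1611f1_gt.PA
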