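import Pool.Agent.H.MP_1611f1_gt.PA.Vn

/-!
The strips.
-/

namespace Pool.Agent.H.MP_1611f1_gt.PA

open Topology Set Filter
open Pool.Agent.H.MP_1611f1_gt.BR.U (Ci)
open Pool.Agent.H.MP_1611f1_gt.TW

/-! ### Strips -/

variable (S : Str)

private theorem E0b_per_nat (w σ : Bool) (b r : ℝ) (n : ℕ) :
    S.s w σ b (r + n) = S.s w σ b r + n := by
  induction n with
  | zero => simp
  | succ n ih =>
    rw [Nat.cast_succ, ← add_assoc, S.per, ih, add_assoc]

private theorem E0b_per (w σ : Bool) (b r : ℝ) (k : ℤ) :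
    S.s w σ b (r + k) = S.s w σ b r + k := by
  obtain ⟨n, rfl | rfl⟩ := k.eq_nat_or_neg
  · rw [Int.cast_natCast]
    exact E0b_per_nat S w σ b r n
  · have h := E0b_per_nat S w σ b (r + -(n : ℝ)) n
    rw [neg_add_cancel_right] at h
    rw [Int.cast_neg, Int.cast_natCast, h, add_neg_cancel_right]

theorem Str.act_mono (a b : ℝ) : StrictMono (S.act a b) :=
  celf_mono (S.mono _ _ _) fun _ _ h => neg_lt_neg (S.mono _ _ _ (neg_lt_neg h))

theorem Str.act_add (a b v : ℝ) (n : ℤ) : S.act a b (v + n) = S.act a b v + n :=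
  celf_add_int _ _ _ _

/-- PROOF: in the cells, with `S.per` for integers (`S.s (r + k) = S.s r + k`) -/
theorem Str.act_phi (a b v : ℝ) (k : ℤ) : S.act a b (phi k v) = phi k (S.act a b v) := by
  unfold Str.act phi
  rw [celf_comp, celf_comp]
  congr 1
  · funext s
    show S.s (wl a) false b (s - k) = S.s (wl a) false b s - k
    have h := E0b_per S (wl a) false b s (-k)
    rw [Int.cast_neg, ← sub_eq_add_neg, ← sub_eq_add_neg] at h
    exact h
  · funext s
    show -S.s (wl a) true b (-(s + k)) = -S.s (wl a) true b (-s) + k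
    have h := E0b_per S (wl a) true b (-s) (-k)
    rw [Int.cast_neg, ← neg_add] at h
    rw [h]
    ring

theorem Str.act_a (a b v : ℝ) (m : ℤ) : S.act (a + m) b v = S.act a b v := by
  have h : wl (a + m) = wl a := by
    unfold wl
    rw [Int.fract_add_intCast]
  unfold Str.act
  rw [h]

theorem Str.act_left {a b v : ℝ} (h : b ≤ 1 / 4) : S.act a b v = v := by
  refine Eq.trans ?_ (celf_id v)
  exact celf_congr (fun _ s _ => S.left _ _ _ s h)
    fun _ s _ => by rw [S.left _ _ _ _ h, neg_neg]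

theorem Str.act_right {a b v : ℝ} (h : 3 / 8 ≤ b) : S.act a b v = S.act a (3 / 8) v :=
  celf_congr (fun _ s _ => S.right _ _ _ s h) fun _ s _ => by rw [S.right _ _ _ _ h]

theorem Str.act_P (a b : ℝ) (n : ℤ) (s : ℝ) :
    S.act a b (n + LL s) = n + LL (S.s (wl a) false b s) :=
  celf_J _ _ _ _

theorem Str.act_Q (a b : ℝ) (n : ℤ) (s : ℝ) :
    S.act a b (n + 1 / 2 + LL s) = n + 1 / 2 + LL (-S.s (wl a) true b (-s)) :=
  celf_J' _ _ _ _

private theorem E0b_wl {a : ℝ} (h : ∀ n : ℤ, a ≠ n / 2) : ∀ᶠ a' in 𝓝 a, wl a' = wl a := by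
  obtain ⟨n, hn⟩ : ∃ n : ℤ, n = ⌊a⌋ := ⟨_, rfl⟩
  have h1 : (n : ℝ) ≤ a := by rw [hn]; exact Int.floor_le _
  have h2 : a < n + 1 := by rw [hn]; exact Int.lt_floor_add_one _
  have h3 : (n : ℝ) ≠ a := by
    intro hc
    refine h (2 * n) ?_
    push_cast
    linarith
  have h4 : (n : ℝ) < a := lt_of_le_of_ne h1 h3
  have hfr : ∀ a' : ℝ, (n : ℝ) < a' → a' < n + 1 → Int.fract a' = a' - n := by
    intro a' h5 h6
    have h7 : ⌊a'⌋ = n := by
      rw [Int.floor_eq_iff]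
      exact ⟨h5.le, h6⟩
    unfold Int.fract
    rw [h7]
  rcases lt_or_ge a (n + 1 / 2) with h5 | h5
  · have h6 : ∀ a' : ℝ, (n : ℝ) < a' → a' < n + 1 / 2 → wl a' = false := by
      intro a' h7 h8
      unfold wl
      rw [hfr a' h7 (by linarith), decide_eq_false_iff_not]
      linarith
    filter_upwards [Ioo_mem_nhds h4 h5] with a' ha'
    rw [h6 a' ha'.1 ha'.2, h6 a h4 h5]
  · have h5' : (n : ℝ) + 1 / 2 ≠ a := by
      intro hc
      refine h (2 * n + 1) ?_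
      push_cast
      linarith
    have h5'' : (n : ℝ) + 1 / 2 < a := lt_of_le_of_ne h5 h5'
    have h6 : ∀ a' : ℝ, (n : ℝ) + 1 / 2 < a' → a' < n + 1 → wl a' = true := by
      intro a' h7 h8
      unfold wl
      rw [hfr a' (by linarith) h8, decide_eq_true_iff]
      linarith
    filter_upwards [Ioo_mem_nhds h5'' h2] with a' ha'
    rw [h6 a' ha'.1 ha'.2, h6 a h5'' h2]

private theorem E0b_open : IsOpen {a : ℝ | ∀ n : ℤ, a ≠ n / 2} := by
  have h1 : IsClosed (Set.range ((↑) : ℤ → ℝ)) := Int.isClosedEmbedding_coe_real.isClosed_range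
  have h2 : IsOpen ((fun a : ℝ => 2 * a) ⁻¹' (Set.range ((↑) : ℤ → ℝ))ᶜ) :=
    h1.isOpen_compl.preimage (by fun_prop)
  convert h2 using 1
  ext a
  simp only [Set.mem_ofPred_eq, mem_preimage, mem_compl_iff, mem_range, not_exists]
  refine forall_congr' fun n => ?_
  constructor
  · intro h3 h4
    exact h3 (by linarith)
  · intro h3 h4
    exact h3 (by linarith)

private theorem E0b_cont (σ : Bool) :
    ContinuousOn (fun q : (ℝ × ℝ × ℝ) × ℝ => S.s (wl q.1.1) σ q.1.2.1 q.2)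
      ({q : ℝ × ℝ × ℝ | ∀ n : ℤ, q.1 ≠ n / 2} ×ˢ univ) := by
  intro q hq
  apply ContinuousAt.continuousWithinAt
  have h1 : ContinuousAt (fun q : (ℝ × ℝ × ℝ) × ℝ => q.1.1) q := by fun_prop
  have h2 : ∀ᶠ p in 𝓝 q, wl p.1.1 = wl q.1.1 := h1.eventually (E0b_wl hq.1)
  have h3 : ContinuousAt (fun p : (ℝ × ℝ × ℝ) × ℝ => S.s (wl q.1.1) σ p.1.2.1 p.2) q :=
    ((S.cont (wl q.1.1) σ).comp (f := fun p : (ℝ × ℝ × ℝ) × ℝ => (p.1.2.1, p.2))
      (by fun_prop)).continuousAt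
  refine h3.congr ?_
  filter_upwards [h2] with p hp
  rw [hp]

/-- JOINT CONTINUITY, for `a` off `ℤ/2`, where `wl` is locally constant. PROOF: `celf_cont` (with `S.cont`, `S.bdd`). -/
theorem Str.act_contOn : ContinuousOn (fun q : ℝ × ℝ × ℝ => S.act q.1 q.2.1 q.2.2)
    {q | ∀ n : ℤ, q.1 ≠ n / 2} := by
  obtain ⟨C, hC⟩ := S.bdd
  have hU : IsOpen {q : ℝ × ℝ × ℝ | ∀ n : ℤ, q.1 ≠ n / 2} := E0b_open.preimage continuous_fst
  unfold Str.act
  refine celf_cont (C := C) hU (g := fun q s => S.s (wl q.1) false q.2.1 s)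
    (g' := fun q s => -S.s (wl q.1) true q.2.1 (-s)) (v := fun q => q.2.2)
    (E0b_cont S false) ?_ (fun q _ s => hC _ _ _ _) ?_ (by fun_prop)
  · have h1 : ContinuousOn (fun q : (ℝ × ℝ × ℝ) × ℝ => (q.1, -q.2))
        ({q : ℝ × ℝ × ℝ | ∀ n : ℤ, q.1 ≠ n / 2} ×ˢ univ) := by fun_prop
    exact ((E0b_cont S true).comp h1 (fun q hq => ⟨hq.1, mem_univ _⟩)).neg
  · intro q _ s
    have h1 := hC (wl q.1) true q.2.1 (-s)
    rw [← abs_neg] at h1
    have e : -(S.s (wl q.1) true q.2.1 (-s) - -s) = -S.s (wl q.1) true q.2.1 (-s) - s := by ring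
    rw [e] at h1
    exact h1

/-- the set where `yn` is continuous: `b < 1/4`, or `a` off `ℤ/2` -/
def CN : Set (ℝ × ℝ × ℝ) := {z | z.2.1 < 1 / 4 ∨ ∀ n : ℤ, z.1 ≠ n / 2}

theorem CN_open : IsOpen CN := by
  have h1 : IsOpen {z : ℝ × ℝ × ℝ | z.2.1 < 1 / 4} :=
    isOpen_lt (by fun_prop) continuous_const
  exact h1.union (E0b_open.preimage continuous_fst)

private theorem E0b_parity {a : ℝ} {n m : ℤ} {c : ℤ} (hc : c = 1 ∨ c = 3) (ha : a = n / 2)
    (h : |a - c / 4 - m| < 1 / 8) : False := by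
  subst ha
  rw [abs_lt] at h
  have h1 : (-1 : ℝ) < ((2 * n - c - 4 * m : ℤ) : ℝ) := by
    push_cast
    linarith [h.1]
  have h2 : ((2 * n - c - 4 * m : ℤ) : ℝ) < 1 := by
    push_cast
    linarith [h.2]
  have h3 : -1 < 2 * n - c - 4 * m := by exact_mod_cast h1
  have h4 : 2 * n - c - 4 * m < 1 := by exact_mod_cast h2
  rcases hc with rfl | rfl <;> omega

theorem XN_CN : XN ⊆ CN := by
  rintro ⟨a, b, t⟩ ⟨h1, h2, h3, -⟩
  change 1 / 16 < b at h2
  change b < 5 / 8 at h3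
  rcases h1 with h4 | ⟨h4, -⟩
  · left
    change ‖(b : Ci)‖ < 1 / 4 at h4
    show b < 1 / 4
    rw [UnitAddCircle.norm_eq, abs_lt] at h4
    have h5 : (-1 : ℝ) < round b := by linarith
    have h6 : (round b : ℝ) < 1 := by linarith
    have h7 : round b = 0 := by
      have h8 : -1 < round b := by exact_mod_cast h5
      have h9 : round b < 1 := by exact_mod_cast h6
      omega
    rw [h7, Int.cast_zero] at h4
    linarith
  · right
    intro n hn
    change a = n / 2 at hn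
    rcases h4 with h4 | h4
    · change ‖(a : Ci) - ((1 / 4 : ℝ) : Ci)‖ < 1 / 8 at h4
      rw [← AddCircle.coe_sub, UnitAddCircle.norm_eq] at h4
      refine E0b_parity (c := 1) (m := round (a - 1 / 4)) (Or.inl rfl) hn ?_
      rw [Int.cast_one]
      exact h4
    · change ‖(a : Ci) - ((3 / 4 : ℝ) : Ci)‖ < 1 / 8 at h4
      rw [← AddCircle.coe_sub, UnitAddCircle.norm_eq] at h4
      refine E0b_parity (c := 3) (m := round (a - 3 / 4)) (Or.inr rfl) hn ?_
      rw [Int.cast_ofNat]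
      exact h4

theorem PPar.yn_left (P : PPar) {z : ℝ × ℝ × ℝ} (h : z.2.1 ≤ 1 / 4) : P.yn S z = P.yv z :=
  S.act_left h

theorem PPar.yn_contOn (P : PPar) : ContinuousOn (P.yn S) CN := by
  intro z hz
  apply ContinuousAt.continuousWithinAt
  rcases hz with h | h
  · refine P.yv_cont.continuousAt.congr ?_
    have h1 : IsOpen {z : ℝ × ℝ × ℝ | z.2.1 < 1 / 4} := isOpen_lt (by fun_prop) continuous_const
    filter_upwards [h1.mem_nhds h] with w hw
    exact (P.yn_left S (le_of_lt hw)).symm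
  · have hU : IsOpen {q : ℝ × ℝ × ℝ | ∀ n : ℤ, q.1 ≠ n / 2} := E0b_open.preimage continuous_fst
    have h1 : ContinuousAt (fun q : ℝ × ℝ × ℝ => S.act q.1 q.2.1 q.2.2) (z.1, z.2.1, P.yv z) :=
      S.act_contOn.continuousAt (hU.mem_nhds h)
    have h2 : ContinuousAt (fun z : ℝ × ℝ × ℝ => (z.1, z.2.1, P.yv z)) z := by
      have h3 := P.yv_cont
      fun_prop
    exact ContinuousAt.comp (f := fun z : ℝ × ℝ × ℝ => (z.1, z.2.1, P.yv z))
      (g := fun q : ℝ × ℝ × ℝ => S.act q.1 q.2.1 q.2.2) h1 h2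

/-- (`yv_tr`, `act_phi`, `act_add`, `act_a`) -/
theorem PPar.yn_tr (P : PPar) (m k : ℤ) (z : ℝ × ℝ × ℝ) :
    P.yn S (tr m 0 k z) = phi (-k) (P.yn S z) + m := by
  have h1 : P.yn S (tr m 0 k z) = S.act (z.1 + m) (z.2.1 + ((0 : ℤ) : ℝ)) (P.yv (tr m 0 k z)) := rfl
  have h2 := S.act_phi z.1 z.2.1 (P.yv z) (-k)
  rw [Int.cast_neg] at h2
  rw [h1, S.act_a, Int.cast_zero, add_zero, P.yv_tr, S.act_add, h2]
  rfl

end Pool.Agent.H.MP_1611f1_gt.PA
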