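import Pool.Agent.H.MP_1611f1_gt.PA.E0a
import Pool.Agent.H.MP_1611f1_gt.PA.E0b

/-!
Comparison of the functions.
-/

namespace Pool.Agent.H.MP_1611f1_gt.PA

open Topology Set Filter
open Pool.Agent.H.MP_1611f1_gt.BR.U (Ci)
open Pool.Agent.H.MP_1611f1_gt.TW

/-! ### auxiliary facts -/

private theorem E0c_norm_le (x : ℝ) (m : ℤ) : ‖(x : Ci)‖ ≤ |x - m| := by
  rw [UnitAddCircle.norm_eq]
  exact round_le x m

private theorem E0c_le_norm {x : ℝ} (h : x ∈ Icc (1 / 8 : ℝ) (7 / 8)) : 1 / 8 ≤ ‖(x : Ci)‖ := by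
  rw [UnitAddCircle.norm_eq]
  rcases le_or_gt (round x) 0 with hk | hk
  · have h1 : ((round x : ℤ) : ℝ) ≤ 0 := by exact_mod_cast hk
    exact le_trans (by linarith [h.1]) (le_abs_self _)
  · have h1 : (1 : ℝ) ≤ ((round x : ℤ) : ℝ) := by exact_mod_cast hk
    exact le_trans (by linarith [h.2]) (neg_le_abs _)

private theorem E0c_norm_cont : Continuous fun x : ℝ => ‖(x : Ci)‖ :=
  continuous_norm.comp (AddCircle.continuous_mk' 1)

private theorem E0c_ca : Continuous fun w : ℝ × ℝ × ℝ => w.1 := continuous_fst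

private theorem E0c_cb : Continuous fun w : ℝ × ℝ × ℝ => w.2.1 := continuous_fst.comp continuous_snd

private theorem E0c_ct : Continuous fun w : ℝ × ℝ × ℝ => w.2.2 := continuous_snd.comp continuous_snd

/-- off the core the function `lam` vanishes nearby -/
private theorem E0c_lam {z : ℝ × ℝ × ℝ} (h : cov z ∉ CX) :
    ∀ᶠ w in 𝓝 z, lam w.2.1 w.2.2 = 0 := by
  have h1 : ¬ (‖(z.2.1 : Ci)‖ ≤ 1 / 8 ∧ ‖(z.2.2 : Ci)‖ ≤ 1 / 8) := fun hc => h (Or.inl hc)
  by_cases h2 : ‖(z.2.1 : Ci)‖ ≤ 1 / 8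
  · have h3 : 1 / 8 < ‖(z.2.2 : Ci)‖ := by
      by_contra h4
      exact h1 ⟨h2, not_lt.1 h4⟩
    have hc : Continuous fun w : ℝ × ℝ × ℝ => ‖(w.2.2 : Ci)‖ := E0c_norm_cont.comp E0c_ct
    filter_upwards [hc.continuousAt.eventually_const_lt h3] with w hw
    exact lam_zero (le_max_of_le_right hw.le)
  · have hc : Continuous fun w : ℝ × ℝ × ℝ => ‖(w.2.1 : Ci)‖ := E0c_norm_cont.comp E0c_cb
    filter_upwards [hc.continuousAt.eventually_const_lt (not_le.1 h2)] with w hw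
    exact lam_zero (le_max_of_le_left hw.le)

/-- off the core, for `|b| ≤ 1/16` -/
private theorem E0c_mid {z : ℝ × ℝ × ℝ} (h : cov z ∉ CX) (hb : |z.2.1| ≤ 1 / 16)
    (h0 : 0 < z.2.2) (h1 : z.2.2 < 1) :
    ∃ n : ℤ, ∀ᶠ w : ℝ × ℝ × ℝ in 𝓝 z, |w.1 - (n : ℝ)| < 3 / 16 ∧ 1 / 8 < w.2.2 ∧ w.2.2 < 3 / 8 ∧
      |w.2.1| < 1 / 4 := by
  have h2 : ‖(z.2.1 : Ci)‖ ≤ 1 / 16 := by
    refine (E0c_norm_le z.2.1 0).trans ?_
    rw [Int.cast_zero, sub_zero]
    exact hb
  have h3 : ‖(z.1 : Ci)‖ < 3 / 16 ∧ ∃ t : ℝ, 1 / 8 < t ∧ t < 3 / 8 ∧ ((z.2.2 : ℝ) : Ci) = (t : Ci) := by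
    by_contra hc
    exact h (Or.inr (Or.inl ⟨h2, hc⟩))
  obtain ⟨h4, t, h5, h6, h7⟩ := h3
  have h8 : z.2.2 = t := by
    have h9 : ∃ k : ℤ, z.2.2 - t = k := by
      have h10 : ((z.2.2 - t : ℝ) : Ci) = 0 := by
        rw [AddCircle.coe_sub, h7, sub_self]
      rw [AddCircle.coe_eq_zero_iff] at h10
      obtain ⟨k, hk⟩ := h10
      exact ⟨k, by rw [← hk]; simp⟩
    obtain ⟨k, hk⟩ := h9
    have k1 : (k : ℝ) < 1 := by rw [← hk]; linarith
    have k2 : (-1 : ℝ) < k := by rw [← hk]; linarith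
    have k3 : k < 1 := by exact_mod_cast k1
    have k4 : -1 < k := by exact_mod_cast k2
    have k5 : k = 0 := by omega
    rw [k5, Int.cast_zero] at hk
    linarith
  rw [UnitAddCircle.norm_eq] at h4
  refine ⟨round z.1, ?_⟩
  have c1 : Continuous fun w : ℝ × ℝ × ℝ => |w.1 - (round z.1 : ℤ)| :=
    (E0c_ca.sub continuous_const).abs
  have c2 : Continuous fun w : ℝ × ℝ × ℝ => |w.2.1| := E0c_cb.abs
  filter_upwards [c1.continuousAt.eventually_lt_const h4,
    E0c_ct.continuousAt.eventually_const_lt (show 1 / 8 < z.2.2 by rw [h8]; exact h5),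
    E0c_ct.continuousAt.eventually_lt_const (show z.2.2 < 3 / 8 by rw [h8]; exact h6),
    c2.continuousAt.eventually_lt_const (show |z.2.1| < 1 / 4 by linarith)] with w w1 w2 w3 w4
  exact ⟨w1, w2, w3, w4⟩

private theorem E0c_wl {a : ℝ} (h1 : 0 ≤ a) (h2 : a < 1 / 2) : wl a = false := by
  unfold wl
  rw [Int.fract_eq_self.2 ⟨h1, by linarith⟩]
  exact decide_eq_false (not_le.2 h2)

private theorem E0c_wl' {a : ℝ} (h1 : 1 / 2 ≤ a) (h2 : a < 1) : wl a = true := by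
  unfold wl
  rw [Int.fract_eq_self.2 ⟨by linarith, h2⟩]
  exact decide_eq_true h1

private theorem E0c_act (S : Str) {a a' b v : ℝ} (h : wl a = wl a') :
    S.act a b v = S.act a' b v := by
  unfold Str.act
  rw [h]

private theorem E0c_yn (P : PPar) (S : Str) {a b t x : ℝ} (h : P.vn (a, b, t) = x) :
    P.yn S (a, b, t) = S.act a b (phi (-t) x) := by
  rw [← h]
  rfl

private theorem E0c_flow (t : ℝ) (n : ℤ) : phi (-t) n = n + LL t := by
  have h := phi_J (-t) n 0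
  rw [LL_zero, add_zero, zero_sub, neg_neg] at h
  exact h

variable (S : Str)

/-! ### Comparison -/

/-- PROOF: off `CX` and for `1/16 < b` one has `lam = 0` near `z` (`‖b‖ > 1/8` or `‖t‖ > 1/8`, or `b > 1/8`), so `vn = fX` near `z` (`vn_fX`). -/
theorem PPar.yn_out (P : PPar) {z : ℝ × ℝ × ℝ} (h : z ∈ XN) (hC : cov z ∉ CX) :
    OrdEq z (yn0 S) (P.yn S) := by
  refine OrdEq.of_comp id strictMono_id ?_
  filter_upwards [E0c_lam hC, E0c_cb.continuousAt.eventually_const_lt h.2.1] with w hw hw2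
  have h1 : P.vn w = fX w.1 := P.vn_fX hw (by rw [abs_of_pos (by linarith)]; linarith)
  show S.act w.1 w.2.1 (phi (-w.2.2) (P.vn w)) = S.act w.1 w.2.1 (phi (-w.2.2) (fX w.1))
  rw [h1]

/-- PROOF: the same, `yf_yf0` near `z` -/
theorem PPar.yf_out (P : PPar) {z : ℝ × ℝ × ℝ} (h : z ∈ XF) (hC : cov z ∉ CX) :
    OrdEq z P.yf0 P.yf := by
  refine OrdEq.of_comp id strictMono_id ?_
  filter_upwards [E0c_lam hC, E0c_cb.continuousAt.eventually_lt_const h.2.1] with w hw hw2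
  exact P.yf_yf0 hw (by rw [abs_of_neg (by linarith)]; linarith)

/-- PROOF: if `1/16 < b`: `E0_right` near `z`, `yn_left`, `yn_out`-like. Otherwise (`0 < b ≤ 1/16`, off `CX`) `‖a‖ < 3/16` and `t ∈ (1/8, 3/8)` near `z`
(`0 < t < 1`): `E0_flat` near `z`, and `yn0 = n + LL t` (`fX_P`, `phi_J`, `act_left`); `OrdEq.of_comp`. -/
theorem PPar.E0_out_n (P : PPar) {z : ℝ × ℝ × ℝ} (h : z ∈ XW) (hC : cov z ∉ CX)
    (hb : 0 < z.2.1) : OrdEq z (yn0 S) P.E0 := by
  have hb1 := abs_lt.1 h.1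
  have h0 : 0 < z.2.2 := h.2.1
  have h1 : z.2.2 < 1 := h.2.2.1
  rcases lt_or_ge (1 / 16) z.2.1 with hr | hr
  · refine OrdEq.of_comp P.em P.em.strictMono ?_
    filter_upwards [E0c_lam hC, E0c_cb.continuousAt.eventually_const_lt hr,
      E0c_cb.continuousAt.eventually_lt_const (show z.2.1 < 1 / 4 by linarith [hb1.2])]
      with w hw hw2 hw3
    have h2 : P.vn w = fX w.1 := P.vn_fX hw (by rw [abs_of_pos (by linarith)]; linarith)
    rw [P.E0_right hw2.le]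
    show P.em (phi (-w.2.2) (P.vn w)) = P.em (S.act w.1 w.2.1 (phi (-w.2.2) (fX w.1)))
    rw [S.act_left hw3.le, h2]
  · obtain ⟨n, hn⟩ := E0c_mid hC (by rw [abs_of_pos hb]; exact hr) h0 h1
    refine OrdEq.of_comp (fun y => n + P.em (y - n)) (fun y y' hy => ?_) ?_
    · have := P.em.strictMono (show y - n < y' - n by linarith)
      show (n : ℝ) + P.em (y - n) < n + P.em (y' - n)
      linarith
    · filter_upwards [hn] with w hw
      obtain ⟨w1, w2, w3, w4⟩ := hw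
      rw [P.E0_flat w1.le ⟨w2.le, w3.le⟩]
      have h2 : yn0 S w = n + LL w.2.2 := by
        show S.act w.1 w.2.1 (phi (-w.2.2) (fX w.1)) = n + LL w.2.2
        rw [S.act_left (by linarith [(abs_lt.1 w4).2]), fX_P w1.le, E0c_flow]
      show (n : ℝ) + P.em (LL w.2.2) = n + P.em (yn0 S w - n)
      rw [h2, add_sub_cancel_left]

/-- PROOF: `b < -1/16`: `E0_left`, `yf_yf0` near `z`. Otherwise `E0_flat`, and `yf0 = Φ t + n`. -/
theorem PPar.E0_out_f (P : PPar) {z : ℝ × ℝ × ℝ} (h : z ∈ XW) (hC : cov z ∉ CX)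
    (hb : z.2.1 < 0) : OrdEq z P.yf0 P.E0 := by
  have hb1 := abs_lt.1 h.1
  have h0 : 0 < z.2.2 := h.2.1
  have h1 : z.2.2 < 1 := h.2.2.1
  refine OrdEq.of_comp id strictMono_id ?_
  rcases lt_or_ge z.2.1 (-1 / 16) with hr | hr
  · filter_upwards [E0c_lam hC, E0c_cb.continuousAt.eventually_lt_const hr] with w hw hw2
    rw [P.E0_left hw2.le]
    exact P.yf_yf0 hw (by rw [abs_of_neg (by linarith)]; linarith)
  · obtain ⟨n, hn⟩ := E0c_mid hC (by rw [abs_of_neg hb]; linarith) h0 h1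
    filter_upwards [hn] with w hw
    obtain ⟨w1, w2, w3, w4⟩ := hw
    rw [P.E0_flat w1.le ⟨w2.le, w3.le⟩, P.agree _ ⟨w2.le, w3.le⟩]
    have h2 := abs_lt.1 w1
    have h3 : nf w.1 = n := nf_eq ⟨by linarith [h2.1], by linarith [h2.2]⟩
    show (n : ℝ) + P.Φ w.2.2 = P.Φ ((1 - g0 (w.1 - nf w.1)) * w.2.2 +
      g0 (w.1 - nf w.1) * fkk P.Φ w.2.2) + nf w.1
    rw [h3, g0_zero (by linarith [h2.2]), sub_zero, one_mul, zero_mul, add_zero, add_comm]

theorem PPar.E0_out_m (P : PPar) {z : ℝ × ℝ × ℝ} (h : z ∈ XW) (hC : cov z ∉ CX)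
    (hb : z.2.1 = 0) : OrdEq z (fun w => w.2.2) P.E0 := by
  have h0 : 0 < z.2.2 := h.2.1
  have h1 : z.2.2 < 1 := h.2.2.1
  obtain ⟨n, hn⟩ := E0c_mid hC (by rw [hb, abs_zero]; norm_num) h0 h1
  refine OrdEq.of_comp (fun s => n + P.em (LL s)) (fun s s' hs => ?_) ?_
  · have := P.em.strictMono (LL_mono hs)
    show (n : ℝ) + P.em (LL s) < n + P.em (LL s')
    linarith
  · filter_upwards [hn] with w hw
    exact P.E0_flat hw.1.le ⟨hw.2.1.le, hw.2.2.1.le⟩

theorem PPar.E0_n (P : PPar) {z : ℝ × ℝ × ℝ} (hb : 1 / 16 < z.2.1) (hb' : z.2.1 < 3 / 16) :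
    OrdEq z (P.yn S) P.E0 := by
  refine OrdEq.of_comp P.em P.em.strictMono ?_
  filter_upwards [E0c_cb.continuousAt.eventually_const_lt hb,
    E0c_cb.continuousAt.eventually_lt_const hb'] with w hw hw2
  rw [P.E0_right hw.le, P.yn_left S (by linarith)]

theorem PPar.E0_f (P : PPar) {z : ℝ × ℝ × ℝ} (hb : z.2.1 < -1 / 16) : OrdEq z P.yf P.E0 := by
  refine OrdEq.of_comp id strictMono_id ?_
  filter_upwards [E0c_cb.continuousAt.eventually_lt_const hb] with w hw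
  exact P.E0_left hw.le

theorem PPar.yn_tr_ord (P : PPar) (m k : ℤ) {z : ℝ × ℝ × ℝ} :
    OrdEq z (fun w => P.yn S (tr m 0 k w)) (P.yn S) := by
  refine (OrdEq.of_comp (fun y => phi (-k) y + m) (fun y y' hy => ?_)
    (Eventually.of_forall fun w => P.yn_tr S m k w)).symm
  have := phi_mono (-k : ℝ) hy
  show phi (-k) y + m < phi (-k) y' + m
  linarith

theorem PPar.yf_tr_ord (P : PPar) (m k : ℤ) {z : ℝ × ℝ × ℝ} :
    OrdEq z (fun w => P.yf (tr m 0 k w)) P.yf := by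
  have key : ∀ k : ℤ, OrdEq z (fun w => P.yf (tr 0 0 k w)) P.yf := by
    have step : ∀ k : ℤ, OrdEq z (fun w => P.yf (tr 0 0 k w)) (fun w => P.yf (tr 0 0 (k + 1) w)) := by
      intro k
      refine OrdEq.of_comp P.tf P.tf_mono (Eventually.of_forall fun w => ?_)
      rw [← P.yf_one]
      congr 1
      unfold tr
      ext <;> simp
      ring
    intro k
    induction k using Int.induction_on with
    | zero =>
      refine OrdEq.of_comp id strictMono_id (Eventually.of_forall fun w => ?_)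
      show P.yf w = P.yf (tr 0 0 0 w)
      congr 1
      unfold tr
      ext <;> simp
    | succ i ih => exact (step i).symm.trans ih
    | pred i ih =>
      have := step (-(i : ℤ) - 1)
      rw [sub_add_cancel] at this
      exact this.trans ih
  have h1 : OrdEq z (fun w => P.yf (tr 0 0 k w)) (fun w => P.yf (tr m 0 k w)) := by
    refine OrdEq.of_comp (fun y => y + m) (fun y y' hy => by
      show y + m < y' + m
      linarith) (Eventually.of_forall fun w => ?_)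
    show P.yf (tr m 0 k w) = P.yf (tr 0 0 k w) + m
    rw [← P.yf_add]
    congr 1
    unfold tr
    ext <;> simp
  exact h1.symm.trans (key k)

/-- GLUED HALF WALLS. PROOF: near `z` both `a` and `a + 1/2` are off `ℤ/2`, so `wl` is locally constant, and `3/8 < b, 1 - b`, `lam = 0`: `P.yn S z = act (3/8) (phi (-t) (fX a))` (a
homeomorphism applied to `phi (-t) (fX a)`), `P'.yn S' (..) = act' (3/8) (phi (t - c) (fX a + 1/2)) = act' (3/8) (phi (c) (phi (-t) (fX a)) + 1/2)` (`fX_half`, `phi_half`, `phi_add`). -/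
theorem yn_glue (P P' : PPar) (S S' : Str) {z : ℝ × ℝ × ℝ} (ha : |z.1 - 1 / 4| < 1 / 8)
    (hb : 3 / 8 < z.2.1) (hb' : z.2.1 < 5 / 8) (c : ℝ) (m n : ℤ) :
    OrdEq z (fun w => P'.yn S' (w.1 + 1 / 2 + m, 1 - w.2.1, c - w.2.2 + n)) (P.yn S) := by
  have ha1 := abs_lt.1 ha
  -- the common function
  obtain ⟨X, hX⟩ : ∃ X : ℝ × ℝ × ℝ → ℝ, X = fun w => phi (-w.2.2) (fX w.1) := ⟨_, rfl⟩
  have ev : ∀ᶠ w in 𝓝 z, 1 / 8 < w.1 ∧ w.1 < 3 / 8 ∧ 3 / 8 < w.2.1 ∧ w.2.1 < 5 / 8 := by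
    filter_upwards [E0c_ca.continuousAt.eventually_const_lt (show 1 / 8 < z.1 by linarith [ha1.1]),
      E0c_ca.continuousAt.eventually_lt_const (show z.1 < 3 / 8 by linarith [ha1.2]),
      E0c_cb.continuousAt.eventually_const_lt hb,
      E0c_cb.continuousAt.eventually_lt_const hb'] with w w1 w2 w3 w4
    exact ⟨w1, w2, w3, w4⟩
  have e1 : OrdEq z X (P.yn S) := by
    refine OrdEq.of_comp (S.act (1 / 4) (3 / 8)) (S.act_mono _ _) ?_
    filter_upwards [ev] with w hw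
    obtain ⟨w1, w2, w3, w4⟩ := hw
    have hl : lam w.2.1 w.2.2 = 0 :=
      lam_zero (le_max_of_le_left (E0c_le_norm ⟨by linarith, by linarith⟩))
    have hv : P.vn w = fX w.1 := P.vn_fX hl (by rw [abs_of_pos (by linarith)]; linarith)
    show S.act w.1 w.2.1 (phi (-w.2.2) (P.vn w)) = S.act (1 / 4) (3 / 8) (X w)
    rw [hv, S.act_right w3.le, hX]
    exact E0c_act S (by
      rw [E0c_wl (by linarith) (by linarith), E0c_wl (by norm_num) (by norm_num)])
  have e2 : OrdEq z X (fun w => P'.yn S' (w.1 + 1 / 2 + m, 1 - w.2.1, c - w.2.2 + n)) := by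
    refine OrdEq.of_comp (fun x => S'.act (3 / 4) (3 / 8) (phi (c + n) x + 1 / 2 + m))
      (fun x x' hx => ?_) ?_
    · have := phi_mono (c + n) hx
      exact S'.act_mono _ _ (by linarith)
    filter_upwards [ev] with w hw
    obtain ⟨w1, w2, w3, w4⟩ := hw
    have hl : lam (1 - w.2.1) (c - w.2.2 + n) = 0 :=
      lam_zero (le_max_of_le_left (E0c_le_norm ⟨by linarith, by linarith⟩))
    have hv : P'.vn (w.1 + 1 / 2 + m, 1 - w.2.1, c - w.2.2 + n) = fX w.1 + 1 / 2 + m := by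
      rw [P'.vn_fX (z := (w.1 + 1 / 2 + m, 1 - w.2.1, c - w.2.2 + n)) hl (by
        show 1 / 16 ≤ |1 - w.2.1|
        rw [abs_of_pos (by linarith)]; linarith)]
      show fX (w.1 + 1 / 2 + m) = _
      rw [fX_add, fX_half]
    have h1 : phi (-(c - w.2.2 + n)) (fX w.1 + 1 / 2 + m) =
        phi (c + n) (phi (-w.2.2) (fX w.1)) + 1 / 2 + m := by
      rw [phi_int, phi_half, neg_neg, ← phi_add]
      congr 3
      ring
    have h2 : S'.act (w.1 + 1 / 2 + m) (1 - w.2.1) (phi (-(c - w.2.2 + n)) (fX w.1 + 1 / 2 + m)) =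
        S'.act (3 / 4) (3 / 8) (phi (c + n) (phi (-w.2.2) (fX w.1)) + 1 / 2 + m) := by
      rw [h1, S'.act_a, S'.act_right (by linarith)]
      exact E0c_act S' (by
        rw [E0c_wl' (by linarith) (by linarith), E0c_wl' (by norm_num) (by norm_num)])
    have h3 := E0c_yn P' S' hv
    rw [h2] at h3
    rw [hX]
    exact h3
  exact e2.symm.trans e1

end Pool.Agent.H.MP_1611f1_gt.PA
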