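import Pool.Agent.H.MP_1611f1_gt.PA.ExBL

/-!
Existence of the numerical data: the extension of a function of an interval by a functional equation.
-/

namespace Pool.Agent.H.MP_1611f1_gt.PA

open Topology Set Filter

private theorem Exb_zero (tf : ℝ ≃o ℝ) (y : ℝ) : (tf ^ (0 : ℤ)) y = y := by
  rw [zpow_zero]
  rfl

private theorem Exb_succ (tf : ℝ ≃o ℝ) (k : ℤ) (y : ℝ) : (tf ^ (k + 1)) y = (tf ^ k) (tf y) := by
  rw [zpow_add_one]
  rfl

private theorem Exb_succ' (tf : ℝ ≃o ℝ) (k : ℤ) (y : ℝ) : (tf ^ (k + 1)) y = tf ((tf ^ k) y) := by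
  rw [add_comm, zpow_one_add]
  rfl

/-- `Φ (s + 1) = tf (Φ s)`. PROOF: `Φ s = tf ^ k (φ (s - k))` for `s - k ∈ [c, c + 1)`, `k = ⌊s - c⌋` (integer powers in the group `ℝ ≃o ℝ`); strictly increasing: on each closed piece `[c + k, c + k + 1]` the formula holds (`hc`), and adjacent pieces;
it tends to `± ∞` because `tf` moves up by at least `1/2`; a strictly increasing function which is unbounded and continuous (or: surjective, piecewise) is an order isomorphism (`StrictMono.orderIsoOfSurjective`). -/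
theorem exists_ext (tf : ℝ ≃o ℝ) (hm : ∀ y, y + 1 / 2 ≤ tf y) (c : ℝ) (φ : ℝ ≃o ℝ)
    (hc : φ (c + 1) = tf (φ c)) :
    ∃ Φ : ℝ ≃o ℝ, (∀ s ∈ Icc c (c + 1), Φ s = φ s) ∧ ∀ s, Φ (s + 1) = tf (Φ s) := by
  obtain ⟨F, hF⟩ : ∃ F : ℝ → ℝ, ∀ s, F s = (tf ^ ⌊s - c⌋) (φ (s - ⌊s - c⌋)) :=
    ⟨_, fun _ => rfl⟩
  obtain ⟨G, hG⟩ : ∃ G : ℤ → ℝ, ∀ j, G j = (tf ^ j) (φ c) := ⟨_, fun _ => rfl⟩
  have hFk : ∀ (k : ℤ) (s : ℝ), c + k ≤ s → s < c + k + 1 → F s = (tf ^ k) (φ (s - k)) := by
    intro k s h1 h2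
    have h3 : ⌊s - c⌋ = k := by
      rw [Int.floor_eq_iff]
      constructor <;> linarith
    rw [hF, h3]
  have hG1 : ∀ j, G (j + 1) = tf (G j) := fun j => by rw [hG, hG, Exb_succ']
  have hG2 : ∀ j, G j + 1 / 2 ≤ G (j + 1) := fun j => by rw [hG1]; exact hm _
  have hGm : Monotone G := monotone_int_of_le_succ fun j => by linarith [hG2 j]
  have hup : ∀ n : ℕ, G 0 + n / 2 ≤ G n := by
    intro n
    induction n with
    | zero => simp
    | succ n ih =>
      have h1 := hG2 n
      push_cast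
      linarith
  have hdn : ∀ n : ℕ, G (-(n : ℤ)) ≤ G 0 - n / 2 := by
    intro n
    induction n with
    | zero => simp
    | succ n ih =>
      have h1 := hG2 (-((n + 1 : ℕ) : ℤ))
      have e : -((n + 1 : ℕ) : ℤ) + 1 = -(n : ℤ) := by
        push_cast
        ring
      rw [e] at h1
      push_cast at h1 ⊢
      linarith
  have hFG : ∀ s, G ⌊s - c⌋ ≤ F s ∧ F s < G (⌊s - c⌋ + 1) := by
    intro s
    have h1 := Int.floor_le (s - c)
    have h2 := Int.lt_floor_add_one (s - c)
    constructor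
    · rw [hG, hF]
      exact (tf ^ ⌊s - c⌋).monotone (φ.monotone (by linarith))
    · rw [hG, hF, Exb_succ, ← hc]
      exact (tf ^ ⌊s - c⌋).strictMono (φ.strictMono (by linarith))
  have hmono : StrictMono F := by
    intro s s' hs
    have hk : ⌊s - c⌋ ≤ ⌊s' - c⌋ := Int.floor_le_floor (by linarith)
    rcases eq_or_lt_of_le hk with h1 | h1
    · rw [hF, hF, h1]
      exact (tf ^ ⌊s' - c⌋).strictMono (φ.strictMono (by linarith))
    · exact (hFG s).2.trans_le ((hGm (Int.add_one_le_iff.2 h1)).trans (hFG s').1)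
  have hsurj : Function.Surjective F := by
    intro y
    obtain ⟨j, hj1, hj2⟩ : ∃ j : ℤ, G j ≤ y ∧ ∀ i : ℤ, G i ≤ y → i ≤ j := by
      refine Int.exists_greatest_of_bdd ?_ ?_
      · obtain ⟨n, hn⟩ := exists_nat_ge (2 * (y - G 0))
        refine ⟨n, fun i hi => ?_⟩
        by_contra hc'
        rw [not_le] at hc'
        have h1 := hGm (Int.add_one_le_iff.2 hc')
        have h2 := hG2 n
        have h3 := hup n
        linarith
      · obtain ⟨n, hn⟩ := exists_nat_ge (2 * (G 0 - y))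
        refine ⟨-(n : ℤ), ?_⟩
        have h3 := hdn n
        linarith
    have hj3 : y < G (j + 1) := by
      by_contra hc'
      rw [not_lt] at hc'
      have := hj2 _ hc'
      omega
    rw [hG] at hj1
    rw [hG, Exb_succ, ← hc] at hj3
    refine ⟨φ.symm ((tf ^ j).symm y) + j, ?_⟩
    have h1 : c ≤ φ.symm ((tf ^ j).symm y) := by
      rw [φ.le_symm_apply, (tf ^ j).le_symm_apply]
      exact hj1
    have h2 : φ.symm ((tf ^ j).symm y) < c + 1 := by
      rw [φ.symm_apply_lt, (tf ^ j).symm_apply_lt]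
      exact hj3
    rw [hFk j _ (by linarith) (by linarith), add_sub_cancel_right, φ.apply_symm_apply,
      (tf ^ j).apply_symm_apply]
  refine ⟨StrictMono.orderIsoOfSurjective F hmono hsurj, ?_, ?_⟩
  · intro s hs
    show F s = φ s
    rcases lt_or_eq_of_le hs.2 with h1 | h1
    · rw [hFk 0 s (by rw [Int.cast_zero, add_zero]; exact hs.1)
        (by rw [Int.cast_zero, add_zero]; exact h1), Exb_zero, Int.cast_zero, sub_zero]
    · rw [hFk 1 s (by rw [Int.cast_one]; exact h1.ge) (by rw [Int.cast_one]; linarith)]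
      have h2 := Exb_succ tf 0 (φ (s - ((1 : ℤ) : ℝ)))
      rw [zero_add, Exb_zero] at h2
      rw [h2, Int.cast_one, h1, add_sub_cancel_right, hc]
  · intro s
    show F (s + 1) = tf (F s)
    have h1 : ⌊s + 1 - c⌋ = ⌊s - c⌋ + 1 := by
      rw [show s + 1 - c = s - c + 1 by ring, Int.floor_add_one]
    rw [hF, hF, h1, Exb_succ']
    congr 3
    push_cast
    ring

/-- PROOF: by induction `BL Φ (Icc (c - n) (c + 1 + n))` (`BL.union`): on `[c - n - 1, c - n]` `Φ s = tf.symm (Φ (s + 1))`, on `[c + 1 + n, c + 2 + n]` `Φ s = tf (Φ (s - 1))` (`BL.comp`). -/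
theorem ext_BL {tf φ Φ : ℝ ≃o ℝ} {c : ℝ} (ht : BL tf univ) (hφ : BL φ univ)
    (h1 : ∀ s ∈ Icc c (c + 1), Φ s = φ s) (h2 : ∀ s, Φ (s + 1) = tf (Φ s)) (R : ℝ) :
    BL Φ (Icc (-R) R) := by
  have key : ∀ n : ℕ, BL Φ (Icc (c - n) (c + 1 + n)) := by
    intro n
    induction n with
    | zero =>
      rw [Nat.cast_zero, sub_zero, add_zero]
      exact (hφ.mono (subset_univ _)).congr h1
    | succ n ih =>
      have hn : (0 : ℝ) ≤ n := Nat.cast_nonneg n
      have a1 : BL Φ (Icc (c + 1 + n) (c + 2 + n)) := by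
        have b1 : BL (fun x => 1 * x + -1) (Icc (c + 1 + n) (c + 2 + n)) := BL_affine one_pos _
        have b2 := b1.comp ih (fun x hx => ⟨by linarith [hx.1], by linarith [hx.2]⟩)
        have b3 := b2.comp ht (mapsTo_univ _ _)
        refine b3.congr fun x _ => ?_
        rw [← h2]
        congr 1
        ring
      have a2 : BL Φ (Icc (c - n - 1) (c - n)) := by
        have b1 : BL (fun x => 1 * x + 1) (Icc (c - n - 1) (c - n)) := BL_affine one_pos _
        have b2 := b1.comp ih (fun x hx => ⟨by linarith [hx.1], by linarith [hx.2]⟩)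
        have b3 := b2.comp ht.symm (mapsTo_univ _ _)
        refine b3.congr fun x _ => ?_
        rw [one_mul, h2, tf.symm_apply_apply]
      have a3 := a2.union ih (c := c - n) (right_mem_Icc.2 (by linarith))
        (left_mem_Icc.2 (by linarith)) (fun x hx => hx.2) (fun x hx => hx.1)
      have a4 := a3.union a1 (c := c + 1 + n) (Or.inr (right_mem_Icc.2 (by linarith)))
        (left_mem_Icc.2 (by linarith))
        (fun x hx => hx.elim (fun h => h.2.trans (by linarith)) (fun h => h.2))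
        (fun x hx => hx.1)
      refine a4.mono fun x hx => ?_
      rw [mem_Icc] at hx
      push_cast at hx
      rcases le_total x (c - n) with c1 | c1
      · exact Or.inl (Or.inl ⟨by linarith [hx.1], c1⟩)
      · rcases le_total x (c + 1 + n) with c2 | c2
        · exact Or.inl (Or.inr ⟨c1, c2⟩)
        · exact Or.inr ⟨c2, by linarith [hx.2]⟩
  obtain ⟨n, hn⟩ := exists_nat_ge (|c| + |R|)
  refine (key n).mono (Icc_subset_Icc ?_ ?_)
  · linarith [le_abs_self c, le_abs_self R]
  · linarith [neg_abs_le c, le_abs_self R]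

end Pool.Agent.H.MP_1611f1_gt.PA
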