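import Pool.Agent.H.MP_1611f1_gt.PA.Exa

/-!
Existence of the numerical data: the function `Φ` on one period.
-/

namespace Pool.Agent.H.MP_1611f1_gt.PA

open Topology Set Filter
open Pool.Agent.H.MP_1611f1_gt.TW

/-- `f` up to `c`, then `g` -/
private noncomputable def Exc_glue (f g : ℝ → ℝ) (c x : ℝ) : ℝ := if x ≤ c then f x else g x

private theorem Exc_glue_le {f g : ℝ → ℝ} {c x : ℝ} (h : x ≤ c) : Exc_glue f g c x = f x :=
  if_pos h

private theorem Exc_glue_ge {f g : ℝ → ℝ} {c x : ℝ} (e : f c = g c) (h : c ≤ x) :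
    Exc_glue f g c x = g x := by
  rcases eq_or_lt_of_le h with h1 | h1
  · rw [← h1, Exc_glue_le le_rfl, e]
  · exact if_neg (not_le.2 h1)

private theorem Exc_step {f g : ℝ → ℝ} {c d : ℝ} (hcd : c ≤ d) (e : f c = g c) (hf : BL f (Iic c))
    (hg : BL g (Icc c d)) : BL (Exc_glue f g c) (Iic d) := by
  have h1 : BL (Exc_glue f g c) (Iic c) := hf.congr fun x hx => Exc_glue_le hx
  have h2 : BL (Exc_glue f g c) (Icc c d) := hg.congr fun x hx => Exc_glue_ge e hx.1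
  have h3 := h1.union h2 (c := c) self_mem_Iic (left_mem_Icc.2 hcd) (fun x hx => hx) (fun x hx => hx.1)
  rwa [Iic_union_Icc_eq_Iic hcd] at h3

private theorem Exc_last {f g : ℝ → ℝ} {c : ℝ} (e : f c = g c) (hf : BL f (Iic c))
    (hg : BL g (Ici c)) : BL (Exc_glue f g c) univ := by
  have h1 : BL (Exc_glue f g c) (Iic c) := hf.congr fun x hx => Exc_glue_le hx
  have h2 : BL (Exc_glue f g c) (Ici c) := hg.congr fun x hx => Exc_glue_ge e hx
  have h3 := h1.union h2 (c := c) self_mem_Iic self_mem_Ici (fun x hx => hx) (fun x hx => hx)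
  rwa [Iic_union_Ici] at h3

private theorem Exc_iso {f : ℝ → ℝ} (h : BL f univ) : ∃ e : ℝ ≃o ℝ, ∀ x, e x = f x := by
  obtain ⟨⟨δ, hδ, h1⟩, L, hL, h2⟩ := h
  have hmono : StrictMono f := by
    intro x y hxy
    have h3 := h1 x trivial y trivial hxy.le
    have h4 : 0 < δ * (y - x) := mul_pos hδ (sub_pos.2 hxy)
    linarith
  have hcont : Continuous f := by
    refine (LipschitzWith.of_dist_le_mul (K := ⟨L, hL.le⟩) fun x y => ?_).continuous
    rw [Real.dist_eq, Real.dist_eq]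
    show |f x - f y| ≤ L * |x - y|
    rcases le_total x y with hxy | hxy
    · rw [abs_sub_comm (f x), abs_sub_comm x, abs_of_nonneg (sub_nonneg.2 (hmono.monotone hxy)),
        abs_of_nonneg (sub_nonneg.2 hxy)]
      exact h2 x trivial y trivial hxy
    · rw [abs_of_nonneg (sub_nonneg.2 (hmono.monotone hxy)), abs_of_nonneg (sub_nonneg.2 hxy)]
      exact h2 y trivial x trivial hxy
  have htop : Tendsto f atTop atTop := by
    have h3 : Tendsto (fun x : ℝ => δ * x + f 0) atTop atTop :=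
      tendsto_atTop_add_const_right _ _ (tendsto_id.const_mul_atTop hδ)
    refine tendsto_atTop_mono' _ ?_ h3
    filter_upwards [eventually_ge_atTop (0 : ℝ)] with x hx
    have h4 := h1 0 trivial x trivial hx
    linarith
  have hbot : Tendsto f atBot atBot := by
    have h3 : Tendsto (fun x : ℝ => δ * x + f 0) atBot atBot :=
      tendsto_atBot_add_const_right _ _ (tendsto_id.const_mul_atBot hδ)
    refine tendsto_atBot_mono' _ ?_ h3
    filter_upwards [eventually_le_atBot (0 : ℝ)] with x hx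
    have h4 := h1 x trivial 0 trivial hx
    linarith
  exact ⟨hmono.orderIsoOfSurjective f (hcont.surjective htop hbot), fun x => rfl⟩

/-- PROOF: `φ s = LL (1/8) + (s - 1/8)` for `s ≤ 1/8`; `LL s` on `[1/8, 3/8]` (`LL (3/8) = 3/44`); linear on `[3/8, 1/2]` up to `11/28`; `(1/2 - 2/21) + 2/21 (s - 5/8)` on `[1/2, 3/4]` (`11/28` at `1/2`, `5/12` at `3/4`);
linear on `[3/4, 1]` up to `1`; linear on `[1, 9/8]` up to `9/68 + μ` (`> 1`); slope `1` for `9/8 ≤ s`. `BL` on each piece, `BL.union`; then strictly increasing, continuous, unbounded: an order isomorphism. -/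
theorem exists_pl5 {μ : ℝ} (h : 1 ≤ μ) : ∃ φ : ℝ ≃o ℝ, BL φ univ ∧
    (∀ s ∈ Icc (1 / 8 : ℝ) (3 / 8), φ s = LL s) ∧
    (∀ r, |r| ≤ 1 / 8 → φ (5 / 8 + r) = (1 / 2 - 2 / 21) + 2 / 21 * r) ∧ φ 1 = 1 ∧
    φ (9 / 8) = 9 / 68 + μ := by
  have l1 : LL (1 / 8) = 1 / 36 := by
    unfold LL
    norm_num [abs_of_pos]
  have l3 : LL (3 / 8) = 3 / 44 := by
    unfold LL
    norm_num [abs_of_pos]
  have hk : 0 < 8 * (9 / 68 + μ - 1) := by linarith
  let k : ℝ := 8 * (9 / 68 + μ - 1)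
  let f1 : ℝ → ℝ := fun x => 1 * x + (1 / 36 - 1 / 8)
  let f2 : ℝ → ℝ := Exc_glue f1 LL (1 / 8)
  let f3 : ℝ → ℝ := Exc_glue f2 (fun x => 200 / 77 * x + -279 / 308) (3 / 8)
  let f4 : ℝ → ℝ := Exc_glue f3 (fun x => 2 / 21 * x + 29 / 84) (1 / 2)
  let f5 : ℝ → ℝ := Exc_glue f4 (fun x => 7 / 3 * x + -4 / 3) (3 / 4)
  let f6 : ℝ → ℝ := Exc_glue f5 (fun x => k * x + (1 - k)) 1
  let f7 : ℝ → ℝ := Exc_glue f6 (fun x => 1 * x + (9 / 68 + μ - 9 / 8)) (9 / 8)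
  have b1 : BL f1 (Iic (1 / 8)) := BL_affine one_pos _
  have e1 : f1 (1 / 8) = LL (1 / 8) := by
    rw [l1]
    show 1 * (1 / 8 : ℝ) + (1 / 36 - 1 / 8) = 1 / 36
    norm_num
  have b2 : BL f2 (Iic (3 / 8)) :=
    Exc_step (by norm_num) e1 b1 ((LL_BL 1).mono (Icc_subset_Icc (by norm_num) (by norm_num)))
  have v2 : ∀ x : ℝ, 1 / 8 ≤ x → f2 x = LL x := fun x hx => Exc_glue_ge e1 hx
  have e2 : f2 (3 / 8) = (fun x : ℝ => 200 / 77 * x + -279 / 308) (3 / 8) := by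
    rw [v2 _ (by norm_num), l3]
    norm_num
  have b3 : BL f3 (Iic (1 / 2)) := Exc_step (by norm_num) e2 b2 (BL_affine (by norm_num) _)
  have v3 : ∀ x : ℝ, 3 / 8 ≤ x → f3 x = 200 / 77 * x + -279 / 308 := fun x hx => Exc_glue_ge e2 hx
  have e3 : f3 (1 / 2) = (fun x : ℝ => 2 / 21 * x + 29 / 84) (1 / 2) := by
    rw [v3 _ (by norm_num)]
    norm_num
  have b4 : BL f4 (Iic (3 / 4)) := Exc_step (by norm_num) e3 b3 (BL_affine (by norm_num) _)
  have v4 : ∀ x : ℝ, 1 / 2 ≤ x → f4 x = 2 / 21 * x + 29 / 84 := fun x hx => Exc_glue_ge e3 hx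
  have e4 : f4 (3 / 4) = (fun x : ℝ => 7 / 3 * x + -4 / 3) (3 / 4) := by
    rw [v4 _ (by norm_num)]
    norm_num
  have b5 : BL f5 (Iic 1) := Exc_step (by norm_num) e4 b4 (BL_affine (by norm_num) _)
  have v5 : ∀ x : ℝ, 3 / 4 ≤ x → f5 x = 7 / 3 * x + -4 / 3 := fun x hx => Exc_glue_ge e4 hx
  have e5 : f5 1 = (fun x : ℝ => k * x + (1 - k)) 1 := by
    rw [v5 _ (by norm_num)]
    show 7 / 3 * (1 : ℝ) + -4 / 3 = k * 1 + (1 - k)
    ring
  have b6 : BL f6 (Iic (9 / 8)) := Exc_step (by norm_num) e5 b5 (BL_affine hk _)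
  have v6 : ∀ x : ℝ, 1 ≤ x → f6 x = k * x + (1 - k) := fun x hx => Exc_glue_ge e5 hx
  have e6 : f6 (9 / 8) = (fun x : ℝ => 1 * x + (9 / 68 + μ - 9 / 8)) (9 / 8) := by
    rw [v6 _ (by norm_num)]
    show 8 * (9 / 68 + μ - 1) * (9 / 8 : ℝ) + (1 - 8 * (9 / 68 + μ - 1)) =
      1 * (9 / 8) + (9 / 68 + μ - 9 / 8)
    ring
  have b7 : BL f7 univ := Exc_last e6 b6 (BL_affine one_pos _)
  obtain ⟨φ, hφ⟩ := Exc_iso b7
  have w6 : ∀ x : ℝ, x ≤ 9 / 8 → φ x = f6 x := fun x hx => (hφ x).trans (Exc_glue_le hx)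
  have w5 : ∀ x : ℝ, x ≤ 1 → φ x = f5 x := fun x hx =>
    (w6 x (hx.trans (by norm_num))).trans (Exc_glue_le hx)
  have w4 : ∀ x : ℝ, x ≤ 3 / 4 → φ x = f4 x := fun x hx =>
    (w5 x (hx.trans (by norm_num))).trans (Exc_glue_le hx)
  have w3 : ∀ x : ℝ, x ≤ 1 / 2 → φ x = f3 x := fun x hx =>
    (w4 x (hx.trans (by norm_num))).trans (Exc_glue_le hx)
  have w2 : ∀ x : ℝ, x ≤ 3 / 8 → φ x = f2 x := fun x hx =>
    (w3 x (hx.trans (by norm_num))).trans (Exc_glue_le hx)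
  refine ⟨φ, b7.congr fun x _ => hφ x, fun s hs => ?_, fun r hr => ?_, ?_, ?_⟩
  · rw [w2 s hs.2, v2 s hs.1]
  · obtain ⟨h1, h2⟩ := abs_le.1 hr
    rw [w4 _ (by linarith), v4 _ (by linarith)]
    ring
  · rw [w5 1 le_rfl, v5 1 (by norm_num)]
    norm_num
  · rw [w6 _ le_rfl, v6 _ (by norm_num)]
    show 8 * (9 / 68 + μ - 1) * (9 / 8 : ℝ) + (1 - 8 * (9 / 68 + μ - 1)) = 9 / 68 + μ
    ring

end Pool.Agent.H.MP_1611f1_gt.PA
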