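import Pool.Agent.H.MP_1611f1_gt.PA.Defs

/-!
The functions of one variable: the other ones.
-/

namespace Pool.Agent.H.MP_1611f1_gt.PA

open Topology Set Filter
open Pool.Agent.H.MP_1611f1_gt.BR.U (Ci)
open Pool.Agent.H.MP_1611f1_gt.TW

private theorem FXb_al_pos {b : ℝ} (h : -1 / 16 < b) : 0 < al b := by
  unfold al
  refine mul_pos Real.pi_pos ?_
  unfold chi
  exact lt_max_of_lt_right (lt_min one_pos (by linarith))

private theorem FXb_al_lt {b : ℝ} (h : b < 1 / 16) : al b < Real.pi := by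
  unfold al
  have h1 : chi (16 * b) < 1 := by
    unfold chi
    exact max_lt one_pos ((min_le_right _ _).trans_lt (by linarith))
  have h2 := Real.pi_pos
  nlinarith

private theorem FXb_norm_le (x : ℝ) : ‖(x : Ci)‖ ≤ |x| := by
  have h : ‖(x : Ci)‖ = |x - round x| := UnitAddCircle.norm_eq
  rw [h]
  have := round_le x 0
  rwa [Int.cast_zero, sub_zero] at this

private theorem FXb_clamp_lip (x y : ℝ) : |max 0 (min 1 x) - max 0 (min 1 y)| ≤ |x - y| := by
  have h1 := abs_max_sub_max_le_max (0 : ℝ) (min 1 x) 0 (min 1 y)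
  have h2 := abs_min_sub_min_le_max (1 : ℝ) x 1 y
  rw [sub_self, abs_zero] at h1 h2
  exact (h1.trans (max_le (abs_nonneg _) le_rfl)).trans (h2.trans (max_le (abs_nonneg _) le_rfl))

private theorem FXb_om_lip (t t' : ℝ) : |om t - om t'| ≤ 16 * |t - t'| := by
  have h1 : |‖((t - 5 / 8 : ℝ) : Ci)‖ - ‖((t' - 5 / 8 : ℝ) : Ci)‖| ≤ |t - t'| := by
    refine (abs_norm_sub_norm_le ((t - 5 / 8 : ℝ) : Ci) ((t' - 5 / 8 : ℝ) : Ci)).trans ?_
    rw [← AddCircle.coe_sub]
    refine (FXb_norm_le _).trans (le_of_eq ?_)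
    congr 1
    ring
  have h2 := FXb_clamp_lip (2 - 16 * ‖((t - 5 / 8 : ℝ) : Ci)‖) (2 - 16 * ‖((t' - 5 / 8 : ℝ) : Ci)‖)
  rw [show 2 - 16 * ‖((t - 5 / 8 : ℝ) : Ci)‖ - (2 - 16 * ‖((t' - 5 / 8 : ℝ) : Ci)‖) =
    (-16) * (‖((t - 5 / 8 : ℝ) : Ci)‖ - ‖((t' - 5 / 8 : ℝ) : Ci)‖) by ring, abs_mul,
    show |(-16 : ℝ)| = 16 by norm_num] at h2
  unfold om
  linarith

/-! ### the functions of `b` -/

theorem al_cont : Continuous al := by
  have h := chi_cont
  unfold al
  fun_prop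

theorem al_mem (b : ℝ) : al b ∈ Icc 0 Real.pi := by
  have h1 := chi_nonneg (16 * b)
  have h2 := chi_le_one (16 * b)
  have h3 := Real.pi_pos
  unfold al
  exact ⟨mul_nonneg h3.le h1, by nlinarith⟩

theorem al_zero {b : ℝ} (h : b ≤ -1 / 16) : al b = 0 := by
  unfold al
  rw [chi_zero (by linarith), mul_zero]

theorem al_pi {b : ℝ} (h : 1 / 16 ≤ b) : al b = Real.pi := by
  unfold al
  rw [chi_one (by linarith), mul_one]

theorem ch_cont : Continuous ch := by
  have h := al_cont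
  unfold ch
  fun_prop

theorem ch_mem (b : ℝ) : ch b ∈ Icc (0 : ℝ) 1 := by
  have h1 := Real.neg_one_le_cos (al b)
  have h2 := Real.cos_le_one (al b)
  unfold ch
  constructor <;> linarith

theorem ch_zero {b : ℝ} (h : b ≤ -1 / 16) : ch b = 0 := by
  unfold ch
  rw [al_zero h, Real.cos_zero]
  norm_num

theorem ch_one {b : ℝ} (h : 1 / 16 ≤ b) : ch b = 1 := by
  unfold ch
  rw [al_pi h, Real.cos_pi]
  norm_num

theorem ch_pos {b : ℝ} (h : -1 / 16 < b) : 0 < ch b := by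
  have h1 := FXb_al_pos h
  have h2 := Real.cos_lt_cos_of_nonneg_of_le_pi le_rfl (al_mem b).2 h1
  rw [Real.cos_zero] at h2
  unfold ch
  linarith

theorem rh_cont : Continuous rh := by
  have h := al_cont
  unfold rh
  fun_prop

theorem rh_mem (b : ℝ) : rh b ∈ Icc (0 : ℝ) 1 := by
  unfold rh
  exact ⟨Real.sin_nonneg_of_mem_Icc (al_mem b), Real.sin_le_one _⟩

theorem rh_zero {b : ℝ} (h : 1 / 16 ≤ |b|) : rh b = 0 := by
  unfold rh
  rcases le_abs.1 h with h1 | h1
  · rw [al_pi h1, Real.sin_pi]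
  · rw [al_zero (by linarith), Real.sin_zero]

theorem rh_pos {b : ℝ} (h : |b| < 1 / 16) : 0 < rh b := by
  obtain ⟨h1, h2⟩ := abs_lt.1 h
  unfold rh
  exact Real.sin_pos_of_pos_of_lt_pi (FXb_al_pos (by linarith)) (FXb_al_lt h2)

/-! ### the function of `t` -/

theorem om_cont : Continuous om := by
  refine (LipschitzWith.of_dist_le_mul (K := 16) fun t t' => ?_).continuous
  rw [Real.dist_eq, Real.dist_eq]
  simpa using FXb_om_lip t t'

theorem om_mem (t : ℝ) : om t ∈ Icc (0 : ℝ) 1 := by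
  unfold om
  exact ⟨le_max_left _ _, max_le zero_le_one (min_le_left _ _)⟩

theorem om_add (t : ℝ) (k : ℤ) : om (t + k) = om t := by
  unfold om
  rw [show t + k - 5 / 8 = (t - 5 / 8) + k by ring, AddCircle.coe_add]
  have h : (((k : ℝ)) : Ci) = 0 := by
    rw [AddCircle.coe_eq_zero_iff]
    exact ⟨k, by simp⟩
  rw [h, add_zero]

theorem om_lip (t t' : ℝ) : |om t - om t'| ≤ 16 * |t - t'| :=
  FXb_om_lip t t'

theorem om_one {t : ℝ} (h : |t - 5 / 8| ≤ 1 / 16) : om t = 1 := by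
  have h1 := (FXb_norm_le (t - 5 / 8)).trans h
  unfold om
  rw [min_eq_left (by linarith), max_eq_right zero_le_one]

/-- positive only near `5/8`, mod `1` -/
theorem om_pos {t : ℝ} (h : 0 < om t) : ∃ k : ℤ, |t - (5 / 8 + k)| < 1 / 8 := by
  refine ⟨round (t - 5 / 8), ?_⟩
  by_contra h1
  push Not at h1
  have h2 : ‖((t - 5 / 8 : ℝ) : Ci)‖ = |t - 5 / 8 - round (t - 5 / 8)| := UnitAddCircle.norm_eq
  rw [show t - (5 / 8 + (round (t - 5 / 8) : ℝ)) = t - 5 / 8 - round (t - 5 / 8) by ring, ← h2] at h1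
  have h3 : om t = 0 := by
    unfold om
    exact max_eq_left ((min_le_right _ _).trans (by linarith))
  linarith

theorem om_zero {t : ℝ} {k : ℤ} (h : t - k ∈ Icc (-1 / 4 : ℝ) (1 / 2)) : om t = 0 := by
  by_contra h1
  have h2 : 0 < om t := lt_of_le_of_ne (om_mem t).1 (Ne.symm h1)
  obtain ⟨j, hj⟩ := om_pos h2
  obtain ⟨h3, h4⟩ := abs_lt.1 hj
  obtain ⟨h5, h6⟩ := h
  have h7 : ((k : ℤ) : ℝ) < j + 1 := by linarith
  have h8 : ((j : ℤ) : ℝ) < k := by linarith
  have h9 : k < j + 1 := by exact_mod_cast h7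
  have h10 : j < k := by exact_mod_cast h8
  omega

/-! ### `g0` and `z2` -/

theorem g0_cont : Continuous g0 := by
  unfold g0
  fun_prop

theorem g0_mono : Monotone g0 := by
  intro a a' h
  unfold g0
  exact max_le_max le_rfl (min_le_min le_rfl (by linarith))

theorem g0_mem (a : ℝ) : g0 a ∈ Icc (0 : ℝ) 1 := by
  unfold g0
  exact ⟨le_max_left _ _, max_le zero_le_one (min_le_left _ _)⟩

theorem g0_zero {a : ℝ} (h : a ≤ 11 / 16) : g0 a = 0 := by
  unfold g0
  exact max_eq_left ((min_le_right _ _).trans (by linarith))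

theorem g0_one {a : ℝ} (h : 13 / 16 ≤ a) : g0 a = 1 := by
  unfold g0
  rw [min_eq_left (by linarith), max_eq_right zero_le_one]

theorem z2_cont : Continuous z2 := by
  unfold z2
  fun_prop

theorem z2_mono : Monotone z2 := by
  intro a a' h
  unfold z2
  exact max_le_max le_rfl (min_le_min le_rfl (by linarith))

theorem z2_abs (a : ℝ) : |z2 a| ≤ 1 / 32 := by
  unfold z2
  rw [abs_le]
  exact ⟨le_trans (by norm_num) (le_max_left _ _), max_le (by norm_num) (min_le_left _ _)⟩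

theorem z2_id {a : ℝ} (h : |a - 1 / 2| ≤ 1 / 32) : z2 a = a - 1 / 2 := by
  obtain ⟨h1, h2⟩ := abs_le.1 h
  unfold z2
  rw [min_eq_right h2, max_eq_right (by linarith)]

theorem z2_lo {a : ℝ} (h : a ≤ 15 / 32) : z2 a = -1 / 32 := by
  unfold z2
  exact max_eq_left ((min_le_right _ _).trans (by linarith))

theorem z2_hi {a : ℝ} (h : 17 / 32 ≤ a) : z2 a = 1 / 32 := by
  unfold z2
  rw [min_eq_left (by linarith), max_eq_right (by norm_num)]

/-! ### `nf` -/

theorem nf_add (a : ℝ) (n : ℤ) : nf (a + n) = nf a + n := by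
  unfold nf
  rw [show a + n + 3 / 16 = (a + 3 / 16) + n by ring, Int.floor_add_intCast]

theorem nf_mem (a : ℝ) : a - nf a ∈ Ico (-3 / 16 : ℝ) (13 / 16) := by
  have h1 := Int.floor_le (a + 3 / 16)
  have h2 := Int.lt_floor_add_one (a + 3 / 16)
  unfold nf
  constructor <;> linarith

theorem nf_eq {a : ℝ} {n : ℤ} (h : a - n ∈ Ico (-3 / 16 : ℝ) (13 / 16)) : nf a = n := by
  obtain ⟨h1, h2⟩ := h
  unfold nf
  rw [Int.floor_eq_iff]
  constructor <;> linarith

end Pool.Agent.H.MP_1611f1_gt.PA
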