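import Pool.Agent.H.MP_1611f1_gt.PA.ExBL
import Pool.Agent.H.MP_1611f1_gt.PA.FX

/-!
Existence of the numerical data: the size of the perturbation.
-/

namespace Pool.Agent.H.MP_1611f1_gt.PA

open Topology Set Filter
open Pool.Agent.H.MP_1611f1_gt.TW

private theorem Exd_per {f : ℝ → ℝ} (hper : ∀ s (k : ℤ), f (s + k) = f s + k)
    (h : BL f (Icc 0 1)) : BL f univ := by
  obtain ⟨⟨δ, hδ, h1⟩, L, hL, h2⟩ := h
  have h01 : f 1 = f 0 + 1 := by
    have := hper 0 1
    simpa using this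
  have m0 : (0 : ℝ) ∈ Icc (0 : ℝ) 1 := ⟨le_rfl, zero_le_one⟩
  have m1 : (1 : ℝ) ∈ Icc (0 : ℝ) 1 := ⟨zero_le_one, le_rfl⟩
  have hδ1 : δ ≤ 1 := by
    have := h1 0 m0 1 m1 zero_le_one
    linarith
  have hL1 : 1 ≤ L := by
    have := h2 0 m0 1 m1 zero_le_one
    linarith
  have key : ∀ (n : ℤ) (x y : ℝ), (n : ℝ) ≤ x → x ≤ y → y ≤ n + 1 →
      δ * (y - x) ≤ f y - f x ∧ f y - f x ≤ L * (y - x) := by
    intro n x y hx hxy hy
    have mx : x - n ∈ Icc (0 : ℝ) 1 := ⟨by linarith, by linarith⟩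
    have my : y - n ∈ Icc (0 : ℝ) 1 := ⟨by linarith, by linarith⟩
    have ex : f x = f (x - n) + n := by
      have := hper (x - n) n
      rwa [sub_add_cancel] at this
    have ey : f y = f (y - n) + n := by
      have := hper (y - n) n
      rwa [sub_add_cancel] at this
    have a1 := h1 _ mx _ my (by linarith)
    have a2 := h2 _ mx _ my (by linarith)
    have e : y - n - (x - n) = y - x := by ring
    rw [e] at a1 a2
    rw [ex, ey]
    constructor <;> linarith
  have all : ∀ x y : ℝ, x ≤ y → δ * (y - x) ≤ f y - f x ∧ f y - f x ≤ L * (y - x) := by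
    intro x y hxy
    have fx := Int.floor_le x
    have fx' := (Int.lt_floor_add_one x).le
    have fy := Int.floor_le y
    have fy' := (Int.lt_floor_add_one y).le
    rcases eq_or_lt_of_le (Int.floor_le_floor hxy) with e | e
    · refine key ⌊x⌋ x y fx hxy ?_
      rw [e]
      exact fy'
    · have e1 : ⌊x⌋ + 1 ≤ ⌊y⌋ := e
      have e2 : (⌊x⌋ : ℝ) + 1 ≤ ⌊y⌋ := by exact_mod_cast e1
      have b1 := key ⌊x⌋ x (⌊x⌋ + 1) fx fx' le_rfl
      have b2 := key ⌊y⌋ ⌊y⌋ y le_rfl fy fy'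
      have b3 : f (⌊x⌋ + 1) = f 0 + (⌊x⌋ + 1) := by
        have := hper 0 (⌊x⌋ + 1)
        push_cast at this
        rwa [zero_add] at this
      have b4 : f ⌊y⌋ = f 0 + ⌊y⌋ := by
        have := hper 0 ⌊y⌋
        rwa [zero_add] at this
      have b5 : (0 : ℝ) ≤ ⌊y⌋ - (⌊x⌋ + 1) := by linarith
      have b6 := mul_le_mul_of_nonneg_right hδ1 b5
      have b7 := mul_le_mul_of_nonneg_right hL1 b5
      constructor
      · have := b1.1
        have := b2.1
        nlinarith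
      · have := b1.2
        have := b2.2
        nlinarith
  exact ⟨⟨δ, hδ, fun x _ y _ hxy => (all x y hxy).1⟩, L, hL, fun x _ y _ hxy => (all x y hxy).2⟩

/-- PROOF: `fkk Φ s = Φ.symm (Φ s + 1)`: `BL` on `[0, 1]` (`BL.comp`, `BL.symm_Icc` on a large interval), then on `ℝ` by `hper`. -/
theorem fkk_BL {Φ : ℝ ≃o ℝ} (hper : ∀ s (k : ℤ), fkk Φ (s + k) = fkk Φ s + k)
    (hb : ∀ R, BL Φ (Icc (-R) R)) : BL (fkk Φ) univ := by
  apply Exd_per hper
  have hm : Monotone (fkk Φ) := by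
    intro x y hxy
    unfold fkk
    apply Φ.symm.monotone
    have := Φ.monotone hxy
    linarith
  set R : ℝ := 1 + |fkk Φ 0| + |fkk Φ 1| with hR
  have a0 := abs_nonneg (fkk Φ 0)
  have a1 := abs_nonneg (fkk Φ 1)
  have hR1 : 1 ≤ R := by linarith
  have s1 : Icc (0 : ℝ) 1 ⊆ Icc (-R) R := Icc_subset_Icc (by linarith) hR1
  have c1 : BL (fun x => Φ x + 1) (Icc 0 1) := ((hb R).mono s1).add_const 1
  have c2 : BL Φ.symm (Icc (Φ (-R)) (Φ R)) := (hb R).symm_Icc
  refine (c1.comp c2 ?_).congr fun x _ => rfl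
  intro x hx
  have e : Φ x + 1 = Φ (fkk Φ x) := by
    unfold fkk
    rw [Φ.apply_symm_apply]
  have l1 := hm hx.1
  have l2 := hm hx.2
  have l3 := neg_abs_le (fkk Φ 0)
  have l4 := le_abs_self (fkk Φ 1)
  show Φ x + 1 ∈ Icc (Φ (-R)) (Φ R)
  rw [e]
  exact ⟨Φ.monotone (by linarith), Φ.monotone (by linarith)⟩

private theorem Exd_bdd {f : ℝ → ℝ} (hper : ∀ s (k : ℤ), f (s + k) = f s + k)
    (hm : Monotone f) : ∃ C : ℝ, 0 < C ∧ ∀ s, |f s - s| ≤ C := by
  refine ⟨1 + |f 0| + |f 1|, by positivity, fun s => ?_⟩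
  have e : f s = f (Int.fract s) + ⌊s⌋ := by
    have := hper (Int.fract s) ⌊s⌋
    rwa [Int.fract_add_floor] at this
  have e2 : s = Int.fract s + ⌊s⌋ := (Int.fract_add_floor s).symm
  have l0 := Int.fract_nonneg s
  have l1 := (Int.fract_lt_one s).le
  have m0 := hm l0
  have m1 := hm l1
  have a0 := neg_abs_le (f 0)
  have a1 := le_abs_self (f 1)
  have p0 := abs_nonneg (f 0)
  have p1 := abs_nonneg (f 1)
  have e3 : f s - s = f (Int.fract s) - Int.fract s := by linarith [e, e2]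
  rw [e3, abs_le]
  constructor <;> linarith

private theorem Exd_T (b : ℝ) {c : ℝ} (hc : |c| ≤ 1 / 32) {t t' : ℝ} (h : t ≤ t') :
    1 / 2 * (t' - t) ≤ (t' + rh b * om t' * c) - (t + rh b * om t * c) ∧
      (t' + rh b * om t' * c) - (t + rh b * om t * c) ≤ 3 / 2 * (t' - t) := by
  have h1 := om_lip t' t
  rw [abs_of_nonneg (sub_nonneg.2 h)] at h1
  have h2 := rh_mem b
  have h3 : |rh b * om t' * c - rh b * om t * c| ≤ 1 / 2 * (t' - t) := by
    have e : rh b * om t' * c - rh b * om t * c = rh b * (om t' - om t) * c := by ring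
    rw [e, abs_mul, abs_mul, abs_of_nonneg h2.1]
    have k1 : rh b * |om t' - om t| ≤ 1 * (16 * (t' - t)) :=
      mul_le_mul h2.2 h1 (abs_nonneg _) zero_le_one
    have k2 : rh b * |om t' - om t| * |c| ≤ 1 * (16 * (t' - t)) * (1 / 32) :=
      mul_le_mul k1 hc (abs_nonneg _) (by have := sub_nonneg.2 h; positivity)
    linarith
  rw [abs_le] at h3
  constructor <;> linarith [h3.1, h3.2]

private theorem Exd_A (b t : ℝ) {c : ℝ} (hc : |c| ≤ 1 / 32) : |rh b * om t * c| ≤ 1 / 32 := by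
  have h2 := rh_mem b
  have h3 := om_mem t
  rw [abs_mul, abs_mul, abs_of_nonneg h2.1, abs_of_nonneg h3.1]
  have k1 : rh b * om t ≤ 1 * 1 := mul_le_mul h2.2 h3.2 h3.1 zero_le_one
  have k2 : rh b * om t * |c| ≤ 1 * 1 * (1 / 32) :=
    mul_le_mul k1 hc (abs_nonneg _) (by norm_num)
  linarith

/-- PROOF. Let `T t = t + rh b om t z2 a`, `U t = fkk Φ (t - rh b om t / 32)`. `om` has the Lipschitz constant `16` and `|z2| ≤ 1/32`, `0 ≤ rh ≤ 1`: `T` and the argument of `fkk` have rates between `1/2` and `3/2`. With `fkk_BL`: `U` has rates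
between `δ/2` and `3 L/2`. `gg` has the Lipschitz constant `ε 96/1600` in `t` (`lam_lip`, `0 ≤ g0, a + 3/16 ≤ 1`), `0 ≤ gg ≤ 1`, and `|U - T| ≤ C` (both are `t + ` periodic and bounded). `sgg t' - sgg t = (1 - gg') (T' - T) + gg' (U' - U) + (gg' - gg) (U - T)`
is at least `(min (1/2) (δ/2) - ε C 96/1600) (t' - t)`; choose `ε` small. -/
theorem exists_eps {Φ : ℝ ≃o ℝ} (hper : ∀ s (k : ℤ), fkk Φ (s + k) = fkk Φ s + k)
    (hb : ∀ R, BL Φ (Icc (-R) R)) : ∃ ε > 0, ε ≤ 1 ∧
    (∃ δ > 0, ∀ a ∈ Icc (-3 / 16 : ℝ) (13 / 16), ∀ b t t', t ≤ t' →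
      δ * (t' - t) ≤ sgg Φ ε a b t' - sgg Φ ε a b t) ∧
    ∃ L > 0, ∀ a ∈ Icc (-3 / 16 : ℝ) (13 / 16), ∀ b t t', t ≤ t' →
      sgg Φ ε a b t' - sgg Φ ε a b t ≤ L * (t' - t) := by
  have hBL := fkk_BL hper hb
  have hm : Monotone (fkk Φ) := by
    intro x y hxy
    unfold fkk
    apply Φ.symm.monotone
    have := Φ.monotone hxy
    linarith
  obtain ⟨C0, hC0, hbd⟩ := Exd_bdd hper hm
  obtain ⟨⟨δ, hδ, h1⟩, L, hL, h2⟩ := hBL
  set m : ℝ := min (1 / 2) (δ / 2) with hmd
  have hm0 : 0 < m := lt_min (by norm_num) (by linarith)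
  have hm1 : m ≤ 1 / 2 := min_le_left _ _
  have hm2 : m ≤ δ / 2 := min_le_right _ _
  set C : ℝ := C0 + 1 / 16 with hC
  have hCp : 0 < C := by linarith
  set ε : ℝ := min 1 (m / C) with hε
  have hε0 : 0 < ε := lt_min one_pos (div_pos hm0 hCp)
  have hε1 : ε ≤ 1 := min_le_left _ _
  have hε2 : ε * C ≤ m := by
    have : ε ≤ m / C := min_le_right _ _
    rwa [le_div_iff₀ hCp] at this
  have key : ∀ a ∈ Icc (-3 / 16 : ℝ) (13 / 16), ∀ b t t', t ≤ t' →
      m / 2 * (t' - t) ≤ sgg Φ ε a b t' - sgg Φ ε a b t ∧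
      sgg Φ ε a b t' - sgg Φ ε a b t ≤ (3 / 2 + 3 / 2 * L + C) * (t' - t) := by
    intro a ha b t t' ht
    have hd : 0 ≤ t' - t := sub_nonneg.2 ht
    have c1 := z2_abs a
    have c2 : |(-1 / 32 : ℝ)| ≤ 1 / 32 := by norm_num [abs_le]
    have T := Exd_T b c1 ht
    have V := Exd_T b c2 ht
    have T0 := Exd_A b t c1
    have V0 := Exd_A b t c2
    have g := g0_mem a
    have l0 := lam_nonneg b t
    have l1 := lam_le b t
    have l0' := lam_nonneg b t'
    have l1' := lam_le b t'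
    have ll := lam_lip b t' t
    rw [abs_of_nonneg hd] at ll
    have ea : ∀ x : ℝ, x - rh b * om x / 32 = x + rh b * om x * (-1 / 32) := fun x => by ring
    have U1 := h1 _ (mem_univ (t + rh b * om t * (-1 / 32))) _
      (mem_univ (t' + rh b * om t' * (-1 / 32))) (by linarith [V.1])
    have U2 := h2 _ (mem_univ (t + rh b * om t * (-1 / 32))) _
      (mem_univ (t' + rh b * om t' * (-1 / 32))) (by linarith [V.1])
    have U0 := hbd (t + rh b * om t * (-1 / 32))
    unfold sgg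
    rw [ea t, ea t']
    set x0 := t + rh b * om t * (-1 / 32) with hx0
    set x1 := t' + rh b * om t' * (-1 / 32) with hx1
    set y0 := t + rh b * om t * z2 a with hy0
    set y1 := t' + rh b * om t' * z2 a with hy1
    have W1 : δ / 2 * (t' - t) ≤ fkk Φ x1 - fkk Φ x0 := by
      have := mul_le_mul_of_nonneg_left V.1 hδ.le
      linarith
    have W2 : fkk Φ x1 - fkk Φ x0 ≤ 3 / 2 * L * (t' - t) := by
      have := mul_le_mul_of_nonneg_left V.2 hL.le
      linarith
    have W0 : |fkk Φ x0 - y0| ≤ C := by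
      rw [abs_le] at U0 T0 V0 ⊢
      constructor
      · linarith [U0.1, U0.2, T0.1, T0.2, V0.1, V0.2]
      · linarith [U0.1, U0.2, T0.1, T0.2, V0.1, V0.2]
    have p0' : 0 ≤ ε * lam b t' := mul_nonneg hε0.le l0'
    have p1' : ε * lam b t' ≤ 1 := by
      have : ε * lam b t' ≤ 1 * (1 / 1600) := mul_le_mul hε1 l1' l0' zero_le_one
      linarith
    have a0 : 0 ≤ a + 3 / 16 := by linarith [ha.1]
    have a1 : a + 3 / 16 ≤ 1 := by linarith [ha.2]
    have G0 : 0 ≤ gg ε a b t' := by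
      unfold gg
      have k1 := mul_nonneg (sub_nonneg.2 p1') g.1
      have k2 := mul_nonneg p0' a0
      linarith
    have G1 : gg ε a b t' ≤ 1 := by
      unfold gg
      have k1 := mul_le_mul_of_nonneg_left g.2 (sub_nonneg.2 p1')
      have k2 := mul_le_mul_of_nonneg_left a1 p0'
      linarith
    have Gd : |gg ε a b t' - gg ε a b t| ≤ ε * (96 / 1600 * (t' - t)) := by
      have e : gg ε a b t' - gg ε a b t = ε * (lam b t' - lam b t) * (a + 3 / 16 - g0 a) := by
        unfold gg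
        ring
      rw [e, abs_mul, abs_mul, abs_of_nonneg hε0.le]
      have k1 : |a + 3 / 16 - g0 a| ≤ 1 := by
        rw [abs_le]
        constructor <;> linarith [g.1, g.2]
      have k2 := mul_le_mul_of_nonneg_left ll hε0.le
      have k3 : ε * |lam b t' - lam b t| * |a + 3 / 16 - g0 a| ≤
          ε * (96 / 1600 * (t' - t)) * 1 := mul_le_mul k2 k1 (abs_nonneg _) (by positivity)
      linarith
    have D : |(gg ε a b t' - gg ε a b t) * (fkk Φ x0 - y0)| ≤
        ε * (96 / 1600 * (t' - t)) * C := by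
      rw [abs_mul]
      exact mul_le_mul Gd W0 (abs_nonneg _) (by positivity)
    have D2 : ε * (96 / 1600 * (t' - t)) * C ≤ m / 2 * (t' - t) := by
      have := mul_le_mul_of_nonneg_right hε2 hd
      have := mul_nonneg hm0.le hd
      linarith
    have D3 : ε * (96 / 1600 * (t' - t)) * C ≤ C * (t' - t) := by
      have q := mul_nonneg hCp.le hd
      have := mul_le_mul_of_nonneg_right hε1 q
      linarith
    rw [abs_le] at D
    have id : (1 - gg ε a b t') * y1 + gg ε a b t' * fkk Φ x1 -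
        ((1 - gg ε a b t) * y0 + gg ε a b t * fkk Φ x0) =
        (1 - gg ε a b t') * (y1 - y0) + gg ε a b t' * (fkk Φ x1 - fkk Φ x0) +
          (gg ε a b t' - gg ε a b t) * (fkk Φ x0 - y0) := by ring
    rw [id]
    have hmT : m * (t' - t) ≤ y1 - y0 := by
      have := mul_le_mul_of_nonneg_right hm1 hd
      linarith [T.1]
    have hmU : m * (t' - t) ≤ fkk Φ x1 - fkk Φ x0 := by
      have := mul_le_mul_of_nonneg_right hm2 hd
      linarith
    have r1 := mul_le_mul_of_nonneg_left hmT (sub_nonneg.2 G1)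
    have r2 := mul_le_mul_of_nonneg_left hmU G0
    have r3 : (1 - gg ε a b t') * (y1 - y0) ≤ 3 / 2 * (t' - t) := by
      have q : 0 ≤ y1 - y0 := (mul_nonneg hm0.le hd).trans hmT
      have := mul_le_mul_of_nonneg_right (show 1 - gg ε a b t' ≤ 1 by linarith) q
      linarith [T.2]
    have r4 : gg ε a b t' * (fkk Φ x1 - fkk Φ x0) ≤ 3 / 2 * L * (t' - t) := by
      have q : 0 ≤ fkk Φ x1 - fkk Φ x0 := (mul_nonneg hm0.le hd).trans hmU
      have := mul_le_mul_of_nonneg_right G1 q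
      linarith
    constructor
    · linarith [D.1]
    · linarith [D.2]
  refine ⟨ε, hε0, hε1, ⟨m / 2, by linarith, fun a ha b t t' ht => (key a ha b t t' ht).1⟩,
    3 / 2 + 3 / 2 * L + C, by positivity, fun a ha b t t' ht => (key a ha b t t' ht).2⟩

end Pool.Agent.H.MP_1611f1_gt.PA
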