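import Pool.Agent.H.MP_1611f1_gt.PA.Exa
import Pool.Agent.H.MP_1611f1_gt.PA.Exb
import Pool.Agent.H.MP_1611f1_gt.PA.Exc
import Pool.Agent.H.MP_1611f1_gt.PA.Exd

/-!
Existence of the numerical data.
-/

namespace Pool.Agent.H.MP_1611f1_gt.PA

open Topology Set Filter
open Pool.Agent.H.MP_1611f1_gt.TW

private theorem Ex_nat {g : ℝ → ℝ} (h : ∀ x, g (x + 1) = g x + 1) (x : ℝ) (n : ℕ) :
    g (x + n) = g x + n := by
  induction n with
  | zero => simp
  | succ n ih =>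
    rw [Nat.cast_succ, ← add_assoc, h, ih, add_assoc]

private theorem Ex_int {g : ℝ → ℝ} (h : ∀ x, g (x + 1) = g x + 1) (x : ℝ) (n : ℤ) :
    g (x + n) = g x + n := by
  obtain ⟨m, rfl | rfl⟩ := n.eq_nat_or_neg
  · rw [Int.cast_natCast]
    exact Ex_nat h x m
  · have h1 := Ex_nat h (x + ((-(m : ℤ) : ℤ) : ℝ)) m
    have h2 : x + ((-(m : ℤ) : ℤ) : ℝ) + (m : ℝ) = x := by
      push_cast
      ring
    rw [h2] at h1
    rw [h1]
    push_cast
    ring

/-- PROOF: `em` from `exists_em`; `tf` is `y ↦ em (T0.symm (em.symm y)) + μ` as an order isomorphism; it preserves the order of the walls shifted by `μ`: `y + 1/2 ≤ tf y` (the map `em ∘ T0.symm ∘ em.symm` fixes the walls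
`n/2 + 1/4`, so it moves points by less than `1/2`; `1 ≤ μ`). `φ` from `exists_pl5`, `c = 1/8`: `tf (φ (1/8)) = em (T0.symm (LL (1/8))) + μ = LL (9/8) + μ = 9/68 + μ` (`phi_J`, `em = id` on P-cells). `exists_ext`, `ext_BL`. `agree`: both sides are `LL s`.
`gap`: for `s ∈ [3/8, 7/8]`: `Φ (s + 1/8) ≤ Φ 1 = 1` and `0 < LL (3/8) ≤ Φ s`. `exists_eps` with `fkk (s + k) = fkk s + k` (as `PPar.fk_add` in Yfa.lean: `tf (y + 1) = tf y + 1`). -/
theorem exists_ppar {μ : ℝ} (h : 1 ≤ μ) : ∃ P : PPar, P.μ = μ := by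
  obtain ⟨em, em1, emB, emJ, emW, emZ⟩ := exists_em
  obtain ⟨φ, φB, φL, φZ, φ1, φ9⟩ := exists_pl5 h
  -- the holonomy of the far side
  set tf : ℝ ≃o ℝ := (em.symm.trans (T0.symm.trans em)).trans (OrderIso.addRight μ) with htf
  have tf_apply : ∀ y, tf y = em (T0.symm (em.symm y)) + μ := fun y => rfl
  have eW : ∀ n : ℤ, em.symm ((n : ℝ) / 2 + 1 / 4) = n / 2 + 1 / 4 := fun n => by
    rw [em.symm_apply_eq]
    exact (emW n).symm
  have tW : ∀ n : ℤ, T0.symm ((n : ℝ) / 2 + 1 / 4) = n / 2 + 1 / 4 := fun n => by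
    rw [T0.symm_apply_eq, ← phi_one]
    exact (phi_wall 1 n).symm
  have hm : ∀ y, y + 1 / 2 ≤ tf y := by
    intro y
    obtain ⟨n, hn⟩ : ∃ n : ℤ, n = ⌊2 * (y - 1 / 4)⌋ := ⟨_, rfl⟩
    have h1 := Int.floor_le (2 * (y - 1 / 4))
    have h2 := Int.lt_floor_add_one (2 * (y - 1 / 4))
    rw [← hn] at h1 h2
    have h3 : (n : ℝ) / 2 + 1 / 4 ≤ y := by linarith
    have h4 : em (T0.symm (em.symm ((n : ℝ) / 2 + 1 / 4))) ≤ em (T0.symm (em.symm y)) :=
      em.monotone (T0.symm.monotone (em.symm.monotone h3))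
    rw [eW, tW, emW] at h4
    rw [tf_apply]
    linarith
  have LL18 : LL (1 / 8) = φ (1 / 8) := (φL _ ⟨le_rfl, by norm_num⟩).symm
  have hc : φ (1 / 8 + 1) = tf (φ (1 / 8)) := by
    rw [← LL18, tf_apply]
    have e1 : em.symm (LL (1 / 8)) = LL (1 / 8) := by
      rw [em.symm_apply_eq]
      have := emJ 0 (1 / 8)
      rw [Int.cast_zero, zero_add] at this
      exact this.symm
    have e2 : T0.symm (LL (1 / 8)) = LL (9 / 8) := by
      rw [T0.symm_apply_eq, ← phi_one]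
      have := phi_J 1 0 (9 / 8)
      rw [Int.cast_zero, zero_add, zero_add] at this
      rw [this]
      norm_num
    have e3 : em (LL (9 / 8)) = LL (9 / 8) := by
      have := emJ 0 (9 / 8)
      rwa [Int.cast_zero, zero_add] at this
    rw [e1, e2, e3]
    have e4 : (1 / 8 + 1 : ℝ) = 9 / 8 := by norm_num
    rw [e4, φ9]
    have e5 : LL (9 / 8) = 9 / 68 := by
      unfold LL
      rw [abs_of_pos (by norm_num)]
      norm_num
    rw [e5]
  obtain ⟨Φ, hΦ1, hΦ2⟩ := exists_ext tf hm (1 / 8) φ hc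
  have tfB : BL tf univ := by
    have h1 : BL (fun x => T0.symm (em.symm x)) univ := emB.symm.comp T0_BL.symm (mapsTo_univ _ _)
    have h2 : BL (fun x => em (T0.symm (em.symm x))) univ := h1.comp emB (mapsTo_univ _ _)
    exact (h2.add_const μ).congr fun x _ => tf_apply x
  have hb : ∀ R, BL Φ (Icc (-R) R) := ext_BL tfB φB hΦ1 hΦ2
  have em1' : ∀ x, em.symm (x + 1) = em.symm x + 1 := fun x => by
    rw [em.symm_apply_eq, em1, em.apply_symm_apply]
  have T01' : ∀ x, T0.symm (x + 1) = T0.symm x + 1 := fun x => by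
    rw [T0.symm_apply_eq, T0_per, T0.apply_symm_apply]
  have tf1 : ∀ y, tf (y + 1) = tf y + 1 := fun y => by
    rw [tf_apply, tf_apply, em1', T01', em1]
    ring
  have hper : ∀ s (k : ℤ), fkk Φ (s + k) = fkk Φ s + k := by
    intro s k
    refine Ex_int (g := fkk Φ) (fun x => ?_) s k
    unfold fkk
    rw [Φ.symm_apply_eq, hΦ2, hΦ2, Φ.apply_symm_apply, tf1]
  obtain ⟨ε, ε0, ε1, hlow, hupp⟩ := exists_eps hper hb
  refine ⟨{ μ := μ, em := em, em_per := em1, Φ := Φ, rel := fun s => ?_, agree := fun s hs => ?_,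
            cz := 1 / 2 - 2 / 21, κz := 2 / 21, κz_pos := by norm_num, em_z := emZ,
            Φ_z := fun r hr => ?_, gap := fun s hs => ?_, ε := ε, ε_pos := ε0, ε_le := ε1,
            Φ_low := fun R => ?_, Φ_upp := fun R => ?_, em_low := ?_, em_upp := ?_,
            sg_low := hlow, sg_upp := hupp }, rfl⟩
  · rw [hΦ2, tf_apply]
  · have h1 := emJ 0 s
    rw [Int.cast_zero, zero_add] at h1
    rw [h1, hΦ1 s ⟨hs.1, by linarith [hs.2]⟩, φL s hs]
  · rw [abs_le] at hr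
    rw [hΦ1 _ ⟨by linarith, by linarith⟩]
    exact φZ r (abs_le.2 hr)
  · have h1 : Φ (s + 1 / 8) ≤ Φ 1 := Φ.monotone (by linarith [hs.2])
    rw [hΦ1 1 ⟨by norm_num, by norm_num⟩, φ1] at h1
    have h2 : Φ (3 / 8) ≤ Φ s := Φ.monotone hs.1
    rw [hΦ1 (3 / 8) ⟨by norm_num, by norm_num⟩, φL (3 / 8) ⟨by norm_num, le_rfl⟩] at h2
    have h3 : LL 0 < LL (3 / 8) := LL_mono (by norm_num)
    rw [LL_zero] at h3
    linarith
  · obtain ⟨δ, hδ, h1⟩ := (hb R).1
    exact ⟨δ, hδ, fun s s' hs hs' hss => h1 s (abs_le.1 hs) s' (abs_le.1 hs') hss⟩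
  · obtain ⟨L, hL, h1⟩ := (hb R).2
    exact ⟨L, hL, fun s s' hs hs' hss => h1 s (abs_le.1 hs) s' (abs_le.1 hs') hss⟩
  · obtain ⟨δ, hδ, h1⟩ := emB.1
    exact ⟨δ, hδ, fun v v' hv => h1 v trivial v' trivial hv⟩
  · obtain ⟨L, hL, h1⟩ := emB.2
    exact ⟨L, hL, fun v v' hv => h1 v trivial v' trivial hv⟩

end Pool.Agent.H.MP_1611f1_gt.PA
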