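import Pool.Agent.H.MP_1611f1_gt.PA.Defs

/-!
Functions with upper and lower Lipschitz bounds.
-/

namespace Pool.Agent.H.MP_1611f1_gt.PA

open Topology Set Filter
open Pool.Agent.H.MP_1611f1_gt.TW

/-- `f` is strictly increasing on `s`, with upper and lower Lipschitz bounds -/
def BL (f : ℝ → ℝ) (s : Set ℝ) : Prop :=
  (∃ δ > 0, ∀ x ∈ s, ∀ y ∈ s, x ≤ y → δ * (y - x) ≤ f y - f x) ∧
    ∃ L > 0, ∀ x ∈ s, ∀ y ∈ s, x ≤ y → f y - f x ≤ L * (y - x)

theorem BL.mono {f : ℝ → ℝ} {s t : Set ℝ} (h : BL f t) (hs : s ⊆ t) : BL f s :=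
  ⟨h.1.imp fun _ h1 => ⟨h1.1, fun x hx y hy => h1.2 x (hs hx) y (hs hy)⟩,
    h.2.imp fun _ h1 => ⟨h1.1, fun x hx y hy => h1.2 x (hs hx) y (hs hy)⟩⟩

theorem BL.congr {f g : ℝ → ℝ} {s : Set ℝ} (h : BL f s) (hs : ∀ x ∈ s, g x = f x) : BL g s := by
  refine ⟨h.1.imp fun _ h1 => ⟨h1.1, fun x hx y hy hxy => ?_⟩,
    h.2.imp fun _ h1 => ⟨h1.1, fun x hx y hy hxy => ?_⟩⟩
  · rw [hs x hx, hs y hy]
    exact h1.2 x hx y hy hxy
  · rw [hs x hx, hs y hy]
    exact h1.2 x hx y hy hxy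

theorem BL.comp {f g : ℝ → ℝ} {s t : Set ℝ} (hf : BL f s) (hg : BL g t) (h : MapsTo f s t) :
    BL (fun x => g (f x)) s := by
  obtain ⟨⟨δ, hδ, h1⟩, L, hL, h2⟩ := hf
  obtain ⟨⟨δ', hδ', h1'⟩, L', hL', h2'⟩ := hg
  have hm : ∀ x ∈ s, ∀ y ∈ s, x ≤ y → f x ≤ f y := fun x hx y hy hxy => by
    have h3 := h1 x hx y hy hxy
    have h4 : 0 ≤ δ * (y - x) := mul_nonneg hδ.le (sub_nonneg.2 hxy)
    linarith
  refine ⟨⟨δ' * δ, mul_pos hδ' hδ, fun x hx y hy hxy => ?_⟩, L' * L, mul_pos hL' hL,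
    fun x hx y hy hxy => ?_⟩
  · have h3 := h1 x hx y hy hxy
    have h4 := h1' _ (h hx) _ (h hy) (hm x hx y hy hxy)
    have h5 := mul_le_mul_of_nonneg_left h3 hδ'.le
    calc δ' * δ * (y - x) = δ' * (δ * (y - x)) := by ring
      _ ≤ δ' * (f y - f x) := h5
      _ ≤ _ := h4
  · have h3 := h2 x hx y hy hxy
    have h4 := h2' _ (h hx) _ (h hy) (hm x hx y hy hxy)
    have h5 := mul_le_mul_of_nonneg_left h3 hL'.le
    calc g (f y) - g (f x) ≤ L' * (f y - f x) := h4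
      _ ≤ L' * (L * (y - x)) := h5
      _ = L' * L * (y - x) := by ring

theorem BL.add_const {f : ℝ → ℝ} {s : Set ℝ} (h : BL f s) (c : ℝ) : BL (fun x => f x + c) s := by
  refine ⟨h.1.imp fun _ h1 => ⟨h1.1, fun x hx y hy hxy => ?_⟩,
    h.2.imp fun _ h1 => ⟨h1.1, fun x hx y hy hxy => ?_⟩⟩
  · have := h1.2 x hx y hy hxy
    show _ ≤ f y + c - (f x + c)
    linarith
  · have := h1.2 x hx y hy hxy
    show f y + c - (f x + c) ≤ _
    linarith

theorem BL_affine {k c : ℝ} (hk : 0 < k) (s : Set ℝ) : BL (fun x => k * x + c) s :=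
  ⟨⟨k, hk, fun x _ y _ _ => le_of_eq (by ring)⟩, k, hk, fun x _ y _ _ => le_of_eq (by ring)⟩

/-- adjacent sets -/
theorem BL.union {f : ℝ → ℝ} {s t : Set ℝ} {c : ℝ} (hs : BL f s) (ht : BL f t) (hcs : c ∈ s)
    (hct : c ∈ t) (h1 : ∀ x ∈ s, x ≤ c) (h2 : ∀ x ∈ t, c ≤ x) : BL f (s ∪ t) := by
  obtain ⟨⟨δ, hδ, h3⟩, L, hL, h4⟩ := hs
  obtain ⟨⟨δ', hδ', h3'⟩, L', hL', h4'⟩ := ht
  have a1 : min δ δ' ≤ δ := min_le_left _ _
  have a2 : min δ δ' ≤ δ' := min_le_right _ _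
  have a3 : L ≤ max L L' := le_max_left _ _
  have a4 : L' ≤ max L L' := le_max_right _ _
  refine ⟨⟨min δ δ', lt_min hδ hδ', ?_⟩, max L L', lt_max_of_lt_left hL, ?_⟩
  · rintro x (hx | hx) y (hy | hy) hxy
    · have := h3 x hx y hy hxy
      have := mul_le_mul_of_nonneg_right a1 (sub_nonneg.2 hxy)
      linarith
    · have b1 := h3 x hx c hcs (h1 x hx)
      have b2 := h3' c hct y hy (h2 y hy)
      have b3 := mul_le_mul_of_nonneg_right a1 (sub_nonneg.2 (h1 x hx))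
      have b4 := mul_le_mul_of_nonneg_right a2 (sub_nonneg.2 (h2 y hy))
      have b5 : min δ δ' * (y - x) = min δ δ' * (c - x) + min δ δ' * (y - c) := by ring
      linarith
    · have e1 : x = y := le_antisymm hxy ((h1 y hy).trans (h2 x hx))
      subst e1
      simp
    · have := h3' x hx y hy hxy
      have := mul_le_mul_of_nonneg_right a2 (sub_nonneg.2 hxy)
      linarith
  · rintro x (hx | hx) y (hy | hy) hxy
    · have := h4 x hx y hy hxy
      have := mul_le_mul_of_nonneg_right a3 (sub_nonneg.2 hxy)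
      linarith
    · have b1 := h4 x hx c hcs (h1 x hx)
      have b2 := h4' c hct y hy (h2 y hy)
      have b3 := mul_le_mul_of_nonneg_right a3 (sub_nonneg.2 (h1 x hx))
      have b4 := mul_le_mul_of_nonneg_right a4 (sub_nonneg.2 (h2 y hy))
      have b5 : max L L' * (y - x) = max L L' * (c - x) + max L L' * (y - c) := by ring
      linarith
    · have e1 : x = y := le_antisymm hxy ((h1 y hy).trans (h2 x hx))
      subst e1
      simp
    · have := h4' x hx y hy hxy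
      have := mul_le_mul_of_nonneg_right a4 (sub_nonneg.2 hxy)
      linarith

/-- the inverse -/
theorem BL.symm {e : ℝ ≃o ℝ} (h : BL e univ) : BL e.symm univ := by
  obtain ⟨⟨δ, hδ, h3⟩, L, hL, h4⟩ := h
  refine ⟨⟨1 / L, by positivity, fun x _ y _ hxy => ?_⟩, 1 / δ, by positivity,
    fun x _ y _ hxy => ?_⟩
  · have b := h4 (e.symm x) trivial (e.symm y) trivial (e.symm.monotone hxy)
    rw [e.apply_symm_apply, e.apply_symm_apply] at b
    rw [one_div_mul_eq_div, div_le_iff₀ hL]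
    linarith
  · have b := h3 (e.symm x) trivial (e.symm y) trivial (e.symm.monotone hxy)
    rw [e.apply_symm_apply, e.apply_symm_apply] at b
    rw [one_div_mul_eq_div, le_div_iff₀ hδ]
    linarith

/-- the inverse, on an interval -/
theorem BL.symm_Icc {e : ℝ ≃o ℝ} {a b : ℝ} (h : BL e (Icc a b)) : BL e.symm (Icc (e a) (e b)) := by
  obtain ⟨⟨δ, hδ, h3⟩, L, hL, h4⟩ := h
  have hm : ∀ x ∈ Icc (e a) (e b), e.symm x ∈ Icc a b := by
    intro x hx
    constructor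
    · rw [e.le_symm_apply]
      exact hx.1
    · rw [e.symm_apply_le]
      exact hx.2
  refine ⟨⟨1 / L, by positivity, fun x hx y hy hxy => ?_⟩, 1 / δ, by positivity,
    fun x hx y hy hxy => ?_⟩
  · have b := h4 (e.symm x) (hm x hx) (e.symm y) (hm y hy) (e.symm.monotone hxy)
    rw [e.apply_symm_apply, e.apply_symm_apply] at b
    rw [one_div_mul_eq_div, div_le_iff₀ hL]
    linarith
  · have b := h3 (e.symm x) (hm x hx) (e.symm y) (hm y hy) (e.symm.monotone hxy)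
    rw [e.apply_symm_apply, e.apply_symm_apply] at b
    rw [one_div_mul_eq_div, le_div_iff₀ hδ]
    linarith

end Pool.Agent.H.MP_1611f1_gt.PA
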