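import Pool.Agent.H.MP_1611f1_gt.PA.Defs

/-!
The functions of one variable: `fX` and `zQ`.
-/

namespace Pool.Agent.H.MP_1611f1_gt.PA

open Topology Set Filter
open Pool.Agent.H.MP_1611f1_gt.BR.U (Ci)
open Pool.Agent.H.MP_1611f1_gt.TW

/-! ### `fX` -/

theorem fX_cont : Continuous fX := by
  unfold fX
  exact (ff_cont.comp (by fun_prop)).div_const 2

theorem fX_mono : Monotone fX := by
  intro a a' h
  unfold fX
  have := ff_mono (show 2 * a - 1 / 2 ≤ 2 * a' - 1 / 2 by linarith)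
  linarith

theorem fX_half (a : ℝ) : fX (a + 1 / 2) = fX a + 1 / 2 := by
  unfold fX
  have h := ff_add (2 * a - 1 / 2) 1
  rw [Int.cast_one] at h
  rw [show 2 * (a + 1 / 2) - 1 / 2 = 2 * a - 1 / 2 + 1 by ring, h]
  ring

theorem fX_add (a : ℝ) (n : ℤ) : fX (a + n) = fX a + n := by
  unfold fX
  have h := ff_add (2 * a - 1 / 2) (2 * n)
  push_cast at h
  rw [show 2 * (a + n) - 1 / 2 = 2 * a - 1 / 2 + 2 * n by ring, h]
  ring

theorem fX_P {a : ℝ} {n : ℤ} (h : |a - n| ≤ 3 / 16) : fX a = n := by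
  obtain ⟨h1, h2⟩ := abs_le.1 h
  have h3 : ff (2 * a - 1 / 2 - 2 * n + 1) = 1 :=
    ff_flat ⟨by linarith, by linarith⟩
  have h4 := ff_add (2 * a - 1 / 2 - 2 * n + 1) (2 * n - 1)
  push_cast at h4
  rw [h3, show 2 * a - 1 / 2 - 2 * n + 1 + (2 * n - 1) = 2 * a - 1 / 2 by ring] at h4
  unfold fX
  rw [h4]
  ring

theorem fX_Q {a : ℝ} {n : ℤ} (h : |a - (n + 1 / 2)| ≤ 3 / 16) : fX a = n + 1 / 2 := by
  have h1 := fX_half (a - 1 / 2)
  rw [sub_add_cancel] at h1
  rw [h1, fX_P (n := n)]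
  rw [show a - 1 / 2 - n = a - (n + 1 / 2) by ring]
  exact h

/-- the wall strips -/
theorem fX_W {a : ℝ} {n : ℤ} (h : |a - (n / 2 + 1 / 4)| ≤ 1 / 16) :
    fX a = 4 * (a - (n / 2 + 1 / 4)) + (n / 2 + 1 / 4) := by
  obtain ⟨h1, h2⟩ := abs_le.1 h
  have h3 : ff (2 * a - 1 / 2 - n) = 4 * (2 * a - 1 / 2 - n) + 1 / 2 :=
    ff_core (abs_le.2 ⟨by linarith, by linarith⟩)
  have h4 := ff_add (2 * a - 1 / 2 - n) n
  rw [sub_add_cancel, h3] at h4
  unfold fX
  rw [h4]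
  ring

/-- every point is in a P-interval, in a Q-interval or in a wall strip (closed ones) -/
theorem a_cases (a : ℝ) : (∃ n : ℤ, |a - n| ≤ 3 / 16) ∨ (∃ n : ℤ, |a - (n + 1 / 2)| ≤ 3 / 16) ∨
    ∃ n : ℤ, |a - (n / 2 + 1 / 4)| ≤ 1 / 16 := by
  obtain ⟨k, hk⟩ : ∃ k : ℤ, k = ⌊2 * a + 3 / 8⌋ := ⟨_, rfl⟩
  have h1 : (k : ℝ) ≤ 2 * a + 3 / 8 := by rw [hk]; exact Int.floor_le _
  have h2 : 2 * a + 3 / 8 < k + 1 := by rw [hk]; exact Int.lt_floor_add_one _
  rcases le_total a (k / 2 + 3 / 16) with h3 | h3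
  · rcases Int.even_or_odd' k with ⟨n, hn | hn⟩
    · left
      refine ⟨n, abs_le.2 ?_⟩
      rw [hn] at h1 h2 h3
      push_cast at h1 h2 h3
      constructor <;> linarith
    · right
      left
      refine ⟨n, abs_le.2 ?_⟩
      rw [hn] at h1 h2 h3
      push_cast at h1 h2 h3
      constructor <;> linarith
  · right
    right
    refine ⟨k, abs_le.2 ?_⟩
    constructor <;> linarith

theorem fX_dist (a : ℝ) : |a - fX a| ≤ 3 / 16 := by
  rcases a_cases a with ⟨n, h⟩ | ⟨n, h⟩ | ⟨n, h⟩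
  · rw [fX_P h]
    exact h
  · rw [fX_Q h]
    exact h
  · rw [fX_W h]
    obtain ⟨h1, h2⟩ := abs_le.1 h
    rw [abs_le]
    constructor <;> linarith

/-! ### `zQ` -/

private theorem FXa_zt_nonneg {v : ℝ} (h : 0 ≤ v) : zt v = min v (max 0 (3 / 4 - 3 * v)) := by
  unfold zt
  rw [if_pos h]

private theorem FXa_zt_neg (v : ℝ) : zt (-v) = -zt v := by
  rcases lt_trichotomy v 0 with h | h | h
  · unfold zt
    rw [if_pos (by linarith), if_neg (not_le.2 h), neg_neg,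
      show 3 / 4 - 3 * -v = 3 / 4 + 3 * v by ring]
  · subst h
    unfold zt
    norm_num
  · unfold zt
    rw [if_neg (by linarith), if_pos h.le, neg_neg, show 3 / 4 + 3 * -v = 3 / 4 - 3 * v by ring]

private theorem FXa_zt_bd {v : ℝ} (h : 0 ≤ v) : 0 ≤ zt v ∧ zt v ≤ v ∧ zt v ≤ 3 / 16 := by
  rw [FXa_zt_nonneg h]
  refine ⟨le_min h (le_max_left _ _), min_le_left _ _, ?_⟩
  rcases le_total v (3 / 16) with h1 | h1
  · exact (min_le_left _ _).trans h1
  · exact (min_le_right _ _).trans (max_le (by norm_num) (by linarith))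

private theorem FXa_zt_abs (v : ℝ) : |zt v| ≤ |v| ∧ |zt v| ≤ 3 / 16 := by
  rcases le_total 0 v with h | h
  · obtain ⟨h1, h2, h3⟩ := FXa_zt_bd h
    rw [abs_of_nonneg h1, abs_of_nonneg h]
    exact ⟨h2, h3⟩
  · obtain ⟨h1, h2, h3⟩ := FXa_zt_bd (show 0 ≤ -v by linarith)
    rw [FXa_zt_neg] at h1 h2 h3
    rw [abs_of_nonpos (by linarith), abs_of_nonpos h]
    exact ⟨h2, h3⟩

private theorem FXa_lip_pos {v v' : ℝ} (h : 0 ≤ v) (h' : 0 ≤ v') :
    |zt v - zt v'| ≤ 3 * |v - v'| := by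
  rw [FXa_zt_nonneg h, FXa_zt_nonneg h']
  have h1 := abs_min_sub_min_le_max v (max 0 (3 / 4 - 3 * v)) v' (max 0 (3 / 4 - 3 * v'))
  have h2 := abs_max_sub_max_le_max (0 : ℝ) (3 / 4 - 3 * v) 0 (3 / 4 - 3 * v')
  have h3 : |3 / 4 - 3 * v - (3 / 4 - 3 * v')| = 3 * |v - v'| := by
    rw [show 3 / 4 - 3 * v - (3 / 4 - 3 * v') = (-3) * (v - v') by ring, abs_mul]
    norm_num
  have h4 := abs_nonneg (v - v')
  refine h1.trans (max_le (by linarith) (h2.trans (max_le ?_ h3.le)))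
  rw [sub_self, abs_zero]
  linarith

private theorem FXa_lip_zt (v v' : ℝ) : |zt v - zt v'| ≤ 3 * |v - v'| := by
  have key : ∀ v v' : ℝ, 0 ≤ v → v' ≤ 0 → |zt v - zt v'| ≤ 3 * |v - v'| := by
    intro v v' h h'
    have h1 := (FXa_zt_abs v).1
    have h2 := (FXa_zt_abs v').1
    rw [abs_of_nonneg h] at h1
    rw [abs_of_nonpos h'] at h2
    have h3 := abs_sub (zt v) (zt v')
    rw [abs_of_nonneg (show 0 ≤ v - v' by linarith)]
    linarith
  rcases le_total 0 v with h | h <;> rcases le_total 0 v' with h' | h'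
  · exact FXa_lip_pos h h'
  · exact key v v' h h'
  · rw [abs_sub_comm, abs_sub_comm v v']
    exact key v' v h' h
  · have h1 := FXa_lip_pos (show 0 ≤ -v by linarith) (show 0 ≤ -v' by linarith)
    rw [FXa_zt_neg, FXa_zt_neg, show -zt v - -zt v' = -(zt v - zt v') by ring,
      show -v - -v' = -(v - v') by ring, abs_neg, abs_neg] at h1
    exact h1

private theorem FXa_zt_zero {v : ℝ} (h : 1 / 4 ≤ |v|) : zt v = 0 := by
  rcases le_total 0 v with h1 | h1
  · rw [abs_of_nonneg h1] at h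
    rw [FXa_zt_nonneg h1, max_eq_left (by linarith), min_eq_right h1]
  · rw [abs_of_nonpos h1] at h
    have h2 := FXa_zt_neg v
    rw [FXa_zt_nonneg (show 0 ≤ -v by linarith), max_eq_left (by linarith),
      min_eq_right (by linarith)] at h2
    linarith

theorem zQ_lip (a a' : ℝ) : |zQ a - zQ a'| ≤ 3 * |a - a'| := by
  have key : ∀ a a' : ℝ, ⌊a⌋ < ⌊a'⌋ → |zQ a - zQ a'| ≤ 3 * |a - a'| := by
    intro a a' h
    have h1 : (⌊a⌋ : ℝ) + 1 ≤ ⌊a'⌋ := by exact_mod_cast h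
    have h2 := Int.fract_lt_one a
    have h3 := Int.fract_nonneg a'
    have h4 := Int.self_sub_floor a
    have h5 := Int.self_sub_floor a'
    have h6 := FXa_lip_zt (Int.fract a - 1 / 2) (1 / 2)
    have h7 := FXa_lip_zt (Int.fract a' - 1 / 2) (-1 / 2)
    rw [FXa_zt_zero (v := 1 / 2) (by norm_num), sub_zero, abs_of_nonpos (a := _ - 1 / 2 - 1 / 2)
      (by linarith)] at h6
    rw [FXa_zt_zero (v := -1 / 2) (by norm_num), sub_zero, abs_of_nonneg (a := _ - -1 / 2)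
      (by linarith)] at h7
    have h8 := abs_sub (zt (Int.fract a - 1 / 2)) (zt (Int.fract a' - 1 / 2))
    unfold zQ
    rw [abs_of_nonpos (a := a - a') (by linarith)]
    linarith
  rcases lt_trichotomy ⌊a⌋ ⌊a'⌋ with h | h | h
  · exact key a a' h
  · have h1 := FXa_lip_zt (Int.fract a - 1 / 2) (Int.fract a' - 1 / 2)
    have h2 : Int.fract a - 1 / 2 - (Int.fract a' - 1 / 2) = a - a' := by
      unfold Int.fract
      rw [h]
      ring
    rw [h2] at h1
    exact h1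
  · rw [abs_sub_comm, abs_sub_comm a a']
    exact key a' a h

theorem zQ_cont : Continuous zQ := by
  refine (LipschitzWith.of_dist_le_mul (K := 3) fun x y => ?_).continuous
  rw [Real.dist_eq, Real.dist_eq]
  exact zQ_lip x y

theorem zQ_add (a : ℝ) (n : ℤ) : zQ (a + n) = zQ a := by
  unfold zQ
  rw [Int.fract_add_intCast]

theorem zQ_abs (a : ℝ) : |zQ a| ≤ 3 / 16 := (FXa_zt_abs _).2

private theorem FXa_zt_id {v : ℝ} (h : |v| ≤ 3 / 16) : zt v = v := by
  rcases le_total 0 v with h1 | h1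
  · rw [abs_of_nonneg h1] at h
    rw [FXa_zt_nonneg h1, max_eq_right (by linarith), min_eq_left (by linarith)]
  · rw [abs_of_nonpos h1] at h
    have h2 := FXa_zt_neg v
    rw [FXa_zt_nonneg (show 0 ≤ -v by linarith), max_eq_right (by linarith),
      min_eq_left (by linarith)] at h2
    linarith

theorem zQ_Q {a : ℝ} {n : ℤ} (h : |a - (n + 1 / 2)| ≤ 3 / 16) : zQ a = a - (n + 1 / 2) := by
  obtain ⟨h1, h2⟩ := abs_le.1 h
  have h3 : ⌊a⌋ = n := by
    rw [Int.floor_eq_iff]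
    constructor <;> linarith
  unfold zQ Int.fract
  rw [h3, show a - n - 1 / 2 = a - (n + 1 / 2) by ring]
  exact FXa_zt_id h

theorem zQ_P {a : ℝ} {n : ℤ} (h : |a - n| ≤ 1 / 4) : zQ a = 0 := by
  obtain ⟨h1, h2⟩ := abs_le.1 h
  rcases le_or_gt (n : ℝ) a with h0 | h0
  · have h3 : ⌊a⌋ = n := by
      rw [Int.floor_eq_iff]
      constructor <;> linarith
    unfold zQ Int.fract
    rw [h3]
    refine FXa_zt_zero ?_
    rw [abs_of_nonpos (by linarith)]
    linarith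
  · have h3 : ⌊a⌋ = n - 1 := by
      rw [Int.floor_eq_iff]
      push_cast
      constructor <;> linarith
    unfold zQ Int.fract
    rw [h3]
    refine FXa_zt_zero ?_
    push_cast
    rw [abs_of_nonneg (by linarith)]
    linarith

/-- PROOF: `phi_J`, `phi_J'`, `phi_wall` and `cell_cases`. -/
theorem phi_half (t v : ℝ) : phi t (v + 1 / 2) = phi (-t) v + 1 / 2 := by
  rcases cell_cases v with ⟨n, rfl⟩ | ⟨n, s, rfl⟩ | ⟨n, s, rfl⟩
  · have h1 := phi_wall t (n + 1)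
    push_cast at h1
    rw [phi_wall, show (n : ℝ) / 2 + 1 / 4 + 1 / 2 = (n + 1) / 2 + 1 / 4 by ring, h1]
  · rw [phi_J, show (n : ℝ) + LL s + 1 / 2 = n + 1 / 2 + LL s by ring, phi_J', sub_neg_eq_add]
    ring
  · have h1 := phi_J t (n + 1) s
    push_cast at h1
    rw [phi_J', show (n : ℝ) + 1 / 2 + LL s + 1 / 2 = n + 1 + LL s by ring, h1, ← sub_eq_add_neg]
    ring

theorem LL_lip (s s' : ℝ) : |LL s - LL s'| ≤ 1 / 4 * |s - s'| := by
  have key : ∀ s s' : ℝ, s' ≤ s → LL s - LL s' ≤ 1 / 4 * (s - s') := by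
    intro s s' h
    have hs := abs_nonneg s
    have hs' := abs_nonneg s'
    unfold LL
    rw [div_sub_div _ _ (by positivity) (by positivity), div_le_iff₀ (by positivity)]
    rcases abs_cases s with ⟨h1, h2⟩ | ⟨h1, h2⟩ <;> rcases abs_cases s' with ⟨h3, h4⟩ | ⟨h3, h4⟩ <;>
      rw [h1, h3]
    · nlinarith [mul_nonneg h2 h4, mul_nonneg (mul_nonneg h2 h4) (sub_nonneg.2 h),
        mul_nonneg h2 (sub_nonneg.2 h), mul_nonneg h4 (sub_nonneg.2 h)]
    · have h5 : 0 ≤ -s' := by linarith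
      nlinarith [mul_nonneg h2 h5, mul_nonneg (mul_nonneg h2 h5) (sub_nonneg.2 h),
        mul_nonneg h2 (sub_nonneg.2 h), mul_nonneg h5 (sub_nonneg.2 h), mul_nonneg h2 h2,
        mul_nonneg h5 h5]
    · linarith
    · have h5 : 0 ≤ -s' := by linarith
      have h6 : 0 ≤ -s := by linarith
      nlinarith [mul_nonneg h6 h5, mul_nonneg (mul_nonneg h6 h5) (sub_nonneg.2 h),
        mul_nonneg h6 (sub_nonneg.2 h), mul_nonneg h5 (sub_nonneg.2 h)]
  rcases le_total s' s with h | h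
  · rw [abs_of_nonneg (a := s - s') (by linarith),
      abs_of_nonneg (sub_nonneg.2 (LL_mono.monotone h))]
    exact key s s' h
  · rw [abs_sub_comm, abs_sub_comm s s', abs_of_nonneg (a := s' - s) (by linarith),
      abs_of_nonneg (sub_nonneg.2 (LL_mono.monotone h))]
    exact key s' s h

end Pool.Agent.H.MP_1611f1_gt.PA
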