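import Pool.Agent.H.MP_1611f1_gt.PA.ExBL
import Pool.Agent.H.MP_1611f1_gt.PA.FXa

/-!
Existence of the numerical data: the homeomorphism `em` of the near side.
-/

namespace Pool.Agent.H.MP_1611f1_gt.PA

open Topology Set Filter
open Pool.Agent.H.MP_1611f1_gt.TW

/-! ### differences of `LL` -/

private theorem Exa_nn {s s' : ℝ} (h : 0 ≤ s) (h' : 0 ≤ s') :
    LL s' - LL s = (s' - s) / (4 * ((1 + s) * (1 + s'))) := by
  have h1 : 0 < 1 + s := by linarith
  have h2 : 0 < 1 + s' := by linarith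
  unfold LL
  rw [abs_of_nonneg h, abs_of_nonneg h']
  field_simp
  ring

private theorem Exa_np {s s' : ℝ} (h : s ≤ 0) (h' : s' ≤ 0) :
    LL s' - LL s = (s' - s) / (4 * ((1 - s) * (1 - s'))) := by
  have h1 : 0 < 1 - s := by linarith
  have h2 : 0 < 1 - s' := by linarith
  unfold LL
  rw [abs_of_nonpos h, abs_of_nonpos h', ← sub_eq_add_neg, ← sub_eq_add_neg]
  field_simp
  ring

private theorem Exa_div {d A B : ℝ} (hd : 0 ≤ d) (hA : 0 < A) (hB : 0 < B) (h : A ≤ 4 * B) :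
    d / B ≤ 4 * (d / A) := by
  rw [← mul_div_assoc, div_le_div_iff₀ hB hA]
  nlinarith [mul_le_mul_of_nonneg_left h hd]

/-- the bounds for the shift by `1` -/
private def Exa_Q (s s' : ℝ) : Prop :=
  1 / 4 * (LL s' - LL s) ≤ LL (s' + 1) - LL (s + 1) ∧
    LL (s' + 1) - LL (s + 1) ≤ 4 * (LL s' - LL s)

private theorem Exa_Qtr {s m s' : ℝ} (h : Exa_Q s m) (h' : Exa_Q m s') : Exa_Q s s' := by
  unfold Exa_Q at *
  constructor <;> linarith [h.1, h.2, h'.1, h'.2]

private theorem Exa_R3 {s s' : ℝ} (h : 0 ≤ s) (hs : s ≤ s') : Exa_Q s s' := by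
  have h' : 0 ≤ s' := h.trans hs
  have hd : 0 ≤ s' - s := sub_nonneg.2 hs
  have e1 := Exa_nn h h'
  have e2 := Exa_nn (s := s + 1) (s' := s' + 1) (by linarith) (by linarith)
  rw [show s' + 1 - (s + 1) = s' - s by ring] at e2
  have p0 : 0 ≤ s * s' := mul_nonneg h h'
  have hA : 0 < 4 * ((1 + s) * (1 + s')) := by positivity
  have hB : 0 < 4 * ((1 + (s + 1)) * (1 + (s' + 1))) := by positivity
  have k1 := Exa_div hd hA hB (by nlinarith)
  have k2 := Exa_div hd hB hA (by nlinarith)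
  unfold Exa_Q
  rw [e1, e2]
  constructor
  · linarith
  · exact k1

private theorem Exa_R2 {s s' : ℝ} (h : -1 ≤ s) (hs : s ≤ s') (h' : s' ≤ 0) : Exa_Q s s' := by
  have hd : 0 ≤ s' - s := sub_nonneg.2 hs
  have e1 := Exa_np (hs.trans h') h'
  have e2 := Exa_nn (s := s + 1) (s' := s' + 1) (by linarith) (by linarith)
  rw [show s' + 1 - (s + 1) = s' - s by ring] at e2
  have a1 : 1 ≤ 1 - s := by linarith
  have a2 : 1 ≤ 1 - s' := by linarith
  have a3 : 1 ≤ 1 + (s + 1) := by linarith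
  have a4 : 1 ≤ 1 + (s' + 1) := by linarith
  have b1 : 1 - s ≤ 2 := by linarith
  have b2 : 1 - s' ≤ 2 := by linarith
  have b3 : 1 + (s + 1) ≤ 2 := by linarith
  have b4 : 1 + (s' + 1) ≤ 2 := by linarith
  have c1 : 1 ≤ (1 - s) * (1 - s') := by nlinarith
  have c2 : (1 - s) * (1 - s') ≤ 4 := by nlinarith
  have c3 : 1 ≤ (1 + (s + 1)) * (1 + (s' + 1)) := by nlinarith
  have c4 : (1 + (s + 1)) * (1 + (s' + 1)) ≤ 4 := by nlinarith
  have hA : 0 < 4 * ((1 - s) * (1 - s')) := by linarith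
  have hB : 0 < 4 * ((1 + (s + 1)) * (1 + (s' + 1))) := by linarith
  have k1 := Exa_div hd hA hB (by linarith)
  have k2 := Exa_div hd hB hA (by linarith)
  unfold Exa_Q
  rw [e1, e2]
  constructor
  · linarith
  · exact k1

private theorem Exa_R1 {s s' : ℝ} (hs : s ≤ s') (h' : s' ≤ -1) : Exa_Q s s' := by
  have hd : 0 ≤ s' - s := sub_nonneg.2 hs
  have e1 := Exa_np (s := s) (s' := s') (by linarith) (by linarith)
  have e2 := Exa_np (s := s + 1) (s' := s' + 1) (by linarith) (by linarith)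
  rw [show s' + 1 - (s + 1) = s' - s by ring] at e2
  have a1 : 1 ≤ 1 - (s + 1) := by linarith
  have a2 : 1 ≤ 1 - (s' + 1) := by linarith
  have c0 : 1 ≤ (1 - (s + 1)) * (1 - (s' + 1)) := by nlinarith
  have c1 : (1 - (s + 1)) * (1 - (s' + 1)) ≤ (1 - s) * (1 - s') := by nlinarith
  have c2 : (1 - s) * (1 - s') ≤ 4 * ((1 - (s + 1)) * (1 - (s' + 1))) := by nlinarith
  have hA : 0 < 4 * ((1 - s) * (1 - s')) := by linarith
  have hB : 0 < 4 * ((1 - (s + 1)) * (1 - (s' + 1))) := by linarith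
  have k1 := Exa_div hd hA hB (by linarith)
  have k2 := Exa_div hd hB hA (by linarith)
  unfold Exa_Q
  rw [e1, e2]
  constructor
  · linarith
  · exact k1

private theorem Exa_shift {s s' : ℝ} (hs : s ≤ s') : Exa_Q s s' := by
  have R23 : ∀ {s s' : ℝ}, -1 ≤ s → s ≤ s' → Exa_Q s s' := by
    intro s s' h hs
    rcases le_total s' 0 with h1 | h1
    · exact Exa_R2 h hs h1
    · rcases le_total s 0 with h2 | h2
      · exact Exa_Qtr (Exa_R2 h h2 le_rfl) (Exa_R3 le_rfl h1)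
      · exact Exa_R3 h2 hs
  rcases le_total s' (-1) with h1 | h1
  · exact Exa_R1 hs h1
  · rcases le_total s (-1) with h2 | h2
    · exact Exa_Qtr (Exa_R1 h2 le_rfl) (R23 le_rfl h1)
    · exact R23 h2 hs

/-- PROOF: `|s|, |s'| ≤ R`: `LL s' - LL s` is between `(s' - s) / (4 (1 + R) ^ 2)` and `(s' - s) / 4`. -/
theorem LL_BL (R : ℝ) : BL LL (Icc (-R) R) := by
  rcases lt_or_ge R 0 with hR | hR
  · have he : Icc (-R) R = ∅ := Icc_eq_empty (by linarith)
    rw [he]
    exact ⟨⟨1, one_pos, fun x hx => absurd hx (notMem_empty x)⟩, 1, one_pos,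
      fun x hx => absurd hx (notMem_empty x)⟩
  · have hP : 0 < 4 * ((1 + R) * (1 + R)) := by positivity
    have key : ∀ d A : ℝ, 0 ≤ d → 1 ≤ A → A ≤ 4 * ((1 + R) * (1 + R)) →
        1 / (4 * ((1 + R) * (1 + R))) * d ≤ d / A ∧ d / A ≤ 1 * d := by
      intro d A hd hA1 hA2
      have hA : 0 < A := by linarith
      constructor
      · rw [one_div_mul_eq_div]
        exact div_le_div_of_nonneg_left hd hA hA2
      · rw [one_mul]
        exact div_le_self hd hA1
    have n1 : BL LL (Icc (-R) 0) := by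
      have k : ∀ x ∈ Icc (-R) 0, ∀ y ∈ Icc (-R) 0, x ≤ y →
          1 / (4 * ((1 + R) * (1 + R))) * (y - x) ≤ LL y - LL x ∧ LL y - LL x ≤ 1 * (y - x) := by
        intro x hx y hy hxy
        rw [Exa_np hx.2 hy.2]
        have a1 : 1 ≤ 1 - x := by linarith [hx.2]
        have a2 : 1 ≤ 1 - y := by linarith [hy.2]
        have a3 : 1 - x ≤ 1 + R := by linarith [hx.1]
        have a4 : 1 - y ≤ 1 + R := by linarith [hy.1]
        refine key _ _ (sub_nonneg.2 hxy) ?_ ?_
        · nlinarith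
        · have := mul_le_mul a3 a4 (by linarith) (by linarith)
          linarith
      exact ⟨⟨_, by positivity, fun x hx y hy hxy => (k x hx y hy hxy).1⟩, 1, one_pos,
        fun x hx y hy hxy => (k x hx y hy hxy).2⟩
    have n2 : BL LL (Icc 0 R) := by
      have k : ∀ x ∈ Icc 0 R, ∀ y ∈ Icc 0 R, x ≤ y →
          1 / (4 * ((1 + R) * (1 + R))) * (y - x) ≤ LL y - LL x ∧ LL y - LL x ≤ 1 * (y - x) := by
        intro x hx y hy hxy
        rw [Exa_nn hx.1 hy.1]
        have a1 : 1 ≤ 1 + x := by linarith [hx.1]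
        have a2 : 1 ≤ 1 + y := by linarith [hy.1]
        have a3 : 1 + x ≤ 1 + R := by linarith [hx.2]
        have a4 : 1 + y ≤ 1 + R := by linarith [hy.2]
        refine key _ _ (sub_nonneg.2 hxy) ?_ ?_
        · nlinarith
        · have := mul_le_mul a3 a4 (by linarith) (by linarith)
          linarith
      exact ⟨⟨_, by positivity, fun x hx y hy hxy => (k x hx y hy hxy).1⟩, 1, one_pos,
        fun x hx y hy hxy => (k x hx y hy hxy).2⟩
    have h3 := n1.union n2 (c := 0) ⟨by linarith, le_rfl⟩ ⟨le_rfl, hR⟩ (fun x hx => hx.2)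
      (fun x hx => hx.1)
    rwa [Icc_union_Icc_eq_Icc (by linarith) hR] at h3

/-- from a cell to the closed cell -/
private theorem Exa_cell (E : ℝ ≃o ℝ) {c₀ δ L : ℝ} {G : ℝ → ℝ} (hδ : 0 < δ) (hL : 0 < L)
    (hE : ∀ s, E (c₀ + LL s) = c₀ + LL (G s))
    (H : ∀ s s', s ≤ s' → δ * (LL s' - LL s) ≤ LL (G s') - LL (G s) ∧
      LL (G s') - LL (G s) ≤ L * (LL s' - LL s)) : BL E (Icc (c₀ - 1 / 4) (c₀ + 1 / 4)) := by
  have hc := E.continuous
  have key : ∀ x ∈ Icc (c₀ - 1 / 4) (c₀ + 1 / 4), ∀ y ∈ Icc (c₀ - 1 / 4) (c₀ + 1 / 4), x ≤ y →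
      δ * (y - x) ≤ E y - E x ∧ E y - E x ≤ L * (y - x) := by
    intro x hx y hy hxy
    have hin : ∀ θ ∈ Ioo (0 : ℝ) 1, δ * (θ * (y - c₀) - θ * (x - c₀)) ≤
        E (c₀ + θ * (y - c₀)) - E (c₀ + θ * (x - c₀)) ∧
        E (c₀ + θ * (y - c₀)) - E (c₀ + θ * (x - c₀)) ≤
          L * (θ * (y - c₀) - θ * (x - c₀)) := by
      intro θ hθ
      have b : ∀ z ∈ Icc (c₀ - 1 / 4) (c₀ + 1 / 4), |θ * (z - c₀)| < 1 / 4 := by
        intro z hz
        rw [abs_mul, abs_of_pos hθ.1]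
        have h1 : |z - c₀| ≤ 1 / 4 := abs_le.2 ⟨by linarith [hz.1], by linarith [hz.2]⟩
        have h2 := abs_nonneg (z - c₀)
        nlinarith [hθ.1, hθ.2]
      have e1 := LL_Lm (b x hx)
      have e2 := LL_Lm (b y hy)
      have hle : Lm (θ * (x - c₀)) ≤ Lm (θ * (y - c₀)) := by
        rw [← LL_mono.le_iff_le, e1, e2]
        exact mul_le_mul_of_nonneg_left (by linarith) hθ.1.le
      have h1 := H _ _ hle
      rw [e1, e2] at h1
      have h2 := hE (Lm (θ * (x - c₀)))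
      have h3 := hE (Lm (θ * (y - c₀)))
      rw [e1] at h2
      rw [e2] at h3
      rw [h2, h3]
      constructor <;> linarith [h1.1, h1.2]
    have h1c : (1 : ℝ) ∈ closure (Ioo (0 : ℝ) 1) := by
      rw [closure_Ioo zero_ne_one]
      exact ⟨zero_le_one, le_rfl⟩
    have f1 : Continuous fun θ : ℝ => E (c₀ + θ * (y - c₀)) - E (c₀ + θ * (x - c₀)) :=
      (hc.comp (by fun_prop)).sub (hc.comp (by fun_prop))
    have cl1 : IsClosed {θ : ℝ | δ * (θ * (y - c₀) - θ * (x - c₀)) ≤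
        E (c₀ + θ * (y - c₀)) - E (c₀ + θ * (x - c₀))} := isClosed_le (by fun_prop) f1
    have cl2 : IsClosed {θ : ℝ | E (c₀ + θ * (y - c₀)) - E (c₀ + θ * (x - c₀)) ≤
        L * (θ * (y - c₀) - θ * (x - c₀))} := isClosed_le f1 (by fun_prop)
    have r1 := cl1.closure_subset_iff.2 (fun θ hθ => (hin θ hθ).1) h1c
    have r2 := cl2.closure_subset_iff.2 (fun θ hθ => (hin θ hθ).2) h1c
    have ex : c₀ + 1 * (x - c₀) = x := by ring
    have ey : c₀ + 1 * (y - c₀) = y := by ring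
    have ed : 1 * (y - c₀) - 1 * (x - c₀) = y - x := by ring
    simp only [mem_ofPred_eq] at r1 r2
    rw [ex, ey, ed] at r1 r2
    exact ⟨r1, r2⟩
  exact ⟨⟨δ, hδ, fun x hx y hy hxy => (key x hx y hy hxy).1⟩, L, hL,
    fun x hx y hy hxy => (key x hx y hy hxy).2⟩

/-- periodic functions -/
private theorem Exa_per {f : ℝ → ℝ} (hf : ∀ x, f (x + 1) = f x + 1) {a : ℝ}
    (h : BL f (Icc a (a + 1))) : BL f univ := by
  have hfn : ∀ (n : ℕ) (x : ℝ), f (x + n) = f x + n := by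
    intro n
    induction n with
    | zero =>
      intro x
      rw [Nat.cast_zero, add_zero, add_zero]
    | succ n ih =>
      intro x
      rw [Nat.cast_succ, ← add_assoc, hf, ih, add_assoc]
  have hfz : ∀ (n : ℤ) (x : ℝ), f (x + n) = f x + n := by
    intro n x
    obtain ⟨m, rfl | rfl⟩ := n.eq_nat_or_neg
    · exact_mod_cast hfn m x
    · have h1 := hfn m (x + ((-(m : ℤ) : ℤ) : ℝ))
      push_cast at h1 ⊢
      rw [neg_add_cancel_right] at h1
      linarith
  obtain ⟨⟨δ, hδ, h1⟩, L, hL, h2⟩ := h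
  -- the period of `x`
  have hper : ∀ x : ℝ, x - ⌊x - a⌋ ∈ Icc a (a + 1) := by
    intro x
    have h3 := Int.floor_le (x - a)
    have h4 := Int.lt_floor_add_one (x - a)
    constructor <;> linarith
  have hval : ∀ x : ℝ, f x = f (x - ⌊x - a⌋) + ⌊x - a⌋ := by
    intro x
    rw [← hfz, sub_add_cancel]
  have ha : a ∈ Icc a (a + 1) := ⟨le_rfl, by linarith⟩
  have ha1 : a + 1 ∈ Icc a (a + 1) := ⟨by linarith, le_rfl⟩
  have d1 : min δ 1 ≤ δ := min_le_left _ _
  have d2 : min δ 1 ≤ 1 := min_le_right _ _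
  have l1 : L ≤ max L 1 := le_max_left _ _
  have l2 : 1 ≤ max L 1 := le_max_right _ _
  have key : ∀ x y : ℝ, x ≤ y → min δ 1 * (y - x) ≤ f y - f x ∧
      f y - f x ≤ max L 1 * (y - x) := by
    intro x y hxy
    have hx := hper x
    have hy := hper y
    have ex := hval x
    have ey := hval y
    have hkm : ⌊x - a⌋ ≤ ⌊y - a⌋ := Int.floor_mono (by linarith)
    set k := ⌊x - a⌋ with hk
    set m := ⌊y - a⌋ with hm
    rcases hkm.lt_or_eq with h3 | h3
    · have h4 : (k : ℝ) + 1 ≤ m := by exact_mod_cast h3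
      have b1 := h1 _ hx _ ha1 hx.2
      have b2 := h2 _ hx _ ha1 hx.2
      have b3 := h1 _ ha _ hy hy.1
      have b4 := h2 _ ha _ hy hy.1
      rw [hf] at b1 b2
      have c1 := mul_le_mul_of_nonneg_right d1 (sub_nonneg.2 hx.2)
      have c2 := mul_le_mul_of_nonneg_right d1 (sub_nonneg.2 hy.1)
      have c3 := mul_le_mul_of_nonneg_right d2 (sub_nonneg.2 h4)
      have c4 := mul_le_mul_of_nonneg_right l1 (sub_nonneg.2 hx.2)
      have c5 := mul_le_mul_of_nonneg_right l1 (sub_nonneg.2 hy.1)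
      have c6 := mul_le_mul_of_nonneg_right l2 (sub_nonneg.2 h4)
      have e1 : ∀ q : ℝ, q * (y - x) = q * (a + 1 - (x - k)) + q * (y - m - a)
          + q * (m - (k + 1)) := fun q => by ring
      constructor
      · rw [e1]
        linarith
      · rw [e1]
        linarith
    · rw [← h3] at ey hy
      have b1 := h1 _ hx _ hy (by linarith)
      have b2 := h2 _ hx _ hy (by linarith)
      have c1 := mul_le_mul_of_nonneg_right d1 (sub_nonneg.2 hxy)
      have c4 := mul_le_mul_of_nonneg_right l1 (sub_nonneg.2 hxy)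
      have e2 : y - k - (x - k) = y - x := by ring
      rw [e2] at b1 b2
      constructor <;> linarith
  exact ⟨⟨min δ 1, lt_min hδ one_pos, fun x _ y _ hxy => (key x y hxy).1⟩, max L 1,
    lt_max_of_lt_left hL, fun x _ y _ hxy => (key x y hxy).2⟩

/-- PROOF: in a cell: for `s < s'` the quotient `(LL (s' + 1) - LL (s + 1)) / (LL s' - LL s)` is between `1/4` and `4` (`LL' (s) = 1 / (4 (1 + |s|) ^ 2)`, or directly: `LL s' - LL s = (s' - s) / (4 (1 + |s|) (1 + |s'|))` for `s, s'` of one sign); the cells are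
added up over the walls (`phi_wall`, `cell_cases`). Possible route: `BL` on each closed cell `[n/2 - 1/4, n/2 + 1/4]` with the same constants, then for `x ≤ y` in different cells use the walls in between (which are fixed: there the constants `1` hold) -/
theorem T0_BL : BL T0 univ := by
  have p1 : BL T0 (Icc ((0 : ℝ) - 1 / 4) (0 + 1 / 4)) := by
    refine Exa_cell T0 (c₀ := 0) (δ := 1 / 4) (L := 4) (G := fun s => s - 1) (by norm_num)
      (by norm_num) ?_ ?_
    · intro s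
      have h := phi_J 1 0 s
      rw [phi_one, Int.cast_zero] at h
      exact h
    · intro s s' hs
      have h := Exa_shift (s := s - 1) (s' := s' - 1) (by linarith)
      unfold Exa_Q at h
      rw [sub_add_cancel, sub_add_cancel] at h
      constructor <;> linarith [h.1, h.2]
  have p2 : BL T0 (Icc ((1 / 2 : ℝ) - 1 / 4) (1 / 2 + 1 / 4)) := by
    refine Exa_cell T0 (c₀ := 1 / 2) (δ := 1 / 4) (L := 4) (G := fun s => s + 1) (by norm_num)
      (by norm_num) ?_ ?_
    · intro s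
      have h := phi_J' 1 0 s
      rw [phi_one, Int.cast_zero, zero_add] at h
      exact h
    · intro s s' hs
      exact Exa_shift hs
  have e1 : (0 : ℝ) + 1 / 4 = 1 / 4 := by norm_num
  have e2 : (1 / 2 : ℝ) - 1 / 4 = 1 / 4 := by norm_num
  have e3 : (1 / 2 : ℝ) + 1 / 4 = 0 - 1 / 4 + 1 := by norm_num
  rw [e1] at p1
  rw [e2, e3] at p2
  have h := p1.union p2 (c := 1 / 4) ⟨by norm_num, le_rfl⟩ ⟨le_rfl, by norm_num⟩
    (fun x hx => hx.2) (fun x hx => hx.1)
  rw [Icc_union_Icc_eq_Icc (by norm_num) (by norm_num)] at h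
  exact Exa_per T0_per h

/-! ### the map `em` -/

private noncomputable def Exa_g (r : ℝ) : ℝ :=
  if r ∈ Icc (-3 / 4 : ℝ) (-1 / 2) then (8 * r - 3) / (8 * r + 18) else r

private noncomputable def Exa_k (y : ℝ) : ℝ :=
  if y ∈ Icc (-3 / 4 : ℝ) (-1 / 2) then (3 + 18 * y) / (8 * (1 - y)) else y

private theorem Exa_g_mem {r : ℝ} (h : r ∈ Icc (-3 / 4 : ℝ) (-1 / 2)) :
    Exa_g r ∈ Icc (-3 / 4 : ℝ) (-1 / 2) := by
  unfold Exa_g
  rw [if_pos h]
  have h1 : 0 < 8 * r + 18 := by linarith [h.1]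
  constructor
  · rw [le_div_iff₀ h1]
    linarith [h.1]
  · rw [div_le_iff₀ h1]
    linarith [h.2]

private theorem Exa_k_mem {y : ℝ} (h : y ∈ Icc (-3 / 4 : ℝ) (-1 / 2)) :
    Exa_k y ∈ Icc (-3 / 4 : ℝ) (-1 / 2) := by
  unfold Exa_k
  rw [if_pos h]
  have h1 : 0 < 8 * (1 - y) := by linarith [h.2]
  constructor
  · rw [le_div_iff₀ h1]
    linarith [h.1]
  · rw [div_le_iff₀ h1]
    linarith [h.2]

private theorem Exa_g_off {r : ℝ} (h : r ∉ Icc (-3 / 4 : ℝ) (-1 / 2)) : Exa_g r = r := if_neg h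

private theorem Exa_gk (y : ℝ) : Exa_g (Exa_k y) = y := by
  by_cases h : y ∈ Icc (-3 / 4 : ℝ) (-1 / 2)
  · have h1 := Exa_k_mem h
    have h2 : 0 < 1 - y := by linarith [h.2]
    unfold Exa_g
    rw [if_pos h1]
    unfold Exa_k
    rw [if_pos h]
    have e1 : 8 * ((3 + 18 * y) / (8 * (1 - y))) - 3 = 21 * y / (1 - y) := by
      field_simp
      ring
    have e2 : 8 * ((3 + 18 * y) / (8 * (1 - y))) + 18 = 21 / (1 - y) := by
      field_simp
      ring
    rw [e1, e2, div_div_div_cancel_right₀ h2.ne']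
    ring
  · have h1 : Exa_k y = y := if_neg h
    rw [h1, Exa_g_off h]

private theorem Exa_g_mono : StrictMono Exa_g := by
  intro r r' hr
  by_cases h : r ∈ Icc (-3 / 4 : ℝ) (-1 / 2)
  · by_cases h' : r' ∈ Icc (-3 / 4 : ℝ) (-1 / 2)
    · unfold Exa_g
      rw [if_pos h, if_pos h']
      have h1 : 0 < 8 * r + 18 := by linarith [h.1]
      have h2 : 0 < 8 * r' + 18 := by linarith [h'.1]
      rw [div_lt_div_iff₀ h1 h2]
      nlinarith
    · have h1 := Exa_g_mem h
      rw [Exa_g_off h']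
      have h2 : -1 / 2 < r' := by
        by_contra hc
        exact h' ⟨h.1.trans hr.le, not_lt.1 hc⟩
      exact h1.2.trans_lt h2
  · rw [Exa_g_off h]
    by_cases h' : r' ∈ Icc (-3 / 4 : ℝ) (-1 / 2)
    · have h1 := Exa_g_mem h'
      have h2 : r < -3 / 4 := by
        by_contra hc
        exact h ⟨not_lt.1 hc, hr.le.trans h'.2⟩
      exact h2.trans_le h1.1
    · rw [Exa_g_off h']
      exact hr

private noncomputable def Exa_iso : ℝ ≃o ℝ :=
  StrictMono.orderIsoOfRightInverse Exa_g Exa_g_mono Exa_k Exa_gk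

private theorem Exa_iso_apply (r : ℝ) : Exa_iso r = Exa_g r := rfl

private theorem Exa_LLg {r : ℝ} (h : r ∈ Icc (-3 / 4 : ℝ) (-1 / 2)) :
    LL (Exa_g r) = 2 / 21 * r - 1 / 28 := by
  have h1 := Exa_g_mem h
  have h2 : 0 < 8 * r + 18 := by linarith [h.1]
  have h3 : LL (Exa_g r) = Exa_g r / (4 * (1 - Exa_g r)) := by
    unfold LL
    rw [abs_of_nonpos (by linarith [h1.2]), ← sub_eq_add_neg]
  rw [h3]
  unfold Exa_g
  rw [if_pos h]
  have e1 : 1 - (8 * r - 3) / (8 * r + 18) = 21 / (8 * r + 18) := by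
    field_simp
    ring
  rw [e1]
  field_simp
  ring

/-- The map `em`: the identity on the P-cells, and on the Q-cells `em (n + 1/2 + LL r) = n + 1/2 + h r`, `h = LL` except for `r ∈ [-3/4, -1/2]` where
`h r = -2/21 + 2/21 (r + 5/8)` (linear, `h (-3/4) = -3/28 = LL (-3/4)`, `h (-1/2) = -1/12 = LL (-1/2)`). PROOF: `em = cel (OrderIso.refl ℝ) g'`, `g' = Lm ∘ h` (an order isomorphism, the identity off
`[-3/4, -1/2]`), or directly `em v = v + e v` with a periodic function `e`. -/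
theorem exists_em : ∃ em : ℝ ≃o ℝ, (∀ x, em (x + 1) = em x + 1) ∧ BL em univ ∧
    (∀ (n : ℤ) (s : ℝ), em (n + LL s) = n + LL s) ∧ (∀ n : ℤ, em (n / 2 + 1 / 4) = n / 2 + 1 / 4) ∧
    ∀ r, |r| ≤ 1 / 8 → em (1 / 2 + LL (-5 / 8 + r)) = (1 / 2 - 2 / 21) + 2 / 21 * r := by
  have hJ : ∀ (n : ℤ) (s : ℝ), cel (OrderIso.refl ℝ) Exa_iso (n + LL s) = n + LL s := by
    intro n s
    rw [cel_apply, celf_J]
    rfl
  have hJ' : ∀ (n : ℤ) (s : ℝ), cel (OrderIso.refl ℝ) Exa_iso (n + 1 / 2 + LL s) =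
      n + 1 / 2 + LL (Exa_g s) := by
    intro n s
    rw [cel_apply, celf_J']
    rfl
  have hW : ∀ n : ℤ, cel (OrderIso.refl ℝ) Exa_iso (n / 2 + 1 / 4) = n / 2 + 1 / 4 := by
    intro n
    rw [cel_apply, celf_wall]
  have hper : ∀ x, cel (OrderIso.refl ℝ) Exa_iso (x + 1) =
      cel (OrderIso.refl ℝ) Exa_iso x + 1 := by
    intro x
    have h := celf_add_int (OrderIso.refl ℝ) Exa_iso x 1
    rw [Int.cast_one] at h
    exact h
  have hJ0 : ∀ s : ℝ, cel (OrderIso.refl ℝ) Exa_iso (1 / 2 + LL s) = 1 / 2 + LL (Exa_g s) := by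
    intro s
    have h := hJ' 0 s
    rw [Int.cast_zero, zero_add] at h
    exact h
  set em := cel (OrderIso.refl ℝ) Exa_iso with hem
  -- the points which are fixed
  have hfix : ∀ v ∈ Icc (-1 / 4 : ℝ) (3 / 4),
      (v ≤ 1 / 2 + LL (-3 / 4) ∨ 1 / 2 + LL (-1 / 2) ≤ v) → em v = v := by
    intro v hv hv'
    rcases cell_cases v with ⟨n, rfl⟩ | ⟨n, s, rfl⟩ | ⟨n, s, rfl⟩
    · exact hW n
    · exact hJ n s
    · have hs := abs_lt.1 (LL_abs s)
      have hn : n = 0 := by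
        have h1 : (n : ℝ) < 1 := by linarith [hv.2]
        have h2 : (-1 : ℝ) < n := by linarith [hv.1]
        have h3 : n < 1 := by exact_mod_cast h1
        have h4 : -1 < n := by exact_mod_cast h2
        omega
      subst hn
      rw [hJ', Int.cast_zero, zero_add]
      rw [Int.cast_zero, zero_add] at hv'
      congr 2
      by_cases h5 : s ∈ Icc (-3 / 4 : ℝ) (-1 / 2)
      · rcases hv' with h6 | h6
        · have h7 : s ≤ -3 / 4 := by
            rw [← LL_mono.le_iff_le]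
            linarith
          have h8 : s = -3 / 4 := le_antisymm h7 h5.1
          subst h8
          unfold Exa_g
          rw [if_pos h5]
          norm_num
        · have h7 : -1 / 2 ≤ s := by
            rw [← LL_mono.le_iff_le]
            linarith
          have h8 : s = -1 / 2 := le_antisymm h5.2 h7
          subst h8
          unfold Exa_g
          rw [if_pos h5]
          norm_num
      · exact Exa_g_off h5
  have l1 := abs_lt.1 (LL_abs (-3 / 4))
  have l2 := abs_lt.1 (LL_abs (-1 / 2))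
  have l3 : LL (-3 / 4) < LL (-1 / 2) := LL_mono (by norm_num)
  have q1 : BL em (Icc (-1 / 4 : ℝ) (1 / 2 + LL (-3 / 4))) := by
    refine (BL_affine one_pos _ (c := 0)).congr fun x hx => ?_
    rw [one_mul, add_zero]
    exact hfix x ⟨hx.1, by linarith [hx.2]⟩ (Or.inl hx.2)
  have q3 : BL em (Icc (1 / 2 + LL (-1 / 2)) (-1 / 4 + 1 : ℝ)) := by
    refine (BL_affine one_pos _ (c := 0)).congr fun x hx => ?_
    rw [one_mul, add_zero]
    exact hfix x ⟨by linarith [hx.1], by linarith [hx.2]⟩ (Or.inr hx.1)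
  have q2 : BL em (Icc (1 / 2 + LL (-3 / 4)) (1 / 2 + LL (-1 / 2))) := by
    obtain ⟨⟨δ, hδ, h1⟩, L, hL, h2⟩ := LL_BL 1
    have rep : ∀ v ∈ Icc (1 / 2 + LL (-3 / 4)) (1 / 2 + LL (-1 / 2)),
        ∃ s ∈ Icc (-3 / 4 : ℝ) (-1 / 2), v = 1 / 2 + LL s := by
      intro v hv
      have h3 : |v - 1 / 2| < 1 / 4 := abs_lt.2 ⟨by linarith [hv.1], by linarith [hv.2]⟩
      refine ⟨Lm (v - 1 / 2), ⟨?_, ?_⟩, ?_⟩
      · rw [← LL_mono.le_iff_le, LL_Lm h3]
        linarith [hv.1]
      · rw [← LL_mono.le_iff_le, LL_Lm h3]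
        linarith [hv.2]
      · rw [LL_Lm h3]
        ring
    have key : ∀ x ∈ Icc (1 / 2 + LL (-3 / 4)) (1 / 2 + LL (-1 / 2)),
        ∀ y ∈ Icc (1 / 2 + LL (-3 / 4)) (1 / 2 + LL (-1 / 2)), x ≤ y →
        2 / 21 * (1 / L) * (y - x) ≤ em y - em x ∧ em y - em x ≤ 2 / 21 * (1 / δ) * (y - x) := by
      intro x hx y hy hxy
      obtain ⟨s, hs, rfl⟩ := rep x hx
      obtain ⟨s', hs', rfl⟩ := rep y hy
      have hss : s ≤ s' := by
        rw [← LL_mono.le_iff_le]
        linarith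
      have m1 : s ∈ Icc (-1 : ℝ) 1 := ⟨by linarith [hs.1], by linarith [hs.2]⟩
      have m2 : s' ∈ Icc (-1 : ℝ) 1 := ⟨by linarith [hs'.1], by linarith [hs'.2]⟩
      have b1 := h1 s m1 s' m2 hss
      have b2 := h2 s m1 s' m2 hss
      rw [hJ0, hJ0, Exa_LLg hs, Exa_LLg hs']
      have c1 : 1 / L * (LL s' - LL s) ≤ s' - s := by
        rw [one_div_mul_eq_div, div_le_iff₀ hL]
        linarith
      have c2 : s' - s ≤ 1 / δ * (LL s' - LL s) := by
        rw [one_div_mul_eq_div, le_div_iff₀ hδ]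
        linarith
      have e1 : 1 / 2 + LL s' - (1 / 2 + LL s) = LL s' - LL s := by ring
      rw [e1]
      constructor
      · linarith
      · linarith
    exact ⟨⟨2 / 21 * (1 / L), by positivity, fun x hx y hy hxy => (key x hx y hy hxy).1⟩,
      2 / 21 * (1 / δ), by positivity, fun x hx y hy hxy => (key x hx y hy hxy).2⟩
  have hBL : BL em (Icc (-1 / 4 : ℝ) (-1 / 4 + 1)) := by
    have u1 := q1.union q2 (c := 1 / 2 + LL (-3 / 4)) ⟨by linarith, le_rfl⟩ ⟨le_rfl, by linarith⟩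
      (fun x hx => hx.2) (fun x hx => hx.1)
    rw [Icc_union_Icc_eq_Icc (by linarith) (by linarith)] at u1
    have u2 := u1.union q3 (c := 1 / 2 + LL (-1 / 2)) ⟨by linarith, le_rfl⟩ ⟨le_rfl, by linarith⟩
      (fun x hx => hx.2) (fun x hx => hx.1)
    rwa [Icc_union_Icc_eq_Icc (by linarith) (by linarith)] at u2
  refine ⟨em, hper, Exa_per hper hBL, hJ, hW, fun r hr => ?_⟩
  have hr' := abs_le.1 hr
  rw [hJ0, Exa_LLg ⟨by linarith [hr'.1], by linarith [hr'.2]⟩]
  ring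

end Pool.Agent.H.MP_1611f1_gt.PA
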