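import Pool.Agent.H.MP_1611f1_gt.PA.Ch
import Pool.Agent.H.MP_1611f1_gt.TW.Fol

/-!
The new foliation (compare TW/Fol.lean).
-/

namespace Pool.Agent.H.MP_1611f1_gt.PA

open Topology Set Filter
open Pool.Agent.H.MP_1611f1_gt.BR.U (Ci)
open Pool.Agent.H.MP_1611f1_gt.TW (cov tr plr rt KK Fam Cmp HasChart cov_loc cov_tr exists_tr)

variable {M : Type} [TopologicalSpace M] {A : Type} {B : Boxes M A} {P : A → PPar} {S : A → Str}
  {F₀ : LS.PreFol M}

private theorem Fol_plr (z : ℝ × Ioo (1 : ℝ) 2 × ℝ) : cov (plr z) ∉ KK := by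
  rw [TW.KK_iff, TW.rt_plr]
  have h2 := z.2.1.2.1
  nlinarith

private theorem Fol_nb {b : ℝ} (hb : 3 / 8 < b) (hb' : b < 5 / 8) :
    (1 / 8 : ℝ) < ‖((b : ℝ) : Ci)‖ := by
  have e : ‖((b : ℝ) : Ci)‖ = |b - round b| := by
    have h1 := AddCircle.norm_eq (p := (1 : ℝ)) (x := b)
    simpa using h1
  rw [e]
  rcases le_or_gt (round b) 0 with h | h
  · have h1 : ((round b : ℤ) : ℝ) ≤ 0 := by exact_mod_cast h
    have h2 := le_abs_self (b - round b)
    linarith
  · have h1 : (1 : ℝ) ≤ ((round b : ℤ) : ℝ) := by exact_mod_cast h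
    have h2 := neg_le_abs (b - round b)
    linarith

/-- no point of a box which is in the core of another box is in a glued zone -/
theorem core_disj {i j : A} (hij : i ≠ j) {z z' : Ci × Ci × Ci} (hz : z ∈ VX) (hz' : z' ∈ VX)
    (h : B.N i z = B.N j z') : ¬ (‖z.2.1‖ ≤ 1 / 8) ∧ ¬ (‖z'.2.1‖ ≤ 1 / 8) := by
  rcases B.sep i j z z' hz hz' h with ⟨h1, -⟩ | ⟨-, a, b, t, -, hb, hb', rfl, rfl⟩ |
    ⟨-, a, b, t, -, hb, hb', rfl, rfl⟩
  · exact absurd h1 hij
  · exact ⟨not_le.2 (Fol_nb hb hb'), not_le.2 (Fol_nb (by linarith) (by linarith))⟩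
  · exact ⟨not_le.2 (Fol_nb (by linarith) (by linarith)), not_le.2 (Fol_nb hb hb')⟩

/-- the index set of the families -/
inductive Ix (F₀ : LS.PreFol M) (A : Type) : Type
  | o (c : {c // c ∈ F₀.charts})
  | n (i : A)
  | f (i : A)
  | w (i : A)
  | t (i : A)

/-- the families -/
noncomputable def fam (B : Boxes M A) (P : A → PPar) (S : A → Str) (F₀ : LS.PreFol M)
    {C : Set M} (hC : IsClosed C) : Ix F₀ A → Fam M
  | .o c => famF c.1 hC
  | .n i => famU (B.emb i) XN XN_open ((P i).yn (S i))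
  | .f i => famU (B.emb i) XF XF_open (P i).yf
  | .w i => famU (B.emb i) XW XW_open (P i).E0
  | .t i => famT (B.emb i) (P i)

/-- PROOF: `C` is the union of the cores. `cmp_FF`, `cmp_FU` with `Old.near`, `Old.far`, `Old.mid` and `yn_out`, `yf_out`, `E0_out_n`, `E0_out_f`, `E0_out_m`; `cmp_FT`; for one box: `cmp_NN_self`, `cmp_U` with
`yf_tr_ord`, `E0_add`, (N, F) never (`1/16 < b` and `b < -1/16` mod `1`: `tr m n k z ∈ X'` is impossible because `b < 5/8`, `-1/4 < b`), (N, W) `n = 0`, `yn_tr_ord`, `E0_n`, (F, W) `n = 0`, `yf_tr_ord`, `E0_f`;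
`cmp_TU` with `TT_W`, `TT_N`, `TT_F` (`TW.Fol_rt`); `cmp_TT`. Different boxes: `cmp_NN`, `cmp_disj`, `cmp_disjT`, `cmp_disjTT`. -/
theorem fam_cmp (hO : Old B P S F₀) {C : Set M} (hC : IsClosed C) (hCe : C = ⋃ i, B.N i '' CX) :
    ∀ x y, Cmp (fam B P S F₀ hC x) (fam B P S F₀ hC y) := by
  have hCi : ∀ i, B.N i '' CX ⊆ C := fun i => by
    rw [hCe]
    exact subset_iUnion (fun i => B.N i '' CX) i
  have hnC : ∀ {y : M}, y ∉ C → ∀ i, y ∉ B.N i '' CX := fun hy i h => hy (hCi i h)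
  have hnX : ∀ {i : A} {z : ℝ × ℝ × ℝ}, B.N i (cov z) ∉ C → cov z ∉ CX := fun {i} {z} hy h =>
    hy (hCi i ⟨_, h, rfl⟩)
  -- the old foliation
  have hoo : ∀ c c' : {c // c ∈ F₀.charts}, _ := fun c c' => cmp_FF F₀ hC c.2 c'.2
  have hon : ∀ (c : {c // c ∈ F₀.charts}) (i : A), _ := fun c i =>
    cmp_FU (B := B) (i := i) (c := c.1) hC (hX := XN_open) (D := (P i).yn (S i))
      (fun z hz hV hy hs =>
        (hO.near i z hV (by linarith [hz.2.1]) hz.2.2.1 (hnC hy) c.1 c.2 hs).trans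
          (PPar.yn_out (S i) (P i) hz (hnX hy)))
  have hof : ∀ (c : {c // c ∈ F₀.charts}) (i : A), _ := fun c i =>
    cmp_FU (B := B) (i := i) (c := c.1) hC (hX := XF_open) (D := (P i).yf)
      (fun z hz hV hy hs =>
        (hO.far i z hz.1 (by linarith [hz.2.1]) (hnX hy) c.1 c.2 hs).trans
          (PPar.yf_out (P i) hz (hnX hy)))
  have how : ∀ (c : {c // c ∈ F₀.charts}) (i : A), _ := fun c i =>
    cmp_FU (B := B) (i := i) (c := c.1) hC (hX := XW_open) (D := (P i).E0)
      (fun z hz hV hy hs => by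
        have hb := abs_lt.1 hz.1
        rcases lt_trichotomy z.2.1 0 with h0 | h0 | h0
        · exact (hO.far i z (by linarith [hb.1]) h0 (hnX hy) c.1 c.2 hs).trans
            (PPar.E0_out_f (P i) hz (hnX hy) h0)
        · exact (hO.mid i z h0 (hnX hy) c.1 c.2 hs).trans (PPar.E0_out_m (P i) hz (hnX hy) h0)
        · exact (hO.near i z hV h0 (by linarith [hb.2]) (hnC hy) c.1 c.2 hs).trans
            (PPar.E0_out_n (S i) (P i) hz (hnX hy) h0))
  have hot : ∀ (c : {c // c ∈ F₀.charts}) (i : A), _ := fun c i =>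
    cmp_FT (B := B) (i := i) (P i) hC (hCi i) c.1
  -- one box
  have hfn : ∀ i : A, _ := fun i => cmp_U (B.emb i) (hX := XF_open) (hX' := XN_open)
    (D := (P i).yf) (D' := (P i).yn (S i)) (by
      intro z hz _ m n k hz'
      exfalso
      have h1 : 1 / 16 < z.2.1 + (n : ℝ) := hz'.2.1
      have h2 : z.2.1 + (n : ℝ) < 5 / 8 := hz'.2.2.1
      have h3 : (0 : ℝ) < n := by linarith [hz.2.1]
      have h4 : (n : ℝ) < 1 := by linarith [hz.1]
      have h5 : 0 < n := by exact_mod_cast h3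
      have h6 : n < 1 := by exact_mod_cast h4
      omega)
  have hwn : ∀ i : A, _ := fun i => cmp_U (B.emb i) (hX := XW_open) (hX' := XN_open)
    (D := (P i).E0) (D' := (P i).yn (S i)) (by
      intro z hz _ m n k hz'
      have hb := abs_lt.1 hz.1
      have h1 : 1 / 16 < z.2.1 + (n : ℝ) := hz'.2.1
      have h2 : z.2.1 + (n : ℝ) < 5 / 8 := hz'.2.2.1
      have h3 : (-1 : ℝ) < n := by linarith [hb.2]
      have h4 : (n : ℝ) < 1 := by linarith [hb.1]
      have h5 : -1 < n := by exact_mod_cast h3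
      have h6 : n < 1 := by exact_mod_cast h4
      have hn : n = 0 := by omega
      subst hn
      rw [Int.cast_zero, add_zero] at h1
      exact (PPar.yn_tr_ord (S i) (P i) m k).trans (PPar.E0_n (S i) (P i) h1 hb.2))
  have hff : ∀ i : A, _ := fun i => cmp_U (B.emb i) (hX := XF_open) (hX' := XF_open)
    (D := (P i).yf) (D' := (P i).yf) (by
      intro z hz _ m n k hz'
      have h1 : -1 / 4 < z.2.1 + (n : ℝ) := hz'.1
      have h2 : z.2.1 + (n : ℝ) < -1 / 16 := hz'.2.1
      have h3 : (-1 : ℝ) < n := by linarith [hz.2.1]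
      have h4 : (n : ℝ) < 1 := by linarith [hz.1]
      have h5 : -1 < n := by exact_mod_cast h3
      have h6 : n < 1 := by exact_mod_cast h4
      have hn : n = 0 := by omega
      subst hn
      exact PPar.yf_tr_ord (P i) m k)
  have hwf : ∀ i : A, _ := fun i => cmp_U (B.emb i) (hX := XW_open) (hX' := XF_open)
    (D := (P i).E0) (D' := (P i).yf) (by
      intro z hz _ m n k hz'
      have hb := abs_lt.1 hz.1
      have h1 : -1 / 4 < z.2.1 + (n : ℝ) := hz'.1
      have h2 : z.2.1 + (n : ℝ) < -1 / 16 := hz'.2.1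
      have h3 : (-1 : ℝ) < n := by linarith [hb.2]
      have h4 : (n : ℝ) < 1 := by linarith [hb.1]
      have h5 : -1 < n := by exact_mod_cast h3
      have h6 : n < 1 := by exact_mod_cast h4
      have hn : n = 0 := by omega
      subst hn
      rw [Int.cast_zero, add_zero] at h2
      exact (PPar.yf_tr_ord (P i) m k).trans (PPar.E0_f (P i) h2))
  have hww : ∀ i : A, _ := fun i => cmp_U (B.emb i) (hX := XW_open) (hX' := XW_open)
    (D := (P i).E0) (D' := (P i).E0) (by
      intro z hz _ m n k hz'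
      obtain ⟨hb, h0, h1, -⟩ := hz
      obtain ⟨hb', h0', h1', -⟩ := hz'
      have hn : n = 0 := by
        have h2 : |z.2.1 + (n : ℝ)| < 3 / 16 := hb'
        rw [abs_lt] at hb h2
        have h3 : (-1 : ℝ) < n := by linarith [h2.1, hb.2]
        have h4 : (n : ℝ) < 1 := by linarith [h2.2, hb.1]
        have h5 : -1 < n := by exact_mod_cast h3
        have h6 : n < 1 := by exact_mod_cast h4
        omega
      have hk : k = 0 := by
        have h2 : 0 < z.2.2 + (k : ℝ) := h0'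
        have h3 : z.2.2 + (k : ℝ) < 1 := h1'
        have h4 : (-1 : ℝ) < k := by linarith
        have h5 : (k : ℝ) < 1 := by linarith
        have h6 : -1 < k := by exact_mod_cast h4
        have h7 : k < 1 := by exact_mod_cast h5
        omega
      subst hn hk
      refine (OrdEq.of_comp (fun x => x + (m : ℝ)) (fun x y h => by
        show x + (m : ℝ) < y + m
        linarith) (Eventually.of_forall fun w => ?_)).symm
      exact (P i).E0_add m w)
  have htn : ∀ i : A, _ := fun i => cmp_TU (B.emb i) (P i) (hX := XN_open)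
    (D := (P i).yn (S i)) (by
      intro z _ m n k hz'
      exact (P i).TT_N (S i) (TW.Fol_rt hz'.2.2.2) hz')
  have htf : ∀ i : A, _ := fun i => cmp_TU (B.emb i) (P i) (hX := XF_open)
    (D := (P i).yf) (by
      intro z _ m n k hz'
      exact (P i).TT_F (TW.Fol_rt hz'.2.2) hz')
  have htw : ∀ i : A, _ := fun i => cmp_TU (B.emb i) (P i) (hX := XW_open)
    (D := (P i).E0) (by
      intro z _ m n k hz'
      exact (P i).TT_W (TW.Fol_rt hz'.2.2.2) hz')
  -- the domains
  have hXF : ∀ z ∈ XF, -1 / 4 < z.2.1 ∧ z.2.1 < 3 / 16 := fun z hz =>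
    ⟨hz.1, by linarith [hz.2.1]⟩
  have hXW : ∀ z ∈ XW, -1 / 4 < z.2.1 ∧ z.2.1 < 3 / 16 := fun z hz =>
    ⟨by linarith [(abs_lt.1 hz.1).1], (abs_lt.1 hz.1).2⟩
  intro x y
  rcases x with c | i | i | i | i <;> rcases y with c' | j | j | j | j
  · exact hoo c c'
  · exact (hon c j).1
  · exact (hof c j).1
  · exact (how c j).1
  · exact (hot c j).1
  -- n
  · exact (hon c' i).2
  · rcases eq_or_ne i j with rfl | hij
    · exact cmp_NN_self i
    · exact cmp_NN hij
  · rcases eq_or_ne i j with rfl | hij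
    · exact (hfn i).1
    · exact (cmp_disj hij (hX := XN_open) (hX' := XF_open) hXF).1
  · rcases eq_or_ne i j with rfl | hij
    · exact (hwn i).1
    · exact (cmp_disj hij (hX := XN_open) (hX' := XW_open) hXW).1
  · rcases eq_or_ne i j with rfl | hij
    · exact (htn i).1
    · exact (cmp_disjT hij (P j) (hX := XN_open)).1
  -- f
  · exact (hof c' i).2
  · rcases eq_or_ne i j with rfl | hij
    · exact (hfn i).2
    · exact (cmp_disj hij.symm (hX := XN_open) (hX' := XF_open) hXF).2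
  · rcases eq_or_ne i j with rfl | hij
    · exact (hff i).1
    · exact (cmp_disj hij (hX := XF_open) (hX' := XF_open) hXF).1
  · rcases eq_or_ne i j with rfl | hij
    · exact (hwf i).1
    · exact (cmp_disj hij (hX := XF_open) (hX' := XW_open) hXW).1
  · rcases eq_or_ne i j with rfl | hij
    · exact (htf i).1
    · exact (cmp_disjT hij (P j) (hX := XF_open)).1
  -- w
  · exact (how c' i).2
  · rcases eq_or_ne i j with rfl | hij
    · exact (hwn i).2
    · exact (cmp_disj hij.symm (hX := XN_open) (hX' := XW_open) hXW).2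
  · rcases eq_or_ne i j with rfl | hij
    · exact (hwf i).2
    · exact (cmp_disj hij.symm (hX := XF_open) (hX' := XW_open) hXW).2
  · rcases eq_or_ne i j with rfl | hij
    · exact (hww i).1
    · exact (cmp_disj hij (hX := XW_open) (hX' := XW_open) hXW).1
  · rcases eq_or_ne i j with rfl | hij
    · exact (htw i).1
    · exact (cmp_disjT hij (P j) (hX := XW_open)).1
  -- t
  · exact (hot c' i).2
  · rcases eq_or_ne i j with rfl | hij
    · exact (htn i).2
    · exact (cmp_disjT hij.symm (P i) (hX := XN_open)).2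
  · rcases eq_or_ne i j with rfl | hij
    · exact (htf i).2
    · exact (cmp_disjT hij.symm (P i) (hX := XF_open)).2
  · rcases eq_or_ne i j with rfl | hij
    · exact (htw i).2
    · exact (cmp_disjT hij.symm (P i) (hX := XW_open)).2
  · rcases eq_or_ne i j with rfl | hij
    · exact cmp_TT (B.emb i) (P i)
    · exact cmp_disjTT hij (P i) (P j)

/-- PROOF: as `TW.exists_new`: `TW.exists_pre` with `fam_cmp` and the charts of Ch.lean; `C` is closed (`isClosed_iUnion_of_finite`, `N_closed`, `CX_closed`). The domain: `cover`, `core_disj`, `KK_CX`, `N_mem`. -/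
theorem exists_new [T2Space M] [Finite A] (hO : Old B P S F₀) :
    ∃ G : LS.PreFol M, New B P S F₀ G := by
  have hC : IsClosed (⋃ i, B.N i '' CX) :=
    isClosed_iUnion_of_finite fun i => N_closed (B.emb i) CX_closed le_rfl
  have hcmp := fam_cmp (P := P) (S := S) hO hC rfl
  have hch : ∀ x, ∀ z ∈ (fam B P S F₀ hC x).X, HasChart (fam B P S F₀ hC x) z := by
    intro x
    rcases x with c | i | i | i | i
    · exact fun z hz => chart_O c.1 hC z hz
    · exact fun z hz => chart_N (B.emb i) (P i) (S i) z hz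
    · exact fun z hz => chart_F (B.emb i) (P i) z hz
    · exact fun z hz => chart_W (B.emb i) (P i) z hz
    · exact fun z hz => chart_T (B.emb i) (P i) z hz
  obtain ⟨G, hdom, hG⟩ := TW.exists_pre (fam B P S F₀ hC) hcmp hch
  have hUX : IsOpenMap (Subtype.val : UX → ℝ × ℝ × ℝ) :=
    (VX_open.preimage cov_loc.continuous).isOpenMap_subtype_val
  have hKV : KK ⊆ VX := KK_CX.trans CX_sub
  have hKn : ∀ z : Ci × Ci × Ci, z ∈ KK → ‖z.2.1‖ ≤ 1 / 8 := by
    intro z hz
    have h1 : 256 * (‖z.2.1‖ ^ 2 + ‖z.2.2‖ ^ 2) ≤ 1 := hz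
    have h2 := norm_nonneg z.2.1
    have h3 := sq_nonneg ‖z.2.2‖
    by_contra h
    push Not at h
    nlinarith
  -- no point of the families is in the tube
  have hnK : ∀ i j (z : Ci × Ci × Ci), z ∈ VX → z ∉ KK → B.N i z ∉ B.N j '' KK := by
    rintro i j z hz hzK ⟨z', hz', h⟩
    rcases eq_or_ne j i with rfl | hij
    · have h1 := N_inj (B.emb j) (hKV hz') hz h
      rw [h1] at hz'
      exact hzK hz'
    · exact (core_disj hij (hKV hz') hz h).1 (hKn z' hz')
  refine ⟨G, ?_, ?_, ?_, ?_, ?_, ?_⟩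
  · rw [hdom]
    ext y
    rw [mem_iUnion]
    constructor
    · rintro ⟨x, hx⟩
      show ∀ j, y ∉ B.N j '' KK
      intro j
      rcases x with c | i | i | i | i
      · obtain ⟨x, hx, rfl⟩ := hx
        exact fun h => hx.2 (mem_iUnion.2 ⟨j, image_mono KK_CX h⟩)
      · obtain ⟨z, hz, rfl⟩ := hx
        refine hnK i j (cov z.1) z.2 ?_
        rw [TW.KK_iff]
        have h2 : 25 / 9 < rt z.1 := hz.2.2.2
        linarith
      · obtain ⟨z, hz, rfl⟩ := hx
        refine hnK i j (cov z.1) z.2 ?_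
        rw [TW.KK_iff]
        have h2 : 25 / 9 < rt z.1 := hz.2.2
        linarith
      · obtain ⟨z, hz, rfl⟩ := hx
        refine hnK i j (cov z.1) z.2 ?_
        rw [TW.KK_iff]
        have h2 : 25 / 9 < rt z.1 := hz.2.2.2
        linarith
      · obtain ⟨z, hz, rfl⟩ := hx
        exact hnK i j (cov (plr z)) (plr_VX z) (Fol_plr z)
    · intro hy
      have hy' : ∀ i, y ∉ B.N i '' KK := hy
      by_cases hyC : y ∈ ⋃ i, B.N i '' CX
      · obtain ⟨i, x, hx, rfl⟩ := mem_iUnion.1 hyC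
        obtain ⟨z, rfl⟩ := TW.cov_surj x
        have hz : 1 < rt z := by
          by_contra hc
          exact hy' i (mem_image_of_mem _ ((TW.KK_iff z).2 (not_lt.1 hc)))
        have hV : ∀ m n k : ℤ, cov (tr m n k z) ∈ VX := fun m n k => by
          rw [cov_tr]
          exact CX_sub hx
        rcases cover (CX_sub hx) hz with ⟨m, n, k, h1⟩ | ⟨m, n, k, h1⟩ | ⟨m, n, k, h1⟩ |
          ⟨w, hw, m, n, k, h1⟩
        · refine ⟨.n i, ⟨⟨tr m n k z, hV m n k⟩, h1, ?_⟩⟩
          show B.N i (cov (tr m n k z)) = B.N i (cov z)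
          rw [cov_tr]
        · refine ⟨.f i, ⟨⟨tr m n k z, hV m n k⟩, h1, ?_⟩⟩
          show B.N i (cov (tr m n k z)) = B.N i (cov z)
          rw [cov_tr]
        · refine ⟨.w i, ⟨⟨tr m n k z, hV m n k⟩, h1, ?_⟩⟩
          show B.N i (cov (tr m n k z)) = B.N i (cov z)
          rw [cov_tr]
        · refine ⟨.t i, ⟨w, hw, ?_⟩⟩
          show B.N i (cov (plr w)) = B.N i (cov z)
          rw [h1, cov_tr]
      · obtain ⟨c, hc, hyc⟩ := hO.dom y (fun i h => hyC (mem_iUnion.2 ⟨i, h⟩))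
        exact ⟨.o ⟨c, hc⟩, ⟨y, ⟨hyc, hyC⟩, rfl⟩⟩
  · intro i z hz c hc hs
    exact OrdEq.of_openMap hUX (z₀ := (⟨z, hz.1⟩ : UX)) (hG c hc (.n i) ⟨z, hz.1⟩ hz hs)
  · intro i z hz c hc hs
    exact OrdEq.of_openMap hUX (z₀ := (⟨z, XF_sub hz⟩ : UX)) (hG c hc (.f i) ⟨z, XF_sub hz⟩ hz hs)
  · intro i z hz c hc hs
    exact OrdEq.of_openMap hUX (z₀ := (⟨z, XW_sub hz⟩ : UX)) (hG c hc (.w i) ⟨z, XW_sub hz⟩ hz hs)
  · intro i z hz c hc hs
    exact hG c hc (.t i) z hz hs
  · intro y hy c hc c' hc' hyc hyc'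
    exact hG c hc (.o ⟨c', hc'⟩) y ⟨hyc', fun h => by
      obtain ⟨i, hi⟩ := mem_iUnion.1 h
      exact hy i hi⟩ hyc

end Pool.Agent.H.MP_1611f1_gt.PA
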