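import Pool.Agent.H.MP_1611f1_gt.PA.Defs
import Pool.Agent.H.MP_1611f1_gt.TW.LoC

/-!
The domains.
-/

namespace Pool.Agent.H.MP_1611f1_gt.PA

open Topology Set Filter
open Pool.Agent.H.MP_1611f1_gt.BR.U (Ci)
open Pool.Agent.H.MP_1611f1_gt.TW (cov tr plr rt KK cov_loc cov_tr exists_tr)

private theorem Loa_norm {x : ℝ} (h : |x| < 1 / 2) : ‖(x : Ci)‖ = |x| := by
  obtain ⟨h1, h2⟩ := abs_lt.1 h
  rw [BR.U.norm_cl, BR.U.cl_coe ⟨by linarith, h2⟩]

private theorem Loa_coe : Continuous fun x : ℝ => (x : Ci) :=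
  BR.U.NCov_coe_loc.continuous

private theorem Loa_c1 : Continuous fun z : Ci × Ci × Ci => z.1 := continuous_fst

private theorem Loa_c2 : Continuous fun z : Ci × Ci × Ci => z.2.1 :=
  continuous_fst.comp continuous_snd

private theorem Loa_c3 : Continuous fun z : Ci × Ci × Ci => z.2.2 :=
  continuous_snd.comp continuous_snd

private theorem Loa_op (c d : ℝ) : IsOpen {x : Ci | ∃ b : ℝ, c < b ∧ b < d ∧ x = (b : Ci)} := by
  have h : {x : Ci | ∃ b : ℝ, c < b ∧ b < d ∧ x = (b : Ci)} = (fun b : ℝ => (b : Ci)) '' Ioo c d := by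
    ext x
    constructor
    · rintro ⟨b, h1, h2, h3⟩
      exact ⟨b, ⟨h1, h2⟩, h3.symm⟩
    · rintro ⟨b, ⟨h1, h2⟩, h3⟩
      exact ⟨b, h1, h2, h3.symm⟩
  rw [h]
  exact BR.U.NCov_coe_loc.isOpenMap _ isOpen_Ioo

private theorem Loa_cl (c d : ℝ) :
    IsClosed {x : Ci | ∃ b : ℝ, c ≤ b ∧ b ≤ d ∧ x = (b : Ci)} := by
  have h : {x : Ci | ∃ b : ℝ, c ≤ b ∧ b ≤ d ∧ x = (b : Ci)} = (fun b : ℝ => (b : Ci)) '' Icc c d := by
    ext x
    constructor
    · rintro ⟨b, h1, h2, h3⟩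
      exact ⟨b, ⟨h1, h2⟩, h3.symm⟩
    · rintro ⟨b, ⟨h1, h2⟩, h3⟩
      exact ⟨b, h1, h2, h3.symm⟩
  rw [h]
  exact (isCompact_Icc.image Loa_coe).isClosed

theorem VX_open : IsOpen VX :=
  (isOpen_lt Loa_c2.norm continuous_const).union
    (((isOpen_lt (Loa_c1.sub continuous_const).norm continuous_const).union
      (isOpen_lt (Loa_c1.sub continuous_const).norm continuous_const)).inter
        ((Loa_op 0 (5 / 8)).preimage Loa_c2))

/-- PROOF: the sets `{t | 1/8 < t < 3/8}` are images of intervals: open in the circle (`QuotientAddGroup.isOpenMap_coe`), closed intervals have compact images -/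
theorem CX_closed : IsClosed CX := by
  have h1 : IsClosed {z : Ci × Ci × Ci | ‖z.2.1‖ ≤ 1 / 8 ∧ ‖z.2.2‖ ≤ 1 / 8} :=
    (isClosed_le Loa_c2.norm continuous_const).inter (isClosed_le Loa_c3.norm continuous_const)
  have h2 : IsOpen {z : Ci × Ci × Ci | ‖z.1‖ < 3 / 16 ∧
      ∃ t : ℝ, 1 / 8 < t ∧ t < 3 / 8 ∧ z.2.2 = (t : Ci)} :=
    (isOpen_lt Loa_c1.norm continuous_const).inter ((Loa_op (1 / 8) (3 / 8)).preimage Loa_c3)
  have h3 : IsClosed {z : Ci × Ci × Ci | ‖z.2.1‖ ≤ 1 / 16 ∧ ¬ (‖z.1‖ < 3 / 16 ∧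
      ∃ t : ℝ, 1 / 8 < t ∧ t < 3 / 8 ∧ z.2.2 = (t : Ci))} :=
    (isClosed_le Loa_c2.norm continuous_const).inter h2.isClosed_compl
  have h4 : IsClosed {z : Ci × Ci × Ci | (‖z.1 - ((1 / 4 : ℝ) : Ci)‖ ≤ 1 / 16 ∨
      ‖z.1 - ((3 / 4 : ℝ) : Ci)‖ ≤ 1 / 16) ∧ ∃ b : ℝ, 0 ≤ b ∧ b ≤ 1 / 2 ∧ z.2.1 = (b : Ci)} :=
    ((isClosed_le (Loa_c1.sub continuous_const).norm continuous_const).union
      (isClosed_le (Loa_c1.sub continuous_const).norm continuous_const)).inter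
        ((Loa_cl 0 (1 / 2)).preimage Loa_c2)
  exact h1.union (h3.union h4)

theorem CX_sub : CX ⊆ VX := by
  rintro z (⟨h, -⟩ | ⟨h, -⟩ | ⟨h, b, h1, h2, h3⟩)
  · exact Or.inl (by linarith)
  · exact Or.inl (by linarith)
  · rcases h1.eq_or_lt with h4 | h4
    · left
      rw [h3, ← h4, AddCircle.coe_zero, norm_zero]
      norm_num
    · refine Or.inr ⟨?_, b, h4, by linarith, h3⟩
      rcases h with h | h
      · exact Or.inl (by linarith)
      · exact Or.inr (by linarith)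

/-- `‖b‖, ‖t‖ ≤ 1/16` -/
theorem KK_CX : KK ⊆ CX := by
  intro z hz
  have h1 : 256 * (‖z.2.1‖ ^ 2 + ‖z.2.2‖ ^ 2) ≤ 1 := hz
  have h2 := norm_nonneg z.2.1
  have h3 := norm_nonneg z.2.2
  exact Or.inl ⟨by nlinarith [sq_nonneg ‖z.2.2‖], by nlinarith [sq_nonneg ‖z.2.1‖]⟩

private theorem Loa_rt : Continuous rt := by
  have h1 : Continuous fun z : ℝ × ℝ × ℝ => (z.2.1 : Ci) :=
    Loa_coe.comp (continuous_fst.comp continuous_snd)
  have h2 : Continuous fun z : ℝ × ℝ × ℝ => (z.2.2 : Ci) :=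
    Loa_coe.comp (continuous_snd.comp continuous_snd)
  exact continuous_const.mul ((h1.norm.pow 2).add (h2.norm.pow 2))

theorem XN_open : IsOpen XN := by
  have h1 : IsOpen {z : ℝ × ℝ × ℝ | cov z ∈ VX} := VX_open.preimage cov_loc.continuous
  have h2 : IsOpen {z : ℝ × ℝ × ℝ | 1 / 16 < z.2.1} := isOpen_lt continuous_const (by fun_prop)
  have h3 : IsOpen {z : ℝ × ℝ × ℝ | z.2.1 < 5 / 8} := isOpen_lt (by fun_prop) continuous_const
  have h4 : IsOpen {z : ℝ × ℝ × ℝ | 25 / 9 < rt z} := isOpen_lt continuous_const Loa_rt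
  exact h1.inter (h2.inter (h3.inter h4))

theorem XF_open : IsOpen XF := by
  have h2 : IsOpen {z : ℝ × ℝ × ℝ | -1 / 4 < z.2.1} := isOpen_lt continuous_const (by fun_prop)
  have h3 : IsOpen {z : ℝ × ℝ × ℝ | z.2.1 < -1 / 16} := isOpen_lt (by fun_prop) continuous_const
  have h4 : IsOpen {z : ℝ × ℝ × ℝ | 25 / 9 < rt z} := isOpen_lt continuous_const Loa_rt
  exact h2.inter (h3.inter h4)

theorem XW_open : IsOpen XW := by
  have h1 : IsOpen {z : ℝ × ℝ × ℝ | |z.2.1| < 3 / 16} :=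
    isOpen_lt (by fun_prop) continuous_const
  have h2 : IsOpen {z : ℝ × ℝ × ℝ | 0 < z.2.2} := isOpen_lt continuous_const (by fun_prop)
  have h3 : IsOpen {z : ℝ × ℝ × ℝ | z.2.2 < 1} := isOpen_lt (by fun_prop) continuous_const
  have h4 : IsOpen {z : ℝ × ℝ × ℝ | 25 / 9 < rt z} := isOpen_lt continuous_const Loa_rt
  exact h1.inter (h2.inter (h3.inter h4))

theorem XT_open : IsOpen XT :=
  isOpen_lt (by fun_prop) continuous_const

private theorem Loa_sub {z : ℝ × ℝ × ℝ} (h : |z.2.1| < 1 / 4) : cov z ∈ VX := by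
  left
  show ‖(z.2.1 : Ci)‖ < 1 / 4
  rw [Loa_norm (by linarith)]
  exact h

theorem XF_sub {z : ℝ × ℝ × ℝ} (h : z ∈ XF) : cov z ∈ VX := by
  obtain ⟨h1, h2, -⟩ := h
  exact Loa_sub (abs_lt.2 ⟨by linarith, by linarith⟩)

theorem XW_sub {z : ℝ × ℝ × ℝ} (h : z ∈ XW) : cov z ∈ VX := by
  obtain ⟨h1, -⟩ := h
  exact Loa_sub (by linarith)

theorem plr_VX (z : ℝ × Ioo (1 : ℝ) 2 × ℝ) : cov (plr z) ∈ VX := by
  have h1 := (TW.plr_lt z).1
  have h2 := z.2.1.2.2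
  exact Loa_sub (by linarith)

theorem plr_CX (z : ℝ × Ioo (1 : ℝ) 2 × ℝ) : cov (plr z) ∈ CX := by
  obtain ⟨h1, h2⟩ := TW.plr_lt z
  have h3 := z.2.1.2.2
  left
  show ‖((plr z).2.1 : Ci)‖ ≤ 1 / 8 ∧ ‖((plr z).2.2 : Ci)‖ ≤ 1 / 8
  rw [Loa_norm (by linarith), Loa_norm (by linarith)]
  constructor <;> linarith

/-- a lift with `-1/4 < b < 5/8` -/
theorem exists_lift {z : Ci × Ci × Ci} (h : z ∈ VX) :
    ∃ w : ℝ × ℝ × ℝ, cov w = z ∧ -1 / 4 < w.2.1 ∧ w.2.1 < 5 / 8 := by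
  obtain ⟨a, b, t⟩ := z
  rcases h with h | ⟨-, c, h1, h2, h3⟩
  · have h1 : ‖b‖ < 1 / 4 := h
    rw [BR.U.norm_cl, abs_lt] at h1
    refine ⟨(BR.U.cl a, BR.U.cl b, BR.U.cl t), ?_, ?_, ?_⟩
    · show ((BR.U.cl a : Ci), (BR.U.cl b : Ci), (BR.U.cl t : Ci)) = (a, b, t)
      rw [BR.U.coe_cl, BR.U.coe_cl, BR.U.coe_cl]
    · show -1 / 4 < BR.U.cl b
      linarith
    · show BR.U.cl b < 5 / 8
      linarith
  · have h4 : b = (c : Ci) := h3
    refine ⟨(BR.U.cl a, c, BR.U.cl t), ?_, ?_, h2⟩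
    · show ((BR.U.cl a : Ci), (c : Ci), (BR.U.cl t : Ci)) = (a, b, t)
      rw [BR.U.coe_cl, BR.U.coe_cl, h4]
    · show -1 / 4 < c
      linarith

/-- The new domains cover `VX` outside of the tube. PROOF: if `rt z < (11/6) ^ 2` then `exists_plr`. Otherwise `rt z > 25/9`; take the lift of
`exists_lift`: `b > 1/16`: `XN`; `b < -1/16`: `XF`; otherwise `|b| ≤ 1/16`, and choose `0 ≤ t < 1`; `t ≠ 0` because `1 < rt`. (As `TW.cover`.) -/
theorem cover {z : ℝ × ℝ × ℝ} (hz : cov z ∈ VX) (h : 1 < rt z) :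
    (∃ m n k : ℤ, tr m n k z ∈ XN) ∨ (∃ m n k : ℤ, tr m n k z ∈ XF) ∨
      (∃ m n k : ℤ, tr m n k z ∈ XW) ∨
      ∃ w ∈ XT, ∃ m n k : ℤ, z = tr m n k (plr w) := by
  by_cases h1 : rt z < (11 / 6) ^ 2
  · obtain ⟨w, m, n, k, hw⟩ := TW.exists_plr h (h1.trans (by norm_num))
    refine Or.inr (Or.inr (Or.inr ⟨w, ?_, m, n, k, hw⟩))
    show (w.2.1 : ℝ) < 11 / 6
    rw [hw, TW.rt_tr, TW.rt_plr] at h1
    exact lt_of_pow_lt_pow_left₀ 2 (by norm_num) h1
  · have h2 : 25 / 9 < rt z := lt_of_lt_of_le (by norm_num) (not_lt.1 h1)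
    obtain ⟨w, hw, h3, h4⟩ := exists_lift hz
    obtain ⟨m, n, k, rfl⟩ := exists_tr hw
    by_cases h5 : 1 / 16 < (tr m n k z).2.1
    · refine Or.inl ⟨m, n, k, ?_, h5, h4, ?_⟩
      · rw [cov_tr]
        exact hz
      · rw [TW.rt_tr]
        exact h2
    · by_cases h6 : (tr m n k z).2.1 < -1 / 16
      · refine Or.inr (Or.inl ⟨m, n, k, h3, h6, ?_⟩)
        rw [TW.rt_tr]
        exact h2
      · rw [not_lt] at h5 h6
        have h5' : z.2.1 + (n : ℝ) ≤ 1 / 16 := h5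
        have h6' : -1 / 16 ≤ z.2.1 + (n : ℝ) := h6
        refine Or.inr (Or.inr (Or.inl ⟨m, n, -⌊z.2.2⌋, ?_, ?_, ?_, ?_⟩))
        · show |z.2.1 + (n : ℝ)| < 3 / 16
          rw [abs_lt]
          constructor <;> linarith
        · show 0 < z.2.2 + ((-⌊z.2.2⌋ : ℤ) : ℝ)
          have h7 : z.2.2 + ((-⌊z.2.2⌋ : ℤ) : ℝ) = Int.fract z.2.2 := by
            push_cast
            rw [← Int.self_sub_floor]
            ring
          rw [h7]
          refine lt_of_le_of_ne (Int.fract_nonneg _) fun h8 => ?_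
          have h9 : (z.2.2 : Ci) = 0 := by
            rw [AddCircle.coe_eq_zero_iff]
            refine ⟨⌊z.2.2⌋, ?_⟩
            rw [zsmul_one]
            have h8 := Int.floor_add_fract z.2.2
            linarith
          have h10 : rt (tr m n k z) = 256 * ‖((tr m n k z).2.1 : Ci)‖ ^ 2 := by
            have h11 : ((tr m n k z).2.2 : Ci) = (z.2.2 : Ci) :=
              congrArg (fun y : Ci × Ci × Ci => y.2.2) (cov_tr m n k z)
            unfold rt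
            rw [h11, h9, norm_zero]
            ring
          have h12 : |z.2.1 + (n : ℝ)| ≤ 1 / 16 := abs_le.2 ⟨by linarith, h5'⟩
          have h13 : ‖((tr m n k z).2.1 : Ci)‖ ≤ 1 / 16 := by
            show ‖((z.2.1 + (n : ℝ) : ℝ) : Ci)‖ ≤ 1 / 16
            rw [Loa_norm (by linarith)]
            exact h12
          have h14 := norm_nonneg ((tr m n k z).2.1 : Ci)
          rw [TW.rt_tr] at h10
          rw [h10] at h
          nlinarith
        · show z.2.2 + ((-⌊z.2.2⌋ : ℤ) : ℝ) < 1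
          have h7 := Int.lt_floor_add_one z.2.2
          push_cast
          linarith
        · rw [TW.rt_tr]
          exact h2

end Pool.Agent.H.MP_1611f1_gt.PA
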