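import Pool.Agent.H.MP_1611f1_gt.PA.Loa

/-!
One box.
-/

namespace Pool.Agent.H.MP_1611f1_gt.PA

open Topology Set Filter
open Pool.Agent.H.MP_1611f1_gt.BR.U (Ci)
open Pool.Agent.H.MP_1611f1_gt.TW (cov tr plr rt KK cov_loc cov_tr exists_tr)

/-! ### One box -/

variable {M : Type} [TopologicalSpace M] {N : Ci × Ci × Ci → M}
  (hN : IsOpenEmbedding (VX.domRestrict N))

include hN

theorem N_inj {z z' : Ci × Ci × Ci} (hz : z ∈ VX) (hz' : z' ∈ VX) (h : N z = N z') : z = z' :=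
  congrArg Subtype.val (hN.injective
    (show VX.domRestrict N ⟨z, hz⟩ = VX.domRestrict N ⟨z', hz'⟩ from h))

theorem N_cont : ContinuousOn N VX :=
  continuousOn_iff_continuous_domRestrict.2 hN.continuous

theorem N_open {U : Set (Ci × Ci × Ci)} (hU : IsOpen U) (h : U ⊆ VX) : IsOpen (N '' U) := by
  have h1 : N '' U = VX.domRestrict N '' (Subtype.val ⁻¹' U) := by
    ext m
    constructor
    · rintro ⟨z, hz, rfl⟩
      exact ⟨⟨z, h hz⟩, hz, rfl⟩
    · rintro ⟨z, hz, rfl⟩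
      exact ⟨z.1, hz, rfl⟩
  rw [h1]
  exact hN.isOpenMap _ (hU.preimage continuous_subtype_val)

theorem N_closed [T2Space M] {K : Set (Ci × Ci × Ci)} (hK : IsClosed K) (h : K ⊆ CX) :
    IsClosed (N '' K) :=
  (hK.isCompact.image_of_continuousOn ((N_cont hN).mono (h.trans CX_sub))).isClosed

theorem N_mem {z : Ci × Ci × Ci} {K : Set (Ci × Ci × Ci)} (hz : z ∈ VX) (h : K ⊆ VX) :
    N z ∈ N '' K ↔ z ∈ K :=
  ⟨fun ⟨_, hw, e⟩ => N_inj hN (h hw) hz e ▸ hw, fun hz' => mem_image_of_mem N hz'⟩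

theorem RU_loc : IsLocalHomeomorph fun z : UX => N (cov z.1) := by
  have hO : IsOpen {z : ℝ × ℝ × ℝ | cov z ∈ VX} := VX_open.preimage cov_loc.continuous
  have h1 : IsLocalHomeomorph fun z : UX => cov z.1 :=
    cov_loc.comp hO.isOpenEmbedding_subtypeVal.isLocalHomeomorph
  have h2 : IsLocalHomeomorph fun z : UX => (⟨cov z.1, z.2⟩ : VX) :=
    IsLocalHomeomorph.of_comp (g := (Subtype.val : VX → Ci × Ci × Ci)) h1
      VX_open.isOpenEmbedding_subtypeVal.isLocalHomeomorph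
      (h1.continuous.subtype_mk _)
  exact hN.isLocalHomeomorph.comp h2

theorem RT_loc : IsLocalHomeomorph fun z : ℝ × Ioo (1 : ℝ) 2 × ℝ => N (cov (plr z)) := by
  have hO : IsOpen {z : ℝ × ℝ × ℝ | cov z ∈ VX} := VX_open.preimage cov_loc.continuous
  have h2 : IsLocalHomeomorph fun z : ℝ × Ioo (1 : ℝ) 2 × ℝ => (⟨plr z, plr_VX z⟩ : UX) :=
    IsLocalHomeomorph.of_comp (g := (Subtype.val : UX → ℝ × ℝ × ℝ)) TW.plr_loc
      hO.isOpenEmbedding_subtypeVal.isLocalHomeomorph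
      (TW.plr_cont.subtype_mk _)
  exact (RU_loc hN).comp h2

end Pool.Agent.H.MP_1611f1_gt.PA
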