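import Pool.Agent.H.MP_1611f1_gt.PA.Fol
import Pool.Agent.H.MP_1611f1_gt.TW.TaC

/-!
Tautness of the new foliation: paths outside of the cores, paths in the coordinates.
-/

namespace Pool.Agent.H.MP_1611f1_gt.PA

open Topology Set Filter
open Pool.Agent.H.MP_1611f1_gt.BR.U (Ci)
open Pool.Agent.H.MP_1611f1_gt.TW (cov tr plr rt KK lam cov_loc cov_tr exists_tr)

variable {M : Type} [TopologicalSpace M] {A : Type} {B : Boxes M A} {P : A → PPar} {S : A → Str}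
  {F₀ G : LS.PreFol M}

/-- (`New.dom`, `KK_CX`) -/
theorem New.dom_out (H : New B P S F₀ G) {y : M} (hy : ∀ i, y ∉ B.N i '' CX) : y ∈ G.dom := by
  rw [H.dom]
  exact fun i h => hy i (image_mono KK_CX h)

/-- PROOF: `New.dom`; `N_mem` for the box `i`, `core_disj` for the other boxes (`‖b‖ ≤ 1/16` on `KK`). -/
theorem New.dom_box (H : New B P S F₀ G) {i : A} {z : ℝ × ℝ × ℝ} (hz : cov z ∈ VX)
    (hr : 1 < rt z) : B.N i (cov z) ∈ G.dom := by
  rw [H.dom]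
  intro j hj
  by_cases hij : i = j
  · subst hij
    have h1 := (N_mem (B.emb i) hz (KK_CX.trans CX_sub)).1 hj
    rw [TW.KK_iff] at h1
    linarith
  · obtain ⟨z', hz', he⟩ := hj
    have h1 := (core_disj (B := B) hij hz (CX_sub (KK_CX hz')) he.symm).2
    apply h1
    have h2 : 256 * (‖z'.2.1‖ ^ 2 + ‖z'.2.2‖ ^ 2) ≤ 1 := hz'
    have h3 := norm_nonneg z'.2.1
    nlinarith [sq_nonneg ‖z'.2.2‖]

/-- (as `TW.New.pos_out`) -/
theorem New.pos_out (H : New B P S F₀ G) {γ : ℝ → M} {a b : ℝ} (h : F₀.Pos γ a b)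
    (hγ : ∀ t ∈ Icc a b, ∀ i, γ t ∉ B.N i '' CX) : G.Pos γ a b := by
  refine LS.PreFol.pos_of G h.1 fun t ht => ?_
  obtain ⟨c, hc, hs⟩ := H.dom_out (hγ t ht)
  obtain ⟨c', hc', hs', ε, hε, hmono⟩ := h.2 t ht
  obtain ⟨V, hV, hcmp⟩ := H.out (γ t) (hγ t ht) c hc c' hc' hs hs'
  have h1 : γ ⁻¹' V ∈ 𝓝[Icc a b] t := h.1 t ht hV
  obtain ⟨W, hW, hsub⟩ := mem_nhdsWithin_iff_exists_mem_nhds_inter.1 h1
  refine ⟨c, hc, hs, W ∩ Ioo (t - ε) (t + ε),
    inter_mem hW (Ioo_mem_nhds (by linarith) (by linarith)), ?_⟩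
  rintro x ⟨hx1, hx2, hx3⟩ x' ⟨hx1', hx2', hx3'⟩ hxx
  exact (hcmp _ (hsub ⟨hx2, hx1⟩) _ (hsub ⟨hx2', hx1'⟩)).2 (hmono ⟨hx1, hx3⟩ ⟨hx1', hx3'⟩ hxx)

/-- (`Old.up`, `New.pos_out`, `LS.PreFol.Pos.up`) -/
theorem New.up_out (H : New B P S F₀ G) (hO : Old B P S F₀) {y : M}
    (hy : ∀ i, y ∉ B.N i '' VX) : G.Up y y := by
  obtain ⟨γ, hγ, h0, h1, hC⟩ := hO.up y hy
  have h2 := LS.PreFol.Pos.up G (H.pos_out hγ hC) zero_lt_one
  rwa [h0, h1] at h2

/-- A TRANSVERSE PATH in the coordinates of a box. PROOF: as `TaB_up` in TW/TaB.lean: `TW.up_R` with `Z = UX` (the path `σ` is extended to `ℝ` by `projIcc`). -/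
theorem New.up_U (H : New B P S F₀ G) {i : A} {X : Set (ℝ × ℝ × ℝ)} {D : ℝ × ℝ × ℝ → ℝ}
    (hX : ∀ z ∈ X, cov z ∈ VX ∧ 1 < rt z)
    (h : ∀ z ∈ X, ∀ c ∈ G.charts, B.N i (cov z) ∈ c.source →
      OrdEq z (fun w => (c (B.N i (cov w))).2) D)
    {σ : ℝ → ℝ × ℝ × ℝ} {a b : ℝ} (hab : a < b) (hσ : ContinuousOn σ (Icc a b))
    (hs : ∀ s ∈ Icc a b, σ s ∈ X) (hD : StrictMonoOn (fun s => D (σ s)) (Icc a b)) :
    G.Up (B.N i (cov (σ a))) (B.N i (cov (σ b))) := by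
  have hp : ∀ s, σ (projIcc a b hab.le s : Icc a b) ∈ X := fun s => hs _ (projIcc a b hab.le s).2
  have hpe : ∀ s ∈ Icc a b, ((projIcc a b hab.le s : Icc a b) : ℝ) = s := by
    intro s hs'
    rw [projIcc_of_mem hab.le hs']
  let τ : ℝ → UX := fun s => ⟨σ (projIcc a b hab.le s : Icc a b), (hX _ (hp s)).1⟩
  have hτ : Continuous τ := by
    refine Continuous.subtype_mk ?_ _
    exact hσ.domRestrict.comp continuous_projIcc
  have hτe : ∀ s ∈ Icc a b, (τ s).1 = σ s := by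
    intro s hs'
    show σ ((projIcc a b hab.le s : Icc a b) : ℝ) = σ s
    rw [hpe s hs']
  have h1 := TW.up_R G (Z := UX) (R := fun z => B.N i (cov z.1)) (RU_loc (B.emb i)).continuous
    (X := {z | z.1 ∈ X}) (D := fun z => D z.1)
    (fun z hz => H.dom_box z.2 (hX _ hz).2)
    (fun z hz c hc hc' => OrdEq.comp_cont (R := fun w : UX => w.1)
      continuous_subtype_val.continuousAt (h z.1 hz c hc hc'))
    (σ := τ) hab hτ.continuousOn
    (fun s hs' => by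
      show (τ s).1 ∈ X
      rw [hτe s hs']
      exact hs s hs')
    (fun s hs1 s' hs2 hss => by
      show D (τ s).1 < D (τ s').1
      rw [hτe s hs1, hτe s' hs2]
      exact hD hs1 hs2 hss)
  have h2 : G.Up (B.N i (cov (τ a).1)) (B.N i (cov (τ b).1)) := h1
  rwa [hτe a ⟨le_rfl, hab.le⟩, hτe b ⟨hab.le, le_rfl⟩] at h2

/-- A LEAF PATH in the coordinates of a box. PROOF: `TW.up_leaf_R` with `Z = UX`, in the same way. -/
theorem New.up_leafU (H : New B P S F₀ G) {i : A} {X : Set (ℝ × ℝ × ℝ)} {D : ℝ × ℝ × ℝ → ℝ}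
    (hX : ∀ z ∈ X, cov z ∈ VX ∧ 1 < rt z)
    (h : ∀ z ∈ X, ∀ c ∈ G.charts, B.N i (cov z) ∈ c.source →
      OrdEq z (fun w => (c (B.N i (cov w))).2) D)
    {σ : ℝ → ℝ × ℝ × ℝ} {a b : ℝ} (hσ : ContinuousOn σ (uIcc a b))
    (hs : ∀ s ∈ uIcc a b, σ s ∈ X) (hD : ∀ s ∈ uIcc a b, D (σ s) = D (σ a))
    (hb : G.Up (B.N i (cov (σ b))) (B.N i (cov (σ b)))) :
    G.Up (B.N i (cov (σ a))) (B.N i (cov (σ a))) := by
  have hle : min a b ≤ max a b := min_le_max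
  have hp : ∀ s, σ (projIcc (min a b) (max a b) hle s : Icc (min a b) (max a b)) ∈ X :=
    fun s => hs _ (projIcc (min a b) (max a b) hle s).2
  have hpe : ∀ s ∈ uIcc a b,
      ((projIcc (min a b) (max a b) hle s : Icc (min a b) (max a b)) : ℝ) = s := by
    intro s hs'
    rw [projIcc_of_mem hle hs']
  let τ : ℝ → UX := fun s =>
    ⟨σ (projIcc (min a b) (max a b) hle s : Icc (min a b) (max a b)), (hX _ (hp s)).1⟩
  have hτ : Continuous τ := by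
    refine Continuous.subtype_mk ?_ _
    have hσ' : ContinuousOn σ (Icc (min a b) (max a b)) := hσ
    exact hσ'.domRestrict.comp continuous_projIcc
  have hτe : ∀ s ∈ uIcc a b, (τ s).1 = σ s := by
    intro s hs'
    show σ ((projIcc (min a b) (max a b) hle s : Icc (min a b) (max a b)) : ℝ) = σ s
    rw [hpe s hs']
  have h1 := TW.up_leaf_R G (Z := UX) (R := fun z => B.N i (cov z.1))
    (RU_loc (B.emb i)).continuous
    (X := {z | z.1 ∈ X}) (D := fun z => D z.1)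
    (fun z hz => H.dom_box z.2 (hX _ hz).2)
    (fun z hz c hc hc' => OrdEq.comp_cont (R := fun w : UX => w.1)
      continuous_subtype_val.continuousAt (h z.1 hz c hc hc'))
    (σ := τ) (a := a) (b := b) hτ.continuousOn
    (fun s hs' => by
      show (τ s).1 ∈ X
      rw [hτe s hs']
      exact hs s hs')
    (fun s hs' => by
      show D (τ s).1 = D (τ a).1
      rw [hτe s hs', hτe a left_mem_uIcc]
      exact hD s hs')
    (by
      show G.Up (B.N i (cov (τ b).1)) (B.N i (cov (τ b).1))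
      rw [hτe b right_mem_uIcc]
      exact hb)
  have h2 : G.Up (B.N i (cov (τ a).1)) (B.N i (cov (τ a).1)) := h1
  rwa [hτe a left_mem_uIcc] at h2

/-- the three domains -/
theorem XN_dom {z : ℝ × ℝ × ℝ} (h : z ∈ XN) : cov z ∈ VX ∧ 1 < rt z := by
  obtain ⟨h1, -, -, h2⟩ := h
  exact ⟨h1, by linarith⟩

theorem XF_dom {z : ℝ × ℝ × ℝ} (h : z ∈ XF) : cov z ∈ VX ∧ 1 < rt z :=
  ⟨XF_sub h, by have := h.2.2; linarith⟩

theorem XW_dom {z : ℝ × ℝ × ℝ} (h : z ∈ XW) : cov z ∈ VX ∧ 1 < rt z :=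
  ⟨XW_sub h, by have := h.2.2.2; linarith⟩

end Pool.Agent.H.MP_1611f1_gt.PA
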