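import Pool.Agent.H.MP_1611f1_gt.PA.TaA

/-!
Tautness of the new foliation: circles.
-/

namespace Pool.Agent.H.MP_1611f1_gt.PA

open Topology Set Filter
open Pool.Agent.H.MP_1611f1_gt.BR.U (Ci)
open Pool.Agent.H.MP_1611f1_gt.TW (cov tr plr rt KK lam cov_loc cov_tr exists_tr)

variable {M : Type} [TopologicalSpace M] {A : Type} {B : Boxes M A} {P : A → PPar} {S : A → Str}
  {F₀ G : LS.PreFol M}

/-- near `0` the norm is the absolute value -/
private theorem TaB_norm {x : ℝ} (h : |x| ≤ 1 / 2) : ‖(x : Ci)‖ = |x| := by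
  rw [AddCircle.norm_coe_eq_abs_iff _ one_ne_zero]
  simpa using h

private theorem TaB_coe (x : ℝ) (n : ℤ) : ((x + n : ℝ) : Ci) = (x : Ci) := by
  have h1 := congrArg Prod.fst (cov_tr n 0 0 (x, 0, 0))
  exact h1

/-- `11/100 ≤ ‖b‖` for `11/100 ≤ b < 5/8` -/
private theorem TaB_nb {b c : ℝ} (hc : c ≤ 3 / 8) (h : c ≤ b) (h' : b < 5 / 8) (h0 : 0 ≤ b) :
    c ≤ ‖(b : Ci)‖ := by
  rcases le_total b (1 / 2) with h1 | h1
  · rw [TaB_norm (by rw [abs_of_nonneg h0]; exact h1), abs_of_nonneg h0]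
    exact h
  · have h2 := TaB_coe (b - 1) 1
    have h3 : (b - 1 : ℝ) + ((1 : ℤ) : ℝ) = b := by push_cast; ring
    rw [h3] at h2
    rw [h2, TaB_norm (by rw [abs_of_nonpos (by linarith)]; linarith),
      abs_of_nonpos (by linarith)]
    linarith

private theorem TaB_add1 (a b t : ℝ) : cov (a + 1, b, t) = cov (a, b, t) := by
  have := cov_tr 1 0 0 (a, b, t)
  simpa [tr] using this

private theorem TaB_t1 (a b t : ℝ) : cov (a, b, t + 1) = cov (a, b, t) := by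
  have := cov_tr 0 0 1 (a, b, t)
  simpa [tr] using this

private theorem TaB_circ (H : New B P S F₀ G) {i : A} {z : ℝ × ℝ × ℝ} (hr : 25 / 9 < rt z)
    (h : max ‖(z.2.1 : Ci)‖ ‖(z.2.2 : Ci)‖ < 1 / 8) (hb : |z.2.1| < 1 / 8)
    (ht : |z.2.1| ≤ 1 / 16 → 0 < z.2.2 ∧ z.2.2 < 1) :
    G.Up (B.N i (cov z)) (B.N i (cov z)) := by
  obtain ⟨a, b, t⟩ := z
  simp only at h hb ht
  have hr' : ∀ s : ℝ, 25 / 9 < rt (s, b, t) := fun s => hr
  have hl : 0 < lam b t := TW.lam_pos h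
  have hσ : ContinuousOn (fun s : ℝ => (a + s, b, t)) (Icc 0 1) := by fun_prop
  obtain ⟨hb1, hb2⟩ := abs_lt.1 hb
  have hn : ‖(b : Ci)‖ = |b| := TaB_norm (by linarith)
  have key : G.Up (B.N i (cov (a + 0, b, t))) (B.N i (cov (a + 1, b, t))) := by
    rcases lt_or_ge (1 / 16) b with h1 | h1
    · refine H.up_U (X := XN) (D := (P i).yn (S i)) (fun z hz => XN_dom hz) (H.n i)
        (σ := fun s : ℝ => (a + s, b, t)) zero_lt_one hσ (fun s _ => ?_) (fun s _ s' _ hss => ?_)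
      · refine ⟨Or.inl ?_, h1, ?_, hr' _⟩
        · show ‖(b : Ci)‖ < 1 / 4
          rw [hn]
          linarith
        · show b < 5 / 8
          linarith
      · show (P i).yn (S i) (a + s, b, t) < (P i).yn (S i) (a + s', b, t)
        have hb4 : b ≤ 1 / 4 := by linarith
        rw [PPar.yn_left (S := S i) (P i) (z := (a + s, b, t)) hb4,
          PPar.yn_left (S := S i) (P i) (z := (a + s', b, t)) hb4]
        exact (P i).yv_lt ((P i).vn_lt (by linarith) (Or.inl hl))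
    · rcases lt_or_ge b (-1 / 16) with h2 | h2
      · refine H.up_U (X := XF) (D := (P i).yf) (fun z hz => XF_dom hz) (H.f i)
          (σ := fun s : ℝ => (a + s, b, t)) zero_lt_one hσ (fun s _ => ?_)
          (fun s _ s' _ hss => ?_)
        · exact ⟨by show -1 / 4 < b; linarith, h2, hr' _⟩
        · exact (P i).yf_lt (by linarith) hl
      · have h3 := ht (abs_le.2 ⟨by linarith, h1⟩)
        refine H.up_U (X := XW) (D := (P i).E0) (fun z hz => XW_dom hz) (H.w i)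
          (σ := fun s : ℝ => (a + s, b, t)) zero_lt_one hσ (fun s _ => ?_)
          (fun s _ s' _ hss => ?_)
        · refine ⟨?_, h3.1, h3.2, hr' _⟩
          show |b| < 3 / 16
          linarith
        · exact (P i).E0_lt (by linarith) hl
  rw [TaB_add1, add_zero] at key
  exact key

/-- Circles in the direction `a` near the tube. PROOF: as `TW.New.up_circle`. If `rt z > 25/9` choose a translate with `-1/8 < b < 1/8`, `0 < t < 1` (`t ≠ 0` is only needed for `|b| ≤ 1/16`): `1/16 < b`: `XN` with `yn` (`= yv`, `vn_lt`, `yv_lt`, `TW.lam_pos`); `b < -1/16`: `XF` with `yf`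
(`yf_lt`); otherwise `XW` with `E0` (`E0_lt`); `New.up_U` for `σ s = (a + s, b, t)`, `s ∈ [0, 1]`. If `rt z ≤ 25/9`: `TW.exists_plr`, `TW.up_R` with `R w = B.N i (cov (plr w))`, `D = TT` (`TT_lt`), `TW.plr_add`. -/
theorem New.up_circ (H : New B P S F₀ G) {i : A} {z : ℝ × ℝ × ℝ} (hr : 1 < rt z)
    (h : max ‖(z.2.1 : Ci)‖ ‖(z.2.2 : Ci)‖ < 1 / 8) :
    G.Up (B.N i (cov z)) (B.N i (cov z)) := by
  rcases lt_or_ge (25 / 9) (rt z) with h1 | h1
  · have hcov := cov_tr 0 (-round z.2.1) (-⌊z.2.2⌋) z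
    have e1 : ((tr 0 (-round z.2.1) (-⌊z.2.2⌋) z).2.1 : Ci) = (z.2.1 : Ci) :=
      congrArg (fun w : Ci × Ci × Ci => w.2.1) hcov
    have e2 : ((tr 0 (-round z.2.1) (-⌊z.2.2⌋) z).2.2 : Ci) = (z.2.2 : Ci) :=
      congrArg (fun w : Ci × Ci × Ci => w.2.2) hcov
    have hb : |(tr 0 (-round z.2.1) (-⌊z.2.2⌋) z).2.1| = ‖(z.2.1 : Ci)‖ := by
      rw [UnitAddCircle.norm_eq]
      show |z.2.1 + ((-round z.2.1 : ℤ) : ℝ)| = _
      push_cast
      rw [← sub_eq_add_neg]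
    have hm := max_lt_iff.1 h
    rw [← hcov]
    refine TaB_circ H (by rw [TW.rt_tr]; exact h1) (by rw [e1, e2]; exact h)
      (by rw [hb]; exact hm.1) (fun h2 => ?_)
    rw [hb] at h2
    show 0 < z.2.2 + ((-⌊z.2.2⌋ : ℤ) : ℝ) ∧ z.2.2 + ((-⌊z.2.2⌋ : ℤ) : ℝ) < 1
    push_cast
    rw [← sub_eq_add_neg]
    refine ⟨?_, Int.fract_lt_one z.2.2⟩
    rcases eq_or_lt_of_le (Int.fract_nonneg z.2.2) with h3 | h3
    · exfalso
      have h4 : (z.2.2 : Ci) = 0 := by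
        have h5 : z.2.2 = ⌊z.2.2⌋ := by
          have := Int.floor_add_fract z.2.2
          linarith
        rw [h5, AddCircle.coe_eq_zero_iff]
        exact ⟨⌊z.2.2⌋, by simp⟩
      unfold rt at h1
      rw [h4, norm_zero] at h1
      have h5 := norm_nonneg (z.2.1 : Ci)
      nlinarith
    · exact h3
  · obtain ⟨w, m, n, k, rfl⟩ := TW.exists_plr hr (lt_of_le_of_lt h1 (by norm_num))
    rw [cov_tr]
    rw [TW.rt_tr, TW.rt_plr] at h1
    have hw := w.2.1.2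
    have h2 : (w.2.1 : ℝ) < 11 / 6 := by
      have := hw.1
      by_contra hcon
      push Not at hcon
      nlinarith
    have hσ : Continuous (fun s : ℝ => ((w.1 + s, w.2) : ℝ × Ioo (1 : ℝ) 2 × ℝ)) := by
      fun_prop
    have h3 := TW.up_R G (Z := ℝ × Ioo (1 : ℝ) 2 × ℝ) (R := fun z => B.N i (cov (plr z)))
      (RT_loc (B.emb i)).continuous (X := XT) (D := (P i).TT)
      (fun z hz => H.dom_box (plr_VX z) (by
        rw [TW.rt_plr]
        have := z.2.1.2.1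
        nlinarith))
      (H.t i) (σ := fun s : ℝ => ((w.1 + s, w.2) : ℝ × Ioo (1 : ℝ) 2 × ℝ)) (a := 0) (b := 1)
      zero_lt_one hσ.continuousOn (fun s _ => h2)
      (fun s _ s' _ hss => by
        show (P i).TT (w.1 + s, w.2.1, w.2.2) < (P i).TT (w.1 + s', w.2.1, w.2.2)
        exact (P i).TT_lt (by linarith) h2)
    have e1 : ((w.1 + 0, w.2) : ℝ × Ioo (1 : ℝ) 2 × ℝ) = w := by
      rw [add_zero]
    have e2 : cov (plr (w.1 + 1, w.2)) = cov (plr w) := by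
      have h4 := TW.plr_add w.1 w.2.2 w.2.1 1 0
      simp only [Int.cast_one, Int.cast_zero, add_zero] at h4
      show cov (plr (w.1 + 1, w.2.1, w.2.2)) = cov (plr w)
      rw [h4, cov_tr]
    have h4 : G.Up (B.N i (cov (plr (w.1 + 0, w.2)))) (B.N i (cov (plr (w.1 + 1, w.2)))) := h3
    rw [e1, e2] at h4
    exact h4

/-- Vertical circles on the far side. PROOF: `New.up_U` with `XF`, `yf_lt_t`, `σ s = (a, b, t + s)`, `s ∈ [0, 1]`; `‖b‖ = |b| ≥ 1/8` so that `rt ≥ 4`. -/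
theorem New.up_far (H : New B P S F₀ G) {i : A} {z : ℝ × ℝ × ℝ} (h : -1 / 4 < z.2.1)
    (h' : z.2.1 ≤ -1 / 8) : G.Up (B.N i (cov z)) (B.N i (cov z)) := by
  obtain ⟨a, b, t⟩ := z
  simp only at h h'
  have hn : 1 / 8 ≤ ‖(b : Ci)‖ := by
    rw [TaB_norm (by rw [abs_of_nonpos (by linarith)]; linarith), abs_of_nonpos (by linarith)]
    linarith
  have h1 : G.Up (B.N i (cov (a, b, t + 0))) (B.N i (cov (a, b, t + 1))) :=
    H.up_U (i := i) (X := XF) (D := (P i).yf) (fun z hz => XF_dom hz) (H.f i)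
    (σ := fun s : ℝ => (a, b, t + s)) zero_lt_one (by fun_prop)
    (fun s _ => ⟨h, by show b < -1 / 16; linarith,
      TW.rt_lt (z := (a, b, t + s)) (hn.trans (le_max_left _ _))⟩)
    (fun s _ s' _ hss => (P i).yf_lt_t (by linarith))
  rw [TaB_t1, add_zero] at h1
  exact h1

/-- Vertical circles on the near side, off the walls. PROOF: `XN`. There is `n` with `|a - n| < 1/4` (`σ s = (a, b, t + s)`, `yv_t_P`, `Str.act_mono`) or `|a - (n + 1/2)| < 1/4` (`σ s = (a, b, t - s)`, `yv_t_Q`). `‖b‖ ≥ 1/8` for `1/8 ≤ b < 5/8`. -/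
theorem New.up_near (H : New B P S F₀ G) {i : A} {z : ℝ × ℝ × ℝ} (hz : cov z ∈ VX)
    (h : 1 / 8 ≤ z.2.1) (h' : z.2.1 < 5 / 8) (hw : ∀ n : ℤ, z.1 ≠ n / 2 + 1 / 4) :
    G.Up (B.N i (cov z)) (B.N i (cov z)) := by
  obtain ⟨a, b, t⟩ := z
  simp only at h h' hw
  have hn : 1 / 8 ≤ ‖(b : Ci)‖ := TaB_nb (by norm_num) h h' (by linarith)
  have hX : ∀ s : ℝ, (a, b, s) ∈ XN := fun s =>
    ⟨hz, by show 1 / 16 < b; linarith, h', TW.rt_lt (z := (a, b, s)) (hn.trans (le_max_left _ _))⟩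
  obtain ⟨m, hm⟩ : ∃ m : ℤ, m = round (2 * a) := ⟨_, rfl⟩
  have h1 : |2 * a - m| ≤ 1 / 2 := by
    rw [hm]
    exact abs_sub_round (2 * a)
  obtain ⟨h2, h3⟩ := abs_le.1 h1
  have h4 := hw m
  have h5 := hw (m - 1)
  push_cast at h5
  have h6 : a < m / 2 + 1 / 4 := lt_of_le_of_ne (by linarith) h4
  have h7 : (m : ℝ) / 2 - 1 / 4 < a := by
    refine lt_of_le_of_ne (by linarith) ?_
    intro h8
    apply h5
    rw [← h8]
    ring
  rcases Int.even_or_odd' m with ⟨n, hn' | hn'⟩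
  · have hc : (m : ℝ) = 2 * n := by exact_mod_cast hn'
    rw [hc] at h6 h7
    have h9 : |a - n| < 1 / 4 := abs_lt.2 ⟨by linarith, by linarith⟩
    have key : G.Up (B.N i (cov (a, b, t + 0))) (B.N i (cov (a, b, t + 1))) :=
      H.up_U (i := i) (X := XN) (D := (P i).yn (S i)) (fun z hz => XN_dom hz) (H.n i)
      (σ := fun s : ℝ => (a, b, t + s)) zero_lt_one (by fun_prop) (fun s _ => hX _)
      (fun s _ s' _ hss => (S i).act_mono a b ((P i).yv_t_P h9 hn (by linarith)))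
    rw [TaB_t1, add_zero] at key
    exact key
  · have hc : (m : ℝ) = 2 * n + 1 := by exact_mod_cast hn'
    rw [hc] at h6 h7
    have h9 : |a - (n + 1 / 2)| < 1 / 4 := abs_lt.2 ⟨by linarith, by linarith⟩
    have key : G.Up (B.N i (cov (a, b, t - 0))) (B.N i (cov (a, b, t - 1))) :=
      H.up_U (i := i) (X := XN) (D := (P i).yn (S i)) (fun z hz => XN_dom hz) (H.n i)
      (σ := fun s : ℝ => (a, b, t - s)) zero_lt_one (by fun_prop) (fun s _ => hX _)
      (fun s _ s' _ hss => (S i).act_mono a b ((P i).yv_t_Q h9 hn (by linarith)))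
    have e := TaB_t1 a b (t - 1)
    rw [sub_add_cancel] at e
    rw [← e, sub_zero] at key
    exact key

/-- Walls. PROOF: on `a = n/2 + 1/4` the function `yn` is constant (`vn_wall`, `TW.phi_wall`, `TW.celf_wall`). Leaf paths (`New.up_leafU`, `XN`) from `(a, b, t)` to `(a, 11/100, t)` and to `(a, 11/100, round t)`, where `New.up_circ` applies
(`256 (11/100)^2 > 25/9`). -/
theorem New.up_wall (H : New B P S F₀ G) {i : A} {z : ℝ × ℝ × ℝ} (h : 1 / 8 ≤ z.2.1)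
    (h' : z.2.1 < 5 / 8) {n : ℤ} (hw : z.1 = n / 2 + 1 / 4) :
    G.Up (B.N i (cov z)) (B.N i (cov z)) := by
  obtain ⟨a, b, t⟩ := z
  simp only at h h' hw
  subst hw
  have hV : ∀ b t : ℝ, 0 < b → b < 5 / 8 → cov ((n : ℝ) / 2 + 1 / 4, b, t) ∈ VX := by
    intro b t h1 h2
    refine Or.inr ⟨?_, b, h1, h2, rfl⟩
    rcases Int.even_or_odd' n with ⟨k, hk | hk⟩
    · left
      have hc : (n : ℝ) = 2 * k := by exact_mod_cast hk
      have e : (((n : ℝ) / 2 + 1 / 4 : ℝ) : Ci) = ((1 / 4 : ℝ) : Ci) := by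
        rw [← TaB_coe (1 / 4) k, hc]
        congr 1
        ring
      show ‖(((n : ℝ) / 2 + 1 / 4 : ℝ) : Ci) - ((1 / 4 : ℝ) : Ci)‖ < 1 / 8
      rw [e, sub_self, norm_zero]
      norm_num
    · right
      have hc : (n : ℝ) = 2 * k + 1 := by exact_mod_cast hk
      have e : (((n : ℝ) / 2 + 1 / 4 : ℝ) : Ci) = ((3 / 4 : ℝ) : Ci) := by
        rw [← TaB_coe (3 / 4) k, hc]
        congr 1
        ring
      show ‖(((n : ℝ) / 2 + 1 / 4 : ℝ) : Ci) - ((3 / 4 : ℝ) : Ci)‖ < 1 / 8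
      rw [e, sub_self, norm_zero]
      norm_num
  have hX : ∀ b t : ℝ, 11 / 100 ≤ b → b < 5 / 8 → ((n : ℝ) / 2 + 1 / 4, b, t) ∈ XN := by
    intro b t h1 h2
    refine ⟨hV b t (by linarith) h2, by show 1 / 16 < b; linarith, h2, ?_⟩
    have h3 : 11 / 100 ≤ ‖(b : Ci)‖ := TaB_nb (by norm_num) h1 h2 (by linarith)
    show 25 / 9 < 256 * (‖(b : Ci)‖ ^ 2 + ‖(t : Ci)‖ ^ 2)
    have h4 := sq_nonneg ‖(t : Ci)‖
    nlinarith
  have hD : ∀ b t : ℝ, (P i).yn (S i) ((n : ℝ) / 2 + 1 / 4, b, t) = n / 2 + 1 / 4 := by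
    intro b t
    show (S i).act ((n : ℝ) / 2 + 1 / 4) b (TW.phi (-t) ((P i).vn ((n : ℝ) / 2 + 1 / 4, b, t))) = _
    rw [(P i).vn_wall, TW.phi_wall]
    exact TW.celf_wall _ _ _
  have h0 : G.Up (B.N i (cov ((n : ℝ) / 2 + 1 / 4, 11 / 100, ((round t : ℤ) : ℝ))))
      (B.N i (cov ((n : ℝ) / 2 + 1 / 4, 11 / 100, ((round t : ℤ) : ℝ)))) := by
    have e1 : ‖((11 / 100 : ℝ) : Ci)‖ = 11 / 100 := by
      rw [TaB_norm (by rw [abs_of_pos (by norm_num)]; norm_num), abs_of_pos (by norm_num)]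
    have e2 : (((round t : ℤ) : ℝ) : Ci) = 0 := by
      rw [AddCircle.coe_eq_zero_iff]
      exact ⟨round t, by simp⟩
    refine H.up_circ ?_ ?_
    · show 1 < 256 * (‖((11 / 100 : ℝ) : Ci)‖ ^ 2 + ‖(((round t : ℤ) : ℝ) : Ci)‖ ^ 2)
      rw [e1, e2, norm_zero]
      norm_num
    · show max ‖((11 / 100 : ℝ) : Ci)‖ ‖(((round t : ℤ) : ℝ) : Ci)‖ < 1 / 8
      rw [e1, e2, norm_zero]
      norm_num
  have h1 : G.Up (B.N i (cov ((n : ℝ) / 2 + 1 / 4, 11 / 100, t)))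
      (B.N i (cov ((n : ℝ) / 2 + 1 / 4, 11 / 100, t))) :=
    H.up_leafU (i := i) (X := XN) (D := (P i).yn (S i)) (fun z hz => XN_dom hz) (H.n i)
      (σ := fun s : ℝ => ((n : ℝ) / 2 + 1 / 4, 11 / 100, s)) (a := t) (b := ((round t : ℤ) : ℝ))
      (by fun_prop) (fun s _ => hX _ _ le_rfl (by norm_num))
      (fun s _ => (hD _ _).trans (hD _ _).symm) h0
  exact H.up_leafU (i := i) (X := XN) (D := (P i).yn (S i)) (fun z hz => XN_dom hz) (H.n i)
      (σ := fun s : ℝ => ((n : ℝ) / 2 + 1 / 4, s, t)) (a := b) (b := 11 / 100)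
      (by fun_prop) (fun s hs => by
        rw [uIcc_of_ge (by linarith)] at hs
        exact hX _ _ hs.1 (lt_of_le_of_lt hs.2 h'))
      (fun s _ => (hD _ _).trans (hD _ _).symm) h1

end Pool.Agent.H.MP_1611f1_gt.PA
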