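import Pool.Agent.H.MP_1611f1_gt.PA.Defs

/-!
A function of two variables which is strictly increasing in the first one.
-/

namespace Pool.Agent.H.MP_1611f1_gt.PA

open Topology Set Filter

/-- PROOF: choose `m` with `D (a₁ + m) 1 > D a₀ 0`; for `s ∈ [0, 1]` let `α s` be the unique `a` with `D a s = D a₀ 0 + s (D (a₁ + m) 1 - D a₀ 0)` (it exists because of `hp` and the intermediate value theorem). Continuity of `α`: for `ε > 0` one has `D (α s - ε) s < v s < D (α s + ε) s`, which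
remains true for `s'` near `s` (continuity of `D` and of `v`), so `|α s' - α s| < ε`. -/
theorem exists_move {D : ℝ → ℝ → ℝ}
    (hc : ContinuousOn (fun q : ℝ × ℝ => D q.1 q.2) (univ ×ˢ Icc 0 1))
    (hm : ∀ s ∈ Icc (0 : ℝ) 1, StrictMono fun a => D a s)
    (hp : ∀ a, ∀ s ∈ Icc (0 : ℝ) 1, D (a + 1) s = D a s + 1) (a₀ a₁ : ℝ) :
    ∃ (α : ℝ → ℝ) (m : ℤ), ContinuousOn α (Icc 0 1) ∧ α 0 = a₀ ∧ α 1 = a₁ + m ∧
      StrictMonoOn (fun s => D (α s) s) (Icc 0 1) := by
  -- translation by natural numbers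
  have hpn : ∀ n : ℕ, ∀ a, ∀ s ∈ Icc (0 : ℝ) 1, D (a + n) s = D a s + n := by
    intro n
    induction n with
    | zero =>
      intro a s _
      rw [Nat.cast_zero, add_zero, add_zero]
    | succ n ih =>
      intro a s hs
      have e : a + ((n + 1 : ℕ) : ℝ) = (a + n) + 1 := by
        push_cast
        ring
      rw [e, hp _ s hs, ih a s hs]
      push_cast
      ring
  have hpn' : ∀ n : ℕ, ∀ a, ∀ s ∈ Icc (0 : ℝ) 1, D (a - n) s = D a s - n := by
    intro n a s hs
    have h := hpn n (a - n) s hs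
    rw [sub_add_cancel] at h
    linarith
  -- continuity in each variable
  have hca : ∀ s ∈ Icc (0 : ℝ) 1, Continuous fun a => D a s := by
    intro s hs
    have h : Continuous fun a : ℝ => (a, s) := by fun_prop
    exact hc.comp_continuous h fun a => ⟨mem_univ _, hs⟩
  have hcs : ∀ a, ContinuousOn (fun s => D a s) (Icc 0 1) := by
    intro a
    have h : Continuous fun s : ℝ => (a, s) := by fun_prop
    exact hc.comp h.continuousOn fun s hs => ⟨mem_univ _, hs⟩
  have h0 : (0 : ℝ) ∈ Icc (0 : ℝ) 1 := ⟨le_rfl, zero_le_one⟩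
  have h1 : (1 : ℝ) ∈ Icc (0 : ℝ) 1 := ⟨zero_le_one, le_rfl⟩
  -- the number `m`
  obtain ⟨m, hm0⟩ : ∃ m : ℕ, D a₀ 0 - D a₁ 1 < m := exists_nat_gt _
  have hm1 : D (a₁ + m) 1 = D a₁ 1 + m := hpn m a₁ 1 h1
  obtain ⟨c, hcdef⟩ : ∃ c : ℝ, c = D (a₁ + m) 1 - D a₀ 0 := ⟨_, rfl⟩
  have hc0 : 0 < c := by
    rw [hcdef, hm1]
    linarith
  have hex : ∀ s : ℝ, ∃ a : ℝ, s ∈ Icc (0 : ℝ) 1 → D a s = D a₀ 0 + s * c := by
    intro s
    by_cases hs : s ∈ Icc (0 : ℝ) 1
    · obtain ⟨n, hn⟩ := exists_nat_gt |D a₀ 0 + s * c - D 0 s|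
      have hn' := abs_lt.1 hn
      have e1 := hpn n 0 s hs
      have e2 := hpn' n 0 s hs
      have h3 : (0 : ℝ) - n ≤ 0 + n := by
        have : (0 : ℝ) ≤ n := Nat.cast_nonneg n
        linarith
      have h4 : D a₀ 0 + s * c ∈ Icc (D (0 - n) s) (D (0 + n) s) := by
        rw [e1, e2]
        constructor <;> linarith
      obtain ⟨a, -, ha⟩ := intermediate_value_Icc h3 (hca s hs).continuousOn h4
      exact ⟨a, fun _ => ha⟩
    · exact ⟨0, fun h => absurd h hs⟩
  choose α hα using hex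
  refine ⟨α, m, ?_, ?_, ?_, ?_⟩
  · intro s hs
    refine Metric.tendsto_nhds.2 fun ε hε => ?_
    have hsm := hm s hs
    have b1 : D (α s - ε) s < D a₀ 0 + s * c := by
      rw [← hα s hs]
      exact hsm (by linarith)
    have b2 : D a₀ 0 + s * c < D (α s + ε) s := by
      rw [← hα s hs]
      exact hsm (by linarith)
    have hv : ContinuousWithinAt (fun s : ℝ => D a₀ 0 + s * c) (Icc 0 1) s := by
      have : Continuous fun s : ℝ => D a₀ 0 + s * c := by fun_prop
      exact this.continuousWithinAt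
    have e1 := (hcs (α s - ε) s hs).eventually_lt hv b1
    have e2 := hv.eventually_lt (hcs (α s + ε) s hs) b2
    filter_upwards [e1, e2, self_mem_nhdsWithin] with s' h1' h2' hs'
    rw [← hα s' hs'] at h1' h2'
    have g1 := (hm s' hs').lt_iff_lt.1 h1'
    have g2 := (hm s' hs').lt_iff_lt.1 h2'
    rw [Real.dist_eq, abs_lt]
    constructor <;> linarith
  · have h := hα 0 h0
    rw [zero_mul, add_zero] at h
    exact (hm 0 h0).injective h
  · have h := hα 1 h1
    rw [one_mul, hcdef, add_sub_cancel] at h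
    have h' := (hm 1 h1).injective h
    rw [h']
    push_cast
    rfl
  · intro s hs s' hs' hss
    show D (α s) s < D (α s') s'
    rw [hα s hs, hα s' hs']
    have := mul_lt_mul_of_pos_right hss hc0
    linarith

end Pool.Agent.H.MP_1611f1_gt.PA
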