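import Pool.Agent.H.MP_1611f1_gt.PA.TaB
import Pool.Agent.H.MP_1611f1_gt.PA.TaM

/-!
Tautness of the new foliation: the slab.
-/

namespace Pool.Agent.H.MP_1611f1_gt.PA

open Topology Set Filter
open Pool.Agent.H.MP_1611f1_gt.BR.U (Ci)
open Pool.Agent.H.MP_1611f1_gt.TW (cov tr plr rt KK lam cov_loc cov_tr exists_tr)

variable {M : Type} [TopologicalSpace M] {A : Type} {B : Boxes M A} {P : A → PPar} {S : A → Str}
  {F₀ G : LS.PreFol M}

private theorem TaC_norm_le (x : ℝ) : ‖(x : Ci)‖ ≤ |x| := by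
  have h : ‖(x : Ci)‖ ≤ ‖x‖ := QuotientAddGroup.norm_mk_le_norm
  rwa [Real.norm_eq_abs] at h

private theorem TaC_norm_ge {x c : ℝ} (h : c ≤ x) (h' : x ≤ 1 - c) : c ≤ ‖(x : Ci)‖ := by
  have e : ‖(x : Ci)‖ = |x - round x| := UnitAddCircle.norm_eq
  rw [e]
  rcases le_or_gt (round x) 0 with h1 | h1
  · have h2 : ((round x : ℤ) : ℝ) ≤ 0 := by exact_mod_cast h1
    exact le_trans (by linarith) (le_abs_self _)
  · have h2 : (1 : ℝ) ≤ ((round x : ℤ) : ℝ) := by exact_mod_cast h1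
    exact le_trans (by linarith) (neg_le_abs _)

private theorem TaC_norm {x : ℝ} (h : |x| ≤ 1 / 2) : ‖(x : Ci)‖ = |x| := by
  refine (AddCircle.norm_coe_eq_abs_iff (1 : ℝ) one_ne_zero).2 ?_
  rw [abs_one]
  exact h

/-- `25/9 < rt` if `‖t‖ ≥ 3/25` -/
private theorem TaC_rt_t {a b t : ℝ} (h : 3 / 25 ≤ t) (h' : t ≤ 22 / 25) :
    25 / 9 < rt (a, b, t) := by
  have h1 : (3 / 25 : ℝ) ≤ ‖(t : Ci)‖ := TaC_norm_ge h (by linarith)
  show 25 / 9 < 256 * (‖(b : Ci)‖ ^ 2 + ‖(t : Ci)‖ ^ 2)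
  have h2 : (3 / 25 : ℝ) ^ 2 ≤ ‖(t : Ci)‖ ^ 2 := pow_le_pow_left₀ (by norm_num) h1 2
  have h3 : 0 ≤ ‖(b : Ci)‖ ^ 2 := sq_nonneg _
  nlinarith

private theorem TaC_XW {a b t : ℝ} (hb : |b| ≤ 1 / 8) (h : 3 / 25 ≤ t) (h' : t ≤ 22 / 25) :
    (a, b, t) ∈ XW :=
  ⟨lt_of_le_of_lt hb (by norm_num), lt_of_lt_of_le (by norm_num) h,
    lt_of_le_of_lt h' (by norm_num), TaC_rt_t h h'⟩

private theorem TaC_cov_a (a b t : ℝ) (m : ℤ) : cov (a + m, b, t) = cov (a, b, t) := by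
  have h := cov_tr m 0 0 (a, b, t)
  simpa only [tr, Int.cast_zero, add_zero] using h

private theorem TaC_cov_t (a b t : ℝ) (k : ℤ) : cov (a, b, t + k) = cov (a, b, t) := by
  have h := cov_tr 0 0 k (a, b, t)
  simpa only [tr, Int.cast_zero, add_zero] using h

private theorem TaC_mix {b b' s c : ℝ} (hb : |b| < c) (hb' : |b'| < c) (hs : s ∈ Icc (0 : ℝ) 1) :
    |b + s * (b' - b)| < c := by
  rw [abs_lt] at hb hb' ⊢
  obtain ⟨h0, h1⟩ := hs
  rcases eq_or_lt_of_le h0 with h2 | h2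
  · rw [← h2, zero_mul, add_zero]
    exact hb
  · have h3 : 0 ≤ (1 - s) * (c - b) := mul_nonneg (by linarith) (by linarith)
    have h4 : 0 < s * (c - b') := mul_pos h2 (by linarith)
    have h5 : 0 ≤ (1 - s) * (c + b) := mul_nonneg (by linarith) (by linarith)
    have h6 : 0 < s * (c + b') := mul_pos h2 (by linarith)
    constructor <;> nlinarith

/-- Moves in the direction `b` near the tube. PROOF: `exists_move` with `D a s = E0 (a, b + s (b' - b), t)` (`E0_cont`, `E0_lt` and `TW.lam_pos`, `E0_add`), `New.up_U` with `XW` (`256 (3/25)^2 > 25/9`, `‖t‖ = 3/25`), `cov_tr`. -/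
theorem New.up_b (H : New B P S F₀ G) {i : A} {a a' b b' t : ℝ} (ht : t = 3 / 25 ∨ t = 22 / 25)
    (hb : |b| < 1 / 8) (hb' : |b'| < 1 / 8) :
    G.Up (B.N i (cov (a, b, t))) (B.N i (cov (a', b', t))) := by
  have ht1 : 3 / 25 ≤ t := by
    rcases ht with h | h
    · rw [h]
    · rw [h]
      norm_num
  have ht2 : t ≤ 22 / 25 := by
    rcases ht with h | h
    · rw [h]
      norm_num
    · rw [h]
  have htn : ‖(t : Ci)‖ < 1 / 8 := by
    rcases ht with h | h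
    · refine lt_of_le_of_lt (TaC_norm_le t) ?_
      rw [h, abs_of_pos (by norm_num)]
      norm_num
    · have e : (t : Ci) = ((t - 1 : ℝ) : Ci) := by
        have h1 : ((1 : ℝ) : Ci) = 0 := AddCircle.coe_period 1
        rw [AddCircle.coe_sub, h1, sub_zero]
      rw [e]
      refine lt_of_le_of_lt (TaC_norm_le _) ?_
      rw [h, abs_of_neg (by norm_num)]
      norm_num
  obtain ⟨α, m, h1, h2, h3, h4⟩ := exists_move
    (D := fun x s => (P i).E0 (x, b + s * (b' - b), t))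
    ((((P i).E0_cont).comp (by fun_prop :
      Continuous fun q : ℝ × ℝ => (q.1, b + q.2 * (b' - b), t))).continuousOn)
    (fun s hs x x' hx => (P i).E0_lt hx (TW.lam_pos (max_lt
      (lt_of_le_of_lt (TaC_norm_le _) (TaC_mix hb hb' hs)) htn)))
    (fun x s hs => by
      have h := (P i).E0_add 1 (x, b + s * (b' - b), t)
      simpa only [tr, Int.cast_zero, add_zero, Int.cast_one] using h) a a'
  have h5 : ContinuousOn (fun s => (α s, b + s * (b' - b), t)) (Icc (0 : ℝ) 1) :=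
    h1.prodMk (by fun_prop)
  have h6 := H.up_U (i := i) (X := XW) (D := (P i).E0) (fun z hz => XW_dom hz) (H.w i)
    (σ := fun s => (α s, b + s * (b' - b), t)) (a := 0) (b := 1) zero_lt_one h5
    (fun s hs => TaC_XW (TaC_mix hb hb' hs).le ht1 ht2) h4
  have e1 : (α 0, b + 0 * (b' - b), t) = (a, b, t) := by
    rw [h2, zero_mul, add_zero]
  have e2 : (α 1, b + 1 * (b' - b), t) = (a' + m, b', t) := by
    rw [h3, one_mul, add_sub_cancel]
  have h7 : G.Up (B.N i (cov (α 0, b + 0 * (b' - b), t)))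
      (B.N i (cov (α 1, b + 1 * (b' - b), t))) := h6
  rwa [e1, e2, TaC_cov_a] at h7

/-- Moves in the direction `t` in the P-intervals. PROOF: `New.up_U` with `XW`, `E0_lt_t`, `σ s = (a, b, s)`. -/
theorem New.up_Pt (H : New B P S F₀ G) {i : A} {a b t t' : ℝ} {n : ℤ} (ha : |a - n| ≤ 3 / 16)
    (hb : |b| < 1 / 8) (ht : 3 / 25 ≤ t) (htt : t < t') (ht' : t' ≤ 22 / 25) :
    G.Up (B.N i (cov (a, b, t))) (B.N i (cov (a, b, t'))) :=
  H.up_U (i := i) (X := XW) (D := (P i).E0) (fun z hz => XW_dom hz) (H.w i)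
    (σ := fun s => (a, b, s)) htt (by fun_prop)
    (fun s hs => TaC_XW hb.le (ht.trans hs.1) (hs.2.trans ht'))
    (fun s _ s' _ hss => (P i).E0_lt_t (lt_of_le_of_lt ha (by norm_num)) hss)

/-- Around the tube on the far side. PROOF: `New.up_U` with `XF`, `yf_lt_t`, `σ s = (a, -11/100, s)`, `s ∈ [22/25, 1 + 3/25]` (`256 (11/100)^2 > 25/9`). -/
theorem New.up_round (H : New B P S F₀ G) {i : A} (a : ℝ) :
    G.Up (B.N i (cov (a, -11 / 100, 22 / 25))) (B.N i (cov (a, -11 / 100, 3 / 25))) := by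
  have h1 := H.up_U (i := i) (X := XF) (D := (P i).yf) (fun z hz => XF_dom hz) (H.f i)
    (σ := fun s => (a, -11 / 100, s)) (a := 22 / 25) (b := 3 / 25 + 1) (by norm_num) (by fun_prop)
    (fun s _ => by
      refine ⟨by norm_num, by norm_num, ?_⟩
      show 25 / 9 < 256 * (‖((-11 / 100 : ℝ) : Ci)‖ ^ 2 + ‖(s : Ci)‖ ^ 2)
      have e : |(-11 / 100 : ℝ)| = 11 / 100 := by
        rw [abs_of_neg (by norm_num)]
        norm_num
      rw [TaC_norm (by rw [e]; norm_num), e]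
      have h3 : 0 ≤ ‖(s : Ci)‖ ^ 2 := sq_nonneg _
      nlinarith)
    (fun s _ s' _ hss => (P i).yf_lt_t hss)
  have h2 := TaC_cov_t a (-11 / 100) (3 / 25) 1
  rw [Int.cast_one] at h2
  have h3 : G.Up (B.N i (cov (a, -11 / 100, 22 / 25))) (B.N i (cov (a, -11 / 100, 3 / 25 + 1))) :=
    h1
  rwa [h2] at h3

/-- PROOF: `(a, b, t) → (a, b, 22/25)` (`up_Pt`), `→ (a, -11/100, 22/25)` (`up_b`), `→ (a, -11/100, 3/25)` (`up_round`), `→ (a', b, 3/25)` (`up_b`), `→ (a', b, t')` (`up_Pt`); `LS.PreFol.Up.trans`. -/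
theorem New.up_P (H : New B P S F₀ G) {i : A} {a a' b t t' : ℝ} {n n' : ℤ}
    (ha : |a - n| ≤ 3 / 16) (ha' : |a' - n'| ≤ 3 / 16) (hb : |b| < 1 / 8)
    (ht : t ∈ Icc (1 / 8 : ℝ) (7 / 8)) (ht' : t' ∈ Icc (1 / 8 : ℝ) (7 / 8)) :
    G.Up (B.N i (cov (a, b, t))) (B.N i (cov (a', b, t'))) := by
  have e : |(-11 / 100 : ℝ)| < 1 / 8 := by
    rw [abs_of_neg (by norm_num)]
    norm_num
  have h1 : G.Up (B.N i (cov (a, b, t))) (B.N i (cov (a, b, 22 / 25))) :=
    H.up_Pt ha hb (by linarith [ht.1]) (by linarith [ht.2]) le_rfl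
  have h2 : G.Up (B.N i (cov (a, b, 22 / 25))) (B.N i (cov (a, -11 / 100, 22 / 25))) :=
    H.up_b (Or.inr rfl) hb e
  have h3 : G.Up (B.N i (cov (a, -11 / 100, 22 / 25))) (B.N i (cov (a, -11 / 100, 3 / 25))) :=
    H.up_round a
  have h4 : G.Up (B.N i (cov (a, -11 / 100, 3 / 25))) (B.N i (cov (a', b, 3 / 25))) :=
    H.up_b (Or.inl rfl) e hb
  have h5 : G.Up (B.N i (cov (a', b, 3 / 25))) (B.N i (cov (a', b, t'))) :=
    H.up_Pt ha' hb le_rfl (by linarith [ht'.1]) (by linarith [ht'.2])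
  exact LS.PreFol.Up.trans G (LS.PreFol.Up.trans G (LS.PreFol.Up.trans G
    (LS.PreFol.Up.trans G h1 h2) h3) h4) h5

/-- no two different points between the P-intervals are in the same P-interval -/
private theorem TaC_gap {x x' : ℝ} {n : ℤ} (h : (n : ℝ) + 3 / 16 ≤ x) (hx : x < x')
    (h' : x' ≤ n + 13 / 16) (m : ℤ) : ¬ (|x - m| ≤ 3 / 16 ∧ |x' - m| ≤ 3 / 16) := by
  rintro ⟨h1, h2⟩
  rw [abs_le] at h1 h2
  rcases le_or_gt m n with h3 | h3
  · have h4 : (m : ℝ) ≤ n := by exact_mod_cast h3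
    linarith
  · have h4 : (n : ℝ) + 1 ≤ m := by exact_mod_cast h3
    linarith

/-- PROOF: if `a` is in a closed P-interval: `up_P`. Otherwise `n + 3/16 < a < n + 13/16`: from `(n + 3/16, b, t)` to `(a, b, t)` to `(n + 13/16, b, t)` (`New.up_U`, `XW`, `E0_lt'`, `σ s = (s, b, t)`), and back by `up_P`. -/
theorem New.up_slab (H : New B P S F₀ G) {i : A} {a b t : ℝ} (hb : |b| < 1 / 16)
    (ht : t ∈ Icc (1 / 8 : ℝ) (7 / 8)) :
    G.Up (B.N i (cov (a, b, t))) (B.N i (cov (a, b, t))) := by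
  have hb8 : |b| < 1 / 8 := lt_trans hb (by norm_num)
  obtain ⟨n, hn⟩ : ∃ n : ℤ, n = ⌊a + 3 / 16⌋ := ⟨_, rfl⟩
  have h1 : (n : ℝ) ≤ a + 3 / 16 := hn ▸ Int.floor_le _
  have h2 : a + 3 / 16 < n + 1 := hn ▸ Int.lt_floor_add_one _
  rcases le_or_gt a (n + 3 / 16) with h3 | h3
  · have h4 : |a - n| ≤ 3 / 16 := abs_le.2 ⟨by linarith, by linarith⟩
    exact H.up_P h4 h4 hb8 ht ht
  · have h4 : a < n + 13 / 16 := by linarith
    have hmove : ∀ x x' : ℝ, (n : ℝ) + 3 / 16 ≤ x → x < x' → x' ≤ n + 13 / 16 →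
        G.Up (B.N i (cov (x, b, t))) (B.N i (cov (x', b, t))) := by
      intro x x' hx hxx hx'
      refine H.up_U (i := i) (X := XW) (D := (P i).E0) (fun z hz => XW_dom hz) (H.w i)
        (σ := fun s => (s, b, t)) hxx (by fun_prop)
        (fun s _ => TaC_XW hb8.le (by linarith [ht.1]) (by linarith [ht.2])) ?_
      intro s hs s' hs' hss
      exact (P i).E0_lt' hss hb (TaC_gap (hx.trans hs.1) hss (hs'.2.trans hx'))
    have h5 := hmove (n + 3 / 16) a le_rfl h3 h4.le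
    have h6 := hmove a (n + 13 / 16) h3.le h4 le_rfl
    have h7 : G.Up (B.N i (cov ((n : ℝ) + 13 / 16, b, t))) (B.N i (cov ((n : ℝ) + 3 / 16, b, t))) := by
      refine H.up_P (n := n + 1) (n' := n) ?_ ?_ hb8 ht ht
      · rw [show (n : ℝ) + 13 / 16 - ((n + 1 : ℤ) : ℝ) = -(3 / 16) by push_cast; ring, abs_neg,
          abs_of_pos (by norm_num)]
      · rw [show (n : ℝ) + 3 / 16 - n = 3 / 16 by ring, abs_of_pos (by norm_num)]
    exact LS.PreFol.Up.trans G (LS.PreFol.Up.trans G h6 h7) h5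

private theorem TaC_lam {b t : ℝ} (ht : t ∈ Icc (1 / 8 : ℝ) (7 / 8)) : lam b t = 0 :=
  TW.lam_zero (le_max_of_le_right (TaC_norm_ge ht.1 (by linarith [ht.2])))

/-- PROOF: leaf paths `σ s = (a, s, t)` in `XW` from `b` to `1/8` resp. `-1/8`: `E0` is constant there (`E0_right`, `yv`, `vn_fX`, `TW.lam_zero`; `E0_left`, `yf_yf0`); then `New.up_near`, `New.up_wall`, `New.up_far`. -/
theorem New.up_side (H : New B P S F₀ G) {i : A} {a b t : ℝ} (hb : 1 / 16 ≤ |b|)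
    (hb' : |b| ≤ 1 / 8) (ht : t ∈ Icc (1 / 8 : ℝ) (7 / 8)) :
    G.Up (B.N i (cov (a, b, t))) (B.N i (cov (a, b, t))) := by
  have ht1 : 3 / 25 ≤ t := by linarith [ht.1]
  have ht2 : t ≤ 22 / 25 := by linarith [ht.2]
  rcases le_total 0 b with h0 | h0
  · rw [abs_of_nonneg h0] at hb hb'
    have hval : ∀ s : ℝ, 1 / 16 ≤ s → (P i).E0 (a, s, t) = (P i).em (TW.phi (-t) (fX a)) := by
      intro s hs
      rw [(P i).E0_right hs]
      unfold PPar.yv
      rw [(P i).vn_fX (TaC_lam ht) (hs.trans (le_abs_self s))]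
    refine H.up_leafU (i := i) (X := XW) (D := (P i).E0) (fun z hz => XW_dom hz) (H.w i)
      (σ := fun s => (a, s, t)) (a := b) (b := 1 / 8) (by fun_prop) ?_ ?_ ?_
    · intro s hs
      rw [uIcc_of_le hb'] at hs
      refine TaC_XW (abs_le.2 ⟨by linarith [hs.1], hs.2⟩) ht1 ht2
    · intro s hs
      rw [uIcc_of_le hb'] at hs
      show (P i).E0 (a, s, t) = (P i).E0 (a, b, t)
      rw [hval s (hb.trans hs.1), hval b hb]
    · show G.Up (B.N i (cov (a, 1 / 8, t))) (B.N i (cov (a, 1 / 8, t)))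
      by_cases hw : ∃ n : ℤ, a = n / 2 + 1 / 4
      · obtain ⟨n, hn⟩ := hw
        exact H.up_wall (z := (a, 1 / 8, t)) le_rfl (by norm_num) (n := n) hn
      · push Not at hw
        refine H.up_near (z := (a, 1 / 8, t)) (Or.inl ?_) le_rfl (by norm_num) hw
        show ‖((1 / 8 : ℝ) : Ci)‖ < 1 / 4
        refine lt_of_le_of_lt (TaC_norm_le _) ?_
        rw [abs_of_pos (by norm_num)]
        norm_num
  · rw [abs_of_nonpos h0] at hb hb'
    have hval : ∀ s : ℝ, s ≤ -1 / 16 → (P i).E0 (a, s, t) = (P i).yf0 (a, 0, t) := by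
      intro s hs
      rw [(P i).E0_left hs, (P i).yf_yf0 (TaC_lam ht) ((by linarith : (1 / 16 : ℝ) ≤ -s).trans
        (neg_le_abs s))]
      rfl
    refine H.up_leafU (i := i) (X := XW) (D := (P i).E0) (fun z hz => XW_dom hz) (H.w i)
      (σ := fun s => (a, s, t)) (a := b) (b := -(1 / 8)) (by fun_prop) ?_ ?_ ?_
    · intro s hs
      rw [uIcc_of_ge (by linarith)] at hs
      refine TaC_XW (abs_le.2 ⟨hs.1, by linarith [hs.2]⟩) ht1 ht2
    · intro s hs
      rw [uIcc_of_ge (by linarith)] at hs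
      show (P i).E0 (a, s, t) = (P i).E0 (a, b, t)
      rw [hval s (by linarith [hs.2]), hval b (by linarith)]
    · exact H.up_far (z := (a, -(1 / 8), t)) (by norm_num) (by norm_num)

/-- TAUTNESS. PROOF: `y` in no box: `up_out`. `y = B.N i (cov z)` with `-1/4 < b < 5/8` (`exists_lift`), `1 < rt z` (`y` is not in the tube). `1/8 ≤ b`: `up_near`, `up_wall`. `b ≤ -1/8`: `up_far`. `|b| < 1/8`: if `‖t‖ < 1/8`: `up_circ`;
otherwise a translate has `t ∈ [1/8, 7/8]` (`cov_tr`): `up_slab`, `up_side`. -/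
theorem New.up (H : New B P S F₀ G) (hO : Old B P S F₀) {y : M}
    (hy : ∀ i, y ∉ B.N i '' KK) : G.Up y y := by
  by_cases hbox : ∀ i, y ∉ B.N i '' VX
  · exact H.up_out hO hbox
  push Not at hbox
  obtain ⟨i, c, hc, rfl⟩ := hbox
  obtain ⟨⟨a, b, t⟩, rfl, h1, h2⟩ := exists_lift hc
  have h1 : -1 / 4 < b := h1
  have h2 : b < 5 / 8 := h2
  have hr : 1 < rt (a, b, t) := by
    by_contra h
    exact hy i ⟨cov (a, b, t), (TW.KK_iff (a, b, t)).2 (not_lt.1 h), rfl⟩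
  rcases le_or_gt (1 / 8) b with h3 | h3
  · by_cases hw : ∃ n : ℤ, a = n / 2 + 1 / 4
    · obtain ⟨n, hn⟩ := hw
      exact H.up_wall (z := (a, b, t)) h3 h2 (n := n) hn
    · push Not at hw
      exact H.up_near (z := (a, b, t)) hc h3 h2 hw
  rcases le_or_gt b (-1 / 8) with h4 | h4
  · exact H.up_far (z := (a, b, t)) h1 h4
  have hb : |b| < 1 / 8 := abs_lt.2 ⟨by linarith, h3⟩
  rcases lt_or_ge ‖(t : Ci)‖ (1 / 8) with h5 | h5
  · exact H.up_circ (z := (a, b, t)) hr (max_lt (lt_of_le_of_lt (TaC_norm_le b) hb) h5)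
  · obtain ⟨t', k, hk, ht'⟩ : ∃ (t' : ℝ) (k : ℤ), t = t' + k ∧ t' ∈ Icc (1 / 8 : ℝ) (7 / 8) := by
      refine ⟨Int.fract t, ⌊t⌋, (Int.fract_add_floor t).symm, ?_⟩
      have e1 : (t : Ci) = ((Int.fract t : ℝ) : Ci) := by
        have h6 : ((⌊t⌋ : ℝ) : Ci) = 0 := by
          rw [AddCircle.coe_eq_zero_iff]
          exact ⟨⌊t⌋, by simp⟩
        conv_lhs => rw [← Int.fract_add_floor t]
        rw [AddCircle.coe_add, h6, add_zero]
      have e2 : ((Int.fract t : ℝ) : Ci) = ((Int.fract t - 1 : ℝ) : Ci) := by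
        have h1 : ((1 : ℝ) : Ci) = 0 := AddCircle.coe_period 1
        rw [AddCircle.coe_sub, h1, sub_zero]
      have h6 := Int.fract_nonneg t
      have h7 := Int.fract_lt_one t
      constructor
      · rw [e1] at h5
        have h8 := TaC_norm_le (Int.fract t)
        rw [abs_of_nonneg h6] at h8
        linarith
      · rw [e1, e2] at h5
        have h8 := TaC_norm_le (Int.fract t - 1)
        rw [abs_of_neg (by linarith)] at h8
        linarith
    rw [hk, TaC_cov_t]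
    rcases lt_or_ge |b| (1 / 16) with h6 | h6
    · exact H.up_slab h6 ht'
    · exact H.up_side h6 hb.le ht'

end Pool.Agent.H.MP_1611f1_gt.PA
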