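import Pool.Agent.H.MP_1611f1_gt.PA.E0
import Pool.Agent.H.MP_1611f1_gt.PA.Lo
import Pool.Agent.H.MP_1611f1_gt.TW.TC

/-!
The function near the tube (compare TW/TB.lean and TW/TC.lean).
-/

namespace Pool.Agent.H.MP_1611f1_gt.PA

open Topology Set Filter
open Pool.Agent.H.MP_1611f1_gt.BR.U (Ci)
open Pool.Agent.H.MP_1611f1_gt.TW

private theorem Tube_plr_b (z : ℝ × Ioo (1 : ℝ) 2 × ℝ) :
    (plr z).2.1 = (z.2.1 : ℝ) * Real.cos (2 * Real.pi * z.2.2) / 16 := rfl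

private theorem Tube_tr_b (z : ℝ × ℝ × ℝ) : (tr 0 0 1 z).2.1 = z.2.1 := by
  show z.2.1 + ((0 : ℤ) : ℝ) = z.2.1
  rw [Int.cast_zero, add_zero]

private theorem Tube_tr_cont (m n k : ℤ) : Continuous (tr m n k) := by
  unfold tr
  fun_prop

private theorem Tube_norm (x : ℝ) : ‖(x : Ci)‖ ≤ |x| := by
  have h : ‖(x : Ci)‖ ≤ ‖x‖ := QuotientAddGroup.norm_mk_le_norm
  rwa [Real.norm_eq_abs] at h

private theorem Tube_plr_add (θ ψ : ℝ) (r : Ioo (1 : ℝ) 2) (m n : ℤ) :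
    plr (θ + m, r, ψ + n) = tr m 0 0 (plr (θ, r, ψ)) := by
  have h : 2 * Real.pi * (ψ + n) = 2 * Real.pi * ψ + n * (2 * Real.pi) := by ring
  unfold plr tr
  simp only [h, Real.cos_add_int_mul_two_pi, Real.sin_add_int_mul_two_pi, Int.cast_zero, add_zero]

private theorem Tube_tr_comm (m : ℤ) (z : ℝ × ℝ × ℝ) :
    tr 0 0 1 (tr m 0 0 z) = tr m 0 0 (tr 0 0 1 z) := by
  unfold tr
  simp only [Int.cast_zero, add_zero]

private theorem Tube_round {r c ψ : ℝ} (hr : 1 < r) (hc : c = Real.cos (2 * Real.pi * ψ))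
    (h1 : 1 < r * c) : ∃ n : ℤ, |ψ - n| < 1 / 2 := by
  refine ⟨round ψ, lt_of_le_of_ne (abs_sub_round _) fun h2 => ?_⟩
  have h3 : Real.cos (2 * Real.pi * ψ) = -1 := by
    rcases (abs_eq (by norm_num : (0 : ℝ) ≤ 1 / 2)).1 h2 with h4 | h4
    · rw [show 2 * Real.pi * ψ = Real.pi + (round ψ) * (2 * Real.pi) by
        have : ψ = 1 / 2 + round ψ := by linarith
        linear_combination (2 * Real.pi) * this]
      rw [Real.cos_add_int_mul_two_pi, Real.cos_pi]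
    · rw [show 2 * Real.pi * ψ = -Real.pi + (round ψ) * (2 * Real.pi) by
        have : ψ = -(1 / 2) + round ψ := by linarith
        linear_combination (2 * Real.pi) * this]
      rw [Real.cos_add_int_mul_two_pi, Real.cos_neg, Real.cos_pi]
  rw [hc, h3] at h1
  linarith

private theorem Tube_floor {r c ψ : ℝ} (hr : 1 < r) (hc : c = Real.cos (2 * Real.pi * ψ))
    (h1 : r * c < -1) : ψ ∈ Ioo ((⌊ψ⌋ : ℤ) : ℝ) ((⌊ψ⌋ : ℤ) + 1) := by
  have h2 := Int.floor_add_fract ψ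
  have h3 := Int.fract_lt_one ψ
  refine ⟨lt_of_le_of_ne (Int.floor_le _) fun h4 => ?_, by linarith⟩
  have h5 : Real.cos (2 * Real.pi * ψ) = 1 := by
    rw [← h4, show 2 * Real.pi * ((⌊ψ⌋ : ℤ) : ℝ) = 0 + (⌊ψ⌋ : ℤ) * (2 * Real.pi) by ring,
      Real.cos_add_int_mul_two_pi, Real.cos_zero]
  rw [hc, h5] at h1
  linarith

namespace PPar

variable (P : PPar)

/-- `em (T0.symm y)` and the holonomy of the far side: the relation on the near side -/
theorem tf_em (y : ℝ) : P.tf (P.em y) = P.em (T0.symm y) + P.μ := by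
  unfold PPar.tf
  rw [P.em.symm_apply_apply]

theorem yv_sh (z : ℝ × ℝ × ℝ) : P.yv (tr 0 0 1 z) = T0.symm (P.yv z) := by
  rw [P.yv_tr]
  apply T0.injective
  rw [T0.apply_symm_apply, ← phi_one, Int.cast_zero, add_zero, ← phi_add, Int.cast_one,
    add_neg_cancel, phi_zero]

/-- on the far side. PROOF: both cases of `XX`: `E0_left`, resp. `E0_left` and `yf_one`. -/
theorem XX_left {z : ℝ × Ioo (1 : ℝ) 2 × ℝ}
    (h : (z.2.1 : ℝ) * Real.cos (2 * Real.pi * z.2.2) ≤ -1) :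
    P.XX z = P.tf (P.yf (plr z)) - P.μ * ⌊z.2.2⌋ := by
  have hb : (plr z).2.1 ≤ -1 / 16 := by
    rw [Tube_plr_b]
    linarith
  have hb' : (tr 0 0 1 (plr z)).2.1 ≤ -1 / 16 := by
    rw [Tube_tr_b]
    exact hb
  unfold PPar.XX
  split_ifs with hf
  · rw [P.E0_left hb]
  · rw [P.E0_left hb', P.yf_one]

/-- on the near side, near `ψ = n`. PROOF: if `n ≤ ψ` then `⌊ψ⌋ = n`, `fract ψ ≤ 1/2` and `tf_em`; if `ψ < n` then `⌊ψ⌋ = n - 1`, `fract ψ > 1/2` and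
`E0_right`, `yv_sh`. -/
theorem XX_right {z : ℝ × Ioo (1 : ℝ) 2 × ℝ}
    (h : 1 ≤ (z.2.1 : ℝ) * Real.cos (2 * Real.pi * z.2.2)) {n : ℤ} (hn : |z.2.2 - n| < 1 / 2) :
    P.XX z = P.em (T0.symm (P.yv (plr z))) + P.μ - P.μ * n := by
  have hb : 1 / 16 ≤ (plr z).2.1 := by
    rw [Tube_plr_b]
    linarith
  have hb' : 1 / 16 ≤ (tr 0 0 1 (plr z)).2.1 := by
    rw [Tube_tr_b]
    exact hb
  rw [abs_lt] at hn
  unfold PPar.XX
  rcases le_or_gt (n : ℝ) z.2.2 with h1 | h1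
  · have hfl : ⌊z.2.2⌋ = n := by
      rw [Int.floor_eq_iff]
      constructor <;> linarith
    have hfr : Int.fract z.2.2 ≤ 1 / 2 := by
      rw [Int.fract, hfl]
      linarith
    rw [if_pos hfr, hfl, P.E0_right hb, P.tf_em]
  · have hfl : ⌊z.2.2⌋ = n - 1 := by
      rw [Int.floor_eq_iff]
      push_cast
      constructor <;> linarith
    have hfr : ¬ Int.fract z.2.2 ≤ 1 / 2 := by
      rw [Int.fract, hfl]
      push_cast
      linarith
    rw [if_neg hfr, hfl, P.E0_right hb', P.yv_sh]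
    push_cast
    ring

/-- PROOF: as `TW.Par.XX_cont` -/
theorem XX_cont : Continuous P.XX := by
  rw [continuous_iff_continuousAt]
  intro z
  have hψ : Continuous fun z : ℝ × Ioo (1 : ℝ) 2 × ℝ => z.2.2 := TC_psi_cont
  have hr : Continuous fun z : ℝ × Ioo (1 : ℝ) 2 × ℝ => (z.2.1 : ℝ) := TC_r_cont
  have hcos : Continuous fun z : ℝ × Ioo (1 : ℝ) 2 × ℝ =>
      (z.2.1 : ℝ) * Real.cos (2 * Real.pi * z.2.2) :=
    hr.mul (Real.continuous_cos.comp (continuous_const.mul hψ))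
  have hyv : Continuous fun z : ℝ × Ioo (1 : ℝ) 2 × ℝ => T0.symm (P.yv (plr z)) :=
    T0.symm.continuous.comp (P.yv_cont.comp TC_plr_cont)
  have hyf : Continuous fun z : ℝ × Ioo (1 : ℝ) 2 × ℝ => P.tf (P.yf (plr z)) :=
    P.tf_cont.comp (P.yf_cont.comp TC_plr_cont)
  obtain ⟨n, hn⟩ : ∃ n : ℤ, n = ⌊z.2.2⌋ := ⟨_, rfl⟩
  have hfl := Int.floor_eq_iff.1 hn.symm
  have hr1 : 1 < (z.2.1 : ℝ) := z.2.1.2.1
  rcases eq_or_lt_of_le hfl.1 with h0 | h0
  · -- `ψ = n`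
    have hc1 : Real.cos (2 * Real.pi * z.2.2) = 1 := by
      rw [← h0]
      have : 2 * Real.pi * (n : ℝ) = n * (2 * Real.pi) := by ring
      rw [this, Real.cos_int_mul_two_pi]
    have h1 : ∀ᶠ w in 𝓝 z, 1 < (w.2.1 : ℝ) * Real.cos (2 * Real.pi * w.2.2) := by
      refine hcos.continuousAt.eventually_const_lt ?_
      show 1 < (z.2.1 : ℝ) * Real.cos (2 * Real.pi * z.2.2)
      rw [hc1, mul_one]
      exact hr1
    have h2 : ∀ᶠ w in 𝓝 z, |w.2.2 - (n : ℝ)| < 1 / 2 := by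
      have hc : Continuous fun w : ℝ × Ioo (1 : ℝ) 2 × ℝ => |w.2.2 - (n : ℝ)| :=
        (hψ.sub continuous_const).abs
      refine hc.continuousAt.eventually_lt_const ?_
      show |z.2.2 - (n : ℝ)| < 1 / 2
      rw [← h0, sub_self, abs_zero]
      norm_num
    have h3 : ContinuousAt (fun w => P.em (T0.symm (P.yv (plr w))) + P.μ - P.μ * n) z :=
      (((P.em.continuous.comp hyv).add continuous_const).sub continuous_const).continuousAt
    refine h3.congr ?_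
    filter_upwards [h1, h2] with w hw1 hw2
    exact (P.XX_right hw1.le hw2).symm
  · have hfloor : ∀ᶠ w in 𝓝 z, ⌊w.2.2⌋ = n := by
      have h1 : ∀ᶠ w in 𝓝 z, (n : ℝ) < w.2.2 := hψ.continuousAt.eventually_const_lt h0
      have h2 : ∀ᶠ w in 𝓝 z, w.2.2 < (n : ℝ) + 1 := hψ.continuousAt.eventually_lt_const hfl.2
      filter_upwards [h1, h2] with w hw1 hw2
      rw [Int.floor_eq_iff]
      exact ⟨hw1.le, hw2⟩
    rcases lt_trichotomy z.2.2 (n + 1 / 2) with h1 | h1 | h1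
    · have h2 : ∀ᶠ w in 𝓝 z, w.2.2 < (n : ℝ) + 1 / 2 := hψ.continuousAt.eventually_lt_const h1
      have h3 : ContinuousAt (fun w => P.tf (P.E0 (plr w)) - P.μ * n) z :=
        ((P.tf_cont.comp (P.E0_cont.comp TC_plr_cont)).sub continuous_const).continuousAt
      refine h3.congr ?_
      filter_upwards [h2, hfloor] with w hw1 hw2
      have hfr : Int.fract w.2.2 ≤ 1 / 2 := by
        rw [Int.fract, hw2]
        linarith
      unfold PPar.XX
      rw [if_pos hfr, hw2]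
    · have hc1 : Real.cos (2 * Real.pi * z.2.2) = -1 := by
        rw [h1]
        have : 2 * Real.pi * ((n : ℝ) + 1 / 2) = Real.pi + n * (2 * Real.pi) := by ring
        rw [this, Real.cos_add_int_mul_two_pi, Real.cos_pi]
      have h2 : ∀ᶠ w in 𝓝 z, (w.2.1 : ℝ) * Real.cos (2 * Real.pi * w.2.2) < -1 := by
        refine hcos.continuousAt.eventually_lt_const ?_
        show (z.2.1 : ℝ) * Real.cos (2 * Real.pi * z.2.2) < -1
        rw [hc1]
        linarith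
      have h3 : ContinuousAt (fun w => P.tf (P.yf (plr w)) - P.μ * n) z :=
        (hyf.sub continuous_const).continuousAt
      refine h3.congr ?_
      filter_upwards [h2, hfloor] with w hw1 hw2
      rw [P.XX_left hw1.le, hw2]
    · have h2 : ∀ᶠ w in 𝓝 z, (n : ℝ) + 1 / 2 < w.2.2 := hψ.continuousAt.eventually_const_lt h1
      have h3 : ContinuousAt (fun w => P.E0 (tr 0 0 1 (plr w)) - P.μ * n) z :=
        ((P.E0_cont.comp ((Tube_tr_cont 0 0 1).comp TC_plr_cont)).sub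
          continuous_const).continuousAt
      refine h3.congr ?_
      filter_upwards [h2, hfloor] with w hw1 hw2
      have hfr : ¬ Int.fract w.2.2 ≤ 1 / 2 := by
        rw [Int.fract, hw2]
        linarith
      unfold PPar.XX
      rw [if_neg hfr, hw2]

/-- PROOF: as `TW.Par.XX_lt`: `lam > 0`, `E0_lt`, `tf_mono` -/
theorem XX_lt {θ θ' ψ : ℝ} {r : Ioo (1 : ℝ) 2} (h : θ < θ') (hr : (r : ℝ) < 11 / 6) :
    P.XX (θ, r, ψ) < P.XX (θ', r, ψ) := by
  obtain ⟨b, hb⟩ : ∃ b, b = (r : ℝ) * Real.cos (2 * Real.pi * ψ) / 16 := ⟨_, rfl⟩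
  obtain ⟨t, ht⟩ : ∃ t, t = (r : ℝ) * Real.sin (2 * Real.pi * ψ) / 16 := ⟨_, rfl⟩
  have hp : ∀ θ : ℝ, plr (θ, r, ψ) = (θ, b, t) := fun θ => by
    rw [hb, ht]
    rfl
  have hr0 : 0 < (r : ℝ) := by
    have := r.2.1
    linarith
  have hbb : |b| < 1 / 8 := by
    have h1 := Real.abs_cos_le_one (2 * Real.pi * ψ)
    rw [hb, abs_div, abs_mul, abs_of_pos hr0, abs_of_pos (by norm_num : (0 : ℝ) < 16)]
    have h2 := mul_le_mul_of_nonneg_left h1 hr0.le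
    linarith
  have htt : |t| < 1 / 8 := by
    have h1 := Real.abs_sin_le_one (2 * Real.pi * ψ)
    rw [ht, abs_div, abs_mul, abs_of_pos hr0, abs_of_pos (by norm_num : (0 : ℝ) < 16)]
    have h2 := mul_le_mul_of_nonneg_left h1 hr0.le
    linarith
  have hl : 0 < lam b t := by
    refine lam_pos (max_lt ?_ ?_)
    · exact (Tube_norm b).trans_lt hbb
    · exact (Tube_norm t).trans_lt htt
  have h1 : P.E0 (θ, b, t) < P.E0 (θ', b, t) := P.E0_lt h hl
  have h2 : P.E0 (tr 0 0 1 (θ, b, t)) < P.E0 (tr 0 0 1 (θ', b, t)) := by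
    have hl2 : 0 < lam (b + ((0 : ℤ) : ℝ)) (t + ((1 : ℤ) : ℝ)) := by
      rw [lam_add]
      exact hl
    have h3 : θ + ((0 : ℤ) : ℝ) < θ' + ((0 : ℤ) : ℝ) := by linarith
    exact P.E0_lt h3 hl2
  unfold PPar.XX
  rw [hp, hp]
  dsimp only
  split_ifs
  · have := P.tf_mono h1
    linarith
  · linarith

theorem XX_add (θ ψ : ℝ) (r : Ioo (1 : ℝ) 2) (m n : ℤ) :
    P.XX (θ + m, r, ψ + n) = P.XX (θ, r, ψ) + (m - P.μ * n) := by
  unfold PPar.XX
  rw [Tube_plr_add, Tube_tr_comm, P.E0_add, P.E0_add, P.tf_add]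
  dsimp only
  rw [Int.fract_add_intCast, Int.floor_add_intCast]
  push_cast
  split_ifs
  · ring
  · ring

theorem TT_cont : Continuous P.TT := by
  have h1 := P.XX_cont
  have h2 : Continuous (fun z : ℝ × Ioo (1 : ℝ) 2 × ℝ => LS.cut (z.2.1 : ℝ)) :=
    TC_cut_cont.comp TC_r_cont
  unfold PPar.TT
  exact (h2.mul h1).add ((continuous_const.sub h2).mul (by fun_prop))

theorem TT_lt {θ θ' ψ : ℝ} {r : Ioo (1 : ℝ) 2} (h : θ < θ') (hr : (r : ℝ) < 11 / 6) :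
    P.TT (θ, r, ψ) < P.TT (θ', r, ψ) := by
  have h1 := P.XX_lt (ψ := ψ) h hr
  have h2 := TC_cut_mem (r : ℝ)
  unfold PPar.TT
  simp only
  rcases eq_or_lt_of_le h2.1 with h3 | h3
  · rw [← h3]
    linarith
  · have h4 := mul_lt_mul_of_pos_left h1 h3
    have h5 : (1 - LS.cut (r : ℝ)) * (θ - P.μ * ψ) ≤ (1 - LS.cut (r : ℝ)) * (θ' - P.μ * ψ) :=
      mul_le_mul_of_nonneg_left (by linarith) (by linarith [h2.2])
    linarith

theorem TT_add (θ ψ : ℝ) (r : Ioo (1 : ℝ) 2) (m n : ℤ) :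
    P.TT (θ + m, r, ψ + n) = P.TT (θ, r, ψ) + (m - P.μ * n) := by
  unfold PPar.TT
  simp only
  rw [P.XX_add]
  ring

theorem TT_lin {z : ℝ × Ioo (1 : ℝ) 2 × ℝ} (h : (z.2.1 : ℝ) ≤ 4 / 3) :
    P.TT z = z.1 - P.μ * z.2.2 := by
  unfold PPar.TT
  rw [TC_cut_zero h]
  ring

theorem TT_far {z : ℝ × Ioo (1 : ℝ) 2 × ℝ} (h : 5 / 3 ≤ (z.2.1 : ℝ)) : P.TT z = P.XX z := by
  unfold PPar.TT
  rw [TC_cut_one h]
  ring

/-- PROOF: as `TW.Par.TT_W` (`n = 0`; `k = 0` above, `k = 1` below) -/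
theorem TT_W {z : ℝ × Ioo (1 : ℝ) 2 × ℝ} (hz : 5 / 3 < (z.2.1 : ℝ)) {m n k : ℤ}
    (h : tr m n k (plr z) ∈ XW) : OrdEq z (fun w => P.E0 (tr m n k (plr w))) P.TT := by
  obtain ⟨hb, ht0, ht1, -⟩ := h
  have hr1 : (1 : ℝ) < z.2.1 := z.2.1.2.1
  have hr2 : (z.2.1 : ℝ) < 2 := z.2.1.2.2
  have hcos := Real.abs_cos_le_one (2 * Real.pi * z.2.2)
  have hsin := Real.abs_sin_le_one (2 * Real.pi * z.2.2)
  have hb' : |(z.2.1 : ℝ) * Real.cos (2 * Real.pi * z.2.2) / 16| < 1 / 8 := TC_small hr1 hr2 hcos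
  have ht' : |(z.2.1 : ℝ) * Real.sin (2 * Real.pi * z.2.2) / 16| < 1 / 8 := TC_small hr1 hr2 hsin
  have hb2 : |(z.2.1 : ℝ) * Real.cos (2 * Real.pi * z.2.2) / 16 + n| < 3 / 16 := hb
  have ht2 : 0 < (z.2.1 : ℝ) * Real.sin (2 * Real.pi * z.2.2) / 16 + k := ht0
  have ht3 : (z.2.1 : ℝ) * Real.sin (2 * Real.pi * z.2.2) / 16 + k < 1 := ht1
  obtain ⟨b1, b2⟩ := abs_lt.1 hb'
  obtain ⟨b3, b4⟩ := abs_lt.1 hb2
  obtain ⟨t1, t2⟩ := abs_lt.1 ht'
  have hn : n = 0 := by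
    have h1 : (n : ℝ) < 1 := by linarith
    have h2 : (-1 : ℝ) < n := by linarith
    have h3 : n < 1 := by exact_mod_cast h1
    have h4 : -1 < n := by exact_mod_cast h2
    omega
  have hk : k = 0 ∨ k = 1 := by
    have h1 : (k : ℝ) < 2 := by linarith
    have h2 : (-1 : ℝ) < k := by linarith
    have h3 : k < 2 := by exact_mod_cast h1
    have h4 : -1 < k := by exact_mod_cast h2
    omega
  subst hn
  have hfar : ∀ᶠ w : ℝ × Ioo (1 : ℝ) 2 × ℝ in 𝓝 z, 5 / 3 < (w.2.1 : ℝ) :=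
    (continuousAt_const).eventually_lt TC_r_cont.continuousAt hz
  rcases hk with hk | hk
  · subst hk
    have hs : 0 < Real.sin (2 * Real.pi * z.2.2) := by
      by_contra hcon
      rw [not_lt] at hcon
      have : (z.2.1 : ℝ) * Real.sin (2 * Real.pi * z.2.2) ≤ 0 :=
        mul_nonpos_of_nonneg_of_nonpos (by linarith) hcon
      push_cast at ht2
      linarith
    obtain ⟨f1, f2⟩ := TC_fract_pos hs
    obtain ⟨c, hc⟩ : ∃ c, c = ⌊z.2.2⌋ := ⟨_, rfl⟩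
    have hI : z.2.2 ∈ Ioo (c : ℝ) (c + 1 / 2) := by
      rw [hc]
      have := Int.floor_add_fract z.2.2
      constructor <;> linarith
    refine OrdEq.of_comp (fun y => P.tf (y - m) - P.μ * c) (fun x y hxy => ?_) ?_
    · have := P.tf_mono (show x - m < y - m by linarith)
      simp only
      linarith
    · have hψ : ∀ᶠ w : ℝ × Ioo (1 : ℝ) 2 × ℝ in 𝓝 z, w.2.2 ∈ Ioo (c : ℝ) (c + 1 / 2) :=
        TC_psi_cont.continuousAt.preimage_mem_nhds (isOpen_Ioo.mem_nhds hI)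
      filter_upwards [hfar, hψ] with w hw hw'
      rw [P.TT_far hw.le, P.E0_add]
      have h1 : ⌊w.2.2⌋ = c := by
        rw [Int.floor_eq_iff]
        exact ⟨hw'.1.le, by linarith [hw'.2]⟩
      have h2 : Int.fract w.2.2 ≤ 1 / 2 := by
        unfold Int.fract
        rw [h1]
        linarith [hw'.2]
      unfold PPar.XX
      rw [if_pos h2, h1, add_sub_cancel_right]
  · subst hk
    have hs : Real.sin (2 * Real.pi * z.2.2) < 0 := by
      by_contra hcon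
      rw [not_lt] at hcon
      have : 0 ≤ (z.2.1 : ℝ) * Real.sin (2 * Real.pi * z.2.2) :=
        mul_nonneg (by linarith) hcon
      push_cast at ht3
      linarith
    have f1 := TC_fract_neg hs
    obtain ⟨c, hc⟩ : ∃ c, c = ⌊z.2.2⌋ := ⟨_, rfl⟩
    have hI : z.2.2 ∈ Ioo ((c : ℝ) + 1 / 2) (c + 1) := by
      rw [hc]
      have h1 := Int.floor_add_fract z.2.2
      have h2 := Int.fract_lt_one z.2.2
      constructor <;> linarith
    refine OrdEq.of_comp (fun y => y - m - P.μ * c) (fun x y hxy => ?_) ?_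
    · simp only
      linarith
    · have hψ : ∀ᶠ w : ℝ × Ioo (1 : ℝ) 2 × ℝ in 𝓝 z, w.2.2 ∈ Ioo ((c : ℝ) + 1 / 2) (c + 1) :=
        TC_psi_cont.continuousAt.preimage_mem_nhds (isOpen_Ioo.mem_nhds hI)
      filter_upwards [hfar, hψ] with w hw hw'
      have h0 : tr m 0 1 (plr w) = tr m 0 0 (tr 0 0 1 (plr w)) := by
        unfold tr
        simp only [Int.cast_zero, add_zero]
      rw [P.TT_far hw.le, h0, P.E0_add]
      have h1 : ⌊w.2.2⌋ = c := by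
        rw [Int.floor_eq_iff]
        exact ⟨by linarith [hw'.1], hw'.2⟩
      have h2 : ¬ (Int.fract w.2.2 ≤ 1 / 2) := by
        unfold Int.fract
        rw [h1, not_le]
        linarith [hw'.1]
      unfold PPar.XX
      rw [if_neg h2, h1, add_sub_cancel_right]

/-- PROOF: `|b| < 1/8` for `plr`, so `n = 0` and `1 < r cos`; near `z`: `XX_right`; `yn_left`, `yv_tr`. -/
theorem TT_N (S : Str) {z : ℝ × Ioo (1 : ℝ) 2 × ℝ} (hz : 5 / 3 < (z.2.1 : ℝ)) {m n k : ℤ}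
    (h : tr m n k (plr z) ∈ XN) : OrdEq z (fun w => P.yn S (tr m n k (plr w))) P.TT := by
  obtain ⟨-, hb1, hb2, -⟩ := h
  have hr1 : (1 : ℝ) < z.2.1 := z.2.1.2.1
  have hr2 : (z.2.1 : ℝ) < 2 := z.2.1.2.2
  have hcos := Real.abs_cos_le_one (2 * Real.pi * z.2.2)
  have hb' : |(z.2.1 : ℝ) * Real.cos (2 * Real.pi * z.2.2) / 16| < 1 / 8 := TC_small hr1 hr2 hcos
  have hb3 : 1 / 16 < (z.2.1 : ℝ) * Real.cos (2 * Real.pi * z.2.2) / 16 + n := hb1
  have hb4 : (z.2.1 : ℝ) * Real.cos (2 * Real.pi * z.2.2) / 16 + n < 5 / 8 := hb2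
  obtain ⟨b1, b2⟩ := abs_lt.1 hb'
  have hn : n = 0 := by
    have h1 : (n : ℝ) < 1 := by linarith
    have h2 : (-1 : ℝ) < n := by linarith
    have h3 : n < 1 := by exact_mod_cast h1
    have h4 : -1 < n := by exact_mod_cast h2
    omega
  subst hn
  have h1 : 1 < (z.2.1 : ℝ) * Real.cos (2 * Real.pi * z.2.2) := by
    rw [Int.cast_zero, add_zero] at hb3
    linarith
  have hfar : ∀ᶠ w : ℝ × Ioo (1 : ℝ) 2 × ℝ in 𝓝 z, 5 / 3 < (w.2.1 : ℝ) :=
    (continuousAt_const).eventually_lt TC_r_cont.continuousAt hz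
  have hcc : Continuous (fun w : ℝ × Ioo (1 : ℝ) 2 × ℝ =>
      (w.2.1 : ℝ) * Real.cos (2 * Real.pi * w.2.2)) :=
    TC_r_cont.mul (Real.continuous_cos.comp (continuous_const.mul TC_psi_cont))
  have hord : OrdEq z (fun w => P.yn S (tr m 0 k (plr w))) (fun w => P.yn S (plr w)) :=
    (P.yn_tr_ord S m k (z := plr z)).comp_cont TC_plr_cont.continuousAt
  refine hord.trans ?_
  obtain ⟨n', hn'⟩ := Tube_round hr1 rfl h1
  refine OrdEq.of_comp (fun y => P.em (T0.symm y) + P.μ - P.μ * n') (fun x y hxy => ?_) ?_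
  · have := P.em.strictMono (T0.symm.strictMono hxy)
    simp only
    linarith
  · have e1 : ∀ᶠ w : ℝ × Ioo (1 : ℝ) 2 × ℝ in 𝓝 z,
        1 < (w.2.1 : ℝ) * Real.cos (2 * Real.pi * w.2.2) :=
      (continuousAt_const).eventually_lt hcc.continuousAt h1
    have e2 : ∀ᶠ w : ℝ × Ioo (1 : ℝ) 2 × ℝ in 𝓝 z, |w.2.2 - n'| < 1 / 2 :=
      (TC_psi_cont.sub continuous_const).abs.continuousAt.eventually_lt continuousAt_const hn'
    filter_upwards [hfar, e1, e2] with w hw hw1 hw2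
    have hb5 : (plr w).2.1 ≤ 1 / 4 := by
      have h5 := (abs_lt.1 (TC_small w.2.1.2.1 w.2.1.2.2
        (Real.abs_cos_le_one (2 * Real.pi * w.2.2)))).2
      rw [Tube_plr_b]
      linarith
    rw [P.TT_far hw.le, P.XX_right hw1.le hw2, P.yn_left S hb5]

/-- PROOF: `n = 0` and `r cos < -1`; near `z`: `XX_left`; `yf_tr_ord`. -/
theorem TT_F {z : ℝ × Ioo (1 : ℝ) 2 × ℝ} (hz : 5 / 3 < (z.2.1 : ℝ)) {m n k : ℤ}
    (h : tr m n k (plr z) ∈ XF) : OrdEq z (fun w => P.yf (tr m n k (plr w))) P.TT := by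
  obtain ⟨hb1, hb2, -⟩ := h
  have hr1 : (1 : ℝ) < z.2.1 := z.2.1.2.1
  have hr2 : (z.2.1 : ℝ) < 2 := z.2.1.2.2
  have hcos := Real.abs_cos_le_one (2 * Real.pi * z.2.2)
  have hb' : |(z.2.1 : ℝ) * Real.cos (2 * Real.pi * z.2.2) / 16| < 1 / 8 := TC_small hr1 hr2 hcos
  have hb3 : -1 / 4 < (z.2.1 : ℝ) * Real.cos (2 * Real.pi * z.2.2) / 16 + n := hb1
  have hb4 : (z.2.1 : ℝ) * Real.cos (2 * Real.pi * z.2.2) / 16 + n < -1 / 16 := hb2
  obtain ⟨b1, b2⟩ := abs_lt.1 hb'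
  have hn : n = 0 := by
    have h1 : (n : ℝ) < 1 := by linarith
    have h2 : (-1 : ℝ) < n := by linarith
    have h3 : n < 1 := by exact_mod_cast h1
    have h4 : -1 < n := by exact_mod_cast h2
    omega
  subst hn
  have h1 : (z.2.1 : ℝ) * Real.cos (2 * Real.pi * z.2.2) < -1 := by
    rw [Int.cast_zero, add_zero] at hb4
    linarith
  have hfar : ∀ᶠ w : ℝ × Ioo (1 : ℝ) 2 × ℝ in 𝓝 z, 5 / 3 < (w.2.1 : ℝ) :=
    (continuousAt_const).eventually_lt TC_r_cont.continuousAt hz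
  have hcc : Continuous (fun w : ℝ × Ioo (1 : ℝ) 2 × ℝ =>
      (w.2.1 : ℝ) * Real.cos (2 * Real.pi * w.2.2)) :=
    TC_r_cont.mul (Real.continuous_cos.comp (continuous_const.mul TC_psi_cont))
  have hord : OrdEq z (fun w => P.yf (tr m 0 k (plr w))) (fun w => P.yf (plr w)) :=
    (P.yf_tr_ord m k (z := plr z)).comp_cont TC_plr_cont.continuousAt
  refine hord.trans ?_
  obtain ⟨c, hc⟩ : ∃ c, c = ⌊z.2.2⌋ := ⟨_, rfl⟩
  have hI : z.2.2 ∈ Ioo (c : ℝ) (c + 1) := by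
    rw [hc]
    exact Tube_floor hr1 rfl h1
  refine OrdEq.of_comp (fun y => P.tf y - P.μ * c) (fun x y hxy => ?_) ?_
  · have := P.tf_mono hxy
    simp only
    linarith
  · have e1 : ∀ᶠ w : ℝ × Ioo (1 : ℝ) 2 × ℝ in 𝓝 z,
        (w.2.1 : ℝ) * Real.cos (2 * Real.pi * w.2.2) < -1 :=
      hcc.continuousAt.eventually_lt continuousAt_const h1
    have hψ : ∀ᶠ w : ℝ × Ioo (1 : ℝ) 2 × ℝ in 𝓝 z, w.2.2 ∈ Ioo (c : ℝ) (c + 1) :=
      TC_psi_cont.continuousAt.preimage_mem_nhds (isOpen_Ioo.mem_nhds hI)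
    filter_upwards [hfar, e1, hψ] with w hw hw1 hw2
    have h6 : ⌊w.2.2⌋ = c := by
      rw [Int.floor_eq_iff]
      exact ⟨hw2.1.le, hw2.2⟩
    rw [P.TT_far hw.le, P.XX_left hw1.le, h6]

end PPar

end Pool.Agent.H.MP_1611f1_gt.PA
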