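import Pool.Agent.H.MP_1611f1_gt.PA.Vna

/-!
The functions of the near side: `yv`.
-/

namespace Pool.Agent.H.MP_1611f1_gt.PA

open Topology Set Filter
open Pool.Agent.H.MP_1611f1_gt.BR.U (Ci)
open Pool.Agent.H.MP_1611f1_gt.TW

private theorem Vnb_clamp {x c : ℝ} (hx : |x - c| < 13 / 64) (hc : ∃ n : ℤ, c = n / 2)
    (hf : |x - c| ≤ 3 / 16 → fX x = c) : |fX x - c| ≤ 1 / 16 := by
  obtain ⟨h1, h2⟩ := abs_lt.1 hx
  obtain ⟨n, hn⟩ := hc
  rcases le_or_gt |x - c| (3 / 16) with h | h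
  · rw [hf h, sub_self, abs_zero]
    norm_num
  · rcases lt_abs.1 h with h3 | h3
    · have e : fX x = 4 * (x - (n / 2 + 1 / 4)) + (n / 2 + 1 / 4) :=
        fX_W (abs_le.2 ⟨by linarith, by linarith⟩)
      rw [e]
      exact abs_le.2 ⟨by linarith, by linarith⟩
    · have e : fX x = 4 * (x - (((n - 1 : ℤ) : ℝ) / 2 + 1 / 4)) + (((n - 1 : ℤ) : ℝ) / 2 + 1 / 4) :=
        fX_W (by push_cast; exact abs_le.2 ⟨by linarith, by linarith⟩)
      rw [e]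
      push_cast
      exact abs_le.2 ⟨by linarith, by linarith⟩

private theorem Vnb_fP {a : ℝ} {n : ℤ} (h : |a - n| < 13 / 64) : |fX a - n| ≤ 1 / 16 :=
  Vnb_clamp h ⟨2 * n, by push_cast; ring⟩ fX_P

private theorem Vnb_fQ {a : ℝ} {n : ℤ} (h : |a - (n + 1 / 2)| < 13 / 64) :
    |fX a - (n + 1 / 2)| ≤ 1 / 16 :=
  Vnb_clamp h ⟨2 * n + 1, by push_cast; ring⟩ fX_Q

private theorem Vnb_LL (b a : ℝ) : |LL (rh b * zQ a)| ≤ 3 / 64 := by
  have h1 := LL_lip (rh b * zQ a) 0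
  rw [LL_zero, sub_zero, sub_zero, abs_mul, abs_of_nonneg (rh_mem b).1] at h1
  have h2 : rh b * |zQ a| ≤ 1 * (3 / 16) :=
    mul_le_mul (rh_mem b).2 (zQ_abs a) (abs_nonneg _) zero_le_one
  linarith

/-- `|x| ≤ 2` -/
private theorem Vnb_Lm {v : ℝ} (h : |v| ≤ 1 / 8) : |Lm v| ≤ 2 := by
  have h1 := Lm_lip h (v' := 0) (by rw [abs_zero]; norm_num)
  rw [Lm_zero, sub_zero, sub_zero] at h1
  linarith

private theorem Vnb_LL_low {x x' : ℝ} (h : x' ≤ x) (hx : |x| ≤ 4) (hx' : |x'| ≤ 4) :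
    (x - x') / 100 ≤ LL x - LL x' := by
  have h1 : x' * |x| ≤ x * |x'| := by
    rcases le_total 0 x' with h2 | h2
    · rw [abs_of_nonneg h2, abs_of_nonneg (h2.trans h)]
      linarith [mul_comm x x']
    · rcases le_total 0 x with h3 | h3
      · exact (mul_nonpos_of_nonpos_of_nonneg h2 (abs_nonneg _)).trans
          (mul_nonneg h3 (abs_nonneg _))
      · rw [abs_of_nonpos h2, abs_of_nonpos h3]
        linarith [mul_comm x x']
  have p1 : 0 < 1 + |x| := by positivity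
  have p2 : 0 < 1 + |x'| := by positivity
  have e : LL x - LL x' = (x * (1 + |x'|) - x' * (1 + |x|)) / (4 * ((1 + |x|) * (1 + |x'|))) := by
    unfold LL
    field_simp
  have h4 : (1 + |x|) * (1 + |x'|) ≤ 5 * 5 :=
    mul_le_mul (by linarith) (by linarith) p2.le (by norm_num)
  have h5 : 0 < (1 + |x|) * (1 + |x'|) := mul_pos p1 p2
  rw [e, div_le_div_iff₀ (by norm_num) (by positivity)]
  have h6 : (x - x') * (4 * ((1 + |x|) * (1 + |x'|))) ≤ (x - x') * 100 :=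
    mul_le_mul_of_nonneg_left (by linarith) (by linarith)
  have h7 : x - x' ≤ x * (1 + |x'|) - x' * (1 + |x|) := by linarith
  linarith

namespace PPar

variable (P : PPar)

private theorem Vnb_w0 (b t : ℝ) : 0 ≤ P.ε * lam b t := mul_nonneg P.ε_pos.le (lam_nonneg b t)

private theorem Vnb_w1 (b t : ℝ) : P.ε * lam b t ≤ 1 / 1600 := by
  have h1 : P.ε * lam b t ≤ 1 * lam b t := mul_le_mul_of_nonneg_right P.ε_le (lam_nonneg b t)
  have h2 := lam_le b t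
  linarith

private theorem Vnb_vn {a b t c : ℝ} (h1 : |fX a - c| ≤ 1 / 16) :
    |P.vn (a, b, t) - c| ≤ 1 / 8 := by
  have hw0 := P.Vnb_w0 b t
  have hw1 := P.Vnb_w1 b t
  have hL := Vnb_LL b a
  have hd := fX_dist a
  have e : P.vn (a, b, t) - c = (fX a - c) + LL (rh b * zQ a) +
      P.ε * lam b t * ((a - fX a) - LL (rh b * zQ a)) := by
    simp only [vn]
    ring
  have h3 : |(a - fX a) - LL (rh b * zQ a)| ≤ 3 / 16 + 3 / 64 :=
    (abs_sub _ _).trans (add_le_add hd hL)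
  have h4 : |P.ε * lam b t * ((a - fX a) - LL (rh b * zQ a))| ≤ 1 / 1600 * (3 / 16 + 3 / 64) := by
    rw [abs_mul, abs_of_nonneg hw0]
    exact mul_le_mul hw1 h3 (abs_nonneg _) (by norm_num)
  rw [e]
  refine (abs_add_le _ _).trans ?_
  refine (add_le_add (abs_add_le _ _) le_rfl).trans ?_
  linarith

private theorem Vnb_dvn (a b t t' c : ℝ) :
    |(P.vn (a, b, t) - c) - (P.vn (a, b, t') - c)| ≤ 1 / 64 * |t - t'| := by
  have hL := Vnb_LL b a
  have hd := fX_dist a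
  have e : (P.vn (a, b, t) - c) - (P.vn (a, b, t') - c) =
      P.ε * (lam b t - lam b t') * ((a - fX a) - LL (rh b * zQ a)) := by
    simp only [vn]
    ring
  have h3 : |(a - fX a) - LL (rh b * zQ a)| ≤ 15 / 64 :=
    (abs_sub _ _).trans ((add_le_add hd hL).trans (by norm_num))
  have h4 : |P.ε * (lam b t - lam b t')| ≤ 96 / 1600 * |t - t'| := by
    rw [abs_mul, abs_of_pos P.ε_pos]
    have h5 : P.ε * |lam b t - lam b t'| ≤ 1 * |lam b t - lam b t'| :=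
      mul_le_mul_of_nonneg_right P.ε_le (abs_nonneg _)
    have h6 := lam_lip b t t'
    linarith
  rw [e, abs_mul]
  have h7 : |P.ε * (lam b t - lam b t')| * |(a - fX a) - LL (rh b * zQ a)| ≤
      (96 / 1600 * |t - t'|) * (15 / 64) :=
    mul_le_mul h4 h3 (abs_nonneg _) (by positivity)
  have h8 := abs_nonneg (t - t')
  linarith

/-- the increase of `Lm (vn - c)` -/
private theorem Vnb_dLm {a b c : ℝ} (h1 : |fX a - c| ≤ 1 / 16) (t t' : ℝ) :
    |Lm (P.vn (a, b, t) - c) - Lm (P.vn (a, b, t') - c)| ≤ 1 / 4 * |t - t'| := by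
  have h2 := Lm_lip (P.Vnb_vn (b := b) (t := t) h1) (P.Vnb_vn (b := b) (t := t') h1)
  have h3 := P.Vnb_dvn a b t t' c
  linarith

private theorem Vnb_yP {a b t : ℝ} {n : ℤ} (h : |P.vn (a, b, t) - n| < 1 / 4) :
    P.yv (a, b, t) = n + LL (Lm (P.vn (a, b, t) - n) + t) := by
  have h1 : P.vn (a, b, t) = n + LL (Lm (P.vn (a, b, t) - n)) := by
    rw [LL_Lm h]
    ring
  show phi (-t) (P.vn (a, b, t)) = _
  conv_lhs => rw [h1]
  rw [phi_J, sub_neg_eq_add]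

private theorem Vnb_yQ {a b t : ℝ} {n : ℤ} (h : |P.vn (a, b, t) - (n + 1 / 2)| < 1 / 4) :
    P.yv (a, b, t) = n + 1 / 2 + LL (Lm (P.vn (a, b, t) - (n + 1 / 2)) - t) := by
  have h1 : P.vn (a, b, t) = n + 1 / 2 + LL (Lm (P.vn (a, b, t) - (n + 1 / 2))) := by
    rw [LL_Lm h]
    ring
  show phi (-t) (P.vn (a, b, t)) = _
  conv_lhs => rw [h1]
  rw [phi_J', ← sub_eq_add_neg]

theorem yv_cont : Continuous P.yv := by
  have h1 : Continuous fun z : ℝ × ℝ × ℝ => (-z.2.2, P.vn z) :=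
    (continuous_snd.comp continuous_snd).neg.prodMk P.vn_cont
  have h2 := phi_cont.comp h1
  have e : P.yv = (fun q : ℝ × ℝ => phi q.1 q.2) ∘ fun z : ℝ × ℝ × ℝ => (-z.2.2, P.vn z) := by
    funext z
    rfl
  rw [e]
  exact h2

theorem yv_lt {a a' b t : ℝ} (h : P.vn (a, b, t) < P.vn (a', b, t)) :
    P.yv (a, b, t) < P.yv (a', b, t) := phi_mono _ h

theorem yv_mono {a a' b t : ℝ} (h : a ≤ a') : P.yv (a, b, t) ≤ P.yv (a', b, t) :=
  (phi_mono _).monotone (P.vn_mono h)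

/-- PROOF: `vn_add`, `phi_add`, `phi_int` -/
theorem yv_tr (m k : ℤ) (z : ℝ × ℝ × ℝ) : P.yv (tr m 0 k z) = phi (-k) (P.yv z) + m := by
  show phi (-(tr m 0 k z).2.2) (P.vn (tr m 0 k z)) = phi (-k) (phi (-z.2.2) (P.vn z)) + m
  rw [P.vn_add, phi_int, ← phi_add]
  have e : -(tr m 0 k z).2.2 = -(k : ℝ) + -z.2.2 := by
    show -(z.2.2 + (k : ℝ)) = _
    ring
  rw [e]

/-- P-interval, `lam = 0` -/
theorem yv_P {z : ℝ × ℝ × ℝ} {n : ℤ} (h : |z.1 - n| ≤ 3 / 16) (hl : lam z.2.1 z.2.2 = 0) :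
    P.yv z = n + LL z.2.2 := by
  have h1 : P.vn z = n + LL 0 := by
    rw [P.vn_flat hl, fX_P h, zQ_P (h.trans (by norm_num)), mul_zero]
  show phi (-z.2.2) (P.vn z) = _
  rw [h1, phi_J, sub_neg_eq_add, zero_add]

/-- Q-interval, `lam = 0` -/
theorem yv_Q {z : ℝ × ℝ × ℝ} {n : ℤ} (h : |z.1 - (n + 1 / 2)| ≤ 3 / 16)
    (hl : lam z.2.1 z.2.2 = 0) :
    P.yv z = n + 1 / 2 + LL (-z.2.2 + rh z.2.1 * (z.1 - (n + 1 / 2))) := by
  have h1 : P.vn z = n + 1 / 2 + LL (rh z.2.1 * (z.1 - (n + 1 / 2))) := by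
    rw [P.vn_flat hl, fX_Q h, zQ_Q h]
  show phi (-z.2.2) (P.vn z) = _
  rw [h1, phi_J', add_comm (rh z.2.1 * (z.1 - (n + 1 / 2)))]

/-- Strictly increasing in `t` near the P-intervals. PROOF: as `TW.yy_lt_t` (there for `ff`), `|P.vn - n| ≤ 1/16 + 1/1600`, `zQ = 0` there, `ε ≤ 1`. -/
theorem yv_lt_t {a b t t' : ℝ} {n : ℤ} (hn : |a - n| < 13 / 64) (h : t < t') :
    P.yv (a, b, t) < P.yv (a, b, t') := by
  have h1 := Vnb_fP hn
  rw [P.Vnb_yP (lt_of_le_of_lt (P.Vnb_vn (b := b) (t := t) h1) (by norm_num)),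
    P.Vnb_yP (lt_of_le_of_lt (P.Vnb_vn (b := b) (t := t') h1) (by norm_num))]
  have h2 := P.Vnb_dLm (b := b) h1 t t'
  rw [abs_of_neg (by linarith : t - t' < 0)] at h2
  have h3 := (abs_le.1 h2).2
  have h4 : Lm (P.vn (a, b, t) - n) + t < Lm (P.vn (a, b, t') - n) + t' := by linarith
  have := LL_mono h4
  linarith

/-- Strictly decreasing in `t` near the Q-intervals. PROOF: the same; `|P.vn - (n + 1/2)| ≤ 1/16 + 3/76 + 1/1600 < 1/8`. -/
theorem yv_gt_t {a b t t' : ℝ} {n : ℤ} (hn : |a - (n + 1 / 2)| < 13 / 64) (h : t < t') :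
    P.yv (a, b, t') < P.yv (a, b, t) := by
  have h1 := Vnb_fQ hn
  rw [P.Vnb_yQ (lt_of_le_of_lt (P.Vnb_vn (b := b) (t := t) h1) (by norm_num)),
    P.Vnb_yQ (lt_of_le_of_lt (P.Vnb_vn (b := b) (t := t') h1) (by norm_num))]
  have h2 := P.Vnb_dLm (b := b) h1 t t'
  rw [abs_of_neg (by linarith : t - t' < 0)] at h2
  have h3 := (abs_le.1 h2).1
  have h4 : Lm (P.vn (a, b, t') - (n + 1 / 2)) - t' < Lm (P.vn (a, b, t) - (n + 1 / 2)) - t := by
    linarith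
  have := LL_mono h4
  linarith

/-- The quantitative form. PROOF: with `s = Lm (vn - (n + 1/2))` one has `yv = n + 1/2 + LL (s - t)` (`|vn - (n + 1/2)| ≤ 1/8`); `s - t` decreases at a rate at least `1/2` (`Lm_lip`, `lam_lip`, as in `yv_gt_t`),
and `LL x - LL x' ≥ (x - x') / 100` for `|x'|, |x| ≤ 4`, `x' ≤ x`. -/
theorem yv_gt_low : ∃ δ > 0, ∀ (a b t t' : ℝ) (n : ℤ), |a - (n + 1 / 2)| < 13 / 64 → -1 ≤ t →
    t ≤ t' → t' ≤ 1 → δ * (t' - t) ≤ P.yv (a, b, t) - P.yv (a, b, t') := by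
  refine ⟨1 / 200, by norm_num, fun a b t t' n hn ht1 htt ht2 => ?_⟩
  have h1 := Vnb_fQ hn
  have v1 := P.Vnb_vn (b := b) (t := t) h1
  have v2 := P.Vnb_vn (b := b) (t := t') h1
  rw [P.Vnb_yQ (lt_of_le_of_lt v1 (by norm_num)), P.Vnb_yQ (lt_of_le_of_lt v2 (by norm_num))]
  have h2 := P.Vnb_dLm (b := b) h1 t t'
  rw [abs_of_nonpos (by linarith : t - t' ≤ 0)] at h2
  have h3 := (abs_le.1 h2).1
  obtain ⟨m1, m2⟩ := abs_le.1 (Vnb_Lm v1)
  obtain ⟨m3, m4⟩ := abs_le.1 (Vnb_Lm v2)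
  have h4 := Vnb_LL_low (x := Lm (P.vn (a, b, t) - (n + 1 / 2)) - t)
    (x' := Lm (P.vn (a, b, t') - (n + 1 / 2)) - t') (by linarith)
    (abs_le.2 ⟨by linarith, by linarith⟩) (abs_le.2 ⟨by linarith, by linarith⟩)
  linarith

/-- on the P side, for `b` with `lam = 0` for all times. PROOF: `vn` does not depend on `t`; it is `n + LL s`. -/
theorem yv_t_P {a b t t' : ℝ} {n : ℤ} (hn : |a - n| < 1 / 4) (hb : 1 / 8 ≤ ‖(b : Ci)‖)
    (h : t < t') : P.yv (a, b, t) < P.yv (a, b, t') := by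
  have e : ∀ s, P.vn (a, b, s) = fX a + LL (rh b * zQ a) := fun s =>
    P.vn_flat (z := (a, b, s)) (lam_zero (hb.trans (le_max_left _ _)))
  rw [P.Vnb_yP (P.vn_P hn), P.Vnb_yP (P.vn_P hn), e t, e t']
  have := LL_mono (show Lm (fX a + LL (rh b * zQ a) - n) + t <
    Lm (fX a + LL (rh b * zQ a) - n) + t' by linarith)
  linarith

theorem yv_t_Q {a b t t' : ℝ} {n : ℤ} (hn : |a - (n + 1 / 2)| < 1 / 4)
    (hb : 1 / 8 ≤ ‖(b : Ci)‖) (h : t < t') : P.yv (a, b, t') < P.yv (a, b, t) := by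
  have e : ∀ s, P.vn (a, b, s) = fX a + LL (rh b * zQ a) := fun s =>
    P.vn_flat (z := (a, b, s)) (lam_zero (hb.trans (le_max_left _ _)))
  rw [P.Vnb_yQ (P.vn_Q hn), P.Vnb_yQ (P.vn_Q hn), e t, e t']
  have := LL_mono (show Lm (fX a + LL (rh b * zQ a) - (n + 1 / 2)) - t' <
    Lm (fX a + LL (rh b * zQ a) - (n + 1 / 2)) - t by linarith)
  linarith

end PPar

end Pool.Agent.H.MP_1611f1_gt.PA
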