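import Pool.Agent.H.MP_1611f1_gt.PA.Vna

/-!
The functions of the near side: the Lipschitz constant.
-/

namespace Pool.Agent.H.MP_1611f1_gt.PA

open Topology Set Filter
open Pool.Agent.H.MP_1611f1_gt.BR.U (Ci)
open Pool.Agent.H.MP_1611f1_gt.TW

private theorem Vnc_diff {r r' : ℝ} (h : 0 ≤ r ∨ r' ≤ 0) (hr : r ≤ r') :
    LL r' - LL r = (r' - r) / (4 * ((1 + |r|) * (1 + |r'|))) := by
  have h1 : 0 < 1 + |r| := by positivity
  have h2 : 0 < 1 + |r'| := by positivity
  unfold LL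
  rw [div_sub_div _ _ (by positivity) (by positivity), div_eq_div_iff (by positivity) (by positivity)]
  rcases h with h | h
  · rw [abs_of_nonneg h, abs_of_nonneg (h.trans hr)]
    ring
  · rw [abs_of_nonpos h, abs_of_nonpos (hr.trans h)]
    ring

private theorem Vnc_le (r t : ℝ) (ht : |t| ≤ 1) : 1 + |r| ≤ 2 * (1 + |r + t|) := by
  have h1 : |r| ≤ |r + t| + |t| := by
    have h2 := abs_sub (r + t) t
    rwa [add_sub_cancel_right] at h2
  have h3 := abs_nonneg (r + t)
  linarith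

private theorem Vnc_A {r r' t : ℝ} (ht : |t| ≤ 1) (h : 0 ≤ r ∨ r' ≤ 0) (h' : 0 ≤ r + t ∨ r' + t ≤ 0)
    (hr : r ≤ r') : 4 * LL r - LL (r + t) ≤ 4 * LL r' - LL (r' + t) := by
  have e1 := Vnc_diff h hr
  have e2 := Vnc_diff h' (by linarith : r + t ≤ r' + t)
  have e3 : (r' + t - (r + t)) / (4 * ((1 + |r + t|) * (1 + |r' + t|))) ≤
      4 * ((r' - r) / (4 * ((1 + |r|) * (1 + |r'|)))) := by
    have h1 : 0 < 1 + |r| := by positivity
    have h2 : 0 < 1 + |r'| := by positivity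
    have h3 : 0 < 1 + |r + t| := by positivity
    have h4 : 0 < 1 + |r' + t| := by positivity
    have h5 := mul_le_mul (Vnc_le r t ht) (Vnc_le r' t ht) h2.le (by positivity)
    have h6 : 0 ≤ r' - r := by linarith
    have e4 : r' + t - (r + t) = r' - r := by ring
    rw [e4, ← mul_div_assoc, div_le_div_iff₀ (by positivity) (by positivity)]
    have h7 := mul_le_mul_of_nonneg_left h5 h6
    linarith
  linarith

private theorem Vnc_B {r r' t : ℝ} (ht : |t| ≤ 1) (h' : 0 ≤ r + t ∨ r' + t ≤ 0)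
    (hr : r ≤ r') : 4 * LL r - LL (r + t) ≤ 4 * LL r' - LL (r' + t) := by
  rcases le_total 0 r with h0 | h0
  · exact Vnc_A ht (Or.inl h0) h' hr
  rcases le_total r' 0 with h1 | h1
  · exact Vnc_A ht (Or.inr h1) h' hr
  have a1 : 4 * LL r - LL (r + t) ≤ 4 * LL 0 - LL (0 + t) :=
    Vnc_A ht (Or.inr le_rfl) (h'.imp id fun h => by linarith) h0
  have a2 : 4 * LL 0 - LL (0 + t) ≤ 4 * LL r' - LL (r' + t) :=
    Vnc_A ht (Or.inl le_rfl) (h'.imp (fun h => by linarith) id) h1
  exact a1.trans a2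

private theorem Vnc_C {r r' t : ℝ} (ht : |t| ≤ 1) (hr : r ≤ r') :
    4 * LL r - LL (r + t) ≤ 4 * LL r' - LL (r' + t) := by
  rcases le_total 0 (r + t) with h0 | h0
  · exact Vnc_B ht (Or.inl h0) hr
  rcases le_total (r' + t) 0 with h1 | h1
  · exact Vnc_B ht (Or.inr h1) hr
  have a1 : 4 * LL r - LL (r + t) ≤ 4 * LL (-t) - LL (-t + t) :=
    Vnc_B ht (Or.inr (by linarith)) (by linarith)
  have a2 : 4 * LL (-t) - LL (-t + t) ≤ 4 * LL r' - LL (r' + t) :=
    Vnc_B ht (Or.inl (by linarith)) (by linarith)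
  exact a1.trans a2

private theorem Vnc_upp {s t : ℝ} (ht : |t| ≤ 1) : 4 * LL s - LL (s + t) ≤ 3 / 4 := by
  have ht' := abs_le.1 ht
  have hL := abs_lt.1 (LL_abs (s + t))
  rcases le_total s 0 with h0 | h0
  · have h1 : LL s ≤ 0 := by
      rw [← LL_zero]
      exact LL_mono.monotone h0
    linarith
  have e1 : LL s = 1 / 4 - 1 / (4 * (1 + s)) := by
    unfold LL
    rw [abs_of_nonneg h0]
    have : 0 < 1 + s := by linarith
    field_simp
    ring
  rcases le_total 0 (s + t) with h1 | h1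
  · have e2 : LL (s + t) = 1 / 4 - 1 / (4 * (1 + (s + t))) := by
      unfold LL
      rw [abs_of_nonneg h1]
      have : 0 < 1 + (s + t) := by linarith
      field_simp
      ring
    have e3 : 1 / (4 * (1 + (s + t))) ≤ 4 * (1 / (4 * (1 + s))) := by
      rw [← mul_div_assoc, div_le_div_iff₀ (by linarith) (by linarith)]
      linarith
    rw [e1, e2]
    linarith
  · have e3 : 1 / 8 ≤ 1 / (4 * (1 + s)) := by
      rw [div_le_div_iff₀ (by norm_num) (by linarith)]
      linarith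
    rw [e1]
    linarith

private theorem Vnc_low {s t : ℝ} (ht : |t| ≤ 1) : -(3 / 4) ≤ 4 * LL s - LL (s + t) := by
  have h := Vnc_upp (s := -s) (t := -t) (by rwa [abs_neg])
  have e : -s + -t = -(s + t) := by ring
  rw [e, LL_neg, LL_neg] at h
  linarith

private theorem Vnc_blk_bd {u t : ℝ} (ht : |t| ≤ 1) (h1 : -(1 / 4) ≤ u) (h2 : u < 1 / 4) :
    -(3 / 4) ≤ 4 * u - blk (fun s => s + t) u ∧ 4 * u - blk (fun s => s + t) u ≤ 3 / 4 := by
  unfold blk
  by_cases h : |u| < 1 / 4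
  · rw [if_pos h]
    have e := LL_Lm h
    have a1 := Vnc_low (s := Lm u) ht
    have a2 := Vnc_upp (s := Lm u) ht
    rw [e] at a1 a2
    exact ⟨a1, a2⟩
  · rw [if_neg h]
    constructor <;> linarith

private theorem Vnc_blk_mono {u u' t : ℝ} (ht : |t| ≤ 1) (h1 : -(1 / 4) ≤ u) (h2 : u' < 1 / 4)
    (hu : u ≤ u') : 4 * u - blk (fun s => s + t) u ≤ 4 * u' - blk (fun s => s + t) u' := by
  rcases eq_or_lt_of_le h1 with h3 | h3
  · have h4 : blk (fun s => s + t) u = u := by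
      unfold blk
      rw [if_neg]
      rw [← h3, abs_neg, abs_of_pos (by norm_num : (0 : ℝ) < 1 / 4)]
      exact lt_irrefl _
    have h5 := (Vnc_blk_bd ht (h1.trans hu) h2).1
    rw [h4]
    linarith
  · have h4 : |u| < 1 / 4 := abs_lt.2 ⟨h3, lt_of_le_of_lt hu h2⟩
    have h5 : |u'| < 1 / 4 := abs_lt.2 ⟨lt_of_lt_of_le h3 hu, h2⟩
    have h6 : Lm u ≤ Lm u' := by
      rcases eq_or_lt_of_le hu with h | h
      · rw [h]
      · exact (Lm_mono h4 h5 h).le
    have h7 := Vnc_C ht h6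
    rw [LL_Lm h4, LL_Lm h5] at h7
    unfold blk
    rw [if_pos h4, if_pos h5]
    exact h7

/-- the flow has the Lipschitz constant `4` for the times `|t| ≤ 1` -/
private theorem Vnc_phi_mono {t v v' : ℝ} (ht : |t| ≤ 1) (h : v ≤ v') :
    4 * v - phi t v ≤ 4 * v' - phi t v' := by
  have hkk : ∀ v : ℝ, -(1 / 4) ≤ v - kk v / 2 ∧ v - kk v / 2 < 1 / 4 := by
    intro v
    have h1 := Int.floor_le (2 * v + 1 / 2)
    have h2 := Int.lt_floor_add_one (2 * v + 1 / 2)
    unfold kk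
    constructor <;> linarith
  have hform : ∀ v : ℝ, ∃ τ : ℝ, |τ| ≤ 1 ∧ (τ = if Even (kk v) then -t else t) ∧
      phi t v = kk v / 2 + blk (fun s => s + τ) (v - kk v / 2) := by
    intro v
    refine ⟨if Even (kk v) then -t else t, ?_, rfl, ?_⟩
    · split_ifs
      · rwa [abs_neg]
      · exact ht
    · unfold phi celf
      split_ifs
      · simp only [sub_eq_add_neg]
      · rfl
  have hk : kk v ≤ kk v' := by
    unfold kk
    exact Int.floor_le_floor (by linarith)
  obtain ⟨τ, hτ, hτe, hphi⟩ := hform v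
  obtain ⟨τ', hτ', hτe', hphi'⟩ := hform v'
  have a1 := hkk v
  have a2 := hkk v'
  rcases eq_or_lt_of_le hk with h1 | h1
  · have hττ : τ = τ' := by rw [hτe, hτe', h1]
    rw [hphi, hphi', ← hττ, h1]
    rw [h1] at a1
    have h2 := Vnc_blk_mono hτ a1.1 a2.2 (by linarith : v - kk v' / 2 ≤ v' - kk v' / 2)
    linarith
  · have h2 : (kk v : ℝ) + 1 ≤ kk v' := by exact_mod_cast h1
    have b1 := (Vnc_blk_bd hτ a1.1 a1.2).2
    have b2 := (Vnc_blk_bd hτ' a2.1 a2.2).1
    rw [hphi, hphi']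
    linarith

private theorem Vnc_phi_lip {t v v' : ℝ} (ht : |t| ≤ 1) :
    |phi t v - phi t v'| ≤ 4 * |v - v'| := by
  have key : ∀ v v' : ℝ, v ≤ v' → |phi t v - phi t v'| ≤ 4 * |v - v'| := by
    intro v v' h
    have h1 := Vnc_phi_mono ht h
    have h2 := (phi_mono t).monotone h
    rw [abs_of_nonpos (by linarith : phi t v - phi t v' ≤ 0),
      abs_of_nonpos (by linarith : v - v' ≤ 0)]
    linarith
  rcases le_total v v' with h | h
  · exact key v v' h
  · rw [abs_sub_comm, abs_sub_comm v v']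
    exact key v' v h

private theorem Vnc_phi_time (t t' v : ℝ) : |phi t v - phi t' v| ≤ 1 / 4 * |t - t'| := by
  rcases cell_cases v with ⟨n, rfl⟩ | ⟨n, s, rfl⟩ | ⟨n, s, rfl⟩
  · rw [phi_wall, phi_wall, sub_self, abs_zero]
    positivity
  · rw [phi_J, phi_J, add_sub_add_left_eq_sub]
    have h := LL_lip (s - t) (s - t')
    have e : s - t - (s - t') = -(t - t') := by ring
    rwa [e, abs_neg] at h
  · rw [phi_J', phi_J', add_sub_add_left_eq_sub]
    have h := LL_lip (s + t) (s + t')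
    rwa [add_sub_add_left_eq_sub] at h

namespace PPar

variable (P : PPar)

/-- the Lipschitz constant in `t`. PROOF: `|phi (-t) v - phi (-t') v| ≤ |t - t'| / 4` (in a cell `LL (s ± t)`, `LL_lip`); `|phi (-t) v - phi (-t) v'| ≤ 16 |v - v'|`
for `|t| ≤ 1` (in a cell the derivative of `LL (Lm v ± t)` is `((1 + |r|) / (1 + |r ± t|)) ^ 2 ≤ 4`; different cells: add up over the
walls, which are fixed); `|vn - vn'| ≤ |lam - lam'|` (`lam_lip`, the difference of `a` and `fB` is at most `1`). -/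
theorem yv_lip {a b t t' : ℝ} (h : |t| ≤ 1) (h' : |t'| ≤ 1) :
    |P.yv (a, b, t) - P.yv (a, b, t')| ≤ 3 * |t - t'| := by
  have h1 : |P.vn (a, b, t) - P.vn (a, b, t')| ≤ 96 / 1600 * |t - t'| := by
    have e : P.vn (a, b, t) - P.vn (a, b, t') =
        P.ε * (lam b t - lam b t') * (a - fX a - LL (rh b * zQ a)) := by
      unfold PPar.vn
      simp only
      ring
    have h2 : |a - fX a - LL (rh b * zQ a)| ≤ 1 := by
      have h3 := fX_dist a
      have h4 := LL_abs (rh b * zQ a)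
      have h5 := abs_sub (a - fX a) (LL (rh b * zQ a))
      linarith
    rw [e, abs_mul, abs_mul, abs_of_pos P.ε_pos]
    have h3 := lam_lip b t t'
    have h4 : P.ε * |lam b t - lam b t'| ≤ 1 * (96 / 1600 * |t - t'|) :=
      mul_le_mul P.ε_le h3 (abs_nonneg _) zero_le_one
    have h5 := mul_le_mul h4 h2 (abs_nonneg _) (by positivity)
    linarith
  have h2 : |phi (-t) (P.vn (a, b, t)) - phi (-t') (P.vn (a, b, t))| ≤ 1 / 4 * |t - t'| := by
    have h3 := Vnc_phi_time (-t) (-t') (P.vn (a, b, t))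
    have e : -t - -t' = -(t - t') := by ring
    rwa [e, abs_neg] at h3
  have h3 : |phi (-t') (P.vn (a, b, t)) - phi (-t') (P.vn (a, b, t'))| ≤
      4 * |P.vn (a, b, t) - P.vn (a, b, t')| :=
    Vnc_phi_lip (by rwa [abs_neg])
  have h4 := abs_sub_le (phi (-t) (P.vn (a, b, t))) (phi (-t') (P.vn (a, b, t)))
    (phi (-t') (P.vn (a, b, t')))
  have h5 := abs_nonneg (t - t')
  have e : P.yv (a, b, t) - P.yv (a, b, t') =
      phi (-t) (P.vn (a, b, t)) - phi (-t') (P.vn (a, b, t')) := rfl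
  rw [e]
  linarith

end PPar

end Pool.Agent.H.MP_1611f1_gt.PA
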