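import Pool.Agent.H.MP_1611f1_gt.PA.FX

/-!
The functions of the near side: `fB` and `vn`.
-/

namespace Pool.Agent.H.MP_1611f1_gt.PA

open Topology Set Filter
open Pool.Agent.H.MP_1611f1_gt.BR.U (Ci)
open Pool.Agent.H.MP_1611f1_gt.TW

private theorem Vna_glue {f : ℝ → ℝ} {a b c : ℝ}
    (h1 : ∀ x y, a ≤ x → x ≤ y → y ≤ b → f x ≤ f y)
    (h2 : ∀ x y, b ≤ x → x ≤ y → y ≤ c → f x ≤ f y) :
    ∀ x y, a ≤ x → x ≤ y → y ≤ c → f x ≤ f y := by
  intro x y hx hxy hy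
  rcases le_total y b with hyb | hyb
  · exact h1 x y hx hxy hyb
  · rcases le_total x b with hxb | hxb
    · exact (h1 x b hx hxb le_rfl).trans (h2 b y le_rfl hyb hy)
    · exact h2 x y hxb hxy hy

private theorem Vna_W (n : ℤ) : ∀ x y : ℝ, (n / 2 + 1 / 4 : ℝ) - 1 / 16 ≤ x → x ≤ y →
    y ≤ (n / 2 + 1 / 4 : ℝ) + 1 / 16 → zQ x + 3 / 4 * fX x ≤ zQ y + 3 / 4 * fX y := by
  intro x y hx hxy hy
  have e1 : fX x = 4 * (x - (n / 2 + 1 / 4)) + (n / 2 + 1 / 4) :=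
    fX_W (abs_le.2 ⟨by linarith, by linarith⟩)
  have e2 : fX y = 4 * (y - (n / 2 + 1 / 4)) + (n / 2 + 1 / 4) :=
    fX_W (abs_le.2 ⟨by linarith, by linarith⟩)
  have h := abs_le.1 (zQ_lip x y)
  rw [abs_of_nonpos (by linarith : x - y ≤ 0)] at h
  rw [e1, e2]
  linarith [h.2]

private theorem Vna_piece (n : ℤ) : ∀ x y : ℝ, (n : ℝ) - 3 / 16 ≤ x → x ≤ y →
    y ≤ (n : ℝ) + 13 / 16 → zQ x + 3 / 4 * fX x ≤ zQ y + 3 / 4 * fX y := by
  have h1 : ∀ x y : ℝ, (n : ℝ) - 3 / 16 ≤ x → x ≤ y → y ≤ (n : ℝ) + 3 / 16 →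
      zQ x + 3 / 4 * fX x ≤ zQ y + 3 / 4 * fX y := by
    intro x y hx hxy hy
    rw [fX_P (n := n) (abs_le.2 ⟨by linarith, by linarith⟩ : |x - n| ≤ 3 / 16),
      fX_P (n := n) (abs_le.2 ⟨by linarith, by linarith⟩ : |y - n| ≤ 3 / 16),
      zQ_P (n := n) (abs_le.2 ⟨by linarith, by linarith⟩ : |x - n| ≤ 1 / 4),
      zQ_P (n := n) (abs_le.2 ⟨by linarith, by linarith⟩ : |y - n| ≤ 1 / 4)]
  have h2 : ∀ x y : ℝ, (n : ℝ) + 3 / 16 ≤ x → x ≤ y → y ≤ (n : ℝ) + 5 / 16 →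
      zQ x + 3 / 4 * fX x ≤ zQ y + 3 / 4 * fX y := by
    intro x y hx hxy hy
    refine Vna_W (2 * n) x y ?_ hxy ?_ <;> push_cast <;> linarith
  have h3 : ∀ x y : ℝ, (n : ℝ) + 5 / 16 ≤ x → x ≤ y → y ≤ (n : ℝ) + 11 / 16 →
      zQ x + 3 / 4 * fX x ≤ zQ y + 3 / 4 * fX y := by
    intro x y hx hxy hy
    rw [fX_Q (n := n) (abs_le.2 ⟨by linarith, by linarith⟩ : |x - (n + 1 / 2)| ≤ 3 / 16),
      fX_Q (n := n) (abs_le.2 ⟨by linarith, by linarith⟩ : |y - (n + 1 / 2)| ≤ 3 / 16),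
      zQ_Q (n := n) (abs_le.2 ⟨by linarith, by linarith⟩ : |x - (n + 1 / 2)| ≤ 3 / 16),
      zQ_Q (n := n) (abs_le.2 ⟨by linarith, by linarith⟩ : |y - (n + 1 / 2)| ≤ 3 / 16)]
    linarith
  have h4 : ∀ x y : ℝ, (n : ℝ) + 11 / 16 ≤ x → x ≤ y → y ≤ (n : ℝ) + 13 / 16 →
      zQ x + 3 / 4 * fX x ≤ zQ y + 3 / 4 * fX y := by
    intro x y hx hxy hy
    refine Vna_W (2 * n + 1) x y ?_ hxy ?_ <;> push_cast <;> linarith
  exact Vna_glue (Vna_glue (Vna_glue h1 h2) h3) h4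

/-- the potential -/
private theorem Vna_pot {x y : ℝ} (hxy : x ≤ y) :
    zQ x + 3 / 4 * fX x ≤ zQ y + 3 / 4 * fX y := by
  obtain ⟨n, hn1, hn2⟩ : ∃ n : ℤ, (n : ℝ) - 3 / 16 ≤ x ∧ x ≤ (n : ℝ) + 13 / 16 := by
    refine ⟨⌊x + 3 / 16⌋, ?_, ?_⟩
    · have := Int.floor_le (x + 3 / 16); linarith
    · have := Int.lt_floor_add_one (x + 3 / 16); linarith
  obtain ⟨m, hm1, hm2⟩ : ∃ m : ℤ, (m : ℝ) - 3 / 16 ≤ y ∧ y ≤ (m : ℝ) + 13 / 16 := by
    refine ⟨⌊y + 3 / 16⌋, ?_, ?_⟩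
    · have := Int.floor_le (y + 3 / 16); linarith
    · have := Int.lt_floor_add_one (y + 3 / 16); linarith
  rcases le_or_gt y ((n : ℝ) + 13 / 16) with h | h
  · exact Vna_piece n x y hn1 hxy h
  · have hnm : n + 1 ≤ m := by
      have h1 : (n : ℝ) < m := by linarith
      exact_mod_cast h1
    have hnm' : (n : ℝ) + 1 ≤ m := by exact_mod_cast hnm
    have e1 := Vna_piece n x ((n : ℝ) + 13 / 16) hn1 hn2 le_rfl
    have e2 := Vna_piece m ((m : ℝ) - 3 / 16) y le_rfl hm1 hm2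
    have f1 : fX ((n : ℝ) + 13 / 16) = ((n + 1 : ℤ) : ℝ) :=
      fX_P (by push_cast; exact abs_le.2 ⟨by linarith, by linarith⟩)
    have z1 : zQ ((n : ℝ) + 13 / 16) = 0 :=
      zQ_P (n := n + 1) (by push_cast; exact abs_le.2 ⟨by linarith, by linarith⟩)
    have f2 : fX ((m : ℝ) - 3 / 16) = (m : ℝ) :=
      fX_P (abs_le.2 ⟨by linarith, by linarith⟩)
    have z2 : zQ ((m : ℝ) - 3 / 16) = 0 :=
      zQ_P (n := m) (abs_le.2 ⟨by linarith, by linarith⟩)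
    rw [f1, z1] at e1
    rw [f2, z2] at e2
    push_cast at e1
    linarith

/-- the lower bound for the increase -/
private theorem Vna_low {ρ : ℝ} (h0 : 0 ≤ ρ) (h1 : ρ ≤ 1) {x y : ℝ} (hxy : x ≤ y) :
    (fX y - fX x) * (13 / 16) ≤ (fX y + LL (ρ * zQ y)) - (fX x + LL (ρ * zQ x)) := by
  have hf := fX_mono hxy
  rcases le_total (zQ x) (zQ y) with h | h
  · have : LL (ρ * zQ x) ≤ LL (ρ * zQ y) := LL_mono.monotone (mul_le_mul_of_nonneg_left h h0)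
    linarith
  · have hp := Vna_pot hxy
    have hl := (abs_le.1 (LL_lip (ρ * zQ x) (ρ * zQ y))).2
    have h2 : |ρ * zQ x - ρ * zQ y| ≤ zQ x - zQ y := by
      rw [← mul_sub, abs_mul, abs_of_nonneg h0, abs_of_nonneg (by linarith : 0 ≤ zQ x - zQ y)]
      calc ρ * (zQ x - zQ y) ≤ 1 * (zQ x - zQ y) :=
            mul_le_mul_of_nonneg_right h1 (by linarith)
        _ = _ := one_mul _
    linarith

/-- PROOF: on P-intervals `zQ = 0` and `fX` is constant; on Q-intervals `fX` is constant and `zQ` has slope `1`; on wall strips `fX` has slope `4` (`fX_W`) and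
`LL (ρ zQ)` has the Lipschitz constant `3/4` (`LL_lip`, `zQ_lip`). -/
theorem fB_mono {ρ : ℝ} (h0 : 0 ≤ ρ) (h1 : ρ ≤ 1) : Monotone fun a => fX a + LL (ρ * zQ a) := by
  intro x y hxy
  have := Vna_low h0 h1 hxy
  have hf := fX_mono hxy
  show fX x + LL (ρ * zQ x) ≤ fX y + LL (ρ * zQ y)
  linarith

/-- where `fX` does not increase -/
private theorem Vna_eq {a a' : ℝ} (h : a < a') (he : fX a = fX a') :
    (∃ n : ℤ, |a - n| ≤ 3 / 16 ∧ |a' - n| ≤ 3 / 16) ∨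
      ∃ n : ℤ, |a - (n + 1 / 2)| ≤ 3 / 16 ∧ |a' - (n + 1 / 2)| ≤ 3 / 16 := by
  have hd := fX_dist a
  have hd' := fX_dist a'
  rcases a_cases a with ⟨n, hn⟩ | ⟨n, hn⟩ | ⟨n, hn⟩
  · left
    refine ⟨n, hn, ?_⟩
    rw [← he, fX_P hn] at hd'
    exact hd'
  · right
    refine ⟨n, hn, ?_⟩
    rw [← he, fX_Q hn] at hd'
    exact hd'
  · have hn' := abs_le.1 hn
    rcases lt_or_ge a ((n / 2 + 1 / 4 : ℝ) + 1 / 16) with hlt | hge
    · exfalso
      have hm : a < min a' ((n / 2 + 1 / 4 : ℝ) + 1 / 16) := lt_min h hlt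
      have hm1 := min_le_left a' ((n / 2 + 1 / 4 : ℝ) + 1 / 16)
      have hm2 := min_le_right a' ((n / 2 + 1 / 4 : ℝ) + 1 / 16)
      have e1 := fX_W (n := n) hn
      have e2 : fX (min a' ((n / 2 + 1 / 4 : ℝ) + 1 / 16)) = _ :=
        fX_W (n := n) (abs_le.2 ⟨by linarith, by linarith⟩)
      have e3 := fX_mono hm1
      linarith
    · have hea : a = (n / 2 + 1 / 4 : ℝ) + 1 / 16 := le_antisymm (by linarith [hn'.2]) hge
      have e1 : fX a = ((n : ℝ) + 1) / 2 := by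
        rw [fX_W (n := n) hn, hea]; ring
      rcases Int.even_or_odd' (n + 1) with ⟨k, hk | hk⟩
      · left
        have hk' : (n : ℝ) + 1 = 2 * k := by exact_mod_cast hk
        have e2 : fX a = k := by rw [e1, hk']; ring
        rw [e2] at hd
        rw [← he, e2] at hd'
        exact ⟨k, hd, hd'⟩
      · right
        have hk' : (n : ℝ) + 1 = 2 * k + 1 := by exact_mod_cast hk
        have e2 : fX a = k + 1 / 2 := by rw [e1, hk']; ring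
        rw [e2] at hd
        rw [← he, e2] at hd'
        exact ⟨k, hd, hd'⟩

/-- PROOF: as `fB_mono`; between `a` and `a'` there is a piece of a wall strip, or both points are in one Q-interval and `0 < ρ`. -/
theorem fB_lt {ρ : ℝ} (h0 : 0 ≤ ρ) (h1 : ρ ≤ 1) {a a' : ℝ} (h : a < a')
    (hP : ∀ n : ℤ, ¬ (|a - n| ≤ 3 / 16 ∧ |a' - n| ≤ 3 / 16))
    (hQ : 0 < ρ ∨ ∀ n : ℤ, ¬ (|a - (n + 1 / 2)| ≤ 3 / 16 ∧ |a' - (n + 1 / 2)| ≤ 3 / 16)) :
    fX a + LL (ρ * zQ a) < fX a' + LL (ρ * zQ a') := by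
  rcases (fX_mono h.le).lt_or_eq with hlt | heq
  · have := Vna_low h0 h1 h.le
    linarith
  · rcases Vna_eq h heq with ⟨n, hn⟩ | ⟨n, hn⟩
    · exact absurd hn (hP n)
    · rcases hQ with hρ | hQ
      · rw [heq, zQ_Q hn.1, zQ_Q hn.2]
        have : ρ * (a - (n + 1 / 2)) < ρ * (a' - (n + 1 / 2)) :=
          mul_lt_mul_of_pos_left (by linarith) hρ
        have := LL_mono this
        linarith
      · exact absurd hn (hQ n)

theorem fB_wall (ρ : ℝ) (n : ℤ) :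
    fX (n / 2 + 1 / 4) + LL (ρ * zQ (n / 2 + 1 / 4)) = n / 2 + 1 / 4 := by
  have e1 : fX ((n : ℝ) / 2 + 1 / 4) = n / 2 + 1 / 4 := by
    rw [fX_W (n := n) (by rw [sub_self, abs_zero]; norm_num)]; ring
  have e2 : zQ ((n : ℝ) / 2 + 1 / 4) = 0 := by
    rcases Int.even_or_odd' n with ⟨k, hk | hk⟩
    · apply zQ_P (n := k)
      have : (n : ℝ) = 2 * k := by exact_mod_cast hk
      rw [this]
      exact abs_le.2 ⟨by linarith, by linarith⟩
    · apply zQ_P (n := k + 1)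
      have : (n : ℝ) = 2 * k + 1 := by exact_mod_cast hk
      rw [this]
      push_cast
      exact abs_le.2 ⟨by linarith, by linarith⟩
  rw [e1, e2, mul_zero, LL_zero, add_zero]

/-- a wall is in no P-interval -/
private theorem Vna_nP (n m : ℤ) : ¬ |((n : ℝ) / 2 + 1 / 4) - m| ≤ 3 / 16 := by
  intro h
  have h' := abs_le.1 h
  have h1 : (n : ℝ) - 2 * m < 0 := by linarith [h'.2]
  have h2 : (-1 : ℝ) < (n : ℝ) - 2 * m := by linarith [h'.1]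
  have h3 : n - 2 * m < 0 := by exact_mod_cast h1
  have h4 : -1 < n - 2 * m := by exact_mod_cast h2
  omega

private theorem Vna_nQ (n m : ℤ) : ¬ |((n : ℝ) / 2 + 1 / 4) - (m + 1 / 2)| ≤ 3 / 16 := by
  intro h
  have h' := abs_le.1 h
  have h1 : (n : ℝ) - 2 * m < 1 := by linarith [h'.2]
  have h2 : (0 : ℝ) < (n : ℝ) - 2 * m := by linarith [h'.1]
  have h3 : n - 2 * m < 1 := by exact_mod_cast h1
  have h4 : 0 < n - 2 * m := by exact_mod_cast h2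
  omega

private theorem Vna_ltw {ρ : ℝ} (h0 : 0 ≤ ρ) (h1 : ρ ≤ 1) {a : ℝ} {n : ℤ}
    (h : a < n / 2 + 1 / 4) : fX a + LL (ρ * zQ a) < n / 2 + 1 / 4 := by
  have := fB_lt h0 h1 h (fun m hm => Vna_nP n m hm.2) (Or.inr fun m hm => Vna_nQ n m hm.2)
  rwa [fB_wall] at this

private theorem Vna_wlt {ρ : ℝ} (h0 : 0 ≤ ρ) (h1 : ρ ≤ 1) {a : ℝ} {n : ℤ}
    (h : n / 2 + 1 / 4 < a) : n / 2 + 1 / 4 < fX a + LL (ρ * zQ a) := by
  have := fB_lt h0 h1 h (fun m hm => Vna_nP n m hm.1) (Or.inr fun m hm => Vna_nQ n m hm.1)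
  rwa [fB_wall] at this

/-- on the P side of the walls (`|a - n| < 1/4`) the value is within `1/4` of `n`; the walls are fixed -/
theorem fB_P {ρ : ℝ} (h0 : 0 ≤ ρ) (h1 : ρ ≤ 1) {a : ℝ} {n : ℤ} (h : |a - n| < 1 / 4) :
    |fX a + LL (ρ * zQ a) - n| < 1 / 4 := by
  have h' := abs_lt.1 h
  have e1 := Vna_ltw h0 h1 (a := a) (n := 2 * n) (by push_cast; linarith [h'.2])
  have e2 := Vna_wlt h0 h1 (a := a) (n := 2 * n - 1) (by push_cast; linarith [h'.1])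
  push_cast at e1 e2
  exact abs_lt.2 ⟨by linarith, by linarith⟩

theorem fB_Q {ρ : ℝ} (h0 : 0 ≤ ρ) (h1 : ρ ≤ 1) {a : ℝ} {n : ℤ} (h : |a - (n + 1 / 2)| < 1 / 4) :
    |fX a + LL (ρ * zQ a) - (n + 1 / 2)| < 1 / 4 := by
  have h' := abs_lt.1 h
  have e1 := Vna_ltw h0 h1 (a := a) (n := 2 * n + 1) (by push_cast; linarith [h'.2])
  have e2 := Vna_wlt h0 h1 (a := a) (n := 2 * n) (by push_cast; linarith [h'.1])
  push_cast at e1 e2
  exact abs_lt.2 ⟨by linarith, by linarith⟩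

namespace PPar

variable (P : PPar)

private theorem Vna_w0 (b t : ℝ) : 0 ≤ P.ε * lam b t := mul_nonneg P.ε_pos.le (lam_nonneg b t)

private theorem Vna_w1 (b t : ℝ) : P.ε * lam b t < 1 := by
  have h1 : P.ε * lam b t ≤ 1 * lam b t := mul_le_mul_of_nonneg_right P.ε_le (lam_nonneg b t)
  have h2 := lam_le b t
  linarith

theorem vn_cont : Continuous P.vn := by
  have hl : Continuous fun z : ℝ × ℝ × ℝ => lam z.2.1 z.2.2 :=
    lam_cont.comp (continuous_snd : Continuous fun z : ℝ × ℝ × ℝ => z.2)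
  have hf : Continuous fun z : ℝ × ℝ × ℝ => fX z.1 := fX_cont.comp continuous_fst
  have hz : Continuous fun z : ℝ × ℝ × ℝ => zQ z.1 := zQ_cont.comp continuous_fst
  have hr : Continuous fun z : ℝ × ℝ × ℝ => rh z.2.1 :=
    rh_cont.comp (continuous_fst.comp continuous_snd)
  have hL : Continuous fun z : ℝ × ℝ × ℝ => LL (rh z.2.1 * zQ z.1) := LL_cont.comp (hr.mul hz)
  exact ((continuous_const.sub (continuous_const.mul hl)).mul (hf.add hL)).add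
    ((continuous_const.mul hl).mul continuous_fst)

theorem vn_add (m k : ℤ) (z : ℝ × ℝ × ℝ) : P.vn (tr m 0 k z) = P.vn z + m := by
  have h1 : lam (z.2.1 + ((0 : ℤ) : ℝ)) (z.2.2 + k) = lam z.2.1 z.2.2 := lam_add _ _ 0 k
  have h2 : rh (z.2.1 + ((0 : ℤ) : ℝ)) = rh z.2.1 := by rw [Int.cast_zero, add_zero]
  simp only [vn, tr]
  rw [h1, h2, fX_add, zQ_add]
  ring

theorem vn_mono {a a' b t : ℝ} (h : a ≤ a') : P.vn (a, b, t) ≤ P.vn (a', b, t) := by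
  have h1 := fB_mono (rh_mem b).1 (rh_mem b).2 h
  have h2 := P.Vna_w0 b t
  have h3 := P.Vna_w1 b t
  have h1' : fX a + LL (rh b * zQ a) ≤ fX a' + LL (rh b * zQ a') := h1
  show (1 - P.ε * lam b t) * (fX a + LL (rh b * zQ a)) + P.ε * lam b t * a ≤
    (1 - P.ε * lam b t) * (fX a' + LL (rh b * zQ a')) + P.ε * lam b t * a'
  exact add_le_add (mul_le_mul_of_nonneg_left h1' (by linarith))
    (mul_le_mul_of_nonneg_left h h2)

/-- PROOF: `fB_lt`, or the term `ε lam a` increases strictly (`0 ≤ ε lam ≤ 1/1600`) -/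
theorem vn_lt {a a' b t : ℝ} (h : a < a')
    (hs : 0 < lam b t ∨ ((∀ n : ℤ, ¬ (|a - n| ≤ 3 / 16 ∧ |a' - n| ≤ 3 / 16)) ∧
      (0 < rh b ∨ ∀ n : ℤ, ¬ (|a - (n + 1 / 2)| ≤ 3 / 16 ∧ |a' - (n + 1 / 2)| ≤ 3 / 16)))) :
    P.vn (a, b, t) < P.vn (a', b, t) := by
  have h2 := P.Vna_w0 b t
  have h3 := P.Vna_w1 b t
  show (1 - P.ε * lam b t) * (fX a + LL (rh b * zQ a)) + P.ε * lam b t * a <
    (1 - P.ε * lam b t) * (fX a' + LL (rh b * zQ a')) + P.ε * lam b t * a'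
  rcases hs with hs | ⟨hP, hQ⟩
  · have h1' : fX a + LL (rh b * zQ a) ≤ fX a' + LL (rh b * zQ a') :=
      fB_mono (rh_mem b).1 (rh_mem b).2 h.le
    exact add_lt_add_of_le_of_lt (mul_le_mul_of_nonneg_left h1' (by linarith))
      (mul_lt_mul_of_pos_left h (mul_pos P.ε_pos hs))
  · have h1' := fB_lt (rh_mem b).1 (rh_mem b).2 h hP hQ
    exact add_lt_add_of_lt_of_le (mul_lt_mul_of_pos_left h1' (by linarith))
      (mul_le_mul_of_nonneg_left h.le h2)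

private theorem Vna_conv {w x a c : ℝ} (h0 : 0 ≤ w) (h1 : w < 1) (hx : |x - c| < 1 / 4)
    (ha : |a - c| < 1 / 4) : |(1 - w) * x + w * a - c| < 1 / 4 := by
  have hx' := abs_lt.1 hx
  have ha' := abs_lt.1 ha
  have e : (1 - w) * x + w * a - c = (1 - w) * (x - c) + w * (a - c) := by ring
  rw [e]
  have p1 : (1 - w) * (x - c) < (1 - w) * (1 / 4) := mul_lt_mul_of_pos_left hx'.2 (by linarith)
  have p2 : (1 - w) * (-(1 / 4)) < (1 - w) * (x - c) := mul_lt_mul_of_pos_left hx'.1 (by linarith)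
  have p3 : w * (a - c) ≤ w * (1 / 4) := mul_le_mul_of_nonneg_left ha'.2.le h0
  have p4 : w * (-(1 / 4)) ≤ w * (a - c) := mul_le_mul_of_nonneg_left ha'.1.le h0
  exact abs_lt.2 ⟨by linarith, by linarith⟩

/-- PROOF: a convex combination of `fB` and `a`, with the weight `ε lam`, both on the same side of the walls (`fB_P`) -/
theorem vn_P {a b t : ℝ} {n : ℤ} (h : |a - n| < 1 / 4) : |P.vn (a, b, t) - n| < 1 / 4 :=
  Vna_conv (P.Vna_w0 b t) (P.Vna_w1 b t) (fB_P (rh_mem b).1 (rh_mem b).2 h) h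

theorem vn_Q {a b t : ℝ} {n : ℤ} (h : |a - (n + 1 / 2)| < 1 / 4) :
    |P.vn (a, b, t) - (n + 1 / 2)| < 1 / 4 :=
  Vna_conv (P.Vna_w0 b t) (P.Vna_w1 b t) (fB_Q (rh_mem b).1 (rh_mem b).2 h) h

theorem vn_wall (n : ℤ) (b t : ℝ) : P.vn (n / 2 + 1 / 4, b, t) = n / 2 + 1 / 4 := by
  simp only [vn]
  rw [fB_wall]
  ring

theorem vn_flat {z : ℝ × ℝ × ℝ} (h : lam z.2.1 z.2.2 = 0) :
    P.vn z = fX z.1 + LL (rh z.2.1 * zQ z.1) := by
  simp only [vn, h]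
  ring

/-- where `rh = 0` and `lam = 0` -/
theorem vn_fX {z : ℝ × ℝ × ℝ} (h : lam z.2.1 z.2.2 = 0) (hb : 1 / 16 ≤ |z.2.1|) :
    P.vn z = fX z.1 := by
  rw [P.vn_flat h, rh_zero hb, zero_mul, LL_zero, add_zero]

end PPar

end Pool.Agent.H.MP_1611f1_gt.PA
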