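import Pool.Agent.H.MP_1611f1_gt.PA.FX

/-!
The functions of the far side: `gg`, `tf`, `fkk`, `sgg`.
-/

namespace Pool.Agent.H.MP_1611f1_gt.PA

open Topology Set Filter
open Pool.Agent.H.MP_1611f1_gt.BR.U (Ci)
open Pool.Agent.H.MP_1611f1_gt.TW

private theorem Yfa_lam {ε : ℝ} (h0 : 0 ≤ ε) (h1 : ε ≤ 1) (b t : ℝ) :
    0 ≤ ε * lam b t ∧ ε * lam b t ≤ 1 := by
  have h2 := lam_nonneg b t
  have h3 := lam_le b t
  refine ⟨mul_nonneg h0 h2, ?_⟩
  calc ε * lam b t ≤ 1 * 1 := mul_le_mul h1 (h3.trans (by norm_num)) h2 zero_le_one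
    _ = 1 := one_mul 1

theorem gg_mem {ε : ℝ} (h0 : 0 ≤ ε) (h1 : ε ≤ 1) {a b t : ℝ} (ha : a ∈ Icc (-3 / 16 : ℝ) (13 / 16)) :
    gg ε a b t ∈ Icc (0 : ℝ) 1 := by
  obtain ⟨hl0, hl1⟩ := Yfa_lam h0 h1 b t
  obtain ⟨hg0, hg1⟩ := g0_mem a
  obtain ⟨ha0, ha1⟩ := ha
  unfold gg
  constructor
  · exact add_nonneg (mul_nonneg (by linarith) hg0) (mul_nonneg hl0 (by linarith))
  · have h2 : (1 - ε * lam b t) * g0 a ≤ (1 - ε * lam b t) * 1 :=
      mul_le_mul_of_nonneg_left hg1 (by linarith)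
    have h3 : ε * lam b t * (a + 3 / 16) ≤ ε * lam b t * 1 :=
      mul_le_mul_of_nonneg_left (by linarith) hl0
    linarith

theorem gg_left (ε b t : ℝ) : gg ε (-3 / 16) b t = 0 := by
  unfold gg
  rw [g0_zero (by norm_num)]
  ring

theorem gg_right (ε b t : ℝ) : gg ε (13 / 16) b t = 1 := by
  unfold gg
  rw [g0_one le_rfl]
  ring

theorem gg_mono {ε : ℝ} (h0 : 0 ≤ ε) (h1 : ε ≤ 1) {a a' b t : ℝ} (h : a ≤ a') :
    gg ε a b t ≤ gg ε a' b t := by
  obtain ⟨hl0, hl1⟩ := Yfa_lam h0 h1 b t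
  unfold gg
  have h2 : (1 - ε * lam b t) * g0 a ≤ (1 - ε * lam b t) * g0 a' :=
    mul_le_mul_of_nonneg_left (g0_mono h) (by linarith)
  have h3 : ε * lam b t * (a + 3 / 16) ≤ ε * lam b t * (a' + 3 / 16) :=
    mul_le_mul_of_nonneg_left (by linarith) hl0
  linarith

theorem gg_lt {ε : ℝ} (h0 : 0 < ε) (h1 : ε ≤ 1) {a a' b t : ℝ} (h : a < a') (hl : 0 < lam b t) :
    gg ε a b t < gg ε a' b t := by
  obtain ⟨hl0, hl1⟩ := Yfa_lam h0.le h1 b t
  unfold gg
  have h2 : (1 - ε * lam b t) * g0 a ≤ (1 - ε * lam b t) * g0 a' :=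
    mul_le_mul_of_nonneg_left (g0_mono h.le) (by linarith)
  have h3 : ε * lam b t * (a + 3 / 16) < ε * lam b t * (a' + 3 / 16) :=
    mul_lt_mul_of_pos_left (by linarith) (mul_pos h0 hl)
  linarith

theorem gg_add (ε a b t : ℝ) (k : ℤ) : gg ε a b (t + k) = gg ε a b t := by
  have h := lam_add b t 0 k
  rw [Int.cast_zero, add_zero] at h
  unfold gg
  rw [h]

theorem gg_cont (ε : ℝ) : Continuous fun q : ℝ × ℝ × ℝ => gg ε q.1 q.2.1 q.2.2 := by
  have h1 : Continuous fun q : ℝ × ℝ × ℝ => lam q.2.1 q.2.2 :=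
    lam_cont.comp (continuous_snd)
  have h2 : Continuous fun q : ℝ × ℝ × ℝ => g0 q.1 := g0_cont.comp continuous_fst
  unfold gg
  exact ((continuous_const.sub (continuous_const.mul h1)).mul h2).add
    ((continuous_const.mul h1).mul (continuous_fst.add continuous_const))

namespace PPar

variable (P : PPar)

theorem tf_mono : StrictMono P.tf := by
  intro y y' h
  have h1 : P.em (T0.symm (P.em.symm y)) < P.em (T0.symm (P.em.symm y')) :=
    P.em.strictMono (T0.symm.strictMono (P.em.symm.strictMono h))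
  unfold tf
  linarith

theorem tf_cont : Continuous P.tf := by
  unfold tf
  exact (P.em.continuous.comp (T0.symm.continuous.comp P.em.symm.continuous)).add
    continuous_const

private theorem Yfa_nat {g : ℝ → ℝ} (h : ∀ x, g (x + 1) = g x + 1) (x : ℝ) (n : ℕ) :
    g (x + n) = g x + n := by
  induction n with
  | zero => simp
  | succ n ih =>
    rw [Nat.cast_succ, ← add_assoc, h, ih, add_assoc]

private theorem Yfa_int {g : ℝ → ℝ} (h : ∀ x, g (x + 1) = g x + 1) (x : ℝ) (n : ℤ) :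
    g (x + n) = g x + n := by
  obtain ⟨m, rfl | rfl⟩ := n.eq_nat_or_neg
  · rw [Int.cast_natCast]
    exact Yfa_nat h x m
  · have h1 := Yfa_nat h (x + ((-(m : ℤ) : ℤ) : ℝ)) m
    have h2 : x + ((-(m : ℤ) : ℤ) : ℝ) + (m : ℝ) = x := by
      push_cast
      ring
    rw [h2] at h1
    rw [h1]
    push_cast
    ring

private theorem Yfa_symm (g : ℝ ≃o ℝ) (h : ∀ x, g (x + 1) = g x + 1) (x : ℝ) :
    g.symm (x + 1) = g.symm x + 1 := by
  rw [OrderIso.symm_apply_eq, h, OrderIso.apply_symm_apply]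

/-- PROOF: `em_per` and `T0_per` for integers (induction) and for the inverse maps. -/
theorem tf_add (y : ℝ) (m : ℤ) : P.tf (y + m) = P.tf y + m := by
  refine Yfa_int (g := P.tf) (fun x => ?_) y m
  unfold tf
  rw [Yfa_symm P.em P.em_per, Yfa_symm T0 T0_per, P.em_per]
  ring

theorem tf_inj {y y' : ℝ} (h : P.tf y = P.tf y') : y = y' := by
  exact P.tf_mono.injective h

theorem Φ_one (s : ℝ) : P.Φ (s + 1) = P.tf (P.Φ s) := by
  exact P.rel s

/-- PROOF: `Φ (fkk s + 1) = tf (Φ s + 1) = tf (Φ s) + 1 = Φ (s + 1) + 1`; induction -/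
theorem fk_add (s : ℝ) (k : ℤ) : fkk P.Φ (s + k) = fkk P.Φ s + k := by
  refine Yfa_int (g := fkk P.Φ) (fun x => ?_) s k
  unfold fkk
  rw [OrderIso.symm_apply_eq, P.Φ_one, P.Φ_one, OrderIso.apply_symm_apply]
  have h := P.tf_add (P.Φ x) 1
  rw [Int.cast_one] at h
  exact h.symm

theorem fk_gt (s : ℝ) : s < fkk P.Φ s := by
  unfold fkk
  rw [OrderIso.lt_symm_apply]
  exact lt_add_one _

theorem fk_mono : StrictMono (fkk P.Φ) := by
  intro s s' h
  unfold fkk
  exact P.Φ.symm.strictMono (by linarith [P.Φ.strictMono h])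

theorem fk_cont : Continuous (fkk P.Φ) := by
  unfold fkk
  exact P.Φ.symm.continuous.comp (P.Φ.continuous.add continuous_const)

/-- (`gap`, `fk_add`) -/
theorem fk_gap {s : ℝ} {k : ℤ} (h : s - k ∈ Icc (3 / 8 : ℝ) (7 / 8)) :
    s + 1 / 8 ≤ fkk P.Φ s := by
  have h1 := P.gap _ h
  have h2 : s - k + 1 / 8 ≤ fkk P.Φ (s - k) := by
    unfold fkk
    rw [OrderIso.le_symm_apply]
    exact h1
  have h3 := P.fk_add (s - k) k
  rw [sub_add_cancel] at h3
  rw [h3]
  linarith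

/-- the lower end is below the upper end. PROOF: if `om t = 0` this is `fk_gt`; otherwise `t - k ∈ (1/2, 3/4)` (`om_pos`), and `fk_gap`
for `t - rh om / 32`. -/
theorem sg_ends (b t : ℝ) : t + rh b * om t / 32 < fkk P.Φ (t - rh b * om t / 32) := by
  obtain ⟨ho0, ho1⟩ := om_mem t
  obtain ⟨hr0, hr1⟩ := rh_mem b
  have hc0 : 0 ≤ rh b * om t := mul_nonneg hr0 ho0
  have hc1 : rh b * om t ≤ 1 := by
    calc rh b * om t ≤ 1 * 1 := mul_le_mul hr1 ho1 ho0 zero_le_one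
      _ = 1 := one_mul 1
  rcases ho0.eq_or_lt with h | h
  · rw [← h, mul_zero, zero_div, add_zero, sub_zero]
    exact P.fk_gt t
  · obtain ⟨k, hk⟩ := om_pos h
    rw [abs_lt] at hk
    have h1 : t - rh b * om t / 32 - k ∈ Icc (3 / 8 : ℝ) (7 / 8) :=
      ⟨by linarith [hk.1], by linarith [hk.2]⟩
    have h2 := P.fk_gap h1
    linarith

private theorem Yfa_low (a b t : ℝ) :
    t + rh b * om t * z2 a < fkk P.Φ (t - rh b * om t / 32) := by
  have h1 := P.sg_ends b t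
  have h2 : rh b * om t * z2 a ≤ rh b * om t * (1 / 32) :=
    mul_le_mul_of_nonneg_left (abs_le.mp (z2_abs a)).2
      (mul_nonneg (rh_mem b).1 (om_mem t).1)
  linarith

private theorem Yfa_step {a a' b t : ℝ} (h : a ≤ a') :
    t + rh b * om t * z2 a ≤ t + rh b * om t * z2 a' := by
  have h2 : rh b * om t * z2 a ≤ rh b * om t * z2 a' :=
    mul_le_mul_of_nonneg_left (z2_mono h) (mul_nonneg (rh_mem b).1 (om_mem t).1)
  linarith

theorem sg_mono {a a' b t : ℝ} (ha : -3 / 16 ≤ a) (h : a ≤ a') (ha' : a' ≤ 13 / 16) :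
    sgg P.Φ P.ε a b t ≤ sgg P.Φ P.ε a' b t := by
  have hg := gg_mem P.ε_pos.le P.ε_le (b := b) (t := t) (show a ∈ Icc (-3 / 16 : ℝ) (13 / 16) from
    ⟨ha, h.trans ha'⟩)
  have hgg := gg_mono P.ε_pos.le P.ε_le (b := b) (t := t) h
  have hL := P.Yfa_low a' b t
  have hS := Yfa_step (b := b) (t := t) h
  unfold sgg
  set g := gg P.ε a b t
  set g' := gg P.ε a' b t
  set L := t + rh b * om t * z2 a
  set L' := t + rh b * om t * z2 a'
  set K := fkk P.Φ (t - rh b * om t / 32)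
  have h1 : (1 - g) * L ≤ (1 - g) * L' := mul_le_mul_of_nonneg_left hS (by linarith [hg.2])
  have h2 : 0 ≤ (g' - g) * (K - L') := mul_nonneg (by linarith) (by linarith)
  nlinarith

theorem sg_lt {a a' b t : ℝ} (ha : -3 / 16 ≤ a) (h : a < a') (ha' : a' ≤ 13 / 16)
    (hl : 0 < lam b t) : sgg P.Φ P.ε a b t < sgg P.Φ P.ε a' b t := by
  have hg := gg_mem P.ε_pos.le P.ε_le (b := b) (t := t) (show a ∈ Icc (-3 / 16 : ℝ) (13 / 16) from
    ⟨ha, h.le.trans ha'⟩)
  have hgg := gg_lt P.ε_pos P.ε_le (b := b) (t := t) h hl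
  have hL := P.Yfa_low a' b t
  have hS := Yfa_step (b := b) (t := t) h.le
  unfold sgg
  set g := gg P.ε a b t
  set g' := gg P.ε a' b t
  set L := t + rh b * om t * z2 a
  set L' := t + rh b * om t * z2 a'
  set K := fkk P.Φ (t - rh b * om t / 32)
  have h1 : (1 - g) * L ≤ (1 - g) * L' := mul_le_mul_of_nonneg_left hS (by linarith [hg.2])
  have h2 : 0 < (g' - g) * (K - L') := mul_pos (by linarith) (by linarith)
  nlinarith

/-- (`fk_add`, `om_add`, `gg_add`) -/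
theorem sg_add (a b t : ℝ) (k : ℤ) : sgg P.Φ P.ε a b (t + k) = sgg P.Φ P.ε a b t + k := by
  have h1 := P.fk_add (t - rh b * om t / 32) k
  have h2 : t + (k : ℝ) - rh b * om t / 32 = t - rh b * om t / 32 + k := by ring
  unfold sgg
  rw [gg_add, om_add, h2, h1]
  ring

end PPar

end Pool.Agent.H.MP_1611f1_gt.PA
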